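import Pool.Agent.Helper22.NL.StR
import Pool.Agent.Helper84.LE.BKP

/-! # Project NL, module KpSup: powers of kernels under monotone limits -/

set_option autoImplicit false

open scoped BigOperators ENNReal
open Pool.LE

namespace Pool.NL

theorem kpsup_mul {ι : Type} [LinearOrder ι] [Nonempty ι] {f g : ι → ENNReal} (hf : Monotone f)
    (hg : Monotone g) : (⨆ i, f i) * (⨆ i, g i) = ⨆ i, f i * g i := by
  apply le_antisymm
  · rw [ENNReal.iSup_mul]
    refine iSup_le fun i => ?_
    rw [ENNReal.mul_iSup]
    refine iSup_le fun j => ?_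
    exact (mul_le_mul' (hf (le_max_left i j)) (hg (le_max_right i j))).trans
      (le_iSup (fun k => f k * g k) (max i j))
  · exact iSup_le fun i => mul_le_mul' (le_iSup f i) (le_iSup g i)

theorem kpsup_tsum {ι : Type} [LinearOrder ι] [Nonempty ι] {V : Type} {f : V → ι → ENNReal}
    (hf : ∀ z, Monotone (f z)) : (∑' z, ⨆ i, f z i) = ⨆ i, ∑' z, f z i := by
  apply le_antisymm
  · rw [ENNReal.tsum_eq_iSup_sum]
    refine iSup_le fun s => ?_
    rw [ENNReal.finsetSum_iSup_of_monotone hf]
    exact iSup_mono fun i => ENNReal.sum_le_tsum s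
  · exact iSup_le fun i => ENNReal.tsum_le_tsum fun z => le_iSup (f z) i

theorem hKpSup : StKpSup := by
  intro V _ ι _ _ T hT n
  induction n with
  | zero =>
    intro x y
    show (if x = y then (1 : ENNReal) else 0) = ⨆ _ : ι, if x = y then (1 : ENNReal) else 0
    rw [ciSup_const]
  | succ n ih =>
    intro x y
    show (∑' z, (⨆ i, T i x z) * kp (fun x y => ⨆ i, T i x y) n z y)
      = ⨆ i, ∑' z, T i x z * kp (T i) n z y
    have h1 : ∀ z, (⨆ i, T i x z) * kp (fun x y => ⨆ i, T i x y) n z y
        = ⨆ i, T i x z * kp (T i) n z y := by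
      intro z
      rw [ih z y]
      exact kpsup_mul (fun i j hij => hT i j hij x z)
        (fun i j hij => kp_mono (fun a b => hT i j hij a b) n z y)
    rw [tsum_congr h1]
    refine kpsup_tsum fun z i j hij => ?_
    exact mul_le_mul' (hT i j hij x z) (kp_mono (fun a b => hT i j hij a b) n z y)

end Pool.NL
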