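import Pool.Agent.Helper22.NL.StR

/-! # Project NL: module TauLeft (left continuity of the two-point function at the critical point) -/

set_option autoImplicit false

open scoped BigOperators Topology ENNReal
open Pool.LE Filter

namespace Pool.NL

theorem continuous_Pr_TauLeft {V : Type} [DecidableEq V] (E : Finset (Sym2 V))
    (A : Finset (Sym2 V) → Prop) : Continuous (fun p : ℝ => Pr E p A) := by
  classical
  unfold Pr ExE
  apply continuous_finsetSum
  intro ω _
  by_cases h : A ω
  · simp only [if_pos h, mul_one]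
    apply ENNReal.continuous_ofReal.comp
    unfold wt
    fun_prop
  · simp only [if_neg h, mul_zero]
    exact continuous_const

theorem hTauLeft (hPH : StPH) (hTM : StTauMono) : StTauLeft := by
  intro d x hd
  obtain ⟨h0, h1, -, -⟩ := hPH d hd
  apply le_antisymm
  · unfold tauE
    apply iSup_le
    intro R
    have hc : Tendsto (fun p : ℝ => Pr (Eb d R) p (fun ω => con ω 0 x)) (𝓝[<] (pH d))
        (𝓝 (Pr (Eb d R) (pH d) (fun ω => con ω 0 x))) :=
      ((continuous_Pr_TauLeft (Eb d R) (fun ω => con ω 0 x)).tendsto (pH d)).mono_left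
        nhdsWithin_le_nhds
    apply le_of_tendsto hc
    have hm : Set.Ioo 0 (pH d) ∈ 𝓝[<] (pH d) := Ioo_mem_nhdsLT h0
    filter_upwards [hm] with p hp
    exact le_iSup_of_le (⟨p, hp.1.le, hp.2⟩ : {p : ℝ // 0 ≤ p ∧ p < pH d})
      (le_iSup (fun R : ℕ => Pr (Eb d R) p (fun ω => con ω 0 x)) R)
  · apply iSup_le
    intro q
    exact hTM d q.1 (pH d) x q.2.1 q.2.2.le (h1.trans (by norm_num))

end Pool.NL
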