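import Pool.Agent.Helper22.NL.Defs

/-! # Project NL: statements, part R (diagrams with `r` ears, third moment) -/

set_option autoImplicit false

open scoped BigOperators Polynomial ENNReal
open Polynomial Pool.LE

namespace Pool.NL

/-- calculus of `NNr` -/
def StNNr : Prop := ∀ r : ℕ,
  (NNr r (0 : ℝ[X]) = 0) ∧ (NNr r (1 : ℝ[X]) = 1) ∧ (NNr r (X : ℝ[X]) = 2 ^ r) ∧
  (∀ P Q : ℝ[X], NNr r (P + Q) ≤ NNr r P + NNr r Q) ∧
  (∀ P Q : ℝ[X], NNr r (P - Q) ≤ NNr r P + NNr r Q) ∧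
  (∀ P Q : ℝ[X], NNr r (P * Q) ≤ NNr r P * NNr r Q) ∧
  (∀ (c : ℝ) (P : ℝ[X]), 0 ≤ c → NNr r (C c * P) = ENNReal.ofReal c * NNr r P) ∧
  (∀ (N : ℕ) (P : ℝ[X]), NNr r ((-1) ^ N * P) = NNr r P) ∧
  (∀ (ι : Type) (s : Finset ι) (f : ι → ℝ[X]), NNr r (∑ i ∈ s, f i) ≤ ∑ i ∈ s, NNr r (f i)) ∧
  (∀ (n : ℕ), NNr r (X ^ n : ℝ[X]) = (1 + (n : ENNReal)) ^ r) ∧
  (∀ P Q : ℝ[X], (∀ n, |P.coeff n| ≤ |Q.coeff n|) → NNr r P ≤ NNr r Q) ∧
  (∀ (V : Type) [DecidableEq V] (E : Finset (Sym2 V)) (p : ℝ) (f : Finset (Sym2 V) → ℝ[X]),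
    0 ≤ p → p ≤ 1 → NNr r (Ex E p f) ≤ ExE E p (fun ω => NNr r (f ω)))

open Classical in
/-- LE `StNw` with the weight `(1+n)^r` -/
def StNwR : Prop := ∀ (r : ℕ) (V : Type) [DecidableEq V] (ω : Finset (Sym2 V)) (A : Set V) (v u : V),
  NNr r (wA ω A v u) ≤ 2 * ∑' t : V, ∑' s : V,
    if s ∈ A ∧ Bt ω v u t s then (∑' y : V, if Yp ω v u y then (1 : ENNReal) else 0) ^ r else 0

open Classical in
/-- `r` ears and one attachment, in expectation -/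
def StLevG : Prop := ∀ (r : ℕ) (V : Type) [DecidableEq V] (E : Finset (Sym2 V)) (p : ℝ)
  (T : V → V → ENNReal), 0 ≤ p → p ≤ 1 / 2 → Dom E p T →
    ∀ (L : List (V × List V × V)) (v u s' : V), v ∈ pts L → u ∈ pts L →
      ExE E p (fun ω => if DR L ω ∧ con ω v s' then
          (∑' y : V, if Yp ω v u y then (1 : ENNReal) else 0) ^ r else 0) ≤
        ∑' w : V, earS T r L w * T w s'

open Classical in
/-- LE `StLev` with `r` ears -/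
def StLevR : Prop := ∀ (r : ℕ) (V : Type) [DecidableEq V] (E : Finset (Sym2 V)) (p : ℝ)
  (T : V → V → ENNReal), 0 ≤ p → p ≤ 1 / 2 → Dom E p T → ∀ (A : Set V) (v u s' : V),
    ExE E p (fun ω => NNr r (wA ω A v u) * if con ω v s' then 1 else 0) ≤
      2 * ∑' s : V, if s ∈ A then ∑' w : V, coreR r T v s u w * T w s' else 0

open Classical in
/-- LE `StPsi` with `r` ears -/
def StPsiR : Prop := ∀ (r : ℕ) (V : Type) [DecidableEq V] (E : Finset (Sym2 V)) (p : ℝ)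
  (T : V → V → ENNReal) (nbf : V → Finset V), 0 ≤ p → p ≤ 1 / 2 → Dom E p T →
  (∀ u b, s(u, b) ∈ E → b ∈ nbf u) →
    ∀ (N : ℕ) (A : Set V) (v x : V), NNr r (((LL E p)^[N] (WW E p)) A v x) ≤
      ∑' s : V, if s ∈ A then PsiR r nbf (ENNReal.ofReal p) T N s v x else 0

/-- number of chains plus number of marks -/
def siz {V : Type} (L : List (V × List V × V)) : ℕ := L.length + (L.map (fun c => c.2.1.length)).sum

/-- combinatorial constants -/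
def aR : ℕ → ℕ → ℕ
  | 0, K => K
  | r + 1, K => K * (K + 1) * aR r (K + 4)

/-- total mass of `r` ears -/
def StMassG : Prop := ∀ (r : ℕ) (V : Type) [DecidableEq V] (T : V → V → ENNReal) (B : ENNReal),
  (∀ x, 1 ≤ T x x) → (∀ x y, kp T (4 ^ (r + 1)) x y ≤ B) →
    ∀ L : List (V × List V × V),
      ∑' w : V, earS T r L w ≤ (aR r (siz L) : ENNReal) * B ^ r * cmL (kp T (2 * 4 ^ r)) L

/-- the setting of part R -/
structure TK {V : Type} [DecidableEq V] (T : V → V → ENNReal) (B : ENNReal) : Prop where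
  one_le : ∀ x, 1 ≤ T x x
  symm : ∀ x y, T x y = T y x
  le_B : ∀ x y, kp T 1024 x y ≤ B

/-- mass of one level -/
def StMassR : Prop := ∀ (V : Type) [DecidableEq V] (T : V → V → ENNReal) (B : ENNReal),
  TK T B → ∀ v s : V, ∑' u : V, ∑' w : V, coreR 3 T v s u w ≤ 2 * 10 ^ 7 * B ^ 4 * kp T 384 v s

/-- LE `StRec`, third moment -/
def StRecR : Prop := ∀ (V : Type) [DecidableEq V] (T : V → V → ENNReal) (B eps q₀ : ENNReal)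
  (nbf : V → Finset V), TK T B → (∀ x y, ∑ b ∈ nbf x, q₀ * kp T 1024 b y ≤ eps) →
    ∀ (N : ℕ) (v : V), ∑' x : V, PsiR 3 nbf q₀ T (N + 1) v v x ≤
      2 * 10 ^ 16 * B ^ 10 * eps * (4 * 10 ^ 8 * B ^ 4 * eps) ^ N

/-- LE `StN0b`, third moment -/
def StN0R : Prop := ∀ (V : Type) [DecidableEq V] (E : Finset (Sym2 V)) (p : ℝ) (T : V → V → ENNReal)
  (nbf : V → Finset V), 0 ≤ p → p ≤ 1 / 2 → Dom E p T → (∀ u b, s(u, b) ∈ E → b ∈ nbf u) →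
    ∀ v x : V, x ≠ v → NNr 3 (WW E p {v} v x) ≤
      ∑' y₁ : V, ∑' y₂ : V, ∑' y₃ : V, cm T (v, [y₁, y₂, y₃], x) *
        ∑ b ∈ nbf v, ENNReal.ofReal p * T b x

open Classical in
/-- LE `StDiag`, third moment -/
def StDiagR : Prop := ∀ (V : Type) [DecidableEq V] (E : Finset (Sym2 V)) (p : ℝ)
  (T : V → V → ENNReal) (B eps : ENNReal) (nbf : V → Finset V), 0 ≤ p → p ≤ 1 / 2 → Dom E p T →
  (∀ u b, s(u, b) ∈ E → b ∈ nbf u) → TK T B → 1 ≤ B →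
  (∀ x y, ∑ b ∈ nbf x, ENNReal.ofReal p * kp T 1024 b y ≤ eps) → 4 * 10 ^ 8 * B ^ 4 * eps ≤ 1 / 2 →
    ∀ (M : ℕ) (v : V), ∑' x : V, NNr 3 (gE E p M v x - if x = v then 1 else 0) ≤
      5 * 10 ^ 16 * B ^ 10 * eps

/-! ### the lattice at `pH` -/

/-- left continuity of the two-point function -/
def StTauLeft : Prop := ∀ (d : ℕ) (x : Zd d), 1 ≤ d →
  tauE d (pH d) x = ⨆ q : {p : ℝ // 0 ≤ p ∧ p < pH d}, tauE d q.1 x

/-- powers of kernels under monotone limits -/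
def StKpSup : Prop := ∀ (V : Type) [DecidableEq V] (ι : Type) [LinearOrder ι] [Nonempty ι]
  (T : ι → V → V → ENNReal), (∀ i j, i ≤ j → ∀ x y, T i x y ≤ T j x y) →
    ∀ (n : ℕ) (x y : V), kp (fun x y => ⨆ i, T i x y) n x y = ⨆ i, kp (T i) n x y

/-- all powers of the two-point function at `pH` -/
def StKpTau : Prop := ∀ n : ℕ, ∃ C : ℝ, 0 < C ∧ ∃ d₁ : ℕ, ∀ d : ℕ, d₁ ≤ d → ∀ x y : Zd d,
  kp (tk d (pH d)) n x y ≤ ENNReal.ofReal C ∧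
  ∑ b ∈ nb x, ENNReal.ofReal (pH d) * kp (tk d (pH d)) n b y ≤ ENNReal.ofReal (C / Real.sqrt d)

/-- the weighted kernel at `pH` -/
def StKpQ : Prop := ∃ C : ℝ, 1 ≤ C ∧ ∃ d₁ : ℕ, ∀ d : ℕ, d₁ ≤ d → ∀ x y : Zd d,
  kp (Kd d (pH d)) 4 x y ≤ ENNReal.ofReal C

open Classical in
/-- the third moment of the expansion, uniformly over all finite graphs -/
def StDiagH : Prop := ∃ d₁ : ℕ, ∀ d : ℕ, d₁ ≤ d → ∀ E : Finset (Sym2 (Zd d)),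
  (E : Set (Sym2 (Zd d))) ⊆ latE d → ∀ (M : ℕ) (v : Zd d),
    ∑' x : Zd d, NNr 3 (gE E (pH d) M v x - if x = v then 1 else 0) ≤ ENNReal.ofReal (1 / 4)

/-! ### mass of the two-point function in a box (A1) -/

/-- the Fejér weight -/
noncomputable def fej (n : ℕ) (j : ℤ) : ℝ := max 0 (1 - |(j : ℝ)| / (2 * n))

/-- the Fejér kernel is nonnegative, has mass one, and integrates `(1 - cos)^(-1/3)` to `O(n^(2/3))` -/
def StFej1 : Prop := ∃ C : ℝ, 0 < C ∧ ∀ n : ℕ, 1 ≤ n →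
  (∀ t : ℝ, 0 ≤ ∑ j ∈ Finset.Icc (-(2 * n : ℤ)) (2 * n), fej n j * Real.cos (j * t)) ∧
  ∫⁻ t, ENNReal.ofReal (∑ j ∈ Finset.Icc (-(2 * n : ℤ)) (2 * n), fej n j * Real.cos (j * t)) ∂nu = 1 ∧
  ∫⁻ t, ENNReal.ofReal ((∑ j ∈ Finset.Icc (-(2 * n : ℤ)) (2 * n), fej n j * Real.cos (j * t)) *
    (1 - Real.cos t) ^ (-(1 / 3 : ℝ))) ∂nu ≤ ENNReal.ofReal (C * (n : ℝ) ^ (2 / 3 : ℝ))

/-- product form -/
def StFejD : Prop := ∃ C : ℝ, 0 < C ∧ ∀ d n : ℕ, 3 ≤ d → 1 ≤ n →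
  ∫⁻ k, ENNReal.ofReal ((1 - Dh k)⁻¹ *
    ∏ i, ∑ j ∈ Finset.Icc (-(2 * n : ℤ)) (2 * n), fej n j * Real.cos (j * k i)) ∂(muT d) ≤
      ENNReal.ofReal (C * (n : ℝ) ^ 2)

/-- Parseval for the Fejér weight -/
def StFejP : Prop := ∀ (d n : ℕ) (f : Zd d → ℝ), Summable f → SymF f → 1 ≤ n →
  ∑' x : Zd d, f x * ∏ i, fej n (x i) =
    ∫ k, FT f k * ∏ i, (∑ j ∈ Finset.Icc (-(2 * n : ℤ)) (2 * n), fej n j * Real.cos (j * k i)) ∂(muT d)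

/-- (A1) -/
def StA1 : Prop := ∃ d₁ : ℕ, ∀ d : ℕ, d₁ ≤ d → ∃ C : ℝ, 1 ≤ C ∧ ∀ n : ℕ, 1 ≤ n →
  ∑ y ∈ bx d n, tau d (pH d) y ≤ C * (n : ℝ) ^ 2

end Pool.NL
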