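import Pool.Agent.Helper22.NL.Defs

/-! # Project NL: statements, part M (finite graphs: moments, exploration, transfer) -/

set_option autoImplicit false

open scoped BigOperators ENNReal
open Pool.LE

namespace Pool.NL

/-- basic facts on `ex` and `pr` -/
def StBasic : Prop := ∀ (V : Type) [DecidableEq V] (E : Finset (Sym2 V)) (p : ℝ), 0 ≤ p → p ≤ 1 →
  (∀ f g : Finset (Sym2 V) → ℝ, (∀ ω, ω ⊆ E → f ω ≤ g ω) → ex E p f ≤ ex E p g) ∧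
  (∀ c : ℝ, ex E p (fun _ => c) = c) ∧
  (∀ f g : Finset (Sym2 V) → ℝ, ex E p (fun ω => f ω + g ω) = ex E p f + ex E p g) ∧
  (∀ f g : Finset (Sym2 V) → ℝ, ex E p (fun ω => f ω - g ω) = ex E p f - ex E p g) ∧
  (∀ (c : ℝ) (f : Finset (Sym2 V) → ℝ), ex E p (fun ω => c * f ω) = c * ex E p f) ∧
  (∀ (ι : Type) (s : Finset ι) (f : ι → Finset (Sym2 V) → ℝ),
    ex E p (fun ω => ∑ i ∈ s, f i ω) = ∑ i ∈ s, ex E p (f i)) ∧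
  (∀ A : Finset (Sym2 V) → Prop, 0 ≤ pr E p A ∧ pr E p A ≤ 1 ∧ Pr E p A = ENNReal.ofReal (pr E p A) ∧
    pr E p (fun ω => ¬ A ω) = 1 - pr E p A) ∧
  (∀ A B : Finset (Sym2 V) → Prop, (∀ ω, ω ⊆ E → A ω → B ω) → pr E p A ≤ pr E p B) ∧
  (∀ f g : Finset (Sym2 V) → ℝ,
    (ex E p (fun ω => f ω * g ω)) ^ 2 ≤ ex E p (fun ω => f ω ^ 2) * ex E p (fun ω => g ω ^ 2)) ∧
  (∀ (f : Finset (Sym2 V) → ℝ) (c : ℝ), (∀ ω, ω ⊆ E → 0 ≤ f ω) → 0 < c →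
    pr E p (fun ω => c ≤ f ω) ≤ ex E p f / c)

/-- one edge -/
def StEdge : Prop := ∀ (V : Type) [DecidableEq V] (E : Finset (Sym2 V)) (p : ℝ) (e : Sym2 V)
  (f : Finset (Sym2 V) → ℝ), e ∈ E →
    ex E p f = p * ex (E.erase e) p (fun ω => f (insert e ω)) + (1 - p) * ex (E.erase e) p f ∧
    ex E p (fun ω => f ω * (ind (e ∈ ω) - p)) =
      p * (1 - p) * ex E p (fun ω => f (insert e ω) - f (ω.erase e)) ∧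
    ex E p (fun ω => f (ω.erase e)) = ex (E.erase e) p f ∧
    ex E p (fun ω => f (insert e ω)) = ex (E.erase e) p (fun ω => f (insert e ω))

/-- clusters of a configuration inside a finite graph -/
def StClu : Prop := ∀ (V : Type) [DecidableEq V] (L : Finset V) (E ω : Finset (Sym2 V)) (D : ℕ),
  FG L E D → ω ⊆ E →
  (∀ x ∈ L, x ∈ clu L ω x ∧ 1 ≤ Xc L ω x ∧ Xc L ω x ≤ L.card) ∧
  (∀ x y, con ω x y → clu L ω x = clu L ω y ∧ Xc L ω x = Xc L ω y) ∧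
  (∀ x y, ¬ con ω x y → Disjoint (clu L ω x) (clu L ω y)) ∧
  (∀ x y, x ∈ L → con ω x y → y ∈ L) ∧
  (∀ η, ω ⊆ η → ∀ x, clu L ω x ⊆ clu L η x ∧ Xc L ω x ≤ Xc L η x) ∧
  (∀ x, (Xc L ω x : ℝ) = ∑ y ∈ L, ind (con ω x y)) ∧
  ((drt E).card ≤ D * L.card ∧ ∀ u, ((drt E).filter (fun q => q.1 = u)).card ≤ D ∧
    ((drt E).filter (fun q => q.2 = u)).card ≤ D)

/-- mean size -/
def StHh : Prop := ∀ (V : Type) [DecidableEq V] (L : Finset V) (E : Finset (Sym2 V)) (D : ℕ) (p : ℝ),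
  FG L E D → 0 ≤ p → p ≤ 1 →
  (∀ x, hh L E p x = ex E p (fun ω => (Xc L ω x : ℝ))) ∧
  (∀ x y, cp E p x y = cp E p y x ∧ 0 ≤ cp E p x y ∧ cp E p x y ≤ 1) ∧ (∀ x, cp E p x x = 1) ∧
  (∀ x y, x ∈ L → y ∉ L → cp E p x y = 0) ∧ (∀ x ∈ L, 1 ≤ hh L E p x)

/-- 2.1 -/
def StTG2 : Prop := ∀ (V : Type) [DecidableEq V] (L : Finset V) (E : Finset (Sym2 V)) (D : ℕ) (p : ℝ),
  FG L E D → 0 ≤ p → p ≤ 1 / 2 → ∀ u ∈ L, ∀ u' ∈ L,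
    ex E p (fun ω => (Xc L ω u : ℝ) * ind (con ω u u')) ≤
      ∑ z ∈ L, cp E p u z * cp E p z u' * hh L E p z

/-- product rule for the insertion of a mark, with a loss in the kernel -/
def StInsS : Prop := ∀ (V : Type) [DecidableEq V] (S S' : V → V → ENNReal) (ρ : ENNReal),
  (∀ a b, S' a b ≤ S a b) →
  (∀ a b, ∑' z, S' a z * S' z b + ρ * S' a b ≤ ρ * S a b) →
    ∀ L : List (V × List V × V),
      ∑' z : V, ((ins z L).map (cmL S')).sum + ρ * cmL S' L ≤ ρ * cmL S L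

/-- kernel power series -/
def StKer : Prop := ∀ (V : Type) [DecidableEq V] (T : V → V → ENNReal) (χ : ℝ), 1 ≤ χ →
  (∀ x, ∑' y, T x y ≤ ENNReal.ofReal χ) →
    ∃ S : ℝ → V → V → ENNReal, (∀ a b, S 0 a b = T a b) ∧
      (∀ l, 0 ≤ l → l ≤ 1 / (2 * χ) → ∀ x, ∑' y, S l x y ≤ ENNReal.ofReal (2 * χ)) ∧
      (∀ l l', 0 ≤ l' → l' < l → ∀ a b, S l' a b ≤ S l a b ∧
        ∑' z, S l' a z * S l' z b + ENNReal.ofReal (1 / (l - l')) * S l' a b ≤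
          ENNReal.ofReal (1 / (l - l')) * S l a b)

/-- 2.2, one step -/
def StMomS : Prop := ∀ (V : Type) [DecidableEq V] (L : Finset V) (E : Finset (Sym2 V)) (D : ℕ)
  (p χ : ℝ), FG L E D → 0 ≤ p → p ≤ 1 / 2 → 1 ≤ χ → (∀ x ∈ L, hh L E p x ≤ χ) →
    ∀ x ∈ L, ∀ r : ℕ, 1 ≤ r →
      ex E p (fun ω => (Xc L ω x : ℝ) ^ (r + 1)) ≤ 2 * χ * (4 * χ ^ 2 * r) ^ r

/-- 2.3, the Markov property of the cluster -/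
def StMK : Prop := ∀ (V : Type) [DecidableEq V] (E : Finset (Sym2 V)) (p : ℝ) (a : V)
  (G : Set V → Finset (Sym2 V) → ℝ),
    ex E p (fun ω => G (cset ω a) (rst ω (cset ω a))) =
      ex E p (fun ω => ex E p (fun η => G (cset ω a) (rst η (cset ω a))))

open Classical in
/-- 2.4 -/
def StOff : Prop := ∀ (V : Type) [DecidableEq V] (L : Finset V) (E : Finset (Sym2 V)) (D : ℕ) (p : ℝ),
  FG L E D → 0 ≤ p → p ≤ 1 / 2 → ∀ (S : Set V) (b : V), b ∈ L →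
    (∀ ω, ω ⊆ E → Xr L S ω b ≤ Xc L ω b) ∧
    ex E p (fun ω => (Xc L ω b : ℝ) - Xr L S ω b) ≤
      ∑ w ∈ L, (if w ∈ S then 1 else 0) * (cp E p b w * hh L E p w)

/-- 2.5 -/
def StPair1 : Prop := ∀ (V : Type) [DecidableEq V] (L : Finset V) (E : Finset (Sym2 V)) (D : ℕ) (p : ℝ),
  FG L E D → 0 ≤ p → p ≤ 1 / 2 → ∀ a ∈ L, ∀ b ∈ L,
    hh L E p a * hh L E p b - pairErr L E p a b ≤
      ex E p (fun ω => (Xc L ω a : ℝ) * Xc L ω b * ind (¬ con ω a b))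

/-- 2.6 -/
def StPair2 : Prop := ∀ (V : Type) [DecidableEq V] (L : Finset V) (E : Finset (Sym2 V)) (D : ℕ) (p : ℝ),
  FG L E D → 0 ≤ p → p ≤ 1 / 2 → ∀ a ∈ L, ∀ b ∈ L, ∀ m : ℕ, 1 ≤ m →
    pr E p (fun ω => 2 * m ≤ Xc L ω a) * pr E p (fun ω => 2 * m ≤ Xc L ω b) -
        pairErr L E p a b / (2 * (m : ℝ) ^ 2) ≤
      pr E p (fun ω => m ≤ Xc L ω a ∧ m ≤ Xc L ω b ∧ ¬ con ω a b)

/-- 2.7 -/
def StSurg : Prop := ∀ (V : Type) [DecidableEq V] (L : Finset V) (E : Finset (Sym2 V)) (D : ℕ) (p : ℝ),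
  FG L E D → 0 < p → p ≤ 1 → ∀ (f : ℕ → ℕ → ℝ), (∀ a b, 0 ≤ f a b) →
  (∀ a a' b b', a ≤ a' → b ≤ b' → f a b ≤ f a' b') → ∀ (l : ℕ) (v : ℕ → V),
  (∀ i, i < l → s(v i, v (i + 1)) ∈ E) →
    ex E p (fun ω => f (Xc L ω (v 0)) (Xc L ω (v l)) * ind (¬ con ω (v 0) (v l))) ≤
      (1 / p) ^ l * ∑ i ∈ Finset.range l,
        ex E p (fun ω => f (Xc L ω (v i)) (Xc L ω (v (i + 1))) * ind (¬ con ω (v i) (v (i + 1))))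

/-- 2.8 -/
def StDist : Prop := ∀ (V : Type) [DecidableEq V] (p : ℝ), 0 ≤ p → p ≤ 1 →
  ∀ (c : List (V × (Set V → Prop))), (∀ q ∈ c, ∀ S S' : Set V, S ⊆ S' → q.2 S → q.2 S') →
    ∀ (E : Finset (Sym2 V)),
      pr E p (fun ω => (∀ q ∈ c, q.2 (cset ω q.1)) ∧ c.Pairwise (fun q q' => ¬ con ω q.1 q'.1)) ≤
        (c.map (fun q => pr E p (fun ω => q.2 (cset ω q.1)))).prod

/-- 2.9 -/
def StCov : Prop := ∀ (V : Type) [DecidableEq V] (L : Finset V) (E : Finset (Sym2 V)) (D : ℕ) (p : ℝ),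
  FG L E D → 0 ≤ p → p ≤ 1 →
    ∑ x ∈ L, ex E p (fun ω => (Xc L ω x : ℝ) * NM E p ω x) = p * brg L E p

/-- 2.10 -/
def StN2 : Prop := ∀ (V : Type) [DecidableEq V] (L : Finset V) (E : Finset (Sym2 V)) (D : ℕ) (p : ℝ),
  FG L E D → 0 ≤ p → p ≤ 1 → ∀ x ∈ L, ex E p (fun ω => (NM E p ω x) ^ 2) ≤ D * hh L E p x

/-- 2.11 -/
def StCS : Prop := ∀ (V : Type) [DecidableEq V] (L : Finset V) (E : Finset (Sym2 V)) (D : ℕ) (p : ℝ),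
  FG L E D → 0 ≤ p → p ≤ 1 →
    (p * brg L E p) ^ 2 ≤ (∑ x ∈ L, ex E p (fun ω => (Xc L ω x : ℝ) ^ 2)) * (D * ∑ x ∈ L, hh L E p x)

/-- 2.12 -/
def StT4 : Prop := ∀ (V : Type) [DecidableEq V] (E : Finset (Sym2 V)) (p : ℝ), 0 ≤ p → p ≤ 1 →
  ∀ (Y : Finset (Sym2 V) → ℝ) (a b c m : ℝ), (∀ ω, ω ⊆ E → 0 ≤ Y ω) → 0 ≤ m → 0 ≤ b → 0 < c →
    ex E p Y ≤ a → b ≤ ex E p (fun ω => Y ω ^ 2) → ex E p (fun ω => Y ω ^ 3) ≤ c → m * a ≤ b / 2 →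
      (b / 2) ^ 3 / c ^ 2 ≤ pr E p (fun ω => m ≤ Y ω)

/-! ### section 3 -/

/-- `P(X_u ≥ m, u ↔ u')` -/
def StG2 : Prop := ∀ (V : Type) [DecidableEq V] (L : Finset V) (E : Finset (Sym2 V)) (D : ℕ)
  (p χ : ℝ), FG L E D → 0 ≤ p → p ≤ 1 / 2 → (∀ x ∈ L, hh L E p x ≤ χ) → ∀ m : ℕ, 1 ≤ m →
    ∀ u ∈ L, ∀ u' ∈ L, GG2 L E p m u u' ≤ χ / m * ∑ z ∈ L, cp E p u z * cp E p z u'

/-- (a) -/
def StSa : Prop := ∀ (V : Type) [DecidableEq V] (L : Finset V) (E : Finset (Sym2 V)) (D : ℕ)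
  (p q : ℝ) (m : ℕ), FG L E D → 0 ≤ p → p ≤ 1 → (∀ x ∈ L, pr E p (fun ω => m ≤ Xc L ω x) ≤ q) →
    ex E p (fun ω => (SS1 L E m ω : ℝ)) ≤ ∑ a ∈ drt E, ∑ b ∈ drt E,
      (GG2 L E p m a.1 b.1 * q ^ 2 + GG2 L E p m a.1 b.1 * GG2 L E p m a.2 b.2)

/-- (b) -/
def StSb : Prop := ∀ (V : Type) [DecidableEq V] (L : Finset V) (E : Finset (Sym2 V)) (D : ℕ)
  (p : ℝ) (m : ℕ), FG L E D → 0 ≤ p → p ≤ 1 →
    ex E p (fun ω => (SS2 L E m ω : ℝ)) ≤ ∑ a ∈ drt E, ∑ b ∈ drt E,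
      GG2 L E p m a.1 b.1 * GG2 L E p m a.2 b.2

/-- (c) -/
def StSc : Prop := ∀ (V : Type) [DecidableEq V] (L : Finset V) (E : Finset (Sym2 V)) (D : ℕ)
  (p q : ℝ) (m : ℕ), FG L E D → 0 ≤ p → p ≤ 1 → 0 ≤ q →
  (∀ x ∈ L, pr E p (fun ω => m ≤ Xc L ω x) ≤ q) →
    ex E p (fun ω => ((JJ L E m ω).card : ℝ) ^ 2) ≤
      ((drt E).card : ℝ) ^ 2 * q ^ 4 + 4 * ex E p (fun ω => (SS1 L E m ω : ℝ))

/-- (d) -/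
def StSd : Prop := ∀ (V : Type) [DecidableEq V] (L : Finset V) (E : Finset (Sym2 V)) (D : ℕ)
  (p q : ℝ) (m : ℕ), FG L E D → 0 ≤ p → p ≤ 1 → 1 ≤ m →
  (∀ x ∈ L, pr E p (fun ω => m ≤ Xc L ω x) ≤ q) →
    ex E p (fun ω => ((big L m ω).card : ℝ)) ≤ L.card * q / m

/-- 3.6 -/
def StPZ : Prop := ∀ (V : Type) [DecidableEq V] (E : Finset (Sym2 V)) (p : ℝ), 0 ≤ p → p ≤ 1 →
  ∀ (Y Y₁ Y₂ Y₃ : Finset (Sym2 V) → ℝ) (a b k₁ k₂ k₃ : ℝ), (∀ ω, ω ⊆ E → 0 ≤ Y ω ∧ 0 ≤ Y₁ ω ∧ 0 ≤ Y₂ ω ∧ 0 ≤ Y₃ ω) →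
    0 < a → 0 < b → a ≤ ex E p Y → ex E p (fun ω => Y ω ^ 2) ≤ b →
    0 < k₁ → 0 < k₂ → 0 < k₃ → ex E p Y₁ ≤ k₁ → ex E p Y₂ ≤ k₂ → ex E p Y₃ ≤ k₃ →
      a ^ 2 / (8 * b) ≤ pr E p (fun ω => a / 2 ≤ Y ω ∧ Y₁ ω ≤ 24 * b / a ^ 2 * k₁ ∧
        Y₂ ω ≤ 24 * b / a ^ 2 * k₂ ∧ Y₃ ω ≤ 24 * b / a ^ 2 * k₃)

/-- 3.7 -/
def StGraph : Prop := ∀ (V : Type) [DecidableEq V] (L : Finset V) (E ω : Finset (Sym2 V)) (D m : ℕ)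
  (j k₁ k₂ k₃ : ℝ), FG L E D → ω ⊆ E → 1 ≤ m → 0 < j → 0 < k₁ → 0 < k₂ → 0 < k₃ →
    j ≤ (JJ L E m ω).card → (SS1 L E m ω : ℝ) ≤ k₁ → (SS2 L E m ω : ℝ) ≤ k₂ →
    ((big L m ω).card : ℝ) ≤ k₃ →
      ∃ F : Finset (Finset V), F ⊆ big L m ω ∧ (j ^ 2 / (2 * k₂)) ^ 2 / k₁ ≤ F.card ∧
        minDeg E F ⌊j ^ 2 / (4 * k₃ * k₂)⌋₊

/-! ### section 4 -/

/-- 4.1 -/
def StSpr : Prop := ∀ (V : Type) [DecidableEq V] (E : Finset (Sym2 V)) (p δ : ℝ)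
  (f : Finset (Sym2 V) → ℝ),
    ex E (1 - (1 - p) * (1 - δ)) f = ex E p (fun ω => ex E δ (fun η => f (ω ∪ η)))

/-- 4.2 -/
def StGrow : Prop := ∀ (V : Type) [DecidableEq V] (L : Finset V) (E ω : Finset (Sym2 V)) (D m : ℕ)
  (δ : ℝ), FG L E D → ω ⊆ E → 1 ≤ m → 0 ≤ δ → δ ≤ 1 →
    ∀ (F : Finset (Finset V)) (k' : ℕ), F ⊆ big L m ω → minDeg E F k' →
      ∀ k : ℕ, k ≤ k' → ∀ A ∈ F, ∀ x ∈ A,
        (1 - (1 - δ) ^ (k' - k)) ^ k ≤ ex E δ (fun η => ind ((k + 1) * m ≤ Xc L (ω ∪ η) x))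

/-- 4.4 -/
def StTree : Prop := ∀ (V : Type) [DecidableEq V] (L : Finset V) (E : Finset (Sym2 V)) (D : ℕ)
  (p p' : ℝ), FG L E D → 0 < p → p < 1 → 0 ≤ p' → p' ≤ 1 → ∀ x ∈ L, ∀ s : ℕ, 1 ≤ s →
    (pr E p' (fun ω => s ≤ Xc L ω x)) ^ 2 ≤
      (p' ^ 2 / p + (1 - p') ^ 2 / (1 - p)) ^ (D * s) * pr E p (fun ω => s ≤ Xc L ω x)

/-- 4.6 -/
def StSec2 : Prop := ∀ (V : Type) [DecidableEq V] (L : Finset V) (E : Finset (Sym2 V)) (D : ℕ)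
  (p : ℝ), FG L E D → 0 ≤ p → p ≤ 1 → ∀ s : ℕ, 1 ≤ s →
    pr E p (fun ω => ∀ x ∈ L, Xc L ω x < s) * (∑ x ∈ L, pr E p (fun ω => s ≤ Xc L ω x)) ^ 2 ≤
      ∑ x ∈ L, ex E p (fun ω => (Xc L ω x : ℝ) ^ 2)

end Pool.NL
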