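import Pool.Agent.Helper22.NL.StT
import Pool.Agent.Helper22.NL.StM

/-! # Project NL: statements, part Z (assembly in the box) -/

set_option autoImplicit false

open scoped BigOperators ENNReal Topology
open Pool.LE Filter

namespace Pool.NL

/-- abbreviations: the box graph at the critical point -/
noncomputable def XB (d n : ℕ) (ω : Finset (Sym2 (Zd d))) (x : Zd d) : ℕ := Xc (Bn d n) ω x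

/-- expectation in the box at `p` -/
noncomputable def eB (d n : ℕ) (p : ℝ) (f : Finset (Sym2 (Zd d)) → ℝ) : ℝ := ex (ES (Bn d n)) p f

/-- probability in the box at `p` -/
noncomputable def pB (d n : ℕ) (p : ℝ) (A : Finset (Sym2 (Zd d)) → Prop) : ℝ := pr (ES (Bn d n)) p A

/-- the box graph -/
def StBn : Prop := ∀ d n : ℕ, FG (Bn d n) (ES (Bn d n)) (2 * d) ∧ (Bn d n).card = n ^ d ∧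
  ((ES (Bn d n) : Finset (Sym2 (Zd d))) : Set (Sym2 (Zd d))) ⊆ latE d ∧
  (∀ x : Zd d, x ∈ Bn d n ↔ ∀ i, 0 ≤ x i ∧ x i < n) ∧
  (∀ x ∈ Bn d n, ∀ y ∈ Bn d n, y - x ∈ bx d n)

/-- domination by the lattice two-point function -/
def StCpTau : Prop := ∀ (d n : ℕ) (p : ℝ) (x y : Zd d), 0 ≤ p → p ≤ 1 →
  cp (ES (Bn d n)) p x y ≤ tau d p (y - x)

/-- `h ≤ C n²` -/
def StHub : Prop := ∀ (d : ℕ) (C₁ B c₀ : ℝ), Env d C₁ B c₀ → ∀ n : ℕ, 1 ≤ n → ∀ x ∈ Bn d n,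
  hh (Bn d n) (ES (Bn d n)) (pH d) x ≤ C₁ * (n : ℝ) ^ 2

/-- sums of products of connection probabilities -/
def StTri : Prop := ∀ (d : ℕ) (C₁ B c₀ : ℝ), Env d C₁ B c₀ → ∀ n : ℕ, 1 ≤ n →
  (∀ a ∈ Bn d n, ∀ b ∈ Bn d n, ∑ w ∈ Bn d n, ∑ z ∈ Bn d n, cp (ES (Bn d n)) (pH d) b w *
    cp (ES (Bn d n)) (pH d) w z * cp (ES (Bn d n)) (pH d) z a ≤ B / Qw (b - a)) ∧
  (∀ a ∈ Bn d n, ∑ u ∈ Bn d n, (∑ z ∈ Bn d n, cp (ES (Bn d n)) (pH d) a z *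
    cp (ES (Bn d n)) (pH d) z u) ^ 2 ≤ B)

/-- the error term for pairs -/
def StErr : Prop := ∀ (d : ℕ) (C₁ B c₀ : ℝ), Env d C₁ B c₀ → ∀ n : ℕ, 1 ≤ n →
  ∀ a ∈ Bn d n, ∀ b ∈ Bn d n, pairErr (Bn d n) (ES (Bn d n)) (pH d) a b ≤
    (C₁ * (n : ℝ) ^ 2) ^ 2 * (B / Qw (b - a))

/-- first coordinate vector; the shift by `k` -/
def e0 {d : ℕ} (k : ℕ) : Zd d := fun i => if (i : ℕ) = 0 then (k : ℤ) else 0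

open Classical in
/-- shift lemma -/
def StShift : Prop := ∀ (d : ℕ) (c : ℝ) (Lr : ℕ), 1 ≤ d → 0 < c → 1 ≤ Lr → ∃ J : ℕ, 1 ≤ J ∧ ∃ c' : ℝ,
  0 < c' ∧ ∀ (n : ℕ) (G : Finset (Zd d)), J * Lr ≤ n → G ⊆ Bn d n → c * (n : ℝ) ^ d ≤ G.card →
    ∃ k : ℕ, 1 ≤ k ∧ k ≤ J ∧ c' * (n : ℝ) ^ d ≤ (G.filter (fun a => a + e0 (k * Lr) ∈ G)).card

/-- many points with a large value -/
def StMany : Prop := ∀ (d : ℕ) (c C : ℝ), 0 < c → 0 < C → ∀ (n k : ℕ) (f : Zd d → ℝ), 1 ≤ n →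
  (∀ x ∈ Bn d n, f x ≤ C * (n : ℝ) ^ k) → c * (n : ℝ) ^ (d + k) ≤ ∑ x ∈ Bn d n, f x →
    c / (2 * C) * (n : ℝ) ^ d ≤ ((Bn d n).filter (fun x => c / 2 * (n : ℝ) ^ k ≤ f x)).card

/-- straight line surgery: if many pairs at distance `k Lr` in direction `e0` are good, then many edges are -/
def StLine : Prop := ∀ (d : ℕ) (p : ℝ) (J Lr : ℕ) (c' : ℝ), 1 ≤ d → 0 < p → p ≤ 1 → 1 ≤ Lr → 0 < c' →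
  ∃ c : ℝ, 0 < c ∧ ∀ (n k : ℕ) (t : ℝ) (P : Finset (Zd d)) (f : ℕ → ℕ → ℝ), 1 ≤ k → k ≤ J → 0 ≤ t →
    (∀ a b, 0 ≤ f a b) → (∀ a a' b b', a ≤ a' → b ≤ b' → f a b ≤ f a' b') →
    P ⊆ Bn d n → (∀ a ∈ P, a + e0 (k * Lr) ∈ Bn d n) → c' * (n : ℝ) ^ d ≤ P.card →
    (∀ a ∈ P, t ≤ eB d n p (fun ω => f (XB d n ω a) (XB d n ω (a + e0 (k * Lr))) *
      ind (¬ con ω a (a + e0 (k * Lr))))) →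
      c * t * (n : ℝ) ^ d ≤ ∑ ub ∈ drt (ES (Bn d n)),
        eB d n p (fun ω => f (XB d n ω ub.1) (XB d n ω ub.2) * ind (¬ con ω ub.1 ub.2))

/-- 3.2 -/
def StBrg : Prop := ∀ (d : ℕ) (C₁ B c₀ : ℝ), Env d C₁ B c₀ → ∃ c : ℝ, 0 < c ∧ ∃ n₀ : ℕ, ∀ n : ℕ,
  n₀ ≤ n → c * (n : ℝ) ^ (d + 4) ≤ brg (Bn d n) (ES (Bn d n)) (pH d)

/-- 3.2 -/
def StX2 : Prop := ∀ (d : ℕ) (C₁ B c₀ : ℝ), Env d C₁ B c₀ → ∃ c : ℝ, 0 < c ∧ ∃ n₀ : ℕ, ∀ n : ℕ,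
  n₀ ≤ n → c * (n : ℝ) ^ (d + 6) ≤ ∑ x ∈ Bn d n, eB d n (pH d) (fun ω => (XB d n ω x : ℝ) ^ 2)

/-- 2.2 in the box -/
def StMomB : Prop := ∀ (d : ℕ) (C₁ B c₀ : ℝ), Env d C₁ B c₀ → ∀ n : ℕ, 1 ≤ n → ∀ x ∈ Bn d n,
  eB d n (pH d) (fun ω => (XB d n ω x : ℝ)) ≤ C₁ * (n : ℝ) ^ 2 ∧
  eB d n (pH d) (fun ω => (XB d n ω x : ℝ) ^ 2) ≤ 8 * C₁ ^ 3 * (n : ℝ) ^ 6 ∧
  eB d n (pH d) (fun ω => (XB d n ω x : ℝ) ^ 3) ≤ 128 * C₁ ^ 5 * (n : ℝ) ^ 10 ∧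
  ∀ m : ℕ, 1 ≤ m → pB d n (pH d) (fun ω => m ≤ XB d n ω x) ≤ 8 * C₁ ^ 3 * (n : ℝ) ^ 6 / (m : ℝ) ^ 2

/-- the threshold `⌈η n⁴⌉` -/
noncomputable def thr (η : ℝ) (n : ℕ) : ℕ := ⌈η * (n : ℝ) ^ 4⌉₊

open Classical in
/-- 3.3 -/
def StBig : Prop := ∀ (d : ℕ) (C₁ B c₀ : ℝ), Env d C₁ B c₀ → ∃ η c c' : ℝ, 0 < η ∧ η ≤ 1 ∧ 0 < c ∧
  0 < c' ∧ ∃ n₀ : ℕ, 1 ≤ n₀ ∧ ∀ n : ℕ, n₀ ≤ n → c' * (n : ℝ) ^ d ≤ ((Bn d n).filter (fun x =>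
    c / (n : ℝ) ^ 2 ≤ pB d n (pH d) (fun ω => 2 * thr η n ≤ XB d n ω x))).card

/-- 3.4, 3.5: all estimates on bridges -/
structure Brd (d : ℕ) (η c C : ℝ) (n₀ : ℕ) : Prop where
  hη : 0 < η
  hη1 : η ≤ 1
  hc : 0 < c
  hC : 0 < C
  hn : 1 ≤ n₀
  low : ∀ n : ℕ, n₀ ≤ n → c * (n : ℝ) ^ (d - 4) ≤
    eB d n (pH d) (fun ω => ((JJ (Bn d n) (ES (Bn d n)) (thr η n) ω).card : ℝ))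
  up : ∀ n : ℕ, n₀ ≤ n →
    eB d n (pH d) (fun ω => ((JJ (Bn d n) (ES (Bn d n)) (thr η n) ω).card : ℝ) ^ 2) ≤
      C * (n : ℝ) ^ (2 * d - 8)
  s1 : ∀ n : ℕ, n₀ ≤ n →
    eB d n (pH d) (fun ω => (SS1 (Bn d n) (ES (Bn d n)) (thr η n) ω : ℝ)) ≤ C * (n : ℝ) ^ (d - 2)
  s2 : ∀ n : ℕ, n₀ ≤ n →
    eB d n (pH d) (fun ω => (SS2 (Bn d n) (ES (Bn d n)) (thr η n) ω : ℝ)) ≤ C * (n : ℝ) ^ (d - 4)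
  nb : ∀ n : ℕ, n₀ ≤ n →
    eB d n (pH d) (fun ω => ((big (Bn d n) (thr η n) ω).card : ℝ)) ≤ C * (n : ℝ) ^ (d - 6)

/-- lower bound for the bridges -/
def StLowJ : Prop := ∀ (d : ℕ) (C₁ B c₀ : ℝ), Env d C₁ B c₀ → ∃ η c : ℝ, 0 < η ∧ η ≤ 1 ∧ 0 < c ∧
  ∃ n₀ : ℕ, 1 ≤ n₀ ∧ ∀ n : ℕ, n₀ ≤ n → c * (n : ℝ) ^ (d - 4) ≤
    eB d n (pH d) (fun ω => ((JJ (Bn d n) (ES (Bn d n)) (thr η n) ω).card : ℝ))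

/-- upper bounds for the bridges -/
def StUpJ : Prop := ∀ (d : ℕ) (C₁ B c₀ η : ℝ), Env d C₁ B c₀ → 0 < η → η ≤ 1 → ∃ C : ℝ, 0 < C ∧
  ∀ n : ℕ, 1 ≤ n →
    eB d n (pH d) (fun ω => ((JJ (Bn d n) (ES (Bn d n)) (thr η n) ω).card : ℝ) ^ 2) ≤
      C * (n : ℝ) ^ (2 * d - 8) ∧
    eB d n (pH d) (fun ω => (SS1 (Bn d n) (ES (Bn d n)) (thr η n) ω : ℝ)) ≤ C * (n : ℝ) ^ (d - 2) ∧
    eB d n (pH d) (fun ω => (SS2 (Bn d n) (ES (Bn d n)) (thr η n) ω : ℝ)) ≤ C * (n : ℝ) ^ (d - 4) ∧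
    eB d n (pH d) (fun ω => ((big (Bn d n) (thr η n) ω).card : ℝ)) ≤ C * (n : ℝ) ^ (d - 6)

def StBrd : Prop := ∀ (d : ℕ) (C₁ B c₀ : ℝ), Env d C₁ B c₀ → ∃ (η c C : ℝ) (n₀ : ℕ), Brd d η c C n₀

/-- 3.6, 3.7: with positive probability there is a good family of clusters -/
def StFam : Prop := ∀ (d : ℕ) (C₁ B c₀ : ℝ), Env d C₁ B c₀ → ∃ η c : ℝ, 0 < η ∧ η ≤ 1 ∧ 0 < c ∧
  ∃ n₀ : ℕ, 1 ≤ n₀ ∧ ∀ n : ℕ, n₀ ≤ n → c ≤ pB d n (pH d) (fun ω => ∃ F : Finset (Finset (Zd d)),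
    F ⊆ big (Bn d n) (thr η n) ω ∧ c * (n : ℝ) ^ (d - 6) ≤ F.card ∧
      minDeg (ES (Bn d n)) F ⌊c * (n : ℝ) ^ 2⌋₊)

/-- the sprinkled parameter -/
noncomputable def ps (d n : ℕ) : ℝ := 1 - (1 - pH d) * (1 - 1 / (n : ℝ) ^ 2)

/-- 4.3 -/
def StSprB : Prop := ∀ (d : ℕ) (C₁ B c₀ : ℝ), Env d C₁ B c₀ → ∃ η κ : ℝ, 0 < η ∧ η ≤ 1 ∧ 0 < κ ∧
  ∀ ε : ℝ, 0 < ε → ε ≤ κ → ∃ n₀ : ℕ, 1 ≤ n₀ ∧ ∀ n : ℕ, n₀ ≤ n →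
    (n : ℝ) ^ (d - 3) ≤ ∑ x ∈ Bn d n,
      pB d n (ps d n) (fun ω => (⌊ε * Real.log n⌋₊ + 1) * thr η n ≤ XB d n ω x)

/-- 4.5 -/
def StTra : Prop := ∀ (d : ℕ) (C₁ B c₀ : ℝ), Env d C₁ B c₀ → ∃ ε : ℝ, 0 < ε ∧ ∃ n₀ : ℕ, 1 ≤ n₀ ∧
  ∀ n : ℕ, n₀ ≤ n → ∃ s : ℕ, 1 ≤ s ∧ ε * (n : ℝ) ^ 4 * Real.log n ≤ s ∧
    (n : ℝ) ^ (d - 7) ≤ ∑ x ∈ Bn d n, pB d n (pH d) (fun ω => s ≤ XB d n ω x)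

/-- lower bound in the box -/
def StLow : Prop := ∀ (d : ℕ) (C₁ B c₀ : ℝ), Env d C₁ B c₀ → ∃ ε : ℝ, 0 < ε ∧
  Tendsto (fun n : ℕ => pB d n (pH d) (fun ω => ∃ x ∈ Bn d n,
    ε * (n : ℝ) ^ 4 * Real.log n ≤ XB d n ω x)) atTop (𝓝 1)

/-- upper bound in the box -/
def StUp : Prop := ∀ (d : ℕ) (C₁ B c₀ : ℝ), Env d C₁ B c₀ → ∃ C : ℝ, 0 < C ∧
  Tendsto (fun n : ℕ => pB d n (pH d) (fun ω => ∀ x ∈ Bn d n,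
    (XB d n ω x : ℝ) ≤ C * (n : ℝ) ^ 4 * Real.log n)) atTop (𝓝 1)

end Pool.NL
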