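import Pool.Agent.Helper22.NL.StM
import Pool.Agent.Helper84.LE.BGR

set_option autoImplicit false

open scoped BigOperators ENNReal
open Pool.LE

namespace Pool.NL

/-- a dense relation has a subset of large minimal degree -/
theorem gh_core {α : Type} [DecidableEq α] (r : α → α → Prop) [DecidableRel r] (hr : ∀ a b, r a b → r b a) (t : ℝ) (ht : 0 ≤ t) :
    ∀ (k : ℕ) (K : Finset α), K.card = k → ∃ F : Finset α, F ⊆ K ∧
      (∀ A ∈ F, t ≤ ((F.filter (fun B => r A B)).card : ℝ)) ∧
      (∑ A ∈ K, ((K.filter (fun B => r A B)).card : ℝ)) - 2 * t * K.card ≤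
        ∑ A ∈ F, ((F.filter (fun B => r A B)).card : ℝ) := by
  intro k
  induction k with
  | zero =>
    intro K hK
    rw [Finset.card_eq_zero] at hK
    subst hK
    exact ⟨∅, subset_rfl, by simp, by simp⟩
  | succ k ih =>
    intro K hK
    by_cases hall : ∀ A ∈ K, t ≤ ((K.filter (fun B => r A B)).card : ℝ)
    · refine ⟨K, subset_rfl, hall, ?_⟩
      have : 0 ≤ 2 * t * (K.card : ℝ) := by positivity
      linarith
    · push Not at hall
      obtain ⟨A, hA, hdeg⟩ := hall
      have hcard : (K.erase A).card = k := by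
        rw [Finset.card_erase_of_mem hA, hK]
        rfl
      obtain ⟨F, hF, hmin, hsum⟩ := ih (K.erase A) hcard
      refine ⟨F, hF.trans (Finset.erase_subset _ _), hmin, ?_⟩
      have h1 : ∑ B ∈ K, ((K.filter (fun B' => r B B')).card : ℝ) =
          ((K.filter (fun B' => r A B')).card : ℝ) +
            ∑ B ∈ K.erase A, ((K.filter (fun B' => r B B')).card : ℝ) :=
        (Finset.add_sum_erase K _ hA).symm
      have h2 : ∀ B ∈ K.erase A, ((K.filter (fun B' => r B B')).card : ℝ) ≤
          (((K.erase A).filter (fun B' => r B B')).card : ℝ) + (if r B A then 1 else 0) := by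
        intro B _
        have h3 : K.filter (fun B' => r B B') ⊆
            (K.erase A).filter (fun B' => r B B') ∪ (if r B A then {A} else ∅) := by
          intro x hx
          rw [Finset.mem_filter] at hx
          by_cases hxA : x = A
          · subst hxA
            rw [Finset.mem_union]
            right
            rw [if_pos hx.2]
            exact Finset.mem_singleton_self _
          · rw [Finset.mem_union]
            left
            rw [Finset.mem_filter, Finset.mem_erase]
            exact ⟨⟨hxA, hx.1⟩, hx.2⟩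
        have h4 := (Finset.card_le_card h3).trans (Finset.card_union_le _ _)
        have h5 : ((if r B A then {A} else ∅ : Finset α)).card = if r B A then 1 else 0 := by
          split <;> simp
        rw [h5] at h4
        have h6 : ((K.filter (fun B' => r B B')).card : ℝ) ≤
            ((((K.erase A).filter (fun B' => r B B')).card + (if r B A then 1 else 0) : ℕ) : ℝ) := by
          exact_mod_cast h4
        refine h6.trans (le_of_eq ?_)
        push_cast
        rfl
      have h3 : ∑ B ∈ K.erase A, (if r B A then (1 : ℝ) else 0) ≤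
          ((K.filter (fun B' => r A B')).card : ℝ) := by
        rw [Finset.sum_ite, Finset.sum_const_zero, add_zero, Finset.sum_const, nsmul_eq_mul,
          mul_one]
        have : (K.erase A).filter (fun B => r B A) ⊆ K.filter (fun B' => r A B') := by
          intro x hx
          rw [Finset.mem_filter] at hx ⊢
          exact ⟨Finset.mem_of_mem_erase hx.1, hr _ _ hx.2⟩
        exact_mod_cast Finset.card_le_card this
      have h4 := Finset.sum_le_sum h2
      rw [Finset.sum_add_distrib] at h4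
      have h5 : (K.card : ℝ) = (K.erase A).card + 1 := by
        rw [hcard, hK]
        push_cast
        rfl
      rw [h5]
      rw [h1]
      nlinarith

open Classical in
theorem hGraph (_hClu : StClu) : StGraph := by
  intro V _ L E ω D m j k₁ k₂ k₃ hFG hω hm hj hk₁ hk₂ hk₃ hJ hS1 hS2 hK
  obtain ⟨J, hJdef⟩ : ∃ J, J = JJ L E m ω := ⟨_, rfl⟩
  have hJmem : ∀ q : V × V, q ∈ J ↔ (s(q.1, q.2) ∈ E ∧ m ≤ Xc L ω q.1 ∧ m ≤ Xc L ω q.2 ∧
      ¬ con ω q.1 q.2) := by
    intro q
    rw [hJdef]
    unfold JJ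
    rw [Finset.mem_filter, mem_drt']
  have hL1 : ∀ q ∈ J, q.1 ∈ L ∧ q.2 ∈ L := by
    intro q hq
    have h := ((hJmem q).1 hq).1
    exact ⟨hFG.inside _ h _ (Sym2.mem_mk_left _ _), hFG.inside _ h _ (Sym2.mem_mk_right _ _)⟩
  have hclu : ∀ x y, con ω x y → clu L ω x = clu L ω y := by
    intro x y h
    unfold clu
    ext z
    rw [Finset.mem_filter, Finset.mem_filter]
    exact ⟨fun hz => ⟨hz.1, con_trans (con_symm h) hz.2⟩, fun hz => ⟨hz.1, con_trans h hz.2⟩⟩
  have hself : ∀ x ∈ L, x ∈ clu L ω x := by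
    intro x hx
    unfold clu
    rw [Finset.mem_filter]
    exact ⟨hx, con_refl ω x⟩
  have hconv : ∀ x ∈ L, ∀ y, clu L ω x = clu L ω y → con ω x y := by
    intro x hx y h
    have h1 := hself x hx
    rw [h] at h1
    unfold clu at h1
    rw [Finset.mem_filter] at h1
    exact con_symm h1.2
  obtain ⟨f, hf⟩ : ∃ f : V × V → Finset V × Finset V, f = fun q => (clu L ω q.1, clu L ω q.2) :=
    ⟨_, rfl⟩
  obtain ⟨P, hP⟩ : ∃ P, P = J.image f := ⟨_, rfl⟩
  obtain ⟨K, hKdef⟩ : ∃ K, K = big L m ω := ⟨_, rfl⟩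
  have hmemK : ∀ q ∈ J, clu L ω q.1 ∈ K ∧ clu L ω q.2 ∈ K := by
    intro q hq
    obtain ⟨_, h2, h3, _⟩ := (hJmem q).1 hq
    obtain ⟨l1, l2⟩ := hL1 q hq
    rw [hKdef]
    unfold big
    exact ⟨Finset.mem_image_of_mem _ (Finset.mem_filter.2 ⟨l1, h2⟩),
      Finset.mem_image_of_mem _ (Finset.mem_filter.2 ⟨l2, h3⟩)⟩
  -- number of pairs
  have hcount : ((J.card : ℕ) : ℝ) ^ 2 ≤ (P.card : ℝ) * (SS2 L E m ω : ℝ) := by
    have h1 : (J.card : ℝ) = ∑ ab ∈ P, ((J.filter (fun q => f q = ab)).card : ℝ) := by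
      have := Finset.card_eq_sum_card_fiberwise (f := f) (s := J) (t := P) (fun x hx => by
        rw [hP]; exact Finset.mem_image_of_mem _ hx)
      exact_mod_cast this
    have h2 : ∑ ab ∈ P, ((J.filter (fun q => f q = ab)).card : ℝ) ^ 2 ≤ (SS2 L E m ω : ℝ) := by
      have h3 : (SS2 L E m ω) = ∑ ab ∈ P, (((J ×ˢ J).filter
          (fun q => con ω q.1.1 q.2.1 ∧ con ω q.1.2 q.2.2)).filter (fun q => f q.1 = ab)).card := by
        unfold SS2
        rw [← hJdef]
        refine Finset.card_eq_sum_card_fiberwise (fun x hx => ?_)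
        have hx' := (Finset.mem_filter.1 (Finset.mem_coe.1 hx)).1
        rw [Finset.mem_product] at hx'
        rw [hP]
        exact Finset.mem_coe.2 (Finset.mem_image_of_mem _ hx'.1)
      rw [h3]
      push_cast
      refine Finset.sum_le_sum fun ab _ => ?_
      have h4 : (J.filter (fun q => f q = ab)) ×ˢ (J.filter (fun q => f q = ab)) ⊆
          (((J ×ˢ J).filter (fun q => con ω q.1.1 q.2.1 ∧ con ω q.1.2 q.2.2)).filter
            (fun q => f q.1 = ab)) := by
        intro q hq
        rw [Finset.mem_product, Finset.mem_filter, Finset.mem_filter] at hq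
        obtain ⟨⟨q1, e1⟩, q2, e2⟩ := hq
        rw [Finset.mem_filter, Finset.mem_filter, Finset.mem_product]
        have e3 : f q.1 = f q.2 := e1.trans e2.symm
        rw [hf] at e3
        simp only [Prod.mk.injEq] at e3
        exact ⟨⟨⟨q1, q2⟩, hconv _ (hL1 _ q1).1 _ e3.1, hconv _ (hL1 _ q1).2 _ e3.2⟩, e1⟩
      have h5 := Finset.card_le_card h4
      rw [Finset.card_product] at h5
      rw [_root_.sq]
      exact_mod_cast h5
    rw [h1]
    refine (sq_sum_le_card_mul_sum_sq).trans ?_
    exact mul_le_mul_of_nonneg_left h2 (Nat.cast_nonneg _)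
  have hPge : j ^ 2 / k₂ ≤ (P.card : ℝ) := by
    rw [div_le_iff₀ hk₂]
    have h1 : j ^ 2 ≤ (J.card : ℝ) ^ 2 := by
      rw [hJdef]
      exact pow_le_pow_left₀ hj.le hJ 2
    exact (h1.trans hcount).trans (mul_le_mul_of_nonneg_left hS2 (Nat.cast_nonneg _))
  have hP0 : 0 ≤ (P.card : ℝ) := Nat.cast_nonneg _
  -- the relation
  have hsymm : ∀ A B, (A, B) ∈ P → (B, A) ∈ P := by
    intro A B h
    rw [hP, Finset.mem_image] at h ⊢
    obtain ⟨q, hq, he⟩ := h
    refine ⟨(q.2, q.1), ?_, ?_⟩
    · obtain ⟨h1, h2, h3, h4⟩ := (hJmem q).1 hq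
      rw [hJmem]
      refine ⟨?_, h3, h2, fun h => h4 (con_symm h)⟩
      rw [Sym2.eq_swap]
      exact h1
    · rw [hf] at he ⊢
      simp only [Prod.mk.injEq] at he ⊢
      exact ⟨he.2, he.1⟩
  obtain ⟨F, hFK, hmin, hsum⟩ := gh_core (fun A B : Finset V => (A, B) ∈ P) hsymm
    ((P.card : ℝ) / (4 * k₃)) (by positivity) K.card K rfl
  -- all pairs
  have hpairs : ((P.card : ℕ) : ℝ) ≤ ∑ A ∈ K, ((K.filter (fun B => (A, B) ∈ P)).card : ℝ) := by
    have h1 : P.card = ∑ A ∈ K, (P.filter (fun q => q.1 = A)).card := by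
      refine Finset.card_eq_sum_card_fiberwise (fun x hx => ?_)
      rw [hP] at hx
      obtain ⟨q, hq, rfl⟩ := Finset.mem_image.1 (Finset.mem_coe.1 hx)
      rw [hf]
      exact Finset.mem_coe.2 (hmemK q hq).1
    have h2 : ∀ A ∈ K, (P.filter (fun q => q.1 = A)).card ≤ (K.filter (fun B => (A, B) ∈ P)).card := by
      intro A _
      refine Finset.card_le_card_of_injOn (fun q => q.2) ?_ ?_
      · intro q hq
        rw [Finset.mem_coe, Finset.mem_filter] at hq
        rw [Finset.mem_coe, Finset.mem_filter]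
        obtain ⟨h3, h4⟩ := hq
        refine ⟨?_, ?_⟩
        · have h5 := h3
          rw [hP] at h5
          obtain ⟨q', hq', he⟩ := Finset.mem_image.1 h5
          rw [← he, hf]
          exact (hmemK q' hq').2
        · rw [← h4]
          exact h3
      · intro q hq q' hq' he
        rw [Finset.mem_coe, Finset.mem_filter] at hq hq'
        exact Prod.ext (hq.2.trans hq'.2.symm) he
    have h3 := Finset.sum_le_sum h2
    rw [← h1] at h3
    exact_mod_cast h3
  have hhalf : (P.card : ℝ) / 2 ≤ ∑ A ∈ F, ((F.filter (fun B => (A, B) ∈ P)).card : ℝ) := by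
    refine le_trans ?_ hsum
    have h1 : 2 * ((P.card : ℝ) / (4 * k₃)) * (K.card : ℝ) ≤ (P.card : ℝ) / 2 := by
      have h2 : (K.card : ℝ) ≤ k₃ := by rw [hKdef]; exact hK
      calc 2 * ((P.card : ℝ) / (4 * k₃)) * (K.card : ℝ)
          ≤ 2 * ((P.card : ℝ) / (4 * k₃)) * k₃ := by
            refine mul_le_mul_of_nonneg_left h2 (by positivity)
        _ = (P.card : ℝ) / 2 := by
            field_simp
            ring
    linarith
  -- first coordinates
  have hdegN : ∀ A ∈ F, ((F.filter (fun B => (A, B) ∈ P)).card : ℝ) ≤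
      ((J.filter (fun q => clu L ω q.1 = A)).card : ℝ) := by
    intro A _
    have h1 : F.filter (fun B => (A, B) ∈ P) ⊆
        (J.filter (fun q => clu L ω q.1 = A)).image (fun q => clu L ω q.2) := by
      intro B hB
      rw [Finset.mem_filter] at hB
      have h2 := hB.2
      rw [hP] at h2
      obtain ⟨q, hq, he⟩ := Finset.mem_image.1 h2
      rw [hf] at he
      simp only [Prod.mk.injEq] at he
      rw [Finset.mem_image]
      exact ⟨q, Finset.mem_filter.2 ⟨hq, he.1⟩, he.2⟩
    exact_mod_cast (Finset.card_le_card h1).trans Finset.card_image_le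
  have hSS1 : ∑ A ∈ F, ((J.filter (fun q => clu L ω q.1 = A)).card : ℝ) ^ 2 ≤ (SS1 L E m ω : ℝ) := by
    have h3 : (SS1 L E m ω) = ∑ A ∈ K, (((J ×ˢ J).filter
        (fun q => con ω q.1.1 q.2.1)).filter (fun q => clu L ω q.1.1 = A)).card := by
      unfold SS1
      rw [← hJdef]
      refine Finset.card_eq_sum_card_fiberwise (fun x hx => ?_)
      have hx' := (Finset.mem_filter.1 (Finset.mem_coe.1 hx)).1
      rw [Finset.mem_product] at hx'
      exact Finset.mem_coe.2 (hmemK _ hx'.1).1
    rw [h3]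
    push_cast
    refine (Finset.sum_le_sum_of_subset_of_nonneg hFK fun A _ _ => sq_nonneg _).trans ?_
    refine Finset.sum_le_sum fun A _ => ?_
    have h4 : (J.filter (fun q => clu L ω q.1 = A)) ×ˢ (J.filter (fun q => clu L ω q.1 = A)) ⊆
        (((J ×ˢ J).filter (fun q => con ω q.1.1 q.2.1)).filter
          (fun q => clu L ω q.1.1 = A)) := by
      intro q hq
      rw [Finset.mem_product, Finset.mem_filter, Finset.mem_filter] at hq
      obtain ⟨⟨q1, e1⟩, q2, e2⟩ := hq
      rw [Finset.mem_filter, Finset.mem_filter, Finset.mem_product]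
      exact ⟨⟨⟨q1, q2⟩, hconv _ (hL1 _ q1).1 _ (e1.trans e2.symm)⟩, e1⟩
    have h5 := Finset.card_le_card h4
    rw [Finset.card_product] at h5
    rw [_root_.sq]
    exact_mod_cast h5
  refine ⟨F, by rw [← hKdef]; exact hFK, ?_, ?_⟩
  · rw [div_le_iff₀ hk₁]
    have h1 : j ^ 2 / (2 * k₂) ≤ (P.card : ℝ) / 2 := by
      have : j ^ 2 / (2 * k₂) = j ^ 2 / k₂ / 2 := by
        field_simp
      rw [this]
      linarith
    have h2 : (j ^ 2 / (2 * k₂)) ^ 2 ≤
        (∑ A ∈ F, ((F.filter (fun B => (A, B) ∈ P)).card : ℝ)) ^ 2 :=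
      pow_le_pow_left₀ (by positivity) (h1.trans hhalf) 2
    refine h2.trans ((sq_sum_le_card_mul_sum_sq).trans ?_)
    refine mul_le_mul_of_nonneg_left ?_ (Nat.cast_nonneg _)
    refine le_trans ?_ (hSS1.trans hS1)
    exact Finset.sum_le_sum fun A hA => pow_le_pow_left₀ (Nat.cast_nonneg _) (hdegN A hA) 2
  · intro A hA
    have h1 : j ^ 2 / (4 * k₃ * k₂) ≤ ((F.filter (fun B => (A, B) ∈ P)).card : ℝ) := by
      refine le_trans ?_ (hmin A hA)
      have : j ^ 2 / (4 * k₃ * k₂) = j ^ 2 / k₂ / (4 * k₃) := by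
        field_simp
      rw [this]
      exact div_le_div_of_nonneg_right hPge (by positivity)
    have h2 : ⌊j ^ 2 / (4 * k₃ * k₂)⌋₊ ≤ (F.filter (fun B => (A, B) ∈ P)).card := by
      have h3 := (Nat.floor_le (show 0 ≤ j ^ 2 / (4 * k₃ * k₂) by positivity)).trans h1
      exact_mod_cast h3
    refine h2.trans (Finset.card_le_card ?_)
    intro B hB
    rw [Finset.mem_filter] at hB ⊢
    obtain ⟨hBF, hBP⟩ := hB
    rw [hP] at hBP
    obtain ⟨q, hq, he⟩ := Finset.mem_image.1 hBP
    rw [hf] at he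
    simp only [Prod.mk.injEq] at he
    obtain ⟨g1, _, _, g4⟩ := (hJmem q).1 hq
    obtain ⟨l1, l2⟩ := hL1 q hq
    refine ⟨hBF, ?_, ?_⟩
    · intro hBA
      apply g4
      apply hconv _ l1
      rw [he.1, he.2, hBA]
    · exact ⟨q.1, by rw [← he.1]; exact hself _ l1, q.2, by rw [← he.2]; exact hself _ l2, g1⟩

end Pool.NL
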