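import Pool.Agent.Helper22.NL.StM
import Pool.Agent.Helper84.LE.BGR

set_option autoImplicit false

open scoped BigOperators ENNReal
open Pool.LE

namespace Pool.NL

section PairLemmas

variable {V : Type} [DecidableEq V]

theorem pair_con_rst {ω : Finset (Sym2 V)} {S : Set V} {b : V}
    (h : ∀ y, con ω b y → y ∉ S) (x : V) : con (rst ω S) b x ↔ con ω b x := by
  refine ⟨fun hc => con_mono (rst_subset ω S) hc, fun hc => ?_⟩
  refine (con_iff_of_cluster ?_ x).1 hc
  rintro e ⟨y, hy, hby⟩
  rw [mem_rst]
  refine ⟨fun he => ⟨he, ?_⟩, fun he => he.1⟩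
  intro z hz
  apply h
  refine con_trans hby ?_
  induction e using Sym2.ind with
  | _ p q =>
    rw [Sym2.mem_iff] at hy hz
    rcases hy with rfl | rfl <;> rcases hz with rfl | rfl
    · exact con_refl _ _
    · exact con_of_mem he
    · exact con_symm (con_of_mem he)
    · exact con_refl _ _

theorem pair_xc_rst (L : Finset V) {ω : Finset (Sym2 V)} {a b : V} (h : ¬ con ω a b) :
    Xc L (rst ω (cset ω a)) b = Xc L ω b := by
  have h1 : clu L (rst ω (cset ω a)) b = clu L ω b := by
    classical
    unfold clu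
    ext x
    simp only [Finset.mem_filter]
    rw [pair_con_rst]
    intro y hy hay
    exact h (con_trans hay (con_symm hy))
  unfold Xc
  rw [h1]

open Classical in
theorem pair_card (L : Finset V) (ω : Finset (Sym2 V)) (a : V) :
    (∑ y ∈ L, if y ∈ cset ω a then (1 : ℝ) else 0) = Xc L ω a := by
  unfold Xc clu
  rw [Finset.sum_ite, Finset.sum_const_zero, add_zero, Finset.sum_const, nsmul_eq_mul, mul_one]
  congr 2

theorem pair_ind_true {A : Prop} (h : A) : ind A = 1 := by unfold ind; exact if_pos h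
theorem pair_ind_false {A : Prop} (h : ¬ A) : ind A = 0 := by unfold ind; exact if_neg h
theorem pair_ind_nonneg (A : Prop) : 0 ≤ ind A := by
  unfold ind; split_ifs <;> norm_num
theorem pair_ind_le_one (A : Prop) : ind A ≤ 1 := by
  unfold ind; split_ifs <;> norm_num

end PairLemmas

theorem hPair1 (hMK : StMK) (hOff : StOff) (hTG : StTG2) (hB : StBasic) (hHh : StHh)
    (hClu : StClu) : StPair1 := by
  classical
  intro V _ L E D p hFG hp0 hp a ha b hb
  have hp1 : p ≤ 1 := hp.trans (by norm_num)
  obtain ⟨hmono, -, -, hsub, hmul, hsum, -, -, -, -⟩ := hB V E p hp0 hp1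
  obtain ⟨hh1, hcp, -, -, -⟩ := hHh V L E D p hFG hp0 hp1
  -- the function of the Markov property
  set G : Set V → Finset (Sym2 V) → ℝ := fun S ζ =>
    (∑ y ∈ L, if y ∈ S then (1 : ℝ) else 0) * (if b ∈ S then 0 else (Xc L ζ b : ℝ)) with hG
  have h1 : ex E p (fun ω => (Xc L ω a : ℝ) * Xc L ω b * ind (¬ con ω a b)) =
      ex E p (fun ω => G (cset ω a) (rst ω (cset ω a))) := by
    congr 1
    funext ω
    rw [hG]
    simp only []
    rw [pair_card]
    by_cases hc : con ω a b
    · rw [pair_ind_false (not_not.2 hc)]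
      have : b ∈ cset ω a := hc
      rw [if_pos this]
      ring
    · rw [pair_ind_true hc]
      have : b ∉ cset ω a := hc
      rw [if_neg this, pair_xc_rst L hc]
      ring
  rw [h1, hMK V E p a G]
  -- lower bound of the inner expectation
  have h2 : ∀ S : Set V, hh L E p b - ∑ w ∈ L, (if w ∈ S then 1 else 0) *
      (cp E p b w * hh L E p w) ≤
      ex E p (fun η => if b ∈ S then 0 else (Xc L (rst η S) b : ℝ)) := by
    intro S
    have h3 := (hOff V L E D p hFG hp0 hp S b hb).2
    rw [hsub] at h3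
    rw [hh1 b]
    have h4 : ex E p (fun ω => (Xr L S ω b : ℝ)) =
        ex E p (fun η => if b ∈ S then 0 else (Xc L (rst η S) b : ℝ)) := by
      congr 1
      funext η
      unfold Xr
      split_ifs <;> simp
    rw [h4] at h3
    linarith
  have h5 : ∀ ω, ω ⊆ E → (Xc L ω a : ℝ) * hh L E p b - ∑ w ∈ L,
      (cp E p b w * hh L E p w) * ((Xc L ω a : ℝ) * ind (con ω a w)) ≤
      ex E p (fun η => G (cset ω a) (rst η (cset ω a))) := by
    intro ω _
    have h6 : ex E p (fun η => G (cset ω a) (rst η (cset ω a))) =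
        (Xc L ω a : ℝ) * ex E p (fun η => if b ∈ cset ω a then 0 else
          (Xc L (rst η (cset ω a)) b : ℝ)) := by
      rw [← hmul]
      congr 1
      funext η
      rw [hG]
      simp only []
      rw [pair_card]
    rw [h6]
    have h7 := mul_le_mul_of_nonneg_left (h2 (cset ω a)) (Nat.cast_nonneg (α := ℝ) (Xc L ω a))
    refine le_trans (le_of_eq ?_) h7
    rw [mul_sub, Finset.mul_sum]
    congr 1
    apply Finset.sum_congr rfl
    intro w _
    by_cases hw : con ω a w
    · rw [pair_ind_true hw, if_pos (show w ∈ cset ω a from hw)]; ring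
    · rw [pair_ind_false hw, if_neg (show w ∉ cset ω a from hw)]; ring
  refine le_trans ?_ (hmono _ _ h5)
  rw [hsub, hsum]
  have h8 : ex E p (fun ω => (Xc L ω a : ℝ) * hh L E p b) = hh L E p a * hh L E p b := by
    rw [hh1 a, mul_comm (ex E p (fun ω => (Xc L ω a : ℝ))), ← hmul]
    congr 1
    funext ω
    ring
  rw [h8]
  apply sub_le_sub_left
  unfold pairErr
  apply Finset.sum_le_sum
  intro w hw
  rw [hmul]
  have h9 := hTG V L E D p hFG hp0 hp a ha w hw
  have h10 : 0 ≤ cp E p b w * hh L E p w := by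
    apply mul_nonneg (hcp b w).2.1
    unfold hh
    exact Finset.sum_nonneg fun y _ => (hcp w y).2.1
  refine le_trans (mul_le_mul_of_nonneg_left h9 h10) (le_of_eq ?_)
  rw [Finset.mul_sum]
  apply Finset.sum_congr rfl
  intro z _
  rw [(hcp w z).1, (hcp z a).1]
  ring

end Pool.NL
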