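import Pool.Agent.Helper22.NL.StM
import Pool.Agent.Helper84.LE.BGR
import Pool.Agent.Helper84.LE.BWT

/-! # Project NL: module Sb, pairs of bridges between the same clusters -/

set_option autoImplicit false

open scoped BigOperators ENNReal
open Pool.LE

namespace Pool.NL

section

variable {V : Type} [DecidableEq V]

open Classical in
/-- at least `m` points of `L` -/
def evm_Sb (L : Finset V) (m : ℕ) (S : Set V) : Prop :=
  m ≤ (L.filter (fun y => y ∈ S)).card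

omit [DecidableEq V] in
theorem evm_mono_Sb {L : Finset V} {m : ℕ} {S S' : Set V} (h : S ⊆ S') (hm : evm_Sb L m S) :
    evm_Sb L m S' := by
  classical
  refine le_trans hm (Finset.card_le_card ?_)
  intro y hy
  rw [Finset.mem_filter] at hy ⊢
  exact ⟨hy.1, h hy.2⟩

omit [DecidableEq V] in
theorem evm_iff_Sb {L : Finset V} {m : ℕ} {ω : Finset (Sym2 V)} {x : V} :
    evm_Sb L m (cset ω x) ↔ m ≤ Xc L ω x := Iff.rfl

theorem ind_true_Sb {A : Prop} (h : A) : ind A = 1 := if_pos h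

theorem ind_false_Sb {A : Prop} (h : ¬ A) : ind A = 0 := if_neg h

theorem ind_nonneg_Sb (A : Prop) : 0 ≤ ind A := by
  unfold ind; split_ifs <;> norm_num

theorem ind_or_Sb (A B : Prop) : ind (A ∨ B) ≤ ind A + ind B := by
  by_cases hA : A
  · rw [ind_true_Sb (Or.inl hA), ind_true_Sb hA]
    have := ind_nonneg_Sb B
    linarith
  · by_cases hB : B
    · rw [ind_true_Sb (Or.inr hB), ind_true_Sb hB]
      have := ind_nonneg_Sb A
      linarith
    · rw [ind_false_Sb (by tauto)]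
      have h1 := ind_nonneg_Sb A
      have h2 := ind_nonneg_Sb B
      linarith

theorem pr_or_Sb (hB : StBasic) (E : Finset (Sym2 V)) {p : ℝ} (h0 : 0 ≤ p) (h1 : p ≤ 1)
    (A B : Finset (Sym2 V) → Prop) :
    pr E p (fun ω => A ω ∨ B ω) ≤ pr E p A + pr E p B := by
  obtain ⟨hmono, -, hadd, -⟩ := hB V E p h0 h1
  have h := hmono (fun ω => ind (A ω ∨ B ω)) (fun ω => ind (A ω) + ind (B ω))
    (fun ω _ => ind_or_Sb _ _)
  rw [hadd] at h
  exact h

open Classical in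
theorem card_pairs_Sb (L : Finset V) (E : Finset (Sym2 V)) (m : ℕ) (ω : Finset (Sym2 V))
    (R : V × V → V × V → Prop) :
    ((((JJ L E m ω) ×ˢ (JJ L E m ω)).filter (fun q => R q.1 q.2)).card : ℝ) =
      ∑ a ∈ drt E, ∑ b ∈ drt E, ind (a ∈ JJ L E m ω ∧ b ∈ JJ L E m ω ∧ R a b) := by
  have h1 : ((JJ L E m ω) ×ˢ (JJ L E m ω)).filter (fun q => R q.1 q.2) =
      (drt E ×ˢ drt E).filter
        (fun q => q.1 ∈ JJ L E m ω ∧ q.2 ∈ JJ L E m ω ∧ R q.1 q.2) := by
    ext q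
    simp only [Finset.mem_filter, Finset.mem_product]
    constructor
    · rintro ⟨⟨ha, hb⟩, hR⟩
      exact ⟨⟨(Finset.mem_filter.1 ha).1, (Finset.mem_filter.1 hb).1⟩, ha, hb, hR⟩
    · rintro ⟨-, ha, hb, hR⟩
      exact ⟨⟨ha, hb⟩, hR⟩
  rw [h1, Finset.card_filter, Nat.cast_sum, Finset.sum_product]
  refine Finset.sum_congr rfl fun a _ => Finset.sum_congr rfl fun b _ => ?_
  unfold ind
  split_ifs <;> norm_num

/-- The expected number of pairs of bridges in a relation. -/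
theorem ex_pairs_Sb (hB : StBasic) (L : Finset V) (E : Finset (Sym2 V)) (m : ℕ) {p : ℝ}
    (h0 : 0 ≤ p) (h1 : p ≤ 1) (R : Finset (Sym2 V) → V × V → V × V → Prop)
    (f : Finset (Sym2 V) → ℝ) (hf : ∀ ω, f ω =
      ∑ a ∈ drt E, ∑ b ∈ drt E, ind (a ∈ JJ L E m ω ∧ b ∈ JJ L E m ω ∧ R ω a b)) :
    ex E p f = ∑ a ∈ drt E, ∑ b ∈ drt E,
      pr E p (fun ω => a ∈ JJ L E m ω ∧ b ∈ JJ L E m ω ∧ R ω a b) := by
  obtain ⟨-, -, -, -, -, hsum, -⟩ := hB V E p h0 h1
  have h2 : f = fun ω => ∑ a ∈ drt E, ∑ b ∈ drt E,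
      ind (a ∈ JJ L E m ω ∧ b ∈ JJ L E m ω ∧ R ω a b) := funext hf
  rw [h2, hsum]
  refine Finset.sum_congr rfl fun a _ => ?_
  rw [hsum]
  rfl

theorem mem_JJ_Sb {L : Finset V} {E : Finset (Sym2 V)} {m : ℕ} {ω : Finset (Sym2 V)}
    {a : V × V} (h : a ∈ JJ L E m ω) :
    a ∈ drt E ∧ m ≤ Xc L ω a.1 ∧ m ≤ Xc L ω a.2 ∧ ¬ con ω a.1 a.2 := by
  classical
  unfold JJ at h
  rw [Finset.mem_filter] at h
  exact ⟨h.1, h.2.1, h.2.2.1, h.2.2.2⟩

/-- Pairs of bridges with the same first and the same second cluster. -/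
theorem pr_both_Sb (hD : StDist) (hB : StBasic) (L : Finset V) (E : Finset (Sym2 V)) (m : ℕ)
    {p : ℝ} (h0 : 0 ≤ p) (h1 : p ≤ 1) (a b : V × V) :
    pr E p (fun ω => a ∈ JJ L E m ω ∧ b ∈ JJ L E m ω ∧ con ω a.1 b.1 ∧ con ω a.2 b.2) ≤
      GG2 L E p m a.1 b.1 * GG2 L E p m a.2 b.2 := by
  obtain ⟨-, -, -, -, -, -, -, hprmono, -⟩ := hB V E p h0 h1
  have h := hD V p h0 h1 [(a.1, fun S => evm_Sb L m S ∧ b.1 ∈ S),
    (a.2, fun S => evm_Sb L m S ∧ b.2 ∈ S)] (by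
      intro q hq S S' hS hqS
      rcases List.mem_cons.1 hq with rfl | hq
      · exact ⟨evm_mono_Sb hS hqS.1, hS hqS.2⟩
      · rcases List.mem_cons.1 hq with rfl | hq
        · exact ⟨evm_mono_Sb hS hqS.1, hS hqS.2⟩
        · exact absurd hq List.not_mem_nil) E
  simp only [List.map_cons, List.map_nil, List.prod_cons, List.prod_nil, mul_one] at h
  refine le_trans (hprmono _ _ ?_) h
  rintro ω - ⟨ha, hb, hc1, hc2⟩
  obtain ⟨-, hm1, hm2, hnc⟩ := mem_JJ_Sb ha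
  refine ⟨?_, ?_⟩
  · intro q hq
    rcases List.mem_cons.1 hq with rfl | hq
    · exact ⟨hm1, hc1⟩
    · rcases List.mem_cons.1 hq with rfl | hq
      · exact ⟨hm2, hc2⟩
      · exact absurd hq List.not_mem_nil
  · simp only [List.pairwise_cons, List.mem_cons, List.not_mem_nil, or_false, forall_eq,
      List.Pairwise.nil, and_true, IsEmpty.forall_iff, implies_true]
    exact hnc

end

theorem hSb (hD : StDist) (hB : StBasic) (hClu : StClu) : StSb := by
  intro V _ L E D p m hFG h0 h1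
  have h2 := ex_pairs_Sb hB L E m h0 h1 (fun ω a b => con ω a.1 b.1 ∧ con ω a.2 b.2)
    (fun ω => (SS2 L E m ω : ℝ)) (fun ω => by
      rw [← card_pairs_Sb L E m ω (fun a b => con ω a.1 b.1 ∧ con ω a.2 b.2)]
      unfold SS2
      congr)
  rw [h2]
  exact Finset.sum_le_sum fun a _ => Finset.sum_le_sum fun b _ =>
    pr_both_Sb hD hB L E m h0 h1 a b

end Pool.NL
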