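import Pool.Agent.Helper22.NL.M_Sa

/-! # Project NL: module Sc, the second moment of the number of bridges -/

set_option autoImplicit false

open scoped BigOperators ENNReal
open Pool.LE

namespace Pool.NL

section

variable {V : Type} [DecidableEq V]

/-- Two bridges between four different clusters. -/
theorem pr_four_Sc (hD : StDist) (hB : StBasic) (L : Finset V) (E : Finset (Sym2 V)) (m : ℕ)
    {p : ℝ} (h0 : 0 ≤ p) (h1 : p ≤ 1) (a b : V × V) :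
    pr E p (fun ω => a ∈ JJ L E m ω ∧ b ∈ JJ L E m ω ∧ ¬ con ω a.1 b.1 ∧ ¬ con ω a.1 b.2 ∧
      ¬ con ω a.2 b.1 ∧ ¬ con ω a.2 b.2) ≤
      pr E p (fun ω => m ≤ Xc L ω a.1) * (pr E p (fun ω => m ≤ Xc L ω a.2) *
        (pr E p (fun ω => m ≤ Xc L ω b.1) * pr E p (fun ω => m ≤ Xc L ω b.2))) := by
  obtain ⟨-, -, -, -, -, -, -, hprmono, -⟩ := hB V E p h0 h1
  have h := hD V p h0 h1 [(a.1, fun S => evm_Sb L m S), (a.2, fun S => evm_Sb L m S),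
    (b.1, fun S => evm_Sb L m S), (b.2, fun S => evm_Sb L m S)] (by
      intro q hq S S' hS hqS
      rcases List.mem_cons.1 hq with rfl | hq
      · exact evm_mono_Sb hS hqS
      · rcases List.mem_cons.1 hq with rfl | hq
        · exact evm_mono_Sb hS hqS
        · rcases List.mem_cons.1 hq with rfl | hq
          · exact evm_mono_Sb hS hqS
          · rcases List.mem_cons.1 hq with rfl | hq
            · exact evm_mono_Sb hS hqS
            · exact absurd hq List.not_mem_nil) E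
  simp only [List.map_cons, List.map_nil, List.prod_cons, List.prod_nil, mul_one] at h
  refine le_trans (hprmono _ _ ?_) h
  rintro ω - ⟨ha, hb, h11, h12, h21, h22⟩
  obtain ⟨-, hm1, hm2, hnc⟩ := mem_JJ_Sb ha
  obtain ⟨-, hm1', hm2', hnc'⟩ := mem_JJ_Sb hb
  refine ⟨?_, ?_⟩
  · intro q hq
    rcases List.mem_cons.1 hq with rfl | hq
    · exact hm1
    · rcases List.mem_cons.1 hq with rfl | hq
      · exact hm2
      · rcases List.mem_cons.1 hq with rfl | hq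
        · exact hm1'
        · rcases List.mem_cons.1 hq with rfl | hq
          · exact hm2'
          · exact absurd hq List.not_mem_nil
  · simp only [List.pairwise_cons, List.mem_cons, List.not_mem_nil, or_false, forall_eq,
      List.Pairwise.nil, and_true, IsEmpty.forall_iff, implies_true, forall_eq_or_imp]
    exact ⟨⟨hnc, h11, h12⟩, ⟨h21, h22⟩, hnc'⟩

theorem swap_mem_drt_Sc {E : Finset (Sym2 V)} {a : V × V} : a.swap ∈ drt E ↔ a ∈ drt E := by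
  rw [mem_drt', mem_drt', Prod.fst_swap, Prod.snd_swap, Sym2.eq_swap]

theorem swap_mem_JJ_Sc {L : Finset V} {E : Finset (Sym2 V)} {m : ℕ} {ω : Finset (Sym2 V)}
    {a : V × V} : a.swap ∈ JJ L E m ω ↔ a ∈ JJ L E m ω := by
  classical
  unfold JJ
  rw [Finset.mem_filter, Finset.mem_filter, swap_mem_drt_Sc, Prod.fst_swap, Prod.snd_swap]
  constructor
  · rintro ⟨h1, h2, h3, h4⟩
    exact ⟨h1, h3, h2, fun h => h4 (con_symm h)⟩
  · rintro ⟨h1, h2, h3, h4⟩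
    exact ⟨h1, h3, h2, fun h => h4 (con_symm h)⟩

theorem sum_swap_Sc (E : Finset (Sym2 V)) (f : V × V → ℝ) :
    ∑ a ∈ drt E, f a.swap = ∑ a ∈ drt E, f a := by
  refine Finset.sum_equiv (Equiv.prodComm V V) (fun a => ?_) (fun a _ => rfl)
  exact swap_mem_drt_Sc.symm

end

theorem hSc (hD : StDist) (hB : StBasic) (hClu : StClu) : StSc := by
  classical
  intro V _ L E D p q m hFG h0 h1 hq0 hq
  obtain ⟨-, -, -, -, -, -, hpr, hprmono, -⟩ := hB V E p h0 h1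
  -- the four relations
  let T : V × V → V × V → ℝ := fun a b =>
    pr E p (fun ω => a ∈ JJ L E m ω ∧ b ∈ JJ L E m ω ∧ con ω a.1 b.1)
  have hT : ex E p (fun ω => (SS1 L E m ω : ℝ)) = ∑ a ∈ drt E, ∑ b ∈ drt E, T a b :=
    ex_pairs_Sb hB L E m h0 h1 (fun ω a b => con ω a.1 b.1)
      (fun ω => (SS1 L E m ω : ℝ)) (fun ω => by
        rw [← card_pairs_Sb L E m ω (fun a b => con ω a.1 b.1)]
        unfold SS1
        congr)
  have hJ : ex E p (fun ω => ((JJ L E m ω).card : ℝ) ^ 2) = ∑ a ∈ drt E, ∑ b ∈ drt E,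
      pr E p (fun ω => a ∈ JJ L E m ω ∧ b ∈ JJ L E m ω ∧ True) :=
    ex_pairs_Sb hB L E m h0 h1 (fun _ _ _ => True)
      (fun ω => ((JJ L E m ω).card : ℝ) ^ 2) (fun ω => by
        rw [← card_pairs_Sb L E m ω (fun _ _ => True)]
        simp [Finset.card_product, pow_two])
  have hs1 : ∀ a b : V × V,
      pr E p (fun ω => a ∈ JJ L E m ω ∧ b ∈ JJ L E m ω ∧ con ω a.1 b.2) = T a b.swap := by
    intro a b
    refine le_antisymm (hprmono _ _ ?_) (hprmono _ _ ?_)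
    · rintro ω - ⟨h1, h2, h3⟩
      exact ⟨h1, swap_mem_JJ_Sc.2 h2, h3⟩
    · rintro ω - ⟨h1, h2, h3⟩
      exact ⟨h1, swap_mem_JJ_Sc.1 h2, h3⟩
  have hs2 : ∀ a b : V × V,
      pr E p (fun ω => a ∈ JJ L E m ω ∧ b ∈ JJ L E m ω ∧ con ω a.2 b.1) = T a.swap b := by
    intro a b
    refine le_antisymm (hprmono _ _ ?_) (hprmono _ _ ?_)
    · rintro ω - ⟨h1, h2, h3⟩
      exact ⟨swap_mem_JJ_Sc.2 h1, h2, h3⟩
    · rintro ω - ⟨h1, h2, h3⟩
      exact ⟨swap_mem_JJ_Sc.1 h1, h2, h3⟩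
  have hs3 : ∀ a b : V × V,
      pr E p (fun ω => a ∈ JJ L E m ω ∧ b ∈ JJ L E m ω ∧ con ω a.2 b.2) =
        T a.swap b.swap := by
    intro a b
    refine le_antisymm (hprmono _ _ ?_) (hprmono _ _ ?_)
    · rintro ω - ⟨h1, h2, h3⟩
      exact ⟨swap_mem_JJ_Sc.2 h1, swap_mem_JJ_Sc.2 h2, h3⟩
    · rintro ω - ⟨h1, h2, h3⟩
      exact ⟨swap_mem_JJ_Sc.1 h1, swap_mem_JJ_Sc.1 h2, h3⟩
  have hmain : ∀ a ∈ drt E, ∀ b ∈ drt E,
      pr E p (fun ω => a ∈ JJ L E m ω ∧ b ∈ JJ L E m ω ∧ True) ≤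
        q ^ 4 + (T a b + (T a b.swap + (T a.swap b + T a.swap b.swap))) := by
    intro a ha b hb
    have h4 := pr_four_Sc hD hB L E m h0 h1 a b
    have h5 : pr E p (fun ω => m ≤ Xc L ω a.1) * (pr E p (fun ω => m ≤ Xc L ω a.2) *
        (pr E p (fun ω => m ≤ Xc L ω b.1) * pr E p (fun ω => m ≤ Xc L ω b.2))) ≤ q ^ 4 := by
      have e : q ^ 4 = q * (q * (q * q)) := by ring
      rw [e]
      have ha1 := (mem_drt_Sa hFG ha).1
      have ha2 := (mem_drt_Sa hFG ha).2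
      have hb1 := (mem_drt_Sa hFG hb).1
      have hb2 := (mem_drt_Sa hFG hb).2
      have n1 := (hpr (fun ω => m ≤ Xc L ω a.2)).1
      have n2 := (hpr (fun ω => m ≤ Xc L ω b.1)).1
      have n3 := (hpr (fun ω => m ≤ Xc L ω b.2)).1
      refine mul_le_mul (hq _ ha1) (mul_le_mul (hq _ ha2) (mul_le_mul (hq _ hb1) (hq _ hb2)
        n3 hq0) (mul_nonneg n2 n3) hq0) (mul_nonneg n1 (mul_nonneg n2 n3)) hq0
    have h6 := hprmono
      (fun ω => a ∈ JJ L E m ω ∧ b ∈ JJ L E m ω ∧ True)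
      (fun ω => (a ∈ JJ L E m ω ∧ b ∈ JJ L E m ω ∧ ¬ con ω a.1 b.1 ∧ ¬ con ω a.1 b.2 ∧
        ¬ con ω a.2 b.1 ∧ ¬ con ω a.2 b.2) ∨
        ((a ∈ JJ L E m ω ∧ b ∈ JJ L E m ω ∧ con ω a.1 b.1) ∨
        ((a ∈ JJ L E m ω ∧ b ∈ JJ L E m ω ∧ con ω a.1 b.2) ∨
        ((a ∈ JJ L E m ω ∧ b ∈ JJ L E m ω ∧ con ω a.2 b.1) ∨
        (a ∈ JJ L E m ω ∧ b ∈ JJ L E m ω ∧ con ω a.2 b.2)))))
      (fun ω _ h => by tauto)
    have h7 := pr_or_Sb hB E h0 h1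
      (fun ω => a ∈ JJ L E m ω ∧ b ∈ JJ L E m ω ∧ ¬ con ω a.1 b.1 ∧ ¬ con ω a.1 b.2 ∧
        ¬ con ω a.2 b.1 ∧ ¬ con ω a.2 b.2)
      (fun ω => (a ∈ JJ L E m ω ∧ b ∈ JJ L E m ω ∧ con ω a.1 b.1) ∨
        ((a ∈ JJ L E m ω ∧ b ∈ JJ L E m ω ∧ con ω a.1 b.2) ∨
        ((a ∈ JJ L E m ω ∧ b ∈ JJ L E m ω ∧ con ω a.2 b.1) ∨
        (a ∈ JJ L E m ω ∧ b ∈ JJ L E m ω ∧ con ω a.2 b.2))))
    have h8 := pr_or_Sb hB E h0 h1
      (fun ω => a ∈ JJ L E m ω ∧ b ∈ JJ L E m ω ∧ con ω a.1 b.1)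
      (fun ω => (a ∈ JJ L E m ω ∧ b ∈ JJ L E m ω ∧ con ω a.1 b.2) ∨
        ((a ∈ JJ L E m ω ∧ b ∈ JJ L E m ω ∧ con ω a.2 b.1) ∨
        (a ∈ JJ L E m ω ∧ b ∈ JJ L E m ω ∧ con ω a.2 b.2)))
    have h9 := pr_or_Sb hB E h0 h1
      (fun ω => a ∈ JJ L E m ω ∧ b ∈ JJ L E m ω ∧ con ω a.1 b.2)
      (fun ω => (a ∈ JJ L E m ω ∧ b ∈ JJ L E m ω ∧ con ω a.2 b.1) ∨
        (a ∈ JJ L E m ω ∧ b ∈ JJ L E m ω ∧ con ω a.2 b.2))
    have h10 := pr_or_Sb hB E h0 h1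
      (fun ω => a ∈ JJ L E m ω ∧ b ∈ JJ L E m ω ∧ con ω a.2 b.1)
      (fun ω => a ∈ JJ L E m ω ∧ b ∈ JJ L E m ω ∧ con ω a.2 b.2)
    have e1 := hs1 a b
    have e2 := hs2 a b
    have e3 := hs3 a b
    have e0 : pr E p (fun ω => a ∈ JJ L E m ω ∧ b ∈ JJ L E m ω ∧ con ω a.1 b.1) = T a b := rfl
    linarith
  rw [hJ, hT]
  have hsum := Finset.sum_le_sum fun a ha => Finset.sum_le_sum fun b hb => hmain a ha b hb
  refine le_trans hsum ?_
  simp only [Finset.sum_add_distrib]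
  have k1 : ∀ f : V × V → V × V → ℝ, ∑ a ∈ drt E, ∑ b ∈ drt E, f a b.swap =
      ∑ a ∈ drt E, ∑ b ∈ drt E, f a b := fun f =>
    Finset.sum_congr rfl fun a _ => sum_swap_Sc E (f a)
  have k2 : ∀ f : V × V → V × V → ℝ, ∑ a ∈ drt E, ∑ b ∈ drt E, f a.swap b =
      ∑ a ∈ drt E, ∑ b ∈ drt E, f a b := fun f =>
    sum_swap_Sc E (fun a => ∑ b ∈ drt E, f a b)
  have k3 : ∑ a ∈ drt E, ∑ b ∈ drt E, T a.swap b.swap = ∑ a ∈ drt E, ∑ b ∈ drt E, T a b := by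
    rw [k2 (fun a b => T a b.swap), k1 T]
  rw [k1 T, k2 T, k3]
  simp only [Finset.sum_const, nsmul_eq_mul]
  apply le_of_eq
  ring

end Pool.NL
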