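import Pool.Agent.Helper22.NL.StM
import Pool.Agent.Helper84.LE.BGR

/-! # Project NL: module Surg (surgery along a path) -/

set_option autoImplicit false

open scoped BigOperators
open Pool.LE

namespace Pool.NL

/-- the configuration with the first `i` edges of the path added -/
def W_Surg {V : Type} [DecidableEq V] (v : ℕ → V) : ℕ → Finset (Sym2 V) → Finset (Sym2 V)
  | 0, ω => ω
  | i + 1, ω => insert s(v i, v (i + 1)) (W_Surg v i ω)

theorem subset_W_Surg {V : Type} [DecidableEq V] (v : ℕ → V) (i : ℕ) (ω : Finset (Sym2 V)) :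
    ω ⊆ W_Surg v i ω := by
  induction i with
  | zero => exact Finset.Subset.refl _
  | succ i ih => exact ih.trans (Finset.subset_insert _ _)

theorem W_subset_Surg {V : Type} [DecidableEq V] (v : ℕ → V) (E : Finset (Sym2 V)) (l : ℕ)
    (hv : ∀ i, i < l → s(v i, v (i + 1)) ∈ E) (ω : Finset (Sym2 V)) (hω : ω ⊆ E) (i : ℕ)
    (hi : i ≤ l) : W_Surg v i ω ⊆ E := by
  induction i with
  | zero => exact hω
  | succ i ih => exact Finset.insert_subset (hv i (by omega)) (ih (by omega))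

theorem con_W_Surg {V : Type} [DecidableEq V] (v : ℕ → V) (ω : Finset (Sym2 V)) (i : ℕ) :
    con (W_Surg v i ω) (v 0) (v i) := by
  induction i with
  | zero => exact con_refl _ _
  | succ i ih =>
    exact con_trans (con_mono (Finset.subset_insert _ _) ih)
      (con_of_mem (Finset.mem_insert_self _ _))

/-- adding one edge -/
theorem con_insert_Surg {V : Type} [DecidableEq V] {η : Finset (Sym2 V)} {a b x y : V}
    (h : con (insert s(a, b) η) x y) :
    con η x y ∨ (con η x a ∧ con η b y) ∨ (con η x b ∧ con η a y) := by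
  obtain ⟨q⟩ := h
  induction q with
  | nil => exact Or.inl (con_refl _ _)
  | cons hadj q ih =>
    rename_i u w z
    have hm := (gr_adj.1 hadj).1
    rw [Finset.mem_insert] at hm
    rcases hm with hm | hm
    · rcases Sym2.eq_iff.1 hm with ⟨rfl, rfl⟩ | ⟨rfl, rfl⟩
      · rcases ih with ih | ih | ih
        · exact Or.inr (Or.inl ⟨con_refl _ _, ih⟩)
        · exact Or.inr (Or.inl ⟨con_refl _ _, ih.2⟩)
        · exact Or.inl ih.2
      · rcases ih with ih | ih | ih
        · exact Or.inr (Or.inr ⟨con_refl _ _, ih⟩)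
        · exact Or.inl ih.2
        · exact Or.inr (Or.inr ⟨con_refl _ _, ih.2⟩)
    · have h1 : con η u w := con_of_mem hm
      rcases ih with ih | ih | ih
      · exact Or.inl (con_trans h1 ih)
      · exact Or.inr (Or.inl ⟨con_trans h1 ih.1, ih.2⟩)
      · exact Or.inr (Or.inr ⟨con_trans h1 ih.1, ih.2⟩)

theorem ex_nonneg_Surg (hB : StBasic) {V : Type} [DecidableEq V] (E : Finset (Sym2 V)) (p : ℝ)
    (hp0 : 0 ≤ p) (hp1 : p ≤ 1) (F : Finset (Sym2 V) → ℝ) (hF : ∀ ω, 0 ≤ F ω) :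
    0 ≤ ex E p F := by
  obtain ⟨h1, h2, -⟩ := hB V E p hp0 hp1
  have := h1 (fun _ => 0) F fun ω _ => hF ω
  rwa [h2] at this

theorem ex_insert_Surg (hB : StBasic) (hE : StEdge) {V : Type} [DecidableEq V]
    (E : Finset (Sym2 V)) (p : ℝ) (hp0 : 0 < p) (hp1 : p ≤ 1) (e : Sym2 V) (he : e ∈ E)
    (F : Finset (Sym2 V) → ℝ) (hF : ∀ ω, 0 ≤ F ω) :
    ex E p (fun ω => F (insert e ω)) ≤ 1 / p * ex E p F := by
  obtain ⟨h1, -, -, h4⟩ := hE V E p e F he
  have h5 : 0 ≤ ex (E.erase e) p F := ex_nonneg_Surg hB _ p hp0.le hp1 F hF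
  have h6 : 0 ≤ (1 - p) * ex (E.erase e) p F := mul_nonneg (by linarith) h5
  rw [h4, one_div, inv_mul_eq_div, le_div_iff₀ hp0, h1]
  linarith

theorem ex_W_Surg (hB : StBasic) (hE : StEdge) {V : Type} [DecidableEq V]
    (E : Finset (Sym2 V)) (p : ℝ) (hp0 : 0 < p) (hp1 : p ≤ 1) (l : ℕ) (v : ℕ → V)
    (hv : ∀ i, i < l → s(v i, v (i + 1)) ∈ E) (i : ℕ) (hi : i ≤ l) :
    ∀ (F : Finset (Sym2 V) → ℝ), (∀ ω, 0 ≤ F ω) →
      ex E p (fun ω => F (W_Surg v i ω)) ≤ (1 / p) ^ i * ex E p F := by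
  induction i with
  | zero =>
    intro F _
    rw [pow_zero, one_mul]
    exact le_refl _
  | succ i ih =>
    intro F hF
    have h1 := ih (by omega) (fun ω => F (insert s(v i, v (i + 1)) ω)) fun ω => hF _
    have h2 := ex_insert_Surg hB hE E p hp0 hp1 _ (hv i (by omega)) F hF
    calc ex E p (fun ω => F (W_Surg v (i + 1) ω))
        = ex E p (fun ω => F (insert s(v i, v (i + 1)) (W_Surg v i ω))) := rfl
      _ ≤ (1 / p) ^ i * ex E p (fun ω => F (insert s(v i, v (i + 1)) ω)) := h1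
      _ ≤ (1 / p) ^ i * (1 / p * ex E p F) :=
          mul_le_mul_of_nonneg_left h2 (pow_nonneg (by positivity) _)
      _ = (1 / p) ^ (i + 1) * ex E p F := by ring

theorem ind_nonneg_Surg (A : Prop) : 0 ≤ ind A := by
  unfold ind
  split_ifs <;> norm_num

theorem path_Surg (hClu : StClu) {V : Type} [DecidableEq V] (L : Finset V) (E : Finset (Sym2 V))
    (D : ℕ) (hG : FG L E D) (f : ℕ → ℕ → ℝ) (hf0 : ∀ a b, 0 ≤ f a b)
    (hf : ∀ a a' b b', a ≤ a' → b ≤ b' → f a b ≤ f a' b') (l : ℕ) (v : ℕ → V)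
    (hv : ∀ i, i < l → s(v i, v (i + 1)) ∈ E) (ω : Finset (Sym2 V)) (hω : ω ⊆ E) :
    f (Xc L ω (v 0)) (Xc L ω (v l)) * ind (¬ con ω (v 0) (v l)) ≤
      ∑ i ∈ Finset.range l, f (Xc L (W_Surg v i ω) (v i)) (Xc L (W_Surg v i ω) (v (i + 1))) *
        ind (¬ con (W_Surg v i ω) (v i) (v (i + 1))) := by
  classical
  have hn : ∀ i ∈ Finset.range l, 0 ≤ f (Xc L (W_Surg v i ω) (v i))
      (Xc L (W_Surg v i ω) (v (i + 1))) * ind (¬ con (W_Surg v i ω) (v i) (v (i + 1))) :=
    fun i _ => mul_nonneg (hf0 _ _) (ind_nonneg_Surg _)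
  by_cases hc : con ω (v 0) (v l)
  · have h0 : ind (¬ con ω (v 0) (v l)) = 0 := by
      unfold ind
      rw [if_neg (not_not.2 hc)]
    rw [h0, mul_zero]
    exact Finset.sum_nonneg hn
  · have hex : ∃ i, con (W_Surg v i ω) (v 0) (v l) := ⟨l, con_W_Surg v ω l⟩
    have hi1 : con (W_Surg v (Nat.find hex) ω) (v 0) (v l) := Nat.find_spec hex
    have hi2 : Nat.find hex ≤ l := Nat.find_min' hex (con_W_Surg v ω l)
    have hi0 : Nat.find hex ≠ 0 := by
      intro h0
      rw [h0] at hi1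
      exact hc hi1
    obtain ⟨k, hk⟩ := Nat.exists_eq_succ_of_ne_zero hi0
    have hk1 : ¬ con (W_Surg v k ω) (v 0) (v l) := Nat.find_min hex (by omega)
    rw [hk] at hi1 hi2
    have hkl : k < l := hi2
    set η := W_Surg v k ω with hη
    have hηE : η ⊆ E := W_subset_Surg v E l hv ω hω k hkl.le
    have hωη : ω ⊆ η := subset_W_Surg v k ω
    have h0k : con η (v 0) (v k) := con_W_Surg v ω k
    have h1 : con η (v (k + 1)) (v l) := by
      have hi3 : con (insert s(v k, v (k + 1)) η) (v 0) (v l) := hi1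
      rcases con_insert_Surg hi3 with h | h | h
      · exact absurd h hk1
      · exact h.2
      · exact absurd (con_trans h0k h.2) hk1
    have h2 : ¬ con η (v k) (v (k + 1)) := fun h => hk1 (con_trans (con_trans h0k h) h1)
    obtain ⟨-, -, -, -, hmono, -, -⟩ := hClu V L E ω D hG hω
    obtain ⟨-, heq, -, -, -, -, -⟩ := hClu V L E η D hG hηE
    have h3 : Xc L ω (v 0) ≤ Xc L η (v k) :=
      ((hmono η hωη (v 0)).2).trans (heq _ _ h0k).2.le
    have h4 : Xc L ω (v l) ≤ Xc L η (v (k + 1)) :=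
      ((hmono η hωη (v l)).2).trans (heq _ _ h1).2.symm.le
    have h5 : f (Xc L ω (v 0)) (Xc L ω (v l)) * ind (¬ con ω (v 0) (v l)) ≤
        f (Xc L η (v k)) (Xc L η (v (k + 1))) * ind (¬ con η (v k) (v (k + 1))) := by
      unfold ind
      rw [if_pos hc, if_pos h2, mul_one, mul_one]
      exact hf _ _ _ _ h3 h4
    exact h5.trans (Finset.single_le_sum hn (Finset.mem_range.2 hkl))

theorem hSurg (hB : StBasic) (hE : StEdge) (hClu : StClu) : StSurg := by
  classical
  intro V _ L E D p hG hp0 hp1 f hf0 hf l v hv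
  obtain ⟨h1, -, -, -, -, h6, -⟩ := hB V E p hp0.le hp1
  refine (h1 _ _ fun ω hω => path_Surg hClu L E D hG f hf0 hf l v hv ω hω).trans ?_
  rw [h6 ℕ (Finset.range l) (fun i ω => f (Xc L (W_Surg v i ω) (v i))
    (Xc L (W_Surg v i ω) (v (i + 1))) * ind (¬ con (W_Surg v i ω) (v i) (v (i + 1)))),
    Finset.mul_sum]
  refine Finset.sum_le_sum fun i hi => ?_
  have hil : i ≤ l := (Finset.mem_range.1 hi).le
  have hF : ∀ ω : Finset (Sym2 V), 0 ≤ f (Xc L ω (v i)) (Xc L ω (v (i + 1))) *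
      ind (¬ con ω (v i) (v (i + 1))) := fun ω => mul_nonneg (hf0 _ _) (ind_nonneg_Surg _)
  have h7 := ex_W_Surg hB hE E p hp0 hp1 l v hv i hil (fun ω => f (Xc L ω (v i))
    (Xc L ω (v (i + 1))) * ind (¬ con ω (v i) (v (i + 1)))) hF
  refine h7.trans ?_
  refine mul_le_mul_of_nonneg_right ?_ (ex_nonneg_Surg hB E p hp0.le hp1 _ hF)
  exact pow_le_pow_right₀ ((one_le_div hp0).2 hp1) hil

end Pool.NL
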