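import Pool.Agent.Helper22.NL.StM

/-! # Project NL: 4.4, comparison of cluster tails at two parameters -/

set_option autoImplicit false

open scoped BigOperators ENNReal
open Pool.LE

namespace Pool.NL
namespace Tree

variable {V : Type} [DecidableEq V]

theorem closed_of (G : SimpleGraph V) (S : Set V) (hS : ∀ a b, a ∈ S → G.Adj a b → b ∈ S)
    {x y : V} (h : G.Reachable x y) (hx : x ∈ S) : y ∈ S := by
  obtain ⟨w⟩ := h
  induction w with
  | nil => exact hx
  | cons hadj _ ih => exact ih (hS _ _ hx hadj)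

theorem con_refl (ω : Finset (Sym2 V)) (x : V) : con ω x x := SimpleGraph.Reachable.refl x

theorem con_mono {ω η : Finset (Sym2 V)} (h : ω ⊆ η) {x y : V} (hc : con ω x y) : con η x y := by
  unfold con gr at *
  exact hc.mono (SimpleGraph.fromEdgeSet_mono (by exact_mod_cast h))

theorem adj_con {ω : Finset (Sym2 V)} {x y : V} (h : s(x, y) ∈ ω) (hne : x ≠ y) : con ω x y := by
  unfold con gr
  apply SimpleGraph.Adj.reachable
  rw [SimpleGraph.fromEdgeSet_adj]
  exact ⟨by exact_mod_cast h, hne⟩

open Classical in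
/-- the points connected to `K` -/
noncomputable def rs (L K : Finset V) (ω : Finset (Sym2 V)) : Finset V :=
  L.filter (fun y => ∃ v ∈ K, con ω v y)

theorem mem_rs (L K : Finset V) (ω : Finset (Sym2 V)) (y : V) :
    y ∈ rs L K ω ↔ y ∈ L ∧ ∃ v ∈ K, con ω v y := by
  unfold rs
  simp only [Finset.mem_filter]

theorem rs_ge {L K : Finset V} (hK : K ⊆ L) (ω : Finset (Sym2 V)) : K ⊆ rs L K ω := by
  intro v hv
  rw [mem_rs]
  exact ⟨hK hv, v, hv, con_refl ω v⟩

theorem rs_le {L K : Finset V} {F ω : Finset (Sym2 V)} (hω : ω ⊆ F)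
    (hno : ∀ u v, u ∈ K → v ∉ K → s(u, v) ∉ F) : rs L K ω ⊆ K := by
  intro y hy
  rw [mem_rs] at hy
  obtain ⟨_, v, hv, hc⟩ := hy
  have := closed_of (gr ω) (↑K : Set V) (by
    intro a b ha hab
    by_contra hb
    have hb' : b ∉ K := by simpa using hb
    have ha' : a ∈ K := by simpa using ha
    apply hno a b ha' hb'
    unfold gr at hab
    rw [SimpleGraph.fromEdgeSet_adj] at hab
    exact hω (by exact_mod_cast hab.1)) hc (by simpa using hv)
  simpa using this

theorem rs_insert (L K : Finset V) (ω : Finset (Sym2 V)) {u v : V} (hu : u ∈ K) (hv : v ∉ K) :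
    rs L K (insert s(u, v) ω) = rs L (insert v K) ω := by
  have huv : u ≠ v := fun h => hv (h ▸ hu)
  have hsub : ω ⊆ insert s(u, v) ω := Finset.subset_insert _ _
  have huvc : con (insert s(u, v) ω) u v := adj_con (Finset.mem_insert_self _ _) huv
  ext y
  rw [mem_rs, mem_rs]
  constructor
  · rintro ⟨hy, k, hk, hc⟩
    refine ⟨hy, ?_⟩
    have := closed_of (gr (insert s(u, v) ω)) {y | ∃ k ∈ insert v K, con ω k y} (by
      intro a b ha hab
      obtain ⟨k', hk', hc'⟩ := ha
      unfold gr at hab
      rw [SimpleGraph.fromEdgeSet_adj] at hab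
      have h1 : s(a, b) ∈ insert s(u, v) ω := by exact_mod_cast hab.1
      rw [Finset.mem_insert] at h1
      rcases h1 with h1 | h1
      · have hb : b = u ∨ b = v := by
          rw [Sym2.eq_iff] at h1
          rcases h1 with ⟨_, h⟩ | ⟨_, h⟩
          · right; exact h
          · left; exact h
        refine ⟨b, ?_, con_refl ω b⟩
        rw [Finset.mem_insert]
        rcases hb with hb | hb
        · right; rw [hb]; exact hu
        · left; exact hb
      · refine ⟨k', hk', ?_⟩
        have h2 : con ω a b := adj_con h1 hab.2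
        exact SimpleGraph.Reachable.trans hc' h2) hc ⟨k, Finset.mem_insert_of_mem hk, con_refl ω k⟩
    exact this
  · rintro ⟨hy, k, hk, hc⟩
    refine ⟨hy, ?_⟩
    rw [Finset.mem_insert] at hk
    have hc' := con_mono hsub hc
    rcases hk with rfl | hk
    · exact ⟨u, hu, SimpleGraph.Reachable.trans huvc hc'⟩
    · exact ⟨k, hk, hc'⟩

/-- degree in `F` -/
def dg (F : Finset (Sym2 V)) (v : V) : ℕ := (F.filter (fun e => v ∈ e)).card

theorem dg_erase_mem {F : Finset (Sym2 V)} {e : Sym2 V} (he : e ∈ F) {v : V} (hv : v ∈ e) :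
    dg (F.erase e) v + 1 = dg F v := by
  unfold dg
  rw [Finset.filter_erase]
  rw [Finset.card_erase_add_one]
  rw [Finset.mem_filter]; exact ⟨he, hv⟩

theorem dg_erase_le (F : Finset (Sym2 V)) (e : Sym2 V) (v : V) : dg (F.erase e) v ≤ dg F v := by
  unfold dg
  apply Finset.card_le_card
  apply Finset.filter_subset_filter
  exact Finset.erase_subset _ _

theorem sum_dg {F : Finset (Sym2 V)} {e : Sym2 V} (he : e ∈ F) {K : Finset V} {u : V} (hu : u ∈ K)
    (hue : u ∈ e) : (∑ w ∈ K, dg (F.erase e) w) + 1 ≤ ∑ w ∈ K, dg F w := by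
  rw [← Finset.add_sum_erase K _ hu, ← Finset.add_sum_erase K (dg F) hu]
  have h1 := dg_erase_mem he hue
  have h2 : ∑ w ∈ K.erase u, dg (F.erase e) w ≤ ∑ w ∈ K.erase u, dg F w :=
    Finset.sum_le_sum (fun w _ => dg_erase_le F e w)
  omega

theorem cs_bound {p q a b c d R : ℝ} (hp : 0 < p) (hp1 : p < 1)
    (hac : a ^ 2 ≤ R * c) (hbd : b ^ 2 ≤ R * d) :
    (q * a + (1 - q) * b) ^ 2 ≤
      (q ^ 2 / p + (1 - q) ^ 2 / (1 - p)) * (R * (p * c + (1 - p) * d)) := by
  have h1p : 0 < 1 - p := by linarith
  have h1 : (q * a + (1 - q) * b) ^ 2 ≤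
      (q ^ 2 / p + (1 - q) ^ 2 / (1 - p)) * (p * a ^ 2 + (1 - p) * b ^ 2) := by
    have h2 : (q ^ 2 / p + (1 - q) ^ 2 / (1 - p)) * (p * a ^ 2 + (1 - p) * b ^ 2) -
        (q * a + (1 - q) * b) ^ 2 =
        (q * (1 - p) * b - (1 - q) * p * a) ^ 2 / (p * (1 - p)) := by
      field_simp
      ring
    have h3 : 0 ≤ (q * (1 - p) * b - (1 - q) * p * a) ^ 2 / (p * (1 - p)) := by positivity
    linarith
  refine h1.trans ?_
  have h4 : 0 ≤ q ^ 2 / p + (1 - q) ^ 2 / (1 - p) := by positivity
  apply mul_le_mul_of_nonneg_left _ h4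
  nlinarith [mul_le_mul_of_nonneg_left hac hp.le, mul_le_mul_of_nonneg_left hbd h1p.le]

theorem r_ge {p q : ℝ} (hp : 0 < p) (hp1 : p < 1) : 1 ≤ q ^ 2 / p + (1 - q) ^ 2 / (1 - p) := by
  have h1p : 0 < 1 - p := by linarith
  have h2 : q ^ 2 / p + (1 - q) ^ 2 / (1 - p) - 1 = (q - p) ^ 2 / (p * (1 - p)) := by
    field_simp
    ring
  have h3 : 0 ≤ (q - p) ^ 2 / (p * (1 - p)) := by positivity
  linarith

theorem main (hE : StEdge) (hB : StBasic) (L : Finset V) (D : ℕ) (p p' : ℝ) (hp : 0 < p)
    (hp1 : p < 1) (hp' : 0 ≤ p') (hp1' : p' ≤ 1) (s : ℕ) :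
    ∀ n : ℕ, ∀ F : Finset (Sym2 V), F.card = n → FG L F D → ∀ K : Finset V, K ⊆ L →
      (pr F p' (fun ω => s ≤ (rs L K ω).card)) ^ 2 ≤
        (p' ^ 2 / p + (1 - p') ^ 2 / (1 - p)) ^ ((∑ w ∈ K, dg F w) + D * (s - K.card)) *
          pr F p (fun ω => s ≤ (rs L K ω).card) := by
  set r := p' ^ 2 / p + (1 - p') ^ 2 / (1 - p) with hr
  have hr1 : 1 ≤ r := r_ge hp hp1
  have hr0 : 0 ≤ r := by linarith
  intro n
  induction n with
  | zero =>
    intro F hF hG K hK
    have hF0 : F = ∅ := Finset.card_eq_zero.mp hF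
    by_cases hs : s ≤ K.card
    · have h1 : ∀ q : ℝ, 0 ≤ q → q ≤ 1 → pr F q (fun ω => s ≤ (rs L K ω).card) = 1 := by
        intro q hq hq1
        have h2 : (fun ω => ind (s ≤ (rs L K ω).card)) = fun _ : Finset (Sym2 V) => (1 : ℝ) := by
          funext ω
          unfold ind
          rw [if_pos (hs.trans (Finset.card_le_card (rs_ge hK ω)))]
        have h3 := (hB V F q hq hq1).2.1 1
        unfold pr
        unfold ex at h3
        rw [h2]
        exact h3
      rw [h1 p' hp' hp1', h1 p hp.le hp1.le]
      have := one_le_pow₀ (n := (∑ w ∈ K, dg F w) + D * (s - K.card)) hr1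
      linarith
    · have h4 : pr F p' (fun ω => s ≤ (rs L K ω).card) ≤ pr F p' (fun _ => False) := by
        apply (hB V F p' hp' hp1').2.2.2.2.2.2.2.1
        intro ω hω h
        have h5 : rs L K ω ⊆ K := by
          apply rs_le hω
          intro u v _ _ h6
          rw [hF0] at h6
          simp at h6
        have := Finset.card_le_card h5
        omega
      have h7 : pr F p' (fun _ => False) = 0 := by
        have h3 := (hB V F p' hp' hp1').2.1 0
        unfold pr ind
        unfold ex at h3
        simpa using h3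
      have h8 := ((hB V F p' hp' hp1').2.2.2.2.2.2.1 (fun ω => s ≤ (rs L K ω).card)).1
      have h9 : pr F p' (fun ω => s ≤ (rs L K ω).card) = 0 := by linarith
      rw [h9]
      have h10 := ((hB V F p hp.le hp1.le).2.2.2.2.2.2.1 (fun ω => s ≤ (rs L K ω).card)).1
      have h11 : (0:ℝ) ≤ r ^ ((∑ w ∈ K, dg F w) + D * (s - K.card)) := by positivity
      have := mul_nonneg h11 h10
      simpa using this
  | succ n ih =>
    intro F hF hG K hK
    by_cases hs : s ≤ K.card
    · have h1 : ∀ q : ℝ, 0 ≤ q → q ≤ 1 → pr F q (fun ω => s ≤ (rs L K ω).card) = 1 := by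
        intro q hq hq1
        have h2 : (fun ω => ind (s ≤ (rs L K ω).card)) = fun _ : Finset (Sym2 V) => (1 : ℝ) := by
          funext ω
          unfold ind
          rw [if_pos (hs.trans (Finset.card_le_card (rs_ge hK ω)))]
        have h3 := (hB V F q hq hq1).2.1 1
        unfold pr
        unfold ex at h3
        rw [h2]
        exact h3
      rw [h1 p' hp' hp1', h1 p hp.le hp1.le]
      have := one_le_pow₀ (n := (∑ w ∈ K, dg F w) + D * (s - K.card)) hr1
      linarith
    · by_cases hno : ∀ u v, u ∈ K → v ∉ K → s(u, v) ∉ F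
      · have h4 : pr F p' (fun ω => s ≤ (rs L K ω).card) ≤ pr F p' (fun _ => False) := by
          apply (hB V F p' hp' hp1').2.2.2.2.2.2.2.1
          intro ω hω h
          have h5 : rs L K ω ⊆ K := rs_le hω hno
          have := Finset.card_le_card h5
          omega
        have h7 : pr F p' (fun _ => False) = 0 := by
          have h3 := (hB V F p' hp' hp1').2.1 0
          unfold pr ind
          unfold ex at h3
          simpa using h3
        have h8 := ((hB V F p' hp' hp1').2.2.2.2.2.2.1 (fun ω => s ≤ (rs L K ω).card)).1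
        have h9 : pr F p' (fun ω => s ≤ (rs L K ω).card) = 0 := by linarith
        rw [h9]
        have h10 := ((hB V F p hp.le hp1.le).2.2.2.2.2.2.1 (fun ω => s ≤ (rs L K ω).card)).1
        have h11 : (0:ℝ) ≤ r ^ ((∑ w ∈ K, dg F w) + D * (s - K.card)) := by positivity
        have := mul_nonneg h11 h10
        simpa using this
      · push_neg at hno
        obtain ⟨u, v, hu, hv, he⟩ := hno
        have hvL : v ∈ L := hG.inside _ he v (Sym2.mem_mk_right u v)
        have hcard : (F.erase s(u, v)).card = n := by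
          rw [Finset.card_erase_of_mem he, hF]; rfl
        have hG' : FG L (F.erase s(u, v)) D := by
          refine ⟨fun e he' => hG.inside e (Finset.mem_of_mem_erase he'),
            fun e he' => hG.noloop e (Finset.mem_of_mem_erase he'), ?_⟩
          intro w hw
          exact (dg_erase_le F s(u, v) w).trans (hG.deg w hw)
        have hK' : insert v K ⊆ L := by
          intro w hw
          rw [Finset.mem_insert] at hw
          rcases hw with rfl | hw
          · exact hvL
          · exact hK hw
        have hsplit : ∀ q : ℝ, pr F q (fun ω => s ≤ (rs L K ω).card) =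
            q * pr (F.erase s(u, v)) q (fun ω => s ≤ (rs L (insert v K) ω).card) +
            (1 - q) * pr (F.erase s(u, v)) q (fun ω => s ≤ (rs L K ω).card) := by
          intro q
          have h1 := (hE V F q s(u, v) (fun ω => ind (s ≤ (rs L K ω).card)) he).1
          have h2 : (fun ω => ind (s ≤ (rs L K (insert s(u, v) ω)).card)) =
              fun ω => ind (s ≤ (rs L (insert v K) ω).card) := by
            funext ω
            rw [rs_insert L K ω hu hv]
          simp only [h2] at h1
          exact h1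
        have ih1 := ih (F.erase s(u, v)) hcard hG' (insert v K) hK'
        have ih0 := ih (F.erase s(u, v)) hcard hG' K hK
        have hm0 : (∑ w ∈ K, dg (F.erase s(u, v)) w) + D * (s - K.card) + 1 ≤
            (∑ w ∈ K, dg F w) + D * (s - K.card) := by
          have := sum_dg he hu (Sym2.mem_mk_left u v)
          omega
        have hm1 : (∑ w ∈ insert v K, dg (F.erase s(u, v)) w) + D * (s - (insert v K).card) + 1 ≤
            (∑ w ∈ K, dg F w) + D * (s - K.card) := by
          rw [Finset.sum_insert hv, Finset.card_insert_of_notMem hv]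
          have h1 := sum_dg he hu (Sym2.mem_mk_left u v)
          have h2 := dg_erase_mem he (Sym2.mem_mk_right u v)
          have h3 : dg F v ≤ D := hG.deg v hvL
          have h4 : D * (s - K.card) = D * (s - (K.card + 1)) + D := by
            have : s - K.card = (s - (K.card + 1)) + 1 := by omega
            rw [this]; ring
          omega
        set m := (∑ w ∈ K, dg F w) + D * (s - K.card) with hm
        obtain ⟨k, hk⟩ : ∃ k, m = k + 1 := ⟨m - 1, by omega⟩
        have a1 := ((hB V (F.erase s(u, v)) p hp.le hp1.le).2.2.2.2.2.2.1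
          (fun ω => s ≤ (rs L (insert v K) ω).card)).1
        have a0 := ((hB V (F.erase s(u, v)) p hp.le hp1.le).2.2.2.2.2.2.1
          (fun ω => s ≤ (rs L K ω).card)).1
        have j1 := ih1.trans (mul_le_mul_of_nonneg_right
          (pow_le_pow_right₀ hr1 (show _ ≤ k by omega)) a1)
        have j0 := ih0.trans (mul_le_mul_of_nonneg_right
          (pow_le_pow_right₀ hr1 (show _ ≤ k by omega)) a0)
        rw [hsplit p', hsplit p, hk, pow_succ]
        have := cs_bound (q := p') hp hp1 j1 j0
        rw [← hr] at this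
        calc _ ≤ _ := this
          _ = _ := by ring

end Tree

open Tree in
theorem hTree (hE : StEdge) (hB : StBasic) (_hClu : StClu) : StTree := by
  intro V _ L E D p p' hG hp hp1 hp' hp1' x hx s hs
  have h := Tree.main hE hB L D p p' hp hp1 hp' hp1' s E.card E rfl hG {x}
    (by simpa using hx)
  have hX : ∀ ω : Finset (Sym2 V), (rs L {x} ω).card = Xc L ω x := by
    intro ω
    unfold rs Xc clu
    congr 1
    ext y
    simp
  simp only [hX] at h
  refine h.trans ?_
  apply mul_le_mul_of_nonneg_right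
  · apply pow_le_pow_right₀ (r_ge hp hp1)
    rw [Finset.sum_singleton, Finset.card_singleton]
    have h3 : dg E x ≤ D := hG.deg x hx
    have h4 : D * s = D * (s - 1) + D := by
      obtain ⟨t, rfl⟩ : ∃ t, s = t + 1 := ⟨s - 1, by omega⟩
      simp; ring
    omega
  · exact ((hB V E p hp.le hp1.le).2.2.2.2.2.2.1 _).1

end Pool.NL
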