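import Pool.Agent.Helper22.NL.StZ

/-! # Project NL: sprinkling in the box (module SprB) -/

set_option autoImplicit false

open scoped BigOperators ENNReal Topology
open Pool.LE Filter

namespace Pool.NL

/-- the elementary lower bound for the growth probability -/
theorem sprB_q {c ε : ℝ} (hc : 0 < c) (hε : 0 < ε)
    (hκ : ε * (-Real.log (1 - Real.exp (-(c / 3)))) ≤ 1 / 2) (n : ℕ) (hn : 1 ≤ n)
    (hlarge : 1 + ε * Real.log n ≤ 2 * c / 3 * (n : ℝ) ^ 2) :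
    ⌊ε * Real.log n⌋₊ ≤ ⌊c * (n : ℝ) ^ 2⌋₊ ∧
    Real.exp (-(1 / 2 * Real.log n)) ≤
      (1 - (1 - 1 / (n : ℝ) ^ 2) ^ (⌊c * (n : ℝ) ^ 2⌋₊ - ⌊ε * Real.log n⌋₊)) ^
        ⌊ε * Real.log n⌋₊ := by
  have hnR : (1 : ℝ) ≤ n := by exact_mod_cast hn
  have hn0 : (0 : ℝ) < n := by linarith
  have hlog : 0 ≤ Real.log n := Real.log_nonneg hnR
  have hn2 : (0 : ℝ) < (n : ℝ) ^ 2 := by positivity
  set k := ⌊ε * Real.log n⌋₊ with hk
  set k' := ⌊c * (n : ℝ) ^ 2⌋₊ with hk'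
  have h1 : (k : ℝ) ≤ ε * Real.log n := Nat.floor_le (by positivity)
  have h2 : c * (n : ℝ) ^ 2 < (k' : ℝ) + 1 := Nat.lt_floor_add_one _
  have h3 : (k : ℝ) + c / 3 * (n : ℝ) ^ 2 ≤ k' := by nlinarith
  have hkk : k ≤ k' := by
    have : (k : ℝ) ≤ k' := by
      have : 0 ≤ c / 3 * (n : ℝ) ^ 2 := by positivity
      linarith
    exact_mod_cast this
  refine ⟨hkk, ?_⟩
  have hcast : ((k' - k : ℕ) : ℝ) = (k' : ℝ) - k := by push_cast [hkk]; ring
  have hδ0 : 0 ≤ 1 - 1 / (n : ℝ) ^ 2 := by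
    have : 1 / (n : ℝ) ^ 2 ≤ 1 := by
      rw [div_le_one hn2]
      nlinarith
    linarith
  have h4 : (1 - 1 / (n : ℝ) ^ 2) ^ (k' - k) ≤ Real.exp (-(c / 3)) := by
    have h5 : 1 - 1 / (n : ℝ) ^ 2 ≤ Real.exp (-(1 / (n : ℝ) ^ 2)) := Real.one_sub_le_exp_neg _
    calc (1 - 1 / (n : ℝ) ^ 2) ^ (k' - k) ≤ (Real.exp (-(1 / (n : ℝ) ^ 2))) ^ (k' - k) :=
          pow_le_pow_left₀ hδ0 h5 _
      _ = Real.exp (((k' - k : ℕ) : ℝ) * (-(1 / (n : ℝ) ^ 2))) := by rw [← Real.exp_nat_mul]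
      _ ≤ Real.exp (-(c / 3)) := by
          apply Real.exp_le_exp.2
          rw [hcast]
          have h6 : c / 3 * (n : ℝ) ^ 2 ≤ (k' : ℝ) - k := by linarith
          have h7 : c / 3 ≤ ((k' : ℝ) - k) * (1 / (n : ℝ) ^ 2) := by
            rw [mul_one_div, le_div_iff₀ hn2]
            exact h6
          linarith
  set a := 1 - Real.exp (-(c / 3)) with ha
  have ha0 : 0 < a := by
    have : Real.exp (-(c / 3)) < 1 := by
      rw [Real.exp_lt_one_iff]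
      linarith
    linarith
  have ha1 : a ≤ 1 := by
    have := Real.exp_pos (-(c / 3))
    linarith
  have hloga : Real.log a ≤ 0 := Real.log_nonpos ha0.le ha1
  calc Real.exp (-(1 / 2 * Real.log n)) ≤ Real.exp ((k : ℝ) * Real.log a) := by
        apply Real.exp_le_exp.2
        have e1 : (k : ℝ) * (-Real.log a) ≤ ε * Real.log n * (-Real.log a) :=
          mul_le_mul_of_nonneg_right h1 (by linarith)
        have e2 : ε * (-Real.log a) * Real.log n ≤ 1 / 2 * Real.log n :=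
          mul_le_mul_of_nonneg_right hκ hlog
        nlinarith
    _ = a ^ k := by
        rw [Real.exp_nat_mul, Real.exp_log ha0]
    _ ≤ (1 - (1 - 1 / (n : ℝ) ^ 2) ^ (k' - k)) ^ k :=
        pow_le_pow_left₀ ha0.le (by linarith) _

/-- the sum over a disjoint family of clusters -/
theorem sprB_sum {d n : ℕ} (hBn : StBn) (hClu : StClu) {m : ℕ} {ω : Finset (Sym2 (Zd d))}
    (hω : ω ⊆ ES (Bn d n)) (F : Finset (Finset (Zd d))) (hF : F ⊆ big (Bn d n) m ω)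
    (g : Zd d → ℝ) (hg : ∀ x, 0 ≤ g x) (q : ℝ) (hq : 0 ≤ q) (hgq : ∀ A ∈ F, ∀ x ∈ A, q ≤ g x) :
    (F.card : ℝ) * (m * q) ≤ ∑ x ∈ Bn d n, g x := by
  classical
  obtain ⟨hFG, -, -, -, -⟩ := hBn d n
  obtain ⟨-, hc2, hc3, -, -, -, -⟩ := hClu (Zd d) (Bn d n) (ES (Bn d n)) ω (2 * d) hFG hω
  have hmem : ∀ A ∈ F, ∃ x ∈ Bn d n, m ≤ Xc (Bn d n) ω x ∧ clu (Bn d n) ω x = A := by
    intro A hA
    have h1 := hF hA
    unfold big at h1
    rw [Finset.mem_image] at h1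
    obtain ⟨x, hx, hxA⟩ := h1
    rw [Finset.mem_filter] at hx
    exact ⟨x, hx.1, hx.2, hxA⟩
  have hdisj : ∀ A ∈ F, ∀ B ∈ F, A ≠ B → Disjoint A B := by
    intro A hA B hB hAB
    obtain ⟨x, -, -, rfl⟩ := hmem A hA
    obtain ⟨y, -, -, rfl⟩ := hmem B hB
    apply hc3
    intro hcon
    exact hAB (hc2 x y hcon).1
  have hsub : F.biUnion id ⊆ Bn d n := by
    intro y hy
    rw [Finset.mem_biUnion] at hy
    obtain ⟨A, hA, hyA⟩ := hy
    obtain ⟨x, -, -, rfl⟩ := hmem A hA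
    have h2 : y ∈ clu (Bn d n) ω x := hyA
    unfold clu at h2
    exact (Finset.mem_filter.1 h2).1
  calc (F.card : ℝ) * (m * q) = ∑ A ∈ F, (m : ℝ) * q := by rw [Finset.sum_const, nsmul_eq_mul]
    _ ≤ ∑ A ∈ F, ∑ x ∈ A, g x := by
        refine Finset.sum_le_sum fun A hA => ?_
        obtain ⟨x, -, hxm, hxA⟩ := hmem A hA
        have hcard : (m : ℝ) ≤ A.card := by
          have : m ≤ A.card := by rw [← hxA]; exact hxm
          exact_mod_cast this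
        calc (m : ℝ) * q ≤ A.card * q := mul_le_mul_of_nonneg_right hcard hq
          _ = ∑ x ∈ A, q := by rw [Finset.sum_const, nsmul_eq_mul]
          _ ≤ _ := Finset.sum_le_sum fun y hy => hgq A hA y hy
    _ = ∑ x ∈ F.biUnion id, g x := by
        rw [Finset.sum_biUnion]
        · rfl
        · intro A hA B hB hAB
          exact hdisj A hA B hB hAB
    _ ≤ _ := Finset.sum_le_sum_of_subset_of_nonneg hsub fun x _ _ => hg x

theorem hSprB (hF : StFam) (hS : StSpr) (hG : StGrow) (hBn : StBn) (hB : StBasic) (hClu : StClu)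
    (_hS6d : StS6d) : StSprB := by
  classical
  intro d C₁ B c₀ hE
  obtain ⟨η, c, hη, hη1, hc, n₀, hn₀, hn⟩ := hF d C₁ B c₀ hE
  have hd := hE.hd
  have hp0 : 0 ≤ pH d := hE.p0.le
  have hp1 : pH d ≤ 1 := hE.p1.trans (by norm_num)
  set a := 1 - Real.exp (-(c / 3)) with ha
  have ha0 : 0 < a := by
    have : Real.exp (-(c / 3)) < 1 := by
      rw [Real.exp_lt_one_iff]
      linarith
    linarith
  have ha1 : a < 1 := by
    have := Real.exp_pos (-(c / 3))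
    linarith
  have hloga : Real.log a < 0 := Real.log_neg ha0 ha1
  refine ⟨η, 1 / (2 * (-Real.log a)), hη, hη1, by
    apply div_pos one_pos
    linarith, fun ε hε hεκ => ?_⟩
  have hκ : ε * (-Real.log a) ≤ 1 / 2 := by
    have h1 : 0 < 2 * (-Real.log a) := by linarith
    rw [le_div_iff₀ h1] at hεκ
    linarith
  refine ⟨max n₀ (max ⌈(1 + ε) / (2 * c / 3)⌉₊ ⌈(1 / (c ^ 2 * η)) ^ 2⌉₊),
    le_trans hn₀ (le_max_left _ _), fun n hnn => ?_⟩
  have hn_a : n₀ ≤ n := le_trans (le_max_left _ _) hnn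
  have hn_b : (1 + ε) / (2 * c / 3) ≤ n := by
    have := le_trans (le_trans (le_max_left _ _) (le_max_right _ _)) hnn
    exact (Nat.ceil_le.1 this)
  have hn_c : (1 / (c ^ 2 * η)) ^ 2 ≤ n := by
    have := le_trans (le_trans (le_max_right _ _) (le_max_right _ _)) hnn
    exact (Nat.ceil_le.1 this)
  have hn1 : 1 ≤ n := hn₀.trans hn_a
  have hnR : (1 : ℝ) ≤ n := by exact_mod_cast hn1
  have hnp : (0 : ℝ) < n := by linarith
  have hlarge : 1 + ε * Real.log n ≤ 2 * c / 3 * (n : ℝ) ^ 2 := by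
    have h1 : Real.log n ≤ n := by
      have := Real.log_le_sub_one_of_pos hnp
      linarith
    have h2 : 0 < 2 * c / 3 := by positivity
    rw [div_le_iff₀ h2] at hn_b
    have h3 : ε * Real.log n ≤ ε * n := mul_le_mul_of_nonneg_left h1 hε.le
    have h4 : (1 + ε) * n ≤ 2 * c / 3 * (n : ℝ) ^ 2 := by nlinarith
    nlinarith
  obtain ⟨hkk, hq⟩ := sprB_q hc hε hκ n hn1 hlarge
  set k := ⌊ε * Real.log n⌋₊ with hk
  set k' := ⌊c * (n : ℝ) ^ 2⌋₊ with hk'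
  set t := Real.exp (1 / 2 * Real.log n) with ht
  have ht0 : 0 < t := Real.exp_pos _
  have ht2 : t * t = n := by
    rw [ht, ← Real.exp_add, show 1 / 2 * Real.log n + 1 / 2 * Real.log n = Real.log n by ring,
      Real.exp_log hnp]
  have htq : (n : ℝ) * Real.exp (-(1 / 2 * Real.log n)) = t := by
    rw [Real.exp_neg, ← ht, ← ht2]
    field_simp
  have htc : 1 / (c ^ 2 * η) ≤ t := by
    rw [← ht2] at hn_c
    exact le_of_sq_le_sq (by nlinarith) ht0.le |>.trans le_rfl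
  obtain ⟨hFG, -, -, -, -⟩ := hBn d n
  obtain ⟨hmono, -, -, -, hsmul, hsum, hpr, -, -, -⟩ := hB (Zd d) (ES (Bn d n)) (pH d) hp0 hp1
  have hδ0 : (0 : ℝ) ≤ 1 / (n : ℝ) ^ 2 := by positivity
  have hδ1 : 1 / (n : ℝ) ^ 2 ≤ 1 := by
    rw [div_le_one (by positivity)]
    nlinarith
  obtain ⟨hmonoδ, hconstδ, -, -, -, -, hprδ, -, -, -⟩ :=
    hB (Zd d) (ES (Bn d n)) (1 / (n : ℝ) ^ 2) hδ0 hδ1
  have hm1 : 1 ≤ thr η n := by
    unfold thr
    rw [Nat.one_le_ceil_iff]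
    positivity
  have hmη : η * (n : ℝ) ^ 4 ≤ thr η n := Nat.le_ceil _
  -- the function of ω
  set gg : Finset (Sym2 (Zd d)) → Zd d → ℝ := fun ω x => ex (ES (Bn d n)) (1 / (n : ℝ) ^ 2)
    (fun ζ => ind ((k + 1) * thr η n ≤ Xc (Bn d n) (ω ∪ ζ) x)) with hgg
  have hgg0 : ∀ ω x, 0 ≤ gg ω x := fun ω x => (hprδ _).1
  have hrew : ∑ x ∈ Bn d n, pB d n (ps d n) (fun ω => (k + 1) * thr η n ≤ XB d n ω x) =
      ex (ES (Bn d n)) (pH d) (fun ω => ∑ x ∈ Bn d n, gg ω x) := by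
    rw [hsum]
    refine Finset.sum_congr rfl fun x _ => ?_
    exact hS (Zd d) (ES (Bn d n)) (pH d) (1 / (n : ℝ) ^ 2)
      (fun ω => ind ((k + 1) * thr η n ≤ Xc (Bn d n) ω x))
  rw [hrew]
  set q := Real.exp (-(1 / 2 * Real.log n)) with hqdef
  have hq0 : 0 < q := Real.exp_pos _
  set A : Finset (Sym2 (Zd d)) → Prop := fun ω => ∃ F : Finset (Finset (Zd d)),
    F ⊆ big (Bn d n) (thr η n) ω ∧ c * (n : ℝ) ^ (d - 6) ≤ F.card ∧
      minDeg (ES (Bn d n)) F ⌊c * (n : ℝ) ^ 2⌋₊ with hA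
  have hprA : c ≤ pr (ES (Bn d n)) (pH d) A := hn n hn_a
  set K : ℝ := c * (n : ℝ) ^ (d - 6) * (η * (n : ℝ) ^ 4 * q) with hK
  have hK0 : 0 ≤ K := by positivity
  have hlow : K * pr (ES (Bn d n)) (pH d) A ≤
      ex (ES (Bn d n)) (pH d) (fun ω => ∑ x ∈ Bn d n, gg ω x) := by
    have h1 : K * pr (ES (Bn d n)) (pH d) A =
        ex (ES (Bn d n)) (pH d) (fun ω => K * ind (A ω)) := (hsmul K _).symm
    rw [h1]
    refine hmono _ _ fun ω hω => ?_
    have hs0 : 0 ≤ ∑ x ∈ Bn d n, gg ω x := Finset.sum_nonneg fun x _ => hgg0 ω x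
    by_cases hAω : A ω
    · have hi : ind (A ω) = 1 := by unfold ind; rw [if_pos hAω]
      rw [hi, mul_one]
      obtain ⟨F, hF1, hF2, hF3⟩ := hAω
      have h2 : ∀ A' ∈ F, ∀ x ∈ A', q ≤ gg ω x := by
        intro A' hA' x hx
        exact hq.trans (hG (Zd d) (Bn d n) (ES (Bn d n)) ω (2 * d) (thr η n)
          (1 / (n : ℝ) ^ 2) hFG hω hm1 hδ0 hδ1 F k' hF1 hF3 k hkk A' hA' x hx)
      have h3 := sprB_sum hBn hClu hω F hF1 (gg ω) (hgg0 ω) q hq0.le h2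
      refine le_trans ?_ h3
      rw [hK]
      have h4 : η * (n : ℝ) ^ 4 * q ≤ thr η n * q := mul_le_mul_of_nonneg_right hmη hq0.le
      exact mul_le_mul hF2 h4 (by positivity) (by positivity)
    · have hi : ind (A ω) = 0 := by unfold ind; rw [if_neg hAω]
      rw [hi, mul_zero]
      exact hs0
  refine le_trans ?_ hlow
  refine le_trans ?_ (mul_le_mul_of_nonneg_left hprA hK0)
  rw [hK]
  obtain ⟨l, rfl⟩ : ∃ l, d = 21 + l := ⟨d - 21, by omega⟩
  rw [show 21 + l - 3 = 18 + l by omega, show 21 + l - 6 = 15 + l by omega]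
  have e1 : c * (n : ℝ) ^ (15 + l) * (η * (n : ℝ) ^ 4 * q) * c =
      (n : ℝ) ^ (18 + l) * (c ^ 2 * η * (n * q)) := by ring
  rw [e1, htq]
  have e2 : 1 ≤ c ^ 2 * η * t := by
    have h5 : 0 < c ^ 2 * η := by positivity
    rw [div_le_iff₀ h5] at htc
    linarith
  have e3 : (0 : ℝ) ≤ (n : ℝ) ^ (18 + l) := by positivity
  calc (n : ℝ) ^ (18 + l) = (n : ℝ) ^ (18 + l) * 1 := (mul_one _).symm
    _ ≤ _ := mul_le_mul_of_nonneg_left e2 e3

end Pool.NL
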