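import Pool.Agent.Helper22.NL.StM
import Pool.Agent.Helper84.LE.BWT

/-! # Project NL: module Basic -/

set_option autoImplicit false

open scoped BigOperators ENNReal
open Pool.LE

namespace Pool.NL

namespace Basic

variable {V : Type} [DecidableEq V]

theorem ind_nonneg (A : Prop) : 0 ≤ ind A := by
  unfold ind; split_ifs <;> norm_num

theorem ind_le_one (A : Prop) : ind A ≤ 1 := by
  unfold ind; split_ifs <;> norm_num

theorem ex_eq (E : Finset (Sym2 V)) (p : ℝ) (f : Finset (Sym2 V) → ℝ) :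
    ex E p f = ∑ ω ∈ E.powerset, wt E p ω * f ω := rfl

theorem ex_mono {E : Finset (Sym2 V)} {p : ℝ} (h0 : 0 ≤ p) (h1 : p ≤ 1)
    {f g : Finset (Sym2 V) → ℝ} (h : ∀ ω, ω ⊆ E → f ω ≤ g ω) : ex E p f ≤ ex E p g := by
  rw [ex_eq, ex_eq]
  exact Finset.sum_le_sum fun ω hω =>
    mul_le_mul_of_nonneg_left (h ω (Finset.mem_powerset.1 hω)) (wt_nonneg h0 h1 E ω)

theorem ex_const (E : Finset (Sym2 V)) (p c : ℝ) : ex E p (fun _ => c) = c := Ex_const E p c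

theorem ex_add (E : Finset (Sym2 V)) (p : ℝ) (f g : Finset (Sym2 V) → ℝ) :
    ex E p (fun ω => f ω + g ω) = ex E p f + ex E p g := Ex_add E p f g

theorem ex_sub (E : Finset (Sym2 V)) (p : ℝ) (f g : Finset (Sym2 V) → ℝ) :
    ex E p (fun ω => f ω - g ω) = ex E p f - ex E p g := by
  rw [ex_eq, ex_eq, ex_eq, ← Finset.sum_sub_distrib]
  exact Finset.sum_congr rfl fun ω _ => mul_sub _ _ _

theorem ex_mul (E : Finset (Sym2 V)) (p c : ℝ) (f : Finset (Sym2 V) → ℝ) :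
    ex E p (fun ω => c * f ω) = c * ex E p f := by
  rw [ex_eq, ex_eq, Finset.mul_sum]
  exact Finset.sum_congr rfl fun ω _ => by ring

theorem ex_sum {ι : Type} (s : Finset ι) (E : Finset (Sym2 V)) (p : ℝ)
    (f : ι → Finset (Sym2 V) → ℝ) :
    ex E p (fun ω => ∑ i ∈ s, f i ω) = ∑ i ∈ s, ex E p (f i) := Ex_sum s E p f

theorem pr_nonneg {E : Finset (Sym2 V)} {p : ℝ} (h0 : 0 ≤ p) (h1 : p ≤ 1)
    (A : Finset (Sym2 V) → Prop) : 0 ≤ pr E p A := by
  have h := ex_mono (E := E) h0 h1 (f := fun _ => (0 : ℝ)) (g := fun ω => ind (A ω))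
    (fun ω _ => ind_nonneg _)
  rw [ex_const] at h
  exact h

theorem pr_le_one {E : Finset (Sym2 V)} {p : ℝ} (h0 : 0 ≤ p) (h1 : p ≤ 1)
    (A : Finset (Sym2 V) → Prop) : pr E p A ≤ 1 := by
  have h := ex_mono (E := E) h0 h1 (f := fun ω => ind (A ω)) (g := fun _ => (1 : ℝ))
    (fun ω _ => ind_le_one _)
  rw [ex_const] at h
  exact h

theorem Pr_eq {E : Finset (Sym2 V)} {p : ℝ} (h0 : 0 ≤ p) (h1 : p ≤ 1)
    (A : Finset (Sym2 V) → Prop) : Pr E p A = ENNReal.ofReal (pr E p A) := by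
  have e : pr E p A = ∑ ω ∈ E.powerset, wt E p ω * ind (A ω) := rfl
  rw [e, ENNReal.ofReal_sum_of_nonneg
    (fun ω _ => mul_nonneg (wt_nonneg h0 h1 E ω) (ind_nonneg _))]
  unfold Pr ExE
  refine Finset.sum_congr rfl fun ω _ => ?_
  rw [ENNReal.ofReal_mul (wt_nonneg h0 h1 E ω)]
  congr 1
  unfold ind
  by_cases hA : A ω <;> simp [hA]

theorem pr_not (E : Finset (Sym2 V)) (p : ℝ) (A : Finset (Sym2 V) → Prop) :
    pr E p (fun ω => ¬ A ω) = 1 - pr E p A := by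
  have h := ex_sub E p (fun _ => (1 : ℝ)) (fun ω => ind (A ω))
  rw [ex_const] at h
  have h2 : (fun ω : Finset (Sym2 V) => ind (¬ A ω)) = fun ω => (1 : ℝ) - ind (A ω) := by
    funext ω
    unfold ind
    by_cases hA : A ω <;> simp [hA]
  unfold pr
  rw [h2]
  exact h

theorem pr_mono {E : Finset (Sym2 V)} {p : ℝ} (h0 : 0 ≤ p) (h1 : p ≤ 1)
    {A B : Finset (Sym2 V) → Prop} (h : ∀ ω, ω ⊆ E → A ω → B ω) : pr E p A ≤ pr E p B := by
  refine ex_mono h0 h1 (f := fun ω => ind (A ω)) (g := fun ω => ind (B ω)) fun ω hω => ?_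
  by_cases hA : A ω
  · have hB := h ω hω hA
    simp [ind, hA, hB]
  · have : ind (A ω) = 0 := by simp [ind, hA]
    show ind (A ω) ≤ ind (B ω)
    rw [this]
    exact ind_nonneg _

theorem ex_cs {E : Finset (Sym2 V)} {p : ℝ} (h0 : 0 ≤ p) (h1 : p ≤ 1)
    (f g : Finset (Sym2 V) → ℝ) :
    (ex E p (fun ω => f ω * g ω)) ^ 2 ≤ ex E p (fun ω => f ω ^ 2) * ex E p (fun ω => g ω ^ 2) := by
  have h := Finset.sum_mul_sq_le_sq_mul_sq E.powerset
    (fun ω => Real.sqrt (wt E p ω) * f ω) (fun ω => Real.sqrt (wt E p ω) * g ω)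
  have hs : ∀ ω, Real.sqrt (wt E p ω) * Real.sqrt (wt E p ω) = wt E p ω := fun ω =>
    Real.mul_self_sqrt (wt_nonneg h0 h1 E ω)
  have e1 : ∑ ω ∈ E.powerset, (Real.sqrt (wt E p ω) * f ω) * (Real.sqrt (wt E p ω) * g ω) =
      ex E p (fun ω => f ω * g ω) := by
    rw [ex_eq]
    refine Finset.sum_congr rfl fun ω _ => ?_
    calc _ = (Real.sqrt (wt E p ω) * Real.sqrt (wt E p ω)) * (f ω * g ω) := by ring
      _ = _ := by rw [hs]
  have e2 : ∀ f : Finset (Sym2 V) → ℝ, ∑ ω ∈ E.powerset, (Real.sqrt (wt E p ω) * f ω) ^ 2 =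
      ex E p (fun ω => f ω ^ 2) := by
    intro f
    rw [ex_eq]
    refine Finset.sum_congr rfl fun ω _ => ?_
    calc _ = (Real.sqrt (wt E p ω) * Real.sqrt (wt E p ω)) * (f ω ^ 2) := by ring
      _ = _ := by rw [hs]
  rw [e1, e2, e2] at h
  exact h

theorem markov {E : Finset (Sym2 V)} {p : ℝ} (h0 : 0 ≤ p) (h1 : p ≤ 1)
    (f : Finset (Sym2 V) → ℝ) (c : ℝ) (hf : ∀ ω, ω ⊆ E → 0 ≤ f ω) (hc : 0 < c) :
    pr E p (fun ω => c ≤ f ω) ≤ ex E p f / c := by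
  rw [le_div_iff₀ hc, mul_comm]
  have h := ex_mul E p c (fun ω => ind (c ≤ f ω))
  have h2 : c * pr E p (fun ω => c ≤ f ω) = ex E p (fun ω => c * ind (c ≤ f ω)) := h.symm
  rw [h2]
  refine ex_mono h0 h1 fun ω hω => ?_
  by_cases hA : c ≤ f ω
  · simp [ind, hA]
  · simp [ind, hA, hf ω hω]

end Basic

open Basic in
theorem hBasic : StBasic := by
  intro V _ E p h0 h1
  refine ⟨fun f g h => ex_mono h0 h1 h, fun c => ex_const E p c, ex_add E p, ex_sub E p,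
    ex_mul E p, fun ι s f => ex_sum s E p f, fun A => ⟨pr_nonneg h0 h1 A, pr_le_one h0 h1 A,
      Pr_eq h0 h1 A, pr_not E p A⟩, fun A B h => pr_mono h0 h1 h, ex_cs h0 h1,
      fun f c hf hc => markov h0 h1 f c hf hc⟩

end Pool.NL
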