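import Pool.Agent.Helper22.NL.StM
import Pool.Agent.Helper84.LE.BGR

/-! # Project NL: module Clu (elementary facts on clusters) -/

set_option autoImplicit false

open scoped BigOperators
open Pool.LE

namespace Pool.NL

theorem mem_Clu {V : Type} [DecidableEq V] {L : Finset V} {ω : Finset (Sym2 V)} {x y : V} :
    y ∈ clu L ω x ↔ y ∈ L ∧ con ω x y := by
  classical
  unfold clu
  rw [Finset.mem_filter]

theorem walk_Clu {V : Type} [DecidableEq V] {L : Finset V} {ω : Finset (Sym2 V)}
    (h : ∀ e ∈ ω, ∀ v ∈ e, v ∈ L) {x y : V} (q : (gr ω).Walk x y) (hx : x ∈ L) : y ∈ L := by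
  induction q with
  | nil => exact hx
  | cons hadj q ih =>
    rename_i a b c
    exact ih (h s(a, b) (gr_adj.1 hadj).1 b (Sym2.mem_mk_right a b))

theorem drt_fst_Clu {V : Type} [DecidableEq V] {L : Finset V} {E : Finset (Sym2 V)} {D : ℕ}
    (hG : FG L E D) (u : V) : ((drt E).filter (fun q => q.1 = u)).card ≤ D := by
  classical
  by_cases hu : u ∈ L
  · refine le_trans ?_ (hG.deg u hu)
    refine Finset.card_le_card_of_injOn (fun q => s(u, q.2)) ?_ ?_
    · intro q hq
      rw [Finset.mem_coe, Finset.mem_filter, mem_drt'] at hq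
      rw [Finset.mem_coe, Finset.mem_filter]
      refine ⟨?_, Sym2.mem_mk_left _ _⟩
      rw [← hq.2]
      exact hq.1
    · intro q hq q' hq' h
      rw [Finset.mem_coe, Finset.mem_filter] at hq hq'
      have h2 : q.2 = q'.2 := Sym2.congr_right.1 h
      exact Prod.ext (hq.2.trans hq'.2.symm) h2
  · have : (drt E).filter (fun q => q.1 = u) = ∅ := by
      rw [Finset.filter_eq_empty_iff]
      intro q hq h
      rw [mem_drt'] at hq
      exact hu (h ▸ hG.inside _ hq q.1 (Sym2.mem_mk_left _ _))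
    rw [this, Finset.card_empty]
    exact Nat.zero_le _

theorem drt_snd_Clu {V : Type} [DecidableEq V] {L : Finset V} {E : Finset (Sym2 V)} {D : ℕ}
    (hG : FG L E D) (u : V) : ((drt E).filter (fun q => q.2 = u)).card ≤ D := by
  classical
  refine le_trans ?_ (drt_fst_Clu hG u)
  refine Finset.card_le_card_of_injOn (fun q => q.swap) ?_ ?_
  · intro q hq
    rw [Finset.mem_coe, Finset.mem_filter, mem_drt'] at hq
    rw [Finset.mem_coe, Finset.mem_filter, mem_drt']
    refine ⟨?_, hq.2⟩
    rw [Prod.fst_swap, Prod.snd_swap, Sym2.eq_swap]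
    exact hq.1
  · intro q _ q' _ h
    exact Prod.swap_injective h

theorem hClu : StClu := by
  classical
  intro V _ L E ω D hG hω
  have hin : ∀ x y, x ∈ L → con ω x y → y ∈ L := by
    intro x y hx hc
    obtain ⟨q⟩ := hc
    exact walk_Clu (fun e he => hG.inside e (hω he)) q hx
  refine ⟨?_, ?_, ?_, hin, ?_, ?_, ?_, ?_⟩
  · intro x hx
    have h1 : x ∈ clu L ω x := mem_Clu.2 ⟨hx, con_refl ω x⟩
    refine ⟨h1, Finset.card_pos.2 ⟨x, h1⟩, Finset.card_le_card ?_⟩
    intro y hy
    exact (mem_Clu.1 hy).1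
  · intro x y hxy
    have h1 : clu L ω x = clu L ω y := by
      ext z
      rw [mem_Clu, mem_Clu]
      exact ⟨fun h => ⟨h.1, con_trans (con_symm hxy) h.2⟩, fun h => ⟨h.1, con_trans hxy h.2⟩⟩
    refine ⟨h1, ?_⟩
    unfold Xc
    rw [h1]
  · intro x y hxy
    rw [Finset.disjoint_left]
    intro z hz hz'
    exact hxy (con_trans (mem_Clu.1 hz).2 (con_symm (mem_Clu.1 hz').2))
  · intro η hη x
    have h1 : clu L ω x ⊆ clu L η x := by
      intro z hz
      rw [mem_Clu] at hz ⊢
      exact ⟨hz.1, con_mono hη hz.2⟩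
    exact ⟨h1, Finset.card_le_card h1⟩
  · intro x
    unfold Xc clu ind
    rw [Finset.card_filter, Nat.cast_sum]
    refine Finset.sum_congr rfl ?_
    intro y _
    split_ifs <;> simp
  · have h1 : (drt E).card = ∑ u ∈ L, ((drt E).filter (fun q => q.1 = u)).card := by
      refine Finset.card_eq_sum_card_fiberwise ?_
      intro q hq
      rw [Finset.mem_coe, mem_drt'] at hq
      exact hG.inside _ hq q.1 (Sym2.mem_mk_left _ _)
    rw [h1]
    refine (Finset.sum_le_card_nsmul _ _ D (fun u _ => drt_fst_Clu hG u)).trans ?_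
    rw [smul_eq_mul, Nat.mul_comm]
  · intro u
    exact ⟨drt_fst_Clu hG u, drt_snd_Clu hG u⟩

end Pool.NL
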