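import Pool.Agent.Helper22.NL.StI

/-! # Project NL: assembly of the environment and of the main theorem -/

set_option autoImplicit false

open scoped BigOperators ENNReal Topology
open Pool.LE Filter MeasureTheory

namespace Pool.NL

theorem envOf (hA1 : StA1) (hKpQ : StKpQ) (hA3 : StA3) (hB8 : StB8) : StEnv := by
  obtain ⟨d1, h1⟩ := hA1
  obtain ⟨B, hB1, d2, h2⟩ := hKpQ
  obtain ⟨d3, h3⟩ := hA3
  obtain ⟨d4, _, h4⟩ := hB8
  refine ⟨max (max d1 d2) (max (max d3 d4) 21), fun d hd => ?_⟩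
  have e1 : d1 ≤ d := le_trans (le_trans (le_max_left _ _) (le_max_left _ _)) hd
  have e2 : d2 ≤ d := le_trans (le_trans (le_max_right _ _) (le_max_left _ _)) hd
  have e34 : max d3 d4 ≤ d := le_trans (le_trans (le_max_left _ _) (le_max_right _ _)) hd
  have e3 : d3 ≤ d := le_trans (le_max_left _ _) e34
  have e4 : d4 ≤ d := le_trans (le_max_right _ _) e34
  have e5 : 21 ≤ d := le_trans (le_trans (le_max_right _ _) (le_max_right _ _)) hd
  obtain ⟨C, hC, hA⟩ := h1 d e1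
  obtain ⟨c, hc, hAA⟩ := h3 d e3
  obtain ⟨p0, _, p1, _, _⟩ := h4 d e4
  exact ⟨p1, C, B, c, ⟨e5, p0, p1.le, hC, hB1, hc, hA, fun x y => h2 d e2 x y, hAA⟩⟩

theorem pcU_eq (hPc : StPc) {d : ℕ} (hd : 1 ≤ d) (hp : pH d < 1 / 2) : pcU d = pH d :=
  hPc d hd hp

instance instPU (d : ℕ) : IsProbabilityMeasure (PU d) := by
  unfold PU
  infer_instance

theorem mainOf (hEnv : StEnv) (hLow : StLow) (hUp : StUp) (hLawE : StLawE) (hClZ : StClZ)
    (hPc : StPc) (hB : StBasic) (hBn : StBn) : StMain := by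
  obtain ⟨d₀, h0⟩ := hEnv
  refine ⟨d₀, fun d hd => ?_⟩
  obtain ⟨hp12, C₁, B, c₀, E⟩ := h0 d hd
  have hd1 : 1 ≤ d := le_trans (by norm_num) E.hd
  have hpc : pcU d = pH d := pcU_eq hPc hd1 hp12
  obtain ⟨ε, hε, hl⟩ := hLow d C₁ B c₀ E
  obtain ⟨C, hC, hu⟩ := hUp d C₁ B c₀ E
  have hp0 : 0 ≤ pH d := E.p0.le
  have hp1 : pH d ≤ 1 := E.p1.trans (by norm_num)
  refine ⟨ε, C, hε, hC, ?_⟩
  rw [hpc]
  -- the joint event
  set A₁ : ℕ → Finset (Sym2 (Zd d)) → Prop := fun n ω => ∃ x ∈ Bn d n,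
    ε * (n : ℝ) ^ 4 * Real.log n ≤ XB d n ω x with hA₁
  set A₂ : ℕ → Finset (Sym2 (Zd d)) → Prop := fun n ω => ∀ x ∈ Bn d n,
    (XB d n ω x : ℝ) ≤ C * (n : ℝ) ^ 4 * Real.log n with hA₂
  have hjoint : ∀ n, pB d n (pH d) (A₁ n) + pB d n (pH d) (A₂ n) - 1 ≤
      pB d n (pH d) (fun ω => A₁ n ω ∧ A₂ n ω) := by
    intro n
    obtain ⟨hmono, hconst, hadd, hsub, _, _, _, _, _, _⟩ := hB (Zd d) (ES (Bn d n)) (pH d) hp0 hp1
    unfold pB pr
    have h1 : ex (ES (Bn d n)) (pH d) (fun _ => (1 : ℝ)) = 1 := hconst 1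
    have := hmono (fun ω => (ind (A₁ n ω) + ind (A₂ n ω)) - 1) (fun ω => ind (A₁ n ω ∧ A₂ n ω))
      (by
        intro ω _
        unfold ind
        by_cases a : A₁ n ω <;> by_cases b : A₂ n ω <;> simp [a, b])
    rw [hsub (fun ω => ind (A₁ n ω) + ind (A₂ n ω)) (fun _ => 1), hadd, h1] at this
    exact this
  have hjl : Tendsto (fun n : ℕ => pB d n (pH d) (A₁ n) + pB d n (pH d) (A₂ n) - 1) atTop (𝓝 1) := by
    have := (hl.add hu).sub_const 1
    simpa using this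
  have key : ∀ (S : ℕ → Set (((Fin d → ℤ) × Fin d) → unitInterval)),
      (∀ n, {ω | A₁ n (opE (ES (Bn d n)) (pH d) ω) ∧ A₂ n (opE (ES (Bn d n)) (pH d) ω)} ⊆ S n) →
      Tendsto (fun n => PU d (S n)) atTop (𝓝 1) := by
    intro S hS
    have h2 : Tendsto (fun n : ℕ => ENNReal.ofReal
        (pB d n (pH d) (A₁ n) + pB d n (pH d) (A₂ n) - 1)) atTop (𝓝 1) := by
      have := (ENNReal.continuous_ofReal.tendsto 1).comp hjl
      rw [ENNReal.ofReal_one] at this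
      exact this
    refine tendsto_of_tendsto_of_tendsto_of_le_of_le h2 tendsto_const_nhds (fun n => ?_)
      (fun n => prob_le_one)
    calc ENNReal.ofReal (pB d n (pH d) (A₁ n) + pB d n (pH d) (A₂ n) - 1)
        ≤ ENNReal.ofReal (pB d n (pH d) (fun ω => A₁ n ω ∧ A₂ n ω)) :=
          ENNReal.ofReal_le_ofReal (hjoint n)
      _ = PU d {ω | A₁ n (opE (ES (Bn d n)) (pH d) ω) ∧ A₂ n (opE (ES (Bn d n)) (pH d) ω)} := by
          exact ((hLawE d (ES (Bn d n)) (pH d) (fun ω => A₁ n ω ∧ A₂ n ω)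
            (hBn d n).2.2.1 hp0 hp1).1).symm
      _ ≤ PU d (S n) := measure_mono (hS n)
  constructor
  · apply key
    intro n ω hω
    obtain ⟨⟨x, hx, hxl⟩, hup⟩ := hω
    constructor
    · refine hxl.trans ?_
      have h3 := (hClZ d n (pH d) ω x hx).1
      rw [← h3]
      have : cZ d n (pH d) ω x ≤ maxZ d n (pH d) ω :=
        Finset.le_sup (f := cZ d n (pH d) ω) hx
      exact_mod_cast this
    · have hne : (BU d n).Nonempty := ⟨x, hx⟩
      obtain ⟨y, hy, hmy⟩ := Finset.exists_mem_eq_sup (BU d n) hne (cZ d n (pH d) ω)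
      have h3 := (hClZ d n (pH d) ω y hy).1
      have h4 := hup y hy
      unfold maxZ
      rw [hmy, h3]
      exact h4
  · apply key
    intro n ω hω
    obtain ⟨⟨x, hx, hxl⟩, _⟩ := hω
    refine hxl.trans ?_
    have h3 := (hClZ d n (pH d) ω x hx)
    rw [← h3.1]
    have : cZ d n (pH d) ω x ≤ maxB d n (pH d) ω :=
      h3.2.trans (Finset.le_sup (f := cBk d n (pH d) ω) hx)
    exact_mod_cast this

end Pool.NL
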