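import Pool.Agent.Helper22.NL.StR

/-! # Project NL, module A1: mass of the two-point function in a box -/

set_option autoImplicit false

open scoped BigOperators Polynomial ENNReal
open Polynomial Pool.LE MeasureTheory

namespace Pool.NL

private lemma fej_nonneg_A1 (n : ℕ) (j : ℤ) : 0 ≤ fej n j := le_max_left _ _

private lemma fej_le_A1 (n : ℕ) (j : ℤ) : fej n j ≤ 1 := by
  refine max_le zero_le_one ?_
  have : 0 ≤ |(j : ℝ)| / (2 * n) := by positivity
  linarith

private lemma fej_half_A1 {n : ℕ} (hn : 1 ≤ n) {j : ℤ} (hj : |j| ≤ n) : 1 / 2 ≤ fej n j := by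
  refine le_trans ?_ (le_max_right _ _)
  have hn' : (1 : ℝ) ≤ n := by exact_mod_cast hn
  have hj' : |(j : ℝ)| ≤ n := by exact_mod_cast hj
  have : |(j : ℝ)| / (2 * n) ≤ 1 / 2 := by
    rw [div_le_div_iff₀ (by linarith) (by norm_num)]
    linarith
  linarith

private lemma box_A1 {d n : ℕ} (hn : 1 ≤ n) {f : Zd d → ℝ} (hf : ∀ x, 0 ≤ f x)
    (hfs : Summable f) :
    ∑ y ∈ bx d n, f y ≤ 2 ^ d * ∑' x : Zd d, f x * ∏ i, fej n (x i) := by
  have h1 : Summable fun x : Zd d => f x * ∏ i, fej n (x i) := by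
    refine Summable.of_nonneg_of_le (fun x => mul_nonneg (hf x)
      (Finset.prod_nonneg fun i _ => fej_nonneg_A1 n _)) (fun x => ?_) hfs
    exact mul_le_of_le_one_right (hf x)
      (Finset.prod_le_one (fun i _ => fej_nonneg_A1 n _) fun i _ => fej_le_A1 n _)
  have h2 : ∑ x ∈ bx d n, f x * ∏ i, fej n (x i) ≤ ∑' x : Zd d, f x * ∏ i, fej n (x i) :=
    h1.sum_le_tsum _ fun x _ => mul_nonneg (hf x)
      (Finset.prod_nonneg fun i _ => fej_nonneg_A1 n _)
  refine le_trans ?_ (mul_le_mul_of_nonneg_left h2 (by positivity))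
  rw [Finset.mul_sum]
  refine Finset.sum_le_sum fun x hx => ?_
  have h3 : (1 / 2 : ℝ) ^ d ≤ ∏ i, fej n (x i) := by
    have : (1 / 2 : ℝ) ^ d = ∏ _i : Fin d, (1 / 2 : ℝ) := by simp
    rw [this]
    refine Finset.prod_le_prod (fun _ _ => by norm_num) fun i _ => fej_half_A1 hn ?_
    rw [bx, Fintype.mem_piFinset] at hx
    have := Finset.mem_Icc.1 (hx i)
    exact abs_le.2 this
  calc f x = 2 ^ d * (f x * (1 / 2) ^ d) := by
        rw [one_div, inv_pow]
        field_simp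
    _ ≤ 2 ^ d * (f x * ∏ i, fej n (x i)) :=
        mul_le_mul_of_nonneg_left (mul_le_mul_of_nonneg_left h3 (hf x)) (by positivity)

/-- `D̂(k) ≠ 1` almost everywhere. -/
private lemma ae_A1 (hN : StNuProb) (hAE : StAE) (hDh : StDh) {d : ℕ} (hd : 0 < d) :
    ∀ᵐ k ∂(muT d), 0 < 1 - Dh k := by
  have : IsProbabilityMeasure nu := hN.1
  have : NullSingletonClass nu := by
    constructor
    intro x
    rw [nu, Measure.smul_apply, measure_singleton, smul_zero]
  have : Nonempty (Fin d) := ⟨⟨0, hd⟩⟩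
  have h0 : ∀ᵐ k ∂(muT d), k ≠ 0 := by
    rw [ae_iff]
    have : {k : Fin d → ℝ | ¬ k ≠ 0} = {0} := by
      ext k
      simp
    rw [this]
    exact measure_singleton (μ := Measure.pi fun _ : Fin d => nu) 0
  filter_upwards [h0, hAE d] with k hk hpi
  obtain ⟨h1, h2, -, -⟩ := hDh d k hd
  have h3 := h2 hpi
  rcases lt_or_ge 0 (1 - Dh k) with h | h
  · exact h
  · exfalso
    apply hk
    have hd' : (0 : ℝ) < d := by exact_mod_cast hd
    have h4 : (∑ i, k i ^ 2) / d ≤ 0 := by linarith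
    have h5 : ∑ i, k i ^ 2 ≤ 0 := by
      rw [div_le_iff₀ hd'] at h4
      linarith
    have h6 : ∑ i, k i ^ 2 = 0 := le_antisymm h5 (Finset.sum_nonneg fun i _ => sq_nonneg _)
    funext i
    have := (Finset.sum_eq_zero_iff_of_nonneg (fun i _ => sq_nonneg (k i))).1 h6 i
      (Finset.mem_univ i)
    simpa using this

private lemma int_A1 {α : Type} [MeasurableSpace α] (μ : Measure α) (g : α → ℝ) (c : ℝ)
    (hc : 0 ≤ c) (h : ∫⁻ x, ENNReal.ofReal (g x) ∂μ ≤ ENNReal.ofReal c) : ∫ x, g x ∂μ ≤ c := by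
  by_cases hg : Integrable g μ
  · rw [integral_eq_lintegral_pos_part_sub_lintegral_neg_part hg]
    have h1 : (∫⁻ x, ENNReal.ofReal (g x) ∂μ).toReal ≤ c := by
      refine ENNReal.toReal_le_of_le_ofReal hc h
    have h2 : 0 ≤ (∫⁻ x, ENNReal.ofReal (-g x) ∂μ).toReal := ENNReal.toReal_nonneg
    linarith
  · rw [integral_undef hg]
    exact hc

theorem hA1 (hFD : StFejD) (hFP : StFejP) (hTL : StTauLeft) (hB7 : StB7) (hB1 : StB1)
    (hTB : StTauBasic) (hAE : StAE) (hDh : StDh) (hFej : StFej1) (hTM : StTauMono)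
    (hN : StNuProb) (hS6d : StS6d) : StA1 := by
  obtain ⟨C₁, hC₁, hFD⟩ := hFD
  obtain ⟨C', hC', d₁', h7⟩ := hB7
  obtain ⟨C₂, hC₂, hFej⟩ := hFej
  refine ⟨max d₁' 3, fun d hd => ⟨2 ^ d * (4 * C₁) + 1, ?_, fun n hn => ?_⟩⟩
  · have : 0 ≤ 2 ^ d * (4 * C₁) := by positivity
    linarith
  have hd1 : d₁' ≤ d := (le_max_left _ _).trans hd
  have hd3 : 3 ≤ d := (le_max_right _ _).trans hd
  have hd0 : 0 < d := by omega
  obtain ⟨hp0, hp2⟩ := hS6d d hd0
  obtain ⟨hK, -, -⟩ := hFej n hn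
  have hn0 : (0 : ℝ) ≤ n := Nat.cast_nonneg _
  set K : (Fin d → ℝ) → ℝ := fun k =>
    ∏ i, ∑ j ∈ Finset.Icc (-(2 * n : ℤ)) (2 * n), fej n j * Real.cos (j * k i) with hKd
  have hK0 : ∀ k, 0 ≤ K k := fun k => Finset.prod_nonneg fun i _ => hK _
  have hbelow : ∀ p : ℝ, 0 ≤ p → p < pH d →
      ∑ y ∈ bx d n, tau d p y ≤ 2 ^ d * (4 * C₁) * (n : ℝ) ^ 2 := by
    intro p h0 h1
    have hp1 : p ≤ 1 := by linarith
    obtain ⟨hB, -⟩ := (h7 d hd1).1 p h0 h1
    obtain ⟨-, hsum, -, -, hl0, hl1, -⟩ := hB1 d p hd0 h0 h1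
    obtain ⟨-, -, hsym, -, htau⟩ := hTB d p h0 hp1
    have hts : Summable (tau d p) := by
      refine Summable.of_nonneg_of_le (fun x => (htau x).1) (fun x => ?_) hsum
      rw [abs_of_nonneg (htau x).1]
      have : 1 ≤ Qw x := by
        rw [Qw]
        have : 0 ≤ LE.sq x := Finset.sum_nonneg fun i _ => sq_nonneg _
        linarith
      exact le_mul_of_one_le_left (htau x).1 this
    have hint : ∫ k, FT (tau d p) k * K k ∂(muT d) ≤ 4 * C₁ * (n : ℝ) ^ 2 := by
      refine int_A1 _ _ _ (by positivity) ?_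
      calc ∫⁻ k, ENNReal.ofReal (FT (tau d p) k * K k) ∂(muT d)
          ≤ ∫⁻ k, ENNReal.ofReal 4 * ENNReal.ofReal ((1 - Dh k)⁻¹ * K k) ∂(muT d) := by
            refine lintegral_mono_ae ?_
            filter_upwards [hAE d, ae_A1 hN hAE hDh hd0] with k hk hk1
            rw [← ENNReal.ofReal_mul (by norm_num)]
            refine ENNReal.ofReal_le_ofReal ?_
            obtain ⟨-, -, -, h4⟩ := hDh d k hd0
            obtain ⟨h5, -, h6, -⟩ := h4 (lam d p) hl0 hl1
            have h7 := hB.ft k hk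
            have h8 : |FT (tau d p) k| * (1 - Dh k) ≤ 4 := by
              have := mul_le_mul_of_nonneg_left h6 (abs_nonneg (FT (tau d p) k))
              linarith
            have h9 : FT (tau d p) k ≤ 4 * (1 - Dh k)⁻¹ := by
              rw [← div_eq_mul_inv, le_div_iff₀ hk1]
              exact (mul_le_mul_of_nonneg_right (le_abs_self _) hk1.le).trans h8
            calc FT (tau d p) k * K k ≤ 4 * (1 - Dh k)⁻¹ * K k :=
                  mul_le_mul_of_nonneg_right h9 (hK0 k)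
              _ = 4 * ((1 - Dh k)⁻¹ * K k) := by ring
        _ = ENNReal.ofReal 4 * ∫⁻ k, ENNReal.ofReal ((1 - Dh k)⁻¹ * K k) ∂(muT d) :=
            lintegral_const_mul' _ _ ENNReal.ofReal_ne_top
        _ ≤ ENNReal.ofReal 4 * ENNReal.ofReal (C₁ * (n : ℝ) ^ 2) :=
            mul_le_mul_right (hFD d n hd3 hn) _
        _ = ENNReal.ofReal (4 * C₁ * (n : ℝ) ^ 2) := by
            rw [← ENNReal.ofReal_mul (by norm_num), mul_assoc]
    have hbox := box_A1 hn (fun x => (htau x).1) hts (d := d)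
    rw [hFP d n (tau d p) hts hsym hn] at hbox
    refine hbox.trans ?_
    calc 2 ^ d * ∫ k, FT (tau d p) k * K k ∂(muT d) ≤ 2 ^ d * (4 * C₁ * (n : ℝ) ^ 2) :=
          mul_le_mul_of_nonneg_left hint (by positivity)
      _ = _ := by ring
  -- the limit
  have : Nonempty {p : ℝ // 0 ≤ p ∧ p < pH d} := ⟨⟨0, le_rfl, hp0⟩⟩
  have hlim : ∑ y ∈ bx d n, tauE d (pH d) y ≤ ENNReal.ofReal (2 ^ d * (4 * C₁) * (n : ℝ) ^ 2) := by
    rw [Finset.sum_congr rfl fun y _ => hTL d y hd0]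
    rw [ENNReal.finsetSum_iSup_of_monotone]
    · refine iSup_le fun q => ?_
      have hq := hbelow q.1 q.2.1 q.2.2
      have hq1 : q.1 ≤ 1 := by
        have := q.2.2
        linarith
      obtain ⟨-, -, -, hof, htau⟩ := hTB d q.1 q.2.1 hq1
      rw [Finset.sum_congr rfl fun y _ => (hof y).symm,
        ← ENNReal.ofReal_sum_of_nonneg fun y _ => (htau y).1]
      exact ENNReal.ofReal_le_ofReal hq
    · intro y i j hij
      refine hTM d i.1 j.1 _ i.2.1 hij ?_
      have := j.2.2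
      linarith
  obtain ⟨-, -, -, hof, htau⟩ := hTB d (pH d) hp0.le (by linarith)
  rw [Finset.sum_congr rfl fun y _ => (hof y).symm,
    ← ENNReal.ofReal_sum_of_nonneg fun y _ => (htau y).1] at hlim
  have h1 := (ENNReal.ofReal_le_ofReal_iff (by positivity)).1 hlim
  have h2 : (0 : ℝ) ≤ (n : ℝ) ^ 2 := by positivity
  nlinarith

end Pool.NL
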