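import Pool.Agent.Helper22.NL.StZ

/-! # Project NL: (A3), the susceptibility of the box -/

set_option autoImplicit false

open scoped BigOperators ENNReal Topology
open Pool.LE

namespace Pool.NL

section A3

variable {d : ℕ}

theorem sumr_A3 {F φ : Zd d → ℝ} (hF : Summable (fun y => |F y|)) (hφ : ∀ v, 0 ≤ φ v ∧ φ v ≤ 1)
    (g : Zd d → Zd d) : Summable (fun y => φ (g y) * F y) := by
  apply Summable.of_abs
  refine Summable.of_nonneg_of_le (fun y => abs_nonneg _) (fun y => ?_) hF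
  rw [abs_mul, abs_of_nonneg (hφ _).1]
  exact mul_le_of_le_one_left (abs_nonneg _) (hφ _).2

theorem conv_A3 (F φ : Zd d → ℝ) (B : Finset (Zd d)) (K C : ℝ)
    (hF : Summable (fun y => |F y|)) (h1 : ∑' y, F y = 1) (he : ∀ y, F (-y) = F y)
    (hs : Summable (fun y => LE.sq y * |F y|)) (hC : ∑' y, LE.sq y * |F y| ≤ C)
    (hφ : ∀ v, 0 ≤ φ v ∧ φ v ≤ 1) (hsupp : ∀ v, φ v ≠ 0 → v ∈ B)
    (h2 : ∀ v y, |φ (v + y) + φ (v - y) - 2 * φ v| ≤ K * LE.sq y) (hK : 0 ≤ K) (b : Zd d) :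
    |∑ v ∈ B, φ v * F (b - v) - φ b| ≤ K * C / 2 := by
  have sF : Summable F := hF.of_abs
  have s1 : Summable (fun y => φ (b - y) * F y) := sumr_A3 hF hφ fun y => b - y
  have s2 : Summable (fun y => φ (b + y) * F y) := sumr_A3 hF hφ fun y => b + y
  have e1 : ∑ v ∈ B, φ v * F (b - v) = ∑' v, φ v * F (b - v) := by
    symm
    refine tsum_eq_sum fun v hv => ?_
    have : φ v = 0 := by
      by_contra h
      exact hv (hsupp v h)
    rw [this, zero_mul]
  have e2 : ∑' v, φ v * F (b - v) = ∑' y, φ (b - y) * F y := by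
    rw [← (Equiv.subLeft b).tsum_eq (fun v => φ v * F (b - v))]
    refine tsum_congr fun y => ?_
    show φ (b - y) * F (b - (b - y)) = _
    rw [sub_sub_cancel]
  have e3 : ∑' y, φ (b - y) * F y = ∑' y, φ (b + y) * F y := by
    rw [← (Equiv.neg (Zd d)).tsum_eq (fun y => φ (b - y) * F y)]
    refine tsum_congr fun y => ?_
    show φ (b - -y) * F (-y) = _
    rw [sub_neg_eq_add, he]
  have e4 : ∑' y, (φ (b + y) + φ (b - y) - 2 * φ b) * F y =
      2 * (∑ v ∈ B, φ v * F (b - v) - φ b) := by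
    have h3 : ∀ y, (φ (b + y) + φ (b - y) - 2 * φ b) * F y =
        φ (b + y) * F y + φ (b - y) * F y - 2 * φ b * F y := fun y => by ring
    rw [tsum_congr h3, (s2.add s1).tsum_sub (sF.mul_left _), s2.tsum_add s1, tsum_mul_left, h1,
      e1, e2, ← e3]
    ring
  have h4 : Summable (fun y => |(φ (b + y) + φ (b - y) - 2 * φ b) * F y|) := by
    refine Summable.of_nonneg_of_le (fun y => abs_nonneg _) (fun y => ?_) (hs.mul_left K)
    rw [abs_mul]
    calc |φ (b + y) + φ (b - y) - 2 * φ b| * |F y| ≤ (K * LE.sq y) * |F y| :=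
          mul_le_mul_of_nonneg_right (h2 b y) (abs_nonneg _)
      _ = K * (LE.sq y * |F y|) := by ring
  have h5 : |∑' y, (φ (b + y) + φ (b - y) - 2 * φ b) * F y| ≤ K * C := by
    calc |∑' y, (φ (b + y) + φ (b - y) - 2 * φ b) * F y|
        ≤ ∑' y, |(φ (b + y) + φ (b - y) - 2 * φ b) * F y| := by
          have := norm_tsum_le_tsum_norm (f := fun y => (φ (b + y) + φ (b - y) - 2 * φ b) * F y)
            (by simpa only [Real.norm_eq_abs] using h4)
          simpa only [Real.norm_eq_abs] using this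
      _ ≤ ∑' y, K * (LE.sq y * |F y|) := by
          refine h4.tsum_le_tsum (fun y => ?_) (hs.mul_left K)
          rw [abs_mul]
          calc |φ (b + y) + φ (b - y) - 2 * φ b| * |F y| ≤ (K * LE.sq y) * |F y| :=
                mul_le_mul_of_nonneg_right (h2 b y) (abs_nonneg _)
            _ = K * (LE.sq y * |F y|) := by ring
      _ = K * ∑' y, LE.sq y * |F y| := tsum_mul_left
      _ ≤ K * C := mul_le_mul_of_nonneg_left hC hK
  rw [e4, abs_mul, abs_two] at h5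
  linarith

/-- one box -/
theorem box_A3 (n : ℕ) (hn : 1 ≤ n) (B : Finset (Zd d)) (h φ gam : Zd d → ℝ) (FLk : Zd d → Zd d → ℝ)
    (FZk : Zd d → ℝ) (C₁ CF c R : ℝ) (hC₁ : 0 ≤ C₁) (hcard : (B.card : ℝ) = (n : ℝ) ^ d)
    (hh0 : ∀ b ∈ B, 0 ≤ h b) (hh1 : ∀ b ∈ B, h b ≤ C₁ * (n : ℝ) ^ 2)
    (heq : ∀ v ∈ B, h v = gam v + ∑ b ∈ B, FLk v b * h b)
    (hgam : ∀ v ∈ B, 3 / 4 ≤ gam v) (hφ : ∀ v, 0 ≤ φ v ∧ φ v ≤ 1)
    (hR : 0 < R) (hRn : (n : ℝ) / 16 ≤ R)
    (hloc : ∀ v ∈ B, φ v ≠ 0 → ∑ b ∈ B, |FLk v b - FZk (b - v)| ≤ 2 / R ^ 3)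
    (hconv : ∀ b, |∑ v ∈ B, φ v * FZk (b - v) - φ b| ≤ 1000 / (n : ℝ) ^ 2 * CF / 2)
    (hsum : c * (n : ℝ) ^ d ≤ ∑ v ∈ B, φ v) :
    3 / 4 * c * (n : ℝ) ^ d ≤ 500 * CF / (n : ℝ) ^ 2 * ∑ b ∈ B, h b +
      8192 * C₁ * (n : ℝ) ^ d / n := by
  have hn0 : (0 : ℝ) < n := by exact_mod_cast hn
  -- multiply by `φ` and sum
  have h1 : ∑ v ∈ B, φ v * h v = ∑ v ∈ B, φ v * gam v +
      ∑ b ∈ B, h b * ∑ v ∈ B, φ v * FLk v b := by
    have : ∑ b ∈ B, h b * ∑ v ∈ B, φ v * FLk v b = ∑ v ∈ B, φ v * ∑ b ∈ B, FLk v b * h b := by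
      simp only [Finset.mul_sum]
      rw [Finset.sum_comm]
      refine Finset.sum_congr rfl fun v _ => Finset.sum_congr rfl fun b _ => ?_
      ring
    rw [this, ← Finset.sum_add_distrib]
    refine Finset.sum_congr rfl fun v hv => ?_
    rw [heq v hv]
    ring
  have h2 : 3 / 4 * ∑ v ∈ B, φ v ≤ ∑ v ∈ B, φ v * gam v := by
    rw [Finset.mul_sum]
    refine Finset.sum_le_sum fun v hv => ?_
    rw [mul_comm]
    exact mul_le_mul_of_nonneg_left (hgam v hv) (hφ v).1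
  -- the local error
  have h3 : |∑ b ∈ B, h b * (∑ v ∈ B, φ v * FLk v b - ∑ v ∈ B, φ v * FZk (b - v))| ≤
      8192 * C₁ * (n : ℝ) ^ d / n := by
    calc |∑ b ∈ B, h b * (∑ v ∈ B, φ v * FLk v b - ∑ v ∈ B, φ v * FZk (b - v))|
        ≤ ∑ b ∈ B, C₁ * (n : ℝ) ^ 2 * ∑ v ∈ B, φ v * |FLk v b - FZk (b - v)| := by
          refine (Finset.abs_sum_le_sum_abs _ _).trans (Finset.sum_le_sum fun b hb => ?_)
          rw [abs_mul, abs_of_nonneg (hh0 b hb)]
          refine mul_le_mul (hh1 b hb) ?_ (abs_nonneg _) (by positivity)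
          rw [← Finset.sum_sub_distrib]
          refine (Finset.abs_sum_le_sum_abs _ _).trans (Finset.sum_le_sum fun v _ => ?_)
          rw [← mul_sub, abs_mul, abs_of_nonneg (hφ v).1]
      _ = C₁ * (n : ℝ) ^ 2 * ∑ v ∈ B, φ v * ∑ b ∈ B, |FLk v b - FZk (b - v)| := by
          rw [← Finset.mul_sum, Finset.sum_comm]
          congr 1
          refine Finset.sum_congr rfl fun v _ => ?_
          rw [Finset.mul_sum]
      _ ≤ C₁ * (n : ℝ) ^ 2 * ∑ v ∈ B, 2 / R ^ 3 := by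
          refine mul_le_mul_of_nonneg_left (Finset.sum_le_sum fun v hv => ?_) (by positivity)
          by_cases h0 : φ v = 0
          · rw [h0, zero_mul]
            positivity
          · calc φ v * ∑ b ∈ B, |FLk v b - FZk (b - v)| ≤ 1 * (2 / R ^ 3) :=
                  mul_le_mul (hφ v).2 (hloc v hv h0) (Finset.sum_nonneg fun _ _ => abs_nonneg _)
                    zero_le_one
              _ = 2 / R ^ 3 := one_mul _
      _ = C₁ * (n : ℝ) ^ 2 * ((n : ℝ) ^ d * (2 / R ^ 3)) := by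
          rw [Finset.sum_const, nsmul_eq_mul, hcard]
      _ ≤ C₁ * (n : ℝ) ^ 2 * ((n : ℝ) ^ d * (2 / ((n : ℝ) / 16) ^ 3)) := by
          have h4 : ((n : ℝ) / 16) ^ 3 ≤ R ^ 3 := pow_le_pow_left₀ (by positivity) hRn 3
          have h5 : 2 / R ^ 3 ≤ 2 / ((n : ℝ) / 16) ^ 3 :=
            div_le_div_of_nonneg_left (by norm_num) (by positivity) h4
          exact mul_le_mul_of_nonneg_left (mul_le_mul_of_nonneg_left h5 (by positivity))
            (by positivity)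
      _ = 8192 * C₁ * (n : ℝ) ^ d / n := by
          rw [div_pow]
          field_simp
          ring
  -- the global error
  have h4 : |∑ b ∈ B, h b * (∑ v ∈ B, φ v * FZk (b - v) - φ b)| ≤
      500 * CF / (n : ℝ) ^ 2 * ∑ b ∈ B, h b := by
    rw [Finset.mul_sum]
    refine (Finset.abs_sum_le_sum_abs _ _).trans (Finset.sum_le_sum fun b hb => ?_)
    rw [abs_mul, abs_of_nonneg (hh0 b hb), mul_comm]
    refine mul_le_mul_of_nonneg_right ((hconv b).trans (le_of_eq ?_)) (hh0 b hb)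
    ring
  have h5 : ∑ b ∈ B, h b * ∑ v ∈ B, φ v * FLk v b =
      ∑ b ∈ B, φ b * h b + ∑ b ∈ B, h b * (∑ v ∈ B, φ v * FZk (b - v) - φ b) +
      ∑ b ∈ B, h b * (∑ v ∈ B, φ v * FLk v b - ∑ v ∈ B, φ v * FZk (b - v)) := by
    rw [← Finset.sum_add_distrib, ← Finset.sum_add_distrib]
    refine Finset.sum_congr rfl fun b _ => ?_
    ring
  have h6 := neg_abs_le (∑ b ∈ B, h b * (∑ v ∈ B, φ v * FLk v b - ∑ v ∈ B, φ v * FZk (b - v)))
  have h7 := neg_abs_le (∑ b ∈ B, h b * (∑ v ∈ B, φ v * FZk (b - v) - φ b))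
  have h8 : 3 / 4 * (c * (n : ℝ) ^ d) ≤ 3 / 4 * ∑ v ∈ B, φ v :=
    mul_le_mul_of_nonneg_left hsum (by norm_num)
  linarith

theorem gam_A3 {E : Finset (Sym2 (Zd d))} {p : ℝ} {B : Finset (Zd d)} {v : Zd d} (hv : v ∈ B)
    (h1 : Summable (fun x => |gT E p v x|))
    (h2 : ∑' x, |gT E p v x - ind (x = v)| ≤ 1 / 4) : 3 / 4 ≤ ∑ x ∈ B, gT E p v x := by
  classical
  have hind : Summable (fun x : Zd d => |ind (x = v)|) := by
    refine summable_of_ne_finset_zero (s := {v}) fun x hx => ?_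
    rw [Finset.mem_singleton] at hx
    rw [ind, if_neg hx, abs_zero]
  have h3 : Summable (fun x => |gT E p v x - ind (x = v)|) := by
    refine Summable.of_nonneg_of_le (fun x => abs_nonneg _) (fun x => ?_) (h1.add hind)
    exact abs_sub _ _
  have h4 : ∑ x ∈ B, |gT E p v x - ind (x = v)| ≤ 1 / 4 :=
    (h3.sum_le_tsum B fun _ _ => abs_nonneg _).trans h2
  have h5 : ∑ x ∈ B, ind (x = v) = 1 := by
    rw [Finset.sum_eq_single v]
    · rw [ind, if_pos rfl]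
    · intro x _ hx
      rw [ind, if_neg hx]
    · intro h
      exact absurd hv h
  have h6 : ∑ x ∈ B, (ind (x = v) - |gT E p v x - ind (x = v)|) ≤ ∑ x ∈ B, gT E p v x := by
    refine Finset.sum_le_sum fun x _ => ?_
    have := neg_abs_le (gT E p v x - ind (x = v))
    linarith
  rw [Finset.sum_sub_distrib, h5] at h6
  linarith

/-- (A3) -/
theorem hA3 (hG3 : StG3) (hHeq : StHeq) (hLocE : StLocE) (hFin : StFin) (hFZ : StFZ)
    (hTest : StTest) (hA1 : StA1) (hCpTau : StCpTau) (hBn : StBn) (hHh : StHh) (hB8 : StB8)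
    (hS6d : StS6d) : StA3 := by
  obtain ⟨dG, hG⟩ := hG3
  obtain ⟨dF, hdF, hF⟩ := hFZ
  obtain ⟨dA, hA⟩ := hA1
  obtain ⟨dB, hdB, hB⟩ := hB8
  refine ⟨max (max dG dF) (max dA dB), fun d hd => ?_⟩
  have hdG : dG ≤ d := le_trans (le_trans (le_max_left _ _) (le_max_left _ _)) hd
  have hdF' : dF ≤ d := le_trans (le_trans (le_max_right _ _) (le_max_left _ _)) hd
  have hdA : dA ≤ d := le_trans (le_trans (le_max_left _ _) (le_max_right _ _)) hd
  have hdB' : dB ≤ d := le_trans (le_trans (le_max_right _ _) (le_max_right _ _)) hd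
  have hd1 : 1 ≤ d := hdF.trans hdF'
  obtain ⟨hGZ, hGE⟩ := hG d hdG
  obtain ⟨CF, hCF, hF1, hF2, hF3, hF4, hF5⟩ := hF d hdF'
  obtain ⟨C₁, hC₁, hA⟩ := hA d hdA
  obtain ⟨hp0, hpd, hp2, -, -⟩ := hB d hdB'
  obtain ⟨c, hc, n₀, hn₀, hT⟩ := hTest d hd1
  have hp1 : pH d ≤ 1 := by linarith
  have hd0 : (0 : ℝ) < d := by exact_mod_cast hd1
  have h2dp : 2 * (d : ℝ) * pH d ≤ 2 := by
    rw [le_div_iff₀ hd0] at hpd
    linarith
  -- general facts
  have fh1 : ∀ n : ℕ, ∀ x ∈ Bn d n, 1 ≤ hh (Bn d n) (ES (Bn d n)) (pH d) x := fun n x hx =>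
    (hHh (Zd d) (Bn d n) (ES (Bn d n)) (2 * d) (pH d) (hBn d n).1 hp0.le hp1).2.2.2.2 x hx
  have fh2 : ∀ n : ℕ, 1 ≤ n → ∀ x ∈ Bn d n,
      hh (Bn d n) (ES (Bn d n)) (pH d) x ≤ C₁ * (n : ℝ) ^ 2 := by
    intro n hn x hx
    calc hh (Bn d n) (ES (Bn d n)) (pH d) x ≤ ∑ y ∈ Bn d n, tau d (pH d) (y - x) :=
          Finset.sum_le_sum fun y _ => hCpTau d n (pH d) x y hp0.le hp1
      _ = ∑ z ∈ (Bn d n).image (fun y => y - x), tau d (pH d) z := by
          rw [Finset.sum_image]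
          intro y _ y' _ h
          exact sub_left_injective h
      _ ≤ ∑ z ∈ bx d n, tau d (pH d) z := by
          refine Finset.sum_le_sum_of_subset_of_nonneg ?_ fun _ _ _ => ENNReal.toReal_nonneg
          intro z hz
          rw [Finset.mem_image] at hz
          obtain ⟨y, hy, rfl⟩ := hz
          exact (hBn d n).2.2.2.2 x hx y hy
      _ ≤ C₁ * (n : ℝ) ^ 2 := hA n hn
  have fcard : ∀ n : ℕ, ((Bn d n).card : ℝ) = (n : ℝ) ^ d := by
    intro n
    rw [(hBn d n).2.1]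
    push_cast
    rfl
  -- the threshold
  obtain ⟨n₁, hn₁⟩ := exists_nat_ge (4 * (8192 * C₁) / c)
  set N : ℕ := max n₀ (max n₁ 1) with hN
  have hN1 : 1 ≤ N := (le_max_right _ _).trans (le_max_right _ _)
  refine ⟨min (c / (1000 * CF)) (1 / (N : ℝ) ^ 2), by positivity, fun n hn => ?_⟩
  have hn0 : (0 : ℝ) < n := by exact_mod_cast hn
  rcases le_or_gt N n with hNn | hNn
  · have hn0' : n₀ ≤ n := (le_max_left _ _).trans hNn
    have hn1' : n₁ ≤ n := ((le_max_left _ _).trans (le_max_right _ _)).trans hNn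
    obtain ⟨hφ, hφB, hφ2, hφs⟩ := hT n hn0'
    have hG3n : G3 (ES (Bn d n)) (pH d) := hGE _ (hBn d n).2.2.1
    have hn16 : 16 ≤ n := hn₀.trans hn0'
    have hR1 : 1 ≤ n / 8 := by omega
    have hR0 : (0 : ℝ) < ((n / 8 : ℕ) : ℝ) := by exact_mod_cast hR1
    have hRn : (n : ℝ) / 16 ≤ ((n / 8 : ℕ) : ℝ) := by
      rw [div_le_iff₀ (by norm_num)]
      have : n ≤ n / 8 * 16 := by omega
      exact_mod_cast this
    have h0bx : (0 : Zd d) ∈ bx d (n / 8) := by
      rw [bx, Fintype.mem_piFinset]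
      intro i
      rw [Finset.mem_Icc, Pi.zero_apply]
      omega
    have key := box_A3 n hn (Bn d n) (hh (Bn d n) (ES (Bn d n)) (pH d)) (phiT d n)
      (fun v => ∑ x ∈ Bn d n, gT (ES (Bn d n)) (pH d) v x) (FL (ES (Bn d n)) (pH d))
      (FZ d (pH d)) C₁ CF c ((n / 8 : ℕ) : ℝ) (by linarith) (fcard n)
      (fun b hb => zero_le_one.trans (fh1 n b hb)) (fh2 n hn)
      (fun v hv => hHeq d n (pH d) hp0.le hp1 hG3n v hv)
      (fun v hv => by
        obtain ⟨-, h1, h2, -⟩ := hFin d (ES (Bn d n)) (pH d) hp0.le hp1 (hBn d n).2.2.1 hG3n v v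
        exact gam_A3 hv (h1 v) (h2 v))
      hφ hR0 hRn
      (fun v hv h0 => by
        obtain ⟨h1, h2⟩ := hLocE d n (n / 8) (pH d) hd1 hp0.le h2dp hGZ hG3n hR1 v (hφB v h0)
        exact (h1.sum_le_tsum _ fun _ _ => abs_nonneg _).trans h2)
      (fun b => conv_A3 (FZ d (pH d)) (phiT d n) (Bn d n) (1000 / (n : ℝ) ^ 2) CF hF1 hF2 hF3 hF4 hF5
        hφ (fun v hv => by
          have := hφB v hv 0 h0bx
          rwa [add_zero] at this)
        (fun v y => by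
          refine (hφ2 v y).trans (le_of_eq ?_)
          ring) (by positivity) b)
      hφs
    set S := ∑ x ∈ Bn d n, hh (Bn d n) (ES (Bn d n)) (pH d) x with hS
    have h1 : 8192 * C₁ * (n : ℝ) ^ d / n ≤ c / 4 * (n : ℝ) ^ d := by
      have h2 : 4 * (8192 * C₁) / c ≤ n := hn₁.trans (by exact_mod_cast hn1')
      rw [div_le_iff₀ hc] at h2
      rw [div_le_iff₀ hn0]
      have h3 : (0 : ℝ) < (n : ℝ) ^ d := by positivity
      have h4 : 8192 * C₁ ≤ c / 4 * n := by linarith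
      calc 8192 * C₁ * (n : ℝ) ^ d ≤ c / 4 * n * (n : ℝ) ^ d := mul_le_mul_of_nonneg_right h4 h3.le
        _ = c / 4 * (n : ℝ) ^ d * n := by ring
    have h2 : c / 2 * (n : ℝ) ^ d ≤ 500 * CF / (n : ℝ) ^ 2 * S := by linarith
    have h3 : c / (1000 * CF) * (n : ℝ) ^ (d + 2) ≤ S := by
      have h4 : c / (1000 * CF) * (n : ℝ) ^ (d + 2) = (n : ℝ) ^ 2 / (500 * CF) * (c / 2 * (n : ℝ) ^ d) := by
        rw [pow_add]
        field_simp
        ring
      have h5 : (n : ℝ) ^ 2 / (500 * CF) * (500 * CF / (n : ℝ) ^ 2 * S) = S := by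
        field_simp
      rw [h4, ← h5]
      exact mul_le_mul_of_nonneg_left h2 (by positivity)
    exact (mul_le_mul_of_nonneg_right (min_le_left _ _) (by positivity)).trans h3
  · have hN0 : (0 : ℝ) < N := by exact_mod_cast hN1
    calc min (c / (1000 * CF)) (1 / (N : ℝ) ^ 2) * (n : ℝ) ^ (d + 2)
        ≤ 1 / (N : ℝ) ^ 2 * (n : ℝ) ^ (d + 2) :=
          mul_le_mul_of_nonneg_right (min_le_right _ _) (by positivity)
      _ ≤ (n : ℝ) ^ d := by
          rw [pow_add, div_mul_eq_mul_div, one_mul, div_le_iff₀ (by positivity)]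
          refine mul_le_mul_of_nonneg_left ?_ (by positivity)
          exact pow_le_pow_left₀ hn0.le (by exact_mod_cast hNn.le) 2
      _ = ∑ _x ∈ Bn d n, (1 : ℝ) := by
          rw [Finset.sum_const, nsmul_eq_mul, mul_one, fcard]
      _ ≤ _ := Finset.sum_le_sum fun x hx => fh1 n x hx

end A3

end Pool.NL
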