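import Pool.Agent.Helper22.NL.StZ

/-! # Project NL: many points with a large cluster (module Big) -/

set_option autoImplicit false

open scoped BigOperators ENNReal Topology
open Pool.LE

namespace Pool.NL

theorem hBig (hX2 : StX2) (hM : StMomB) (hMany : StMany) (hT4 : StT4) (hBn : StBn) : StBig := by
  classical
  intro d C₁ B c₀ hE
  obtain ⟨c, hc, n₁, hn₁⟩ := hX2 d C₁ B c₀ hE
  have hp0 : 0 ≤ pH d := hE.p0.le
  have hp1 : pH d ≤ 1 := hE.p1.trans (by norm_num)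
  have hC : 1 ≤ C₁ := hE.hC
  have hC0 : 0 < C₁ := by linarith
  set η : ℝ := min 1 (c / (16 * C₁)) with hη
  have hη0 : 0 < η := lt_min one_pos (by positivity)
  have hη1 : η ≤ 1 := min_le_left _ _
  have hη2 : η ≤ c / (16 * C₁) := min_le_right _ _
  refine ⟨η, (c / 4) ^ 3 / (128 * C₁ ^ 5) ^ 2, c / (2 * (8 * C₁ ^ 3)), hη0, hη1, by positivity,
    by positivity, max (max n₁ 1) ⌈1 / η⌉₊, le_max_of_le_left (le_max_right _ _), ?_⟩
  intro n hn
  have hnn₁ : n₁ ≤ n := (le_max_left _ _).trans ((le_max_left _ _).trans hn)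
  have hn1 : 1 ≤ n := (le_max_right _ _).trans ((le_max_left _ _).trans hn)
  have hnη : 1 / η ≤ n := (Nat.le_ceil _).trans (by exact_mod_cast (le_max_right _ _).trans hn)
  have hnR : (1 : ℝ) ≤ n := by exact_mod_cast hn1
  have hn0 : (0 : ℝ) < n := by linarith
  have hηn : 1 ≤ η * (n : ℝ) ^ 4 := by
    have h1 : 1 ≤ η * n := by
      rw [div_le_iff₀ hη0] at hnη; linarith
    have h2 : (n : ℝ) ≤ (n : ℝ) ^ 4 := le_self_pow₀ hnR (by norm_num)
    nlinarith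
  have hmany := hMany d c (8 * C₁ ^ 3) hc (by positivity) n 6
    (fun x => eB d n (pH d) (fun ω => (XB d n ω x : ℝ) ^ 2)) hn1
    (fun x hx => (hM d C₁ B c₀ hE n hn1 x hx).2.1) (hn₁ n hnn₁)
  refine hmany.trans ?_
  have hsub : ((Bn d n).filter (fun x => c / 2 * (n : ℝ) ^ 6 ≤
      eB d n (pH d) (fun ω => (XB d n ω x : ℝ) ^ 2))) ⊆ ((Bn d n).filter (fun x =>
      (c / 4) ^ 3 / (128 * C₁ ^ 5) ^ 2 / (n : ℝ) ^ 2 ≤
        pB d n (pH d) (fun ω => 2 * thr η n ≤ XB d n ω x))) := by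
    intro x hx
    rw [Finset.mem_filter] at hx ⊢
    obtain ⟨hxB, hx2⟩ := hx
    refine ⟨hxB, ?_⟩
    obtain ⟨hm1, -, hm3, -⟩ := hM d C₁ B c₀ hE n hn1 x hxB
    have hthr : (thr η n : ℝ) ≤ 2 * (η * (n : ℝ) ^ 4) := by
      have := (Nat.ceil_lt_add_one (show 0 ≤ η * (n : ℝ) ^ 4 by positivity)).le
      unfold thr
      linarith
    have h4 := hT4 (Zd d) (ES (Bn d n)) (pH d) hp0 hp1 (fun ω => (XB d n ω x : ℝ))
      (C₁ * (n : ℝ) ^ 2) (c / 2 * (n : ℝ) ^ 6) (128 * C₁ ^ 5 * (n : ℝ) ^ 10)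
      (2 * (thr η n : ℝ)) (fun ω _ => Nat.cast_nonneg _) (by positivity) (by positivity)
      (by positivity) hm1 hx2 hm3 (by
        calc 2 * (thr η n : ℝ) * (C₁ * (n : ℝ) ^ 2) ≤
            2 * (2 * (η * (n : ℝ) ^ 4)) * (C₁ * (n : ℝ) ^ 2) :=
              mul_le_mul_of_nonneg_right (by linarith) (by positivity)
          _ = 4 * C₁ * (n : ℝ) ^ 6 * η := by ring
          _ ≤ 4 * C₁ * (n : ℝ) ^ 6 * (c / (16 * C₁)) :=
              mul_le_mul_of_nonneg_left hη2 (by positivity)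
          _ = c / 2 * (n : ℝ) ^ 6 / 2 := by field_simp; ring)
    have e1 : (c / 2 * (n : ℝ) ^ 6 / 2) ^ 3 / (128 * C₁ ^ 5 * (n : ℝ) ^ 10) ^ 2 =
        (c / 4) ^ 3 / (128 * C₁ ^ 5) ^ 2 / (n : ℝ) ^ 2 := by
      field_simp
      ring
    rw [e1] at h4
    refine h4.trans (le_of_eq ?_)
    unfold pB
    congr 1
    funext ω
    rw [eq_iff_iff]
    constructor
    · intro h
      exact_mod_cast h
    · intro h
      exact_mod_cast h
  exact_mod_cast Finset.card_le_card hsub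

end Pool.NL
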