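import Pool.Agent.Helper22.NL.StZ

/-! # Project NL, module Bn: the box graph -/

set_option autoImplicit false

open scoped BigOperators ENNReal
open Pool.LE

namespace Pool.NL

theorem hBn (hBox : StBox) : StBn := by
  classical
  intro d n
  obtain ⟨-, hbx, -, -, -, -, -, hES, hlat, -, -, hcard, hsq⟩ := hBox d
  have hmem : ∀ x : Zd d, x ∈ Bn d n ↔ ∀ i, 0 ≤ x i ∧ x i < n := by
    intro x
    unfold Bn
    rw [Fintype.mem_piFinset]
    simp only [Finset.mem_Ico]
  refine ⟨⟨?_, ?_, ?_⟩, ?_, hlat _, hmem, ?_⟩
  · intro e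
    induction e using Sym2.ind with
    | _ x b =>
      intro he v hv
      obtain ⟨hx, hb, -⟩ := (hES _ x b).1 he
      rcases Sym2.mem_iff.1 hv with h | h
      · rw [h]; exact hx
      · rw [h]; exact hb
  · intro e
    induction e using Sym2.ind with
    | _ x b =>
      intro he hd
      obtain ⟨-, -, hb⟩ := (hES _ x b).1 he
      have hxb : x = b := hd
      have h1 := hsq x b hb
      rw [hxb, sub_self] at h1
      have h0 : LE.sq (0 : Zd d) = 0 := by
        unfold LE.sq
        simp
      rw [h0] at h1
      exact zero_ne_one h1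
  · intro v _
    have hsub : (ES (Bn d n)).filter (fun e => v ∈ e) ⊆ (nb v).image (fun b => s(v, b)) := by
      intro e he
      obtain ⟨he1, he2⟩ := Finset.mem_filter.1 he
      obtain ⟨b, rfl⟩ := Sym2.mem_iff_exists.1 he2
      exact Finset.mem_image.2 ⟨b, ((hES _ v b).1 he1).2.2, rfl⟩
    exact (Finset.card_le_card hsub).trans (Finset.card_image_le.trans (hcard v).le)
  · unfold Bn
    rw [Fintype.card_piFinset]
    simp
  · intro x hx y hy
    rw [hbx]
    intro i
    have h1 := (hmem x).1 hx i
    have h2 := (hmem y).1 hy i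
    show |y i - x i| ≤ (n : ℤ)
    rw [abs_le]
    constructor <;> omega

end Pool.NL
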