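import Pool.Agent.Helper22.NL.StM

/-! # Project NL, module CS: Cauchy-Schwarz for the bridge count -/

set_option autoImplicit false

open scoped BigOperators ENNReal
open Pool.LE

namespace Pool.NL

theorem hCS (hCov : StCov) (hN2 : StN2) (hB : StBasic) : StCS := by
  intro V _ L E D p hG hp0 hp1
  obtain ⟨hmono, hconst, -, -, -, -, -, -, hcs, -⟩ := hB V E p hp0 hp1
  have hsq : ∀ f : Finset (Sym2 V) → ℝ, 0 ≤ ex E p (fun ω => f ω ^ 2) := by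
    intro f
    rw [← hconst 0]
    exact hmono _ _ fun ω _ => sq_nonneg _
  rw [← hCov V L E D p hG hp0 hp1]
  have ha : ∀ x, 0 ≤ ex E p (fun ω => (Xc L ω x : ℝ) ^ 2) := fun x => hsq _
  have hb : ∀ x, 0 ≤ ex E p (fun ω => (NM E p ω x) ^ 2) := fun x => hsq _
  have h1 : ∀ x ∈ L, |ex E p (fun ω => (Xc L ω x : ℝ) * NM E p ω x)| ≤
      Real.sqrt (ex E p (fun ω => (Xc L ω x : ℝ) ^ 2)) *
        Real.sqrt (ex E p (fun ω => (NM E p ω x) ^ 2)) := by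
    intro x _
    rw [← Real.sqrt_mul (ha x)]
    exact Real.abs_le_sqrt (hcs (fun ω => (Xc L ω x : ℝ)) (fun ω => NM E p ω x))
  have h2 : |∑ x ∈ L, ex E p (fun ω => (Xc L ω x : ℝ) * NM E p ω x)| ≤
      ∑ x ∈ L, Real.sqrt (ex E p (fun ω => (Xc L ω x : ℝ) ^ 2)) *
        Real.sqrt (ex E p (fun ω => (NM E p ω x) ^ 2)) :=
    (Finset.abs_sum_le_sum_abs _ _).trans (Finset.sum_le_sum h1)
  have h3 : (∑ x ∈ L, ex E p (fun ω => (Xc L ω x : ℝ) * NM E p ω x)) ^ 2 ≤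
      (∑ x ∈ L, Real.sqrt (ex E p (fun ω => (Xc L ω x : ℝ) ^ 2)) *
        Real.sqrt (ex E p (fun ω => (NM E p ω x) ^ 2))) ^ 2 := by
    rw [← sq_abs]
    exact pow_le_pow_left₀ (abs_nonneg _) h2 2
  refine h3.trans ?_
  refine (Finset.sum_mul_sq_le_sq_mul_sq L _ _).trans ?_
  have h4 : ∑ x ∈ L, Real.sqrt (ex E p (fun ω => (Xc L ω x : ℝ) ^ 2)) ^ 2 =
      ∑ x ∈ L, ex E p (fun ω => (Xc L ω x : ℝ) ^ 2) :=
    Finset.sum_congr rfl fun x _ => Real.sq_sqrt (ha x)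
  have h5 : ∑ x ∈ L, Real.sqrt (ex E p (fun ω => (NM E p ω x) ^ 2)) ^ 2 =
      ∑ x ∈ L, ex E p (fun ω => (NM E p ω x) ^ 2) :=
    Finset.sum_congr rfl fun x _ => Real.sq_sqrt (hb x)
  rw [h4, h5]
  refine mul_le_mul_of_nonneg_left ?_ (Finset.sum_nonneg fun x _ => ha x)
  rw [Finset.mul_sum]
  exact Finset.sum_le_sum fun x hx => hN2 V L E D p hG hp0 hp1 x hx

end Pool.NL
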