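import Pool.Agent.Helper22.NL.StI
import Pool.Agent.Helper84.LE.BGR

/-! # Project NL: module ClZ (clusters in finite and infinite volume) -/

set_option autoImplicit false

open scoped BigOperators
open Pool.LE

namespace Pool.NL

theorem GZU_eq_ClZ (hBox : StBox) (d n : ℕ) (p : ℝ)
    (ω : ((Fin d → ℤ) × Fin d) → unitInterval) :
    GZU d n p ω = gr (opE (ES (Bn d n)) p ω) := by
  classical
  obtain ⟨-, -, hnb, -, -, -, -, hES, -⟩ := hBox d
  have key : ∀ x y : Zd d, x ∈ Bn d n → y ∈ Bn d n → ∀ i : Fin d,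
      y = x + Pi.single i (1 : ℤ) → ((ω (x, i) : ℝ) < p) →
        s(x, y) ∈ opE (ES (Bn d n)) p ω := by
    intro x y hx hy i hi hp
    unfold opE
    rw [Finset.mem_filter]
    exact ⟨(hES _ _ _).2 ⟨hx, hy, (hnb x y).2 ⟨i, Or.inl hi⟩⟩, x, i, by rw [hi], hp⟩
  ext x y
  rw [gr_adj]
  unfold GZU
  rw [SimpleGraph.fromRel_adj]
  constructor
  · rintro ⟨hne, h⟩
    refine ⟨?_, hne⟩
    rcases h with ⟨hx, hy, i, hi, hp⟩ | ⟨hx, hy, i, hi, hp⟩
    · exact key x y hx hy i hi hp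
    · rw [Sym2.eq_swap]
      exact key y x hx hy i hi hp
  · rintro ⟨h, hne⟩
    refine ⟨hne, ?_⟩
    unfold opE at h
    rw [Finset.mem_filter] at h
    obtain ⟨h1, x', i, h2, h3⟩ := h
    obtain ⟨hx, hy, -⟩ := (hES _ _ _).1 h1
    rcases Sym2.eq_iff.1 h2 with ⟨rfl, rfl⟩ | ⟨rfl, rfl⟩
    · exact Or.inl ⟨hx, hy, i, rfl, h3⟩
    · exact Or.inr ⟨hy, hx, i, rfl, h3⟩

theorem hClZ (hBox : StBox) : StClZ := by
  classical
  intro d n p ω x _
  constructor
  · unfold cZ XB Xc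
    rw [GZU_eq_ClZ hBox]
    have h : {y | y ∈ BU d n ∧ (gr (opE (ES (Bn d n)) p ω)).Reachable x y} =
        ((clu (Bn d n) (opE (ES (Bn d n)) p ω) x : Finset (Zd d)) : Set (Zd d)) := by
      ext y
      unfold clu con
      rw [Finset.mem_coe, Finset.mem_filter]
      exact Iff.rfl
    rw [h, Set.ncard_coe_finset]
  · unfold cZ cBk
    apply Set.ncard_le_ncard
    · rintro y ⟨hy, h⟩
      refine ⟨hy, h.mono ?_⟩
      intro a b hab
      unfold GZU at hab
      unfold GU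
      rw [SimpleGraph.fromRel_adj] at hab ⊢
      refine ⟨hab.1, ?_⟩
      rcases hab.2 with h | h
      · exact Or.inl h.2.2
      · exact Or.inr h.2.2
    · exact (BU d n).finite_toSet.subset fun y hy => hy.1

end Pool.NL
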