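import Pool.Agent.Helper22.NL.StT

/-! # Project NL, module CoefU: the coefficients do not depend on the number of terms -/

set_option autoImplicit false

open scoped BigOperators ENNReal Topology
open Pool.LE

namespace Pool.NL

theorem hCoefU (hCoef : StCoef) : StCoefU := by
  classical
  intro d E p M m
  induction m using Nat.strong_induction_on generalizing M with
  | _ m ih =>
    intro v x hm
    have h1 := hCoef (Zd d) E p M m v x hm
    have h2 := hCoef (Zd d) E p m m v x le_rfl
    have h3 : ∑ ub ∈ drt E, ∑ j ∈ Finset.range m,
        (gE E p M v ub.1).coeff j * p * (GG E p ub.2 x).coeff (m - 1 - j) =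
        ∑ ub ∈ drt E, ∑ j ∈ Finset.range m,
        (gE E p m v ub.1).coeff j * p * (GG E p ub.2 x).coeff (m - 1 - j) := by
      refine Finset.sum_congr rfl fun ub _ => Finset.sum_congr rfl fun j hj => ?_
      rw [Finset.mem_range] at hj
      rw [ih j hj M v ub.1 (by omega), ih j hj m v ub.1 hj.le]
    unfold gL
    rw [h3] at h1
    linarith

end Pool.NL
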