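import Pool.Agent.Helper22.NL.StM
import Pool.Agent.Helper84.LE.BGR
import Pool.Agent.Helper84.LE.BWT

/-! # Project NL: module Cov (covariance of the cluster size and the exploration martingale) -/

set_option autoImplicit false

open scoped BigOperators
open Pool.LE

namespace Pool.NL

variable {V : Type} [DecidableEq V]

theorem con_insert_Cov {ω : Finset (Sym2 V)} {u b x y : V} :
    con (insert s(u, b) ω) x y ↔
      con ω x y ∨ (con ω x u ∧ con ω b y) ∨ (con ω x b ∧ con ω u y) := by
  constructor
  · rintro ⟨q⟩
    induction q with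
    | nil => exact Or.inl (con_refl _ _)
    | cons hadj r ih =>
      rename_i x z y
      have h1 := (gr_adj.1 hadj).1
      rcases Finset.mem_insert.1 h1 with h2 | h2
      · rcases Sym2.eq_iff.1 h2 with ⟨rfl, rfl⟩ | ⟨rfl, rfl⟩
        · rcases ih with h | h | h
          · exact Or.inr (Or.inl ⟨con_refl _ _, h⟩)
          · exact Or.inr (Or.inl ⟨con_refl _ _, h.2⟩)
          · exact Or.inl h.2
        · rcases ih with h | h | h
          · exact Or.inr (Or.inr ⟨con_refl _ _, h⟩)
          · exact Or.inl h.2
          · exact Or.inr (Or.inr ⟨con_refl _ _, h.2⟩)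
      · have h3 := con_of_mem h2
        rcases ih with h | h | h
        · exact Or.inl (con_trans h3 h)
        · exact Or.inr (Or.inl ⟨con_trans h3 h.1, h.2⟩)
        · exact Or.inr (Or.inr ⟨con_trans h3 h.1, h.2⟩)
  · have hm : ω ⊆ insert s(u, b) ω := Finset.subset_insert _ _
    have he : con (insert s(u, b) ω) u b := con_of_mem (Finset.mem_insert_self _ _)
    rintro (h | h | h)
    · exact con_mono hm h
    · exact con_trans (con_mono hm h.1) (con_trans he (con_mono hm h.2))
    · exact con_trans (con_mono hm h.1) (con_trans (con_symm he) (con_mono hm h.2))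

theorem con_touch_Cov {ω : Finset (Sym2 V)} {e : Sym2 V} {x : V} (h : ¬ ∃ v ∈ e, con ω x v) (y : V) :
    con ω x y ↔ con (insert e ω) x y := by
  apply con_iff_of_cluster
  intro e' he'
  rw [Finset.mem_insert]
  constructor
  · exact Or.inr
  · rintro (h1 | h1)
    · exact absurd (h1 ▸ he') h
    · exact h1

open Classical in
/-- the cluster size if the edge does not touch the cluster -/
noncomputable def gf_Cov (L : Finset V) (e : Sym2 V) (x : V) (ω : Finset (Sym2 V)) : ℝ :=
  if (∃ v ∈ e, con ω x v) then 0 else (Xc L ω x : ℝ)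

theorem gf_insert_Cov (L : Finset V) (e : Sym2 V) (x : V) (ω : Finset (Sym2 V)) :
    gf_Cov L e x (insert e ω) = gf_Cov L e x ω := by
  classical
  unfold gf_Cov
  by_cases h : ∃ v ∈ e, con ω x v
  · rw [if_pos h, if_pos]
    obtain ⟨v, hv, hc⟩ := h
    exact ⟨v, hv, con_mono (Finset.subset_insert _ _) hc⟩
  · have h1 : ¬ ∃ v ∈ e, con (insert e ω) x v := by
      rintro ⟨v, hv, hc⟩
      exact h ⟨v, hv, (con_touch_Cov h v).2 hc⟩
    rw [if_neg h, if_neg h1]
    unfold Xc clu
    congr 2
    apply Finset.filter_congr
    intro y _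
    exact (con_touch_Cov h y).symm

theorem insert_erase_Cov (ω : Finset (Sym2 V)) (e : Sym2 V) : insert e (ω.erase e) = insert e ω := by
  ext f
  rw [Finset.mem_insert, Finset.mem_insert, Finset.mem_erase]
  by_cases h : f = e
  · simp [h]
  · simp [h]

/-- the function of two endpoints -/
noncomputable def F_Cov (L : Finset V) (u b : V) (ω : Finset (Sym2 V)) : ℝ :=
  (Xc L ω u : ℝ) * Xc L ω b * ind (¬ con ω u b)

theorem ind_pos_Cov {A : Prop} (h : A) : ind A = 1 := by
  classical
  unfold ind; rw [if_pos h]

theorem ind_neg_Cov {A : Prop} (h : ¬ A) : ind A = 0 := by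
  classical
  unfold ind; rw [if_neg h]

omit [DecidableEq V] in
theorem Xc_sum_Cov (L : Finset V) (ω : Finset (Sym2 V)) (x : V) :
    (Xc L ω x : ℝ) = ∑ y ∈ L, ind (con ω x y) := by
  classical
  unfold Xc clu ind
  rw [Finset.card_filter]
  push_cast
  rfl

theorem Xc_congr_Cov {L : Finset V} {ω : Finset (Sym2 V)} {x y : V} (h : con ω x y) :
    Xc L ω x = Xc L ω y := by
  classical
  unfold Xc clu
  congr 1
  apply Finset.filter_congr
  intro z _
  exact ⟨fun h1 => con_trans (con_symm h) h1, fun h1 => con_trans h h1⟩

/-- the gain of an edge -/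
theorem gain_Cov (L : Finset V) (ω : Finset (Sym2 V)) (u b : V) :
    ∑ x ∈ L, ((Xc L (insert s(u, b) ω) x : ℝ) - Xc L ω x) = 2 * F_Cov L u b ω := by
  classical
  unfold F_Cov
  by_cases hub : con ω u b
  · rw [ind_neg_Cov (not_not.2 hub), mul_zero, mul_zero]
    apply Finset.sum_eq_zero
    intro x _
    rw [sub_eq_zero]
    congr 1
    unfold Xc clu
    congr 1
    apply Finset.filter_congr
    intro y _
    rw [con_insert_Cov]
    constructor
    · rintro (h | h | h)
      · exact h
      · exact con_trans h.1 (con_trans hub h.2)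
      · exact con_trans h.1 (con_trans (con_symm hub) h.2)
    · exact Or.inl
  · rw [ind_pos_Cov hub, mul_one]
    have key : ∀ x, (Xc L (insert s(u, b) ω) x : ℝ) - Xc L ω x =
        ind (con ω u x) * Xc L ω b + ind (con ω b x) * Xc L ω u := by
      intro x
      rw [Xc_sum_Cov L (insert s(u, b) ω), Xc_sum_Cov L ω x, Xc_sum_Cov L ω b, Xc_sum_Cov L ω u,
        ← Finset.sum_sub_distrib, Finset.mul_sum, Finset.mul_sum, ← Finset.sum_add_distrib]
      apply Finset.sum_congr rfl
      intro y _
      by_cases h1 : con ω u x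
      · have h2 : ¬ con ω b x := fun h2 => hub (con_trans h1 (con_symm h2))
        rw [ind_pos_Cov h1, ind_neg_Cov h2, one_mul, zero_mul, add_zero]
        by_cases h3 : con ω b y
        · have h4 : ¬ con ω x y := fun h4 => h2 (con_trans h3 (con_symm h4))
          rw [ind_pos_Cov h3, ind_neg_Cov h4,
            ind_pos_Cov (con_insert_Cov.2 (Or.inr (Or.inl ⟨con_symm h1, h3⟩)))]
          norm_num
        · rw [ind_neg_Cov h3]
          have h5 : con (insert s(u, b) ω) x y ↔ con ω x y := by
            rw [con_insert_Cov]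
            constructor
            · rintro (h | h | h)
              · exact h
              · exact absurd h.2 h3
              · exact absurd (con_symm h.1) h2
            · exact Or.inl
          by_cases h6 : con ω x y
          · rw [ind_pos_Cov h6, ind_pos_Cov (h5.2 h6)]; norm_num
          · rw [ind_neg_Cov h6, ind_neg_Cov (fun h => h6 (h5.1 h))]; norm_num
      · rw [ind_neg_Cov h1, zero_mul, zero_add]
        by_cases h2 : con ω b x
        · rw [ind_pos_Cov h2, one_mul]
          by_cases h3 : con ω u y
          · have h4 : ¬ con ω x y := fun h4 => h1 (con_trans h3 (con_symm h4))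
            rw [ind_pos_Cov h3, ind_neg_Cov h4,
              ind_pos_Cov (con_insert_Cov.2 (Or.inr (Or.inr ⟨con_symm h2, h3⟩)))]
            norm_num
          · rw [ind_neg_Cov h3]
            have h5 : con (insert s(u, b) ω) x y ↔ con ω x y := by
              rw [con_insert_Cov]
              constructor
              · rintro (h | h | h)
                · exact h
                · exact absurd (con_symm h.1) h1
                · exact absurd h.2 h3
              · exact Or.inl
            by_cases h6 : con ω x y
            · rw [ind_pos_Cov h6, ind_pos_Cov (h5.2 h6)]; norm_num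
            · rw [ind_neg_Cov h6, ind_neg_Cov (fun h => h6 (h5.1 h))]; norm_num
        · rw [ind_neg_Cov h2, zero_mul]
          have h5 : con (insert s(u, b) ω) x y ↔ con ω x y := by
            rw [con_insert_Cov]
            constructor
            · rintro (h | h | h)
              · exact h
              · exact absurd (con_symm h.1) h1
              · exact absurd (con_symm h.1) h2
            · exact Or.inl
          by_cases h6 : con ω x y
          · rw [ind_pos_Cov h6, ind_pos_Cov (h5.2 h6)]; norm_num
          · rw [ind_neg_Cov h6, ind_neg_Cov (fun h => h6 (h5.1 h))]; norm_num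
    rw [Finset.sum_congr rfl fun x _ => key x, Finset.sum_add_distrib, ← Finset.sum_mul,
      ← Finset.sum_mul, ← Xc_sum_Cov, ← Xc_sum_Cov]
    ring

/-- sum over directed edges -/
theorem sum_drt_Cov (E : Finset (Sym2 V)) (hE : ∀ e ∈ E, ¬ e.IsDiag) (G : V → V → ℝ)
    (hG : ∀ a b, G a b = G b a) :
    ∑ q ∈ drt E, G q.1 q.2 = ∑ e ∈ E, 2 * G (Quot.out e).1 (Quot.out e).2 := by
  have hout : ∀ e : Sym2 V, s((Quot.out e).1, (Quot.out e).2) = e := fun e => Quot.out_eq e
  unfold drt
  rw [Finset.sum_biUnion]
  · apply Finset.sum_congr rfl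
    intro e he
    rw [Finset.sum_pair]
    · simp only [Prod.fst_swap, Prod.snd_swap]
      rw [hG (Quot.out e).2 (Quot.out e).1]
      ring
    · intro h
      apply hE e he
      have h1 : (Quot.out e).1 = (Quot.out e).2 := by
        have := congrArg Prod.fst h
        simpa using this
      rw [← hout e, h1]
      exact Sym2.mk_isDiag_iff.2 rfl
  · intro e he e' he' hne
    apply Finset.disjoint_left.2
    intro q hq hq'
    apply hne
    have key : ∀ e : Sym2 V, q ∈ ({Quot.out e, (Quot.out e).swap} : Finset (V × V)) →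
        s(q.1, q.2) = e := by
      intro e hq
      rw [Finset.mem_insert, Finset.mem_singleton] at hq
      rcases hq with h | h
      · rw [h]; exact hout e
      · rw [h]
        simp only [Prod.fst_swap, Prod.snd_swap]
        rw [Sym2.eq_swap]
        exact hout e
    rw [← key e hq, ← key e' hq']

theorem hCov (hE : StEdge) (hB : StBasic) (hClu : StClu) : StCov := by
  classical
  intro V _ L E D p hFG h0 h1
  obtain ⟨-, -, -, bsub, bmul, bsum, -⟩ := hB V E p h0 h1
  have hcongr : ∀ f g : Finset (Sym2 V) → ℝ, (∀ ω ⊆ E, f ω = g ω) → ex E p f = ex E p g :=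
    fun f g h => Ex_congr h
  -- the contribution of one edge and one vertex
  have step : ∀ e ∈ E, ∀ x,
      ex E p (fun ω => (Xc L ω x : ℝ) * (if (∃ v ∈ e, con ω x v) then (ind (e ∈ ω) - p) else 0)) =
        p * (1 - p) * ex E p (fun ω => (Xc L (insert e ω) x : ℝ) - Xc L (ω.erase e) x) := by
    intro e he x
    have h2 : ex E p (fun ω => gf_Cov L e x ω * (ind (e ∈ ω) - p)) = 0 := by
      rw [((hE V E p e (gf_Cov L e x)) he).2.1]
      have h3 : ex E p (fun ω => gf_Cov L e x (insert e ω) - gf_Cov L e x (ω.erase e)) = 0 := by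
        rw [hcongr _ (fun _ => 0)]
        · exact Ex_zero E p
        · intro ω _
          rw [sub_eq_zero, ← insert_erase_Cov ω e]
          exact gf_insert_Cov L e x _
      rw [h3, mul_zero]
    rw [← ((hE V E p e (fun ω => (Xc L ω x : ℝ))) he).2.1]
    have h4 := bsub (fun ω => (Xc L ω x : ℝ) * (ind (e ∈ ω) - p))
      (fun ω => gf_Cov L e x ω * (ind (e ∈ ω) - p))
    rw [h2, sub_zero] at h4
    rw [← h4]
    apply hcongr
    intro ω _
    unfold gf_Cov
    by_cases h : ∃ v ∈ e, con ω x v
    · rw [if_pos h, if_pos h]; ring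
    · rw [if_neg h, if_neg h]; ring
  have edge : ∀ e ∈ E, ∀ u b : V, s(u, b) = e →
      ∑ x ∈ L, ex E p (fun ω => (Xc L ω x : ℝ) *
        (if (∃ v ∈ e, con ω x v) then (ind (e ∈ ω) - p) else 0)) =
          p * (2 * ex E p (F_Cov L u b)) := by
    intro e he u b hub
    rw [Finset.sum_congr rfl fun x _ => step e he x, ← Finset.mul_sum, ← bsum]
    have h2 : ex E p (fun ω => ∑ x ∈ L, ((Xc L (insert e ω) x : ℝ) - Xc L (ω.erase e) x)) =
        ex E p (fun ω => 2 * F_Cov L u b (ω.erase e)) := by
      apply hcongr
      intro ω _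
      rw [← gain_Cov, hub, insert_erase_Cov]
    have h3 : ex E p (F_Cov L u b) = (1 - p) * ex (E.erase e) p (F_Cov L u b) := by
      rw [((hE V E p e (F_Cov L u b)) he).1]
      have h4 : ex (E.erase e) p (fun ω => F_Cov L u b (insert e ω)) = 0 := by
        have h5 : ex (E.erase e) p (fun ω => F_Cov L u b (insert e ω)) =
            ex (E.erase e) p (fun _ => 0) := by
          unfold ex
          congr 1
          funext ω
          unfold F_Cov
          rw [ind_neg_Cov, mul_zero]
          rw [not_not]
          exact con_of_mem (by rw [hub]; exact Finset.mem_insert_self _ _)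
        rw [h5]
        exact Ex_zero _ _
      rw [h4, mul_zero, zero_add]
    rw [h2, bmul, ((hE V E p e (F_Cov L u b)) he).2.2.1, h3]
    ring
  calc ∑ x ∈ L, ex E p (fun ω => (Xc L ω x : ℝ) * NM E p ω x)
      = ∑ x ∈ L, ∑ e ∈ E, ex E p (fun ω => (Xc L ω x : ℝ) *
          (if (∃ v ∈ e, con ω x v) then (ind (e ∈ ω) - p) else 0)) := by
        apply Finset.sum_congr rfl
        intro x _
        rw [← bsum]
        apply hcongr
        intro ω _
        unfold NM
        rw [Finset.mul_sum]
    _ = ∑ e ∈ E, ∑ x ∈ L, ex E p (fun ω => (Xc L ω x : ℝ) *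
          (if (∃ v ∈ e, con ω x v) then (ind (e ∈ ω) - p) else 0)) := Finset.sum_comm
    _ = ∑ e ∈ E, p * (2 * ex E p (F_Cov L (Quot.out e).1 (Quot.out e).2)) :=
        Finset.sum_congr rfl fun e he => edge e he _ _ (Quot.out_eq e)
    _ = p * brg L E p := by
        rw [← Finset.mul_sum, ← sum_drt_Cov E hFG.noloop (fun u b => ex E p (F_Cov L u b))]
        · rfl
        · intro a b
          congr 1
          funext ω
          unfold F_Cov
          rw [mul_comm (Xc L ω a : ℝ)]
          congr 2
          rw [eq_iff_iff]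
          exact ⟨fun h h' => h (con_symm h'), fun h h' => h (con_symm h')⟩

end Pool.NL
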