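import Pool.Agent.Helper22.NL.StZ
import Pool.Agent.Helper84.LE.BWT

/-! # Project NL: module CpTau -/

set_option autoImplicit false

open scoped BigOperators ENNReal
open Pool.LE

namespace Pool.NL

theorem hCpTau (hTD : StTauDom) (hTB : StTauBasic) (hB : StBasic) (hBn : StBn) : StCpTau := by
  intro d n p x y h0 h1
  obtain ⟨-, -, hlat, -, -⟩ := hBn d n
  have hdom := hTD d p (ES (Bn d n)) x y h0 h1 hlat
  obtain ⟨-, -, -, hTof, hT01⟩ := hTB d p h0 h1
  obtain ⟨-, -, -, -, -, -, hpr, -⟩ := hB (Zd d) (ES (Bn d n)) p h0 h1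
  obtain ⟨hp0, hp1, hpE, -⟩ := hpr (fun ω => con ω x y)
  rw [hpE, ← hTof] at hdom
  exact (ENNReal.ofReal_le_ofReal_iff (hT01 _).1).1 hdom

end Pool.NL
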