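import Pool.Agent.Helper22.NL.StR
import Pool.Agent.Helper84.LE.BKP
import Pool.Agent.Helper84.LE.BNN

/-! NL module DiagR. -/

set_option autoImplicit false
open scoped BigOperators ENNReal Polynomial
open Pool.LE

namespace Pool.NL

namespace DiagRM

variable {V : Type} [DecidableEq V]

omit [DecidableEq V] in
theorem cm_three (T : V → V → ENNReal) (x a b c y : V) : cm T (x, [a, b, c], y) =
    T x a * (T a b * (T b c * T c y)) + T x b * (T b a * (T a c * T c y)) +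
    T x c * (T c b * (T b a * T a y)) + T x b * (T b c * (T c a * T a y)) +
    T x c * (T c a * (T a b * T b y)) + T x a * (T a c * (T c b * T b y)) := by
  simp only [cm]
  have h : ([a, b, c] : List V).permutations =
      [[a, b, c], [b, a, c], [c, b, a], [b, c, a], [c, a, b], [a, c, b]] := by
    simp [List.permutations, List.permutationsAux, List.permutationsAux.rec,
      List.permutationsAux2]
  rw [h]
  simp only [List.map_cons, List.map_nil, List.sum_cons, List.sum_nil, cw, add_zero]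
  ring

/-- sum over the marks -/
theorem sum_cm (T : V → V → ENNReal) (x y : V) :
    ∑' a : V, ∑' b : V, ∑' c : V, cm T (x, [a, b, c], y) = 6 * kp T 4 x y := by
  obtain ⟨f, hf⟩ : ∃ f : V → V → V → ENNReal, ∀ a b c, f a b c =
      T x a * (T a b * (T b c * T c y)) := ⟨_, fun _ _ _ => rfl⟩
  obtain ⟨S, hS⟩ : ∃ S : ENNReal, S = ∑' a : V, ∑' b : V, ∑' c : V, f a b c := ⟨_, rfl⟩
  have hSk : kp T 4 x y = S := by
    have e1 : kp T 4 x y = ∑' a : V, T x a * ∑' b : V, T a b * ∑' c : V, T b c * T c y := by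
      show kc T (kc T (kp T 2)) x y = _
      rw [kp_two]
      rfl
    rw [e1, hS]
    refine tsum_congr fun a => ?_
    rw [← ENNReal.tsum_mul_left]
    refine tsum_congr fun b => ?_
    rw [← ENNReal.tsum_mul_left, ← ENNReal.tsum_mul_left]
    exact tsum_congr fun c => (hf a b c).symm
  -- the other orders
  have s1 : ∑' a : V, ∑' b : V, ∑' c : V, f b a c = S := by
    rw [ENNReal.tsum_comm, hS]
  have s2 : ∑' a : V, ∑' b : V, ∑' c : V, f a c b = S := by
    rw [hS]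
    exact tsum_congr fun a => ENNReal.tsum_comm
  have s3 : ∑' a : V, ∑' b : V, ∑' c : V, f c a b = S := by
    -- `c a b`
    calc ∑' a : V, ∑' b : V, ∑' c : V, f c a b = ∑' a : V, ∑' c : V, ∑' b : V, f c a b :=
          tsum_congr fun a => ENNReal.tsum_comm
      _ = ∑' c : V, ∑' a : V, ∑' b : V, f c a b := ENNReal.tsum_comm
      _ = S := hS.symm
  have s4 : ∑' a : V, ∑' b : V, ∑' c : V, f b c a = S := by
    calc ∑' a : V, ∑' b : V, ∑' c : V, f b c a = ∑' b : V, ∑' a : V, ∑' c : V, f b c a :=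
          ENNReal.tsum_comm
      _ = ∑' b : V, ∑' c : V, ∑' a : V, f b c a := tsum_congr fun b => ENNReal.tsum_comm
      _ = S := hS.symm
  have s5 : ∑' a : V, ∑' b : V, ∑' c : V, f c b a = S := by
    calc ∑' a : V, ∑' b : V, ∑' c : V, f c b a = ∑' a : V, ∑' c : V, ∑' b : V, f c b a :=
          tsum_congr fun a => ENNReal.tsum_comm
      _ = ∑' c : V, ∑' a : V, ∑' b : V, f c b a := ENNReal.tsum_comm
      _ = ∑' c : V, ∑' b : V, ∑' a : V, f c b a := tsum_congr fun c => ENNReal.tsum_comm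
      _ = S := hS.symm
  have e2 : ∀ a b c : V, cm T (x, [a, b, c], y) =
      f a b c + f b a c + f c b a + f b c a + f c a b + f a c b := by
    intro a b c
    rw [cm_three]
    simp only [hf]
  simp only [e2, ENNReal.tsum_add]
  rw [s1, s2, s3, s4, s5, ← hS, hSk]
  ring

/-- the diagram of the term `N = 0` -/
theorem zero_sum {T : V → V → ENNReal} {B : ENNReal} (h : TK T B) (nbs : Finset V)
    (q₀ : ENNReal) (v : V) :
    ∑' x : V, (∑' y₁ : V, ∑' y₂ : V, ∑' y₃ : V, cm T (v, [y₁, y₂, y₃], x) *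
      ∑ b ∈ nbs, q₀ * T b x) ≤ 6 * ∑ b ∈ nbs, q₀ * kp T 1024 b v := by
  have e1 : ∀ x : V, (∑' y₁ : V, ∑' y₂ : V, ∑' y₃ : V, cm T (v, [y₁, y₂, y₃], x) *
      ∑ b ∈ nbs, q₀ * T b x) = ∑ b ∈ nbs, 6 * (q₀ * (T b x * kp T 4 x v)) := by
    intro x
    have e2 : (∑' y₁ : V, ∑' y₂ : V, ∑' y₃ : V, cm T (v, [y₁, y₂, y₃], x) *
        ∑ b ∈ nbs, q₀ * T b x) =
        (∑' y₁ : V, ∑' y₂ : V, ∑' y₃ : V, cm T (v, [y₁, y₂, y₃], x)) *
          ∑ b ∈ nbs, q₀ * T b x := by
      rw [← ENNReal.tsum_mul_right]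
      refine tsum_congr fun a => ?_
      rw [← ENNReal.tsum_mul_right]
      refine tsum_congr fun b => ?_
      rw [← ENNReal.tsum_mul_right]
    rw [e2, sum_cm, Finset.mul_sum]
    refine Finset.sum_congr rfl fun b _ => ?_
    rw [kp_symm h.symm 4 v x]
    ring
  have e3 : ∀ b : V, (∑' x : V, 6 * (q₀ * (T b x * kp T 4 x v))) = 6 * (q₀ * kp T 5 b v) := by
    intro b
    rw [ENNReal.tsum_mul_left, ENNReal.tsum_mul_left]
    rfl
  calc ∑' x : V, (∑' y₁ : V, ∑' y₂ : V, ∑' y₃ : V, cm T (v, [y₁, y₂, y₃], x) *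
        ∑ b ∈ nbs, q₀ * T b x)
      = ∑' x : V, ∑ b ∈ nbs, 6 * (q₀ * (T b x * kp T 4 x v)) := tsum_congr e1
    _ = ∑ b ∈ nbs, ∑' x : V, 6 * (q₀ * (T b x * kp T 4 x v)) :=
        Summable.tsum_finsetSum (fun _ _ => ENNReal.summable)
    _ = ∑ b ∈ nbs, 6 * (q₀ * kp T 5 b v) := Finset.sum_congr rfl fun b _ => e3 b
    _ = 6 * ∑ b ∈ nbs, q₀ * kp T 5 b v := (Finset.mul_sum _ _ _).symm
    _ ≤ 6 * ∑ b ∈ nbs, q₀ * kp T 1024 b v := by
        refine mul_le_mul' le_rfl (Finset.sum_le_sum fun b _ => mul_le_mul' le_rfl ?_)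
        exact kp_le_kp h.one_le (by norm_num) b v

theorem geom_le (r : ENNReal) (hr : r ≤ 1 / 2) (M : ℕ) : ∑ N ∈ Finset.range M, r ^ N ≤ 2 := by
  calc ∑ N ∈ Finset.range M, r ^ N ≤ ∑' N : ℕ, r ^ N := ENNReal.sum_le_tsum _
    _ = (1 - r)⁻¹ := ENNReal.tsum_geometric r
    _ ≤ (1 - 1 / 2)⁻¹ := by
        refine ENNReal.inv_le_inv.2 ?_
        exact tsub_le_tsub_left hr 1
    _ = 2 := by
        rw [one_div, ENNReal.one_sub_inv_two, inv_inv]

end DiagRM

open DiagRM in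
theorem hDiagR (hNN : StNNr) (hPsi : StPsiR) (hRec : StRecR) (hN0a : StN0a) (hN0 : StN0R) :
    StDiagR := by
  intro V _ E p T B eps nbf hp0 hp1 hdom hnb hTK hB heps hsmall M v
  classical
  obtain ⟨hn0, -, -, hadd, -, -, -, hneg, hsum, -, -, -⟩ := hNN 3
  have e1 : ∀ x : V, NNr 3 (gE E p M v x - if x = v then 1 else 0) ≤
      NNr 3 (WW E p {v} v x - if x = v then 1 else 0) +
        ∑ N ∈ Finset.range M, PsiR 3 nbf (ENNReal.ofReal p) T (N + 1) v v x := by
    intro x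
    have e2 : gE E p M v x - (if x = v then 1 else 0) =
        (WW E p {v} v x - if x = v then 1 else 0) +
          ∑ N ∈ Finset.range M, (-1) ^ (N + 1) * ((LL E p)^[N + 1] (WW E p)) {v} v x := by
      unfold gE
      rw [Finset.sum_range_succ']
      simp only [pow_zero, one_mul, Function.iterate_zero, id_eq]
      ring
    rw [e2]
    refine (hadd _ _).trans (add_le_add le_rfl ?_)
    refine (hsum ℕ _ _).trans (Finset.sum_le_sum fun N _ => ?_)
    rw [hneg]
    refine (hPsi 3 V E p T nbf hp0 hp1 hdom hnb (N + 1) {v} v x).trans (le_of_eq ?_)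
    rw [tsum_eq_single v]
    · simp
    · intro s hs
      simp [hs]
  have e3 : ∀ x : V, NNr 3 (WW E p {v} v x - if x = v then 1 else 0) ≤
      ∑' y₁ : V, ∑' y₂ : V, ∑' y₃ : V, cm T (v, [y₁, y₂, y₃], x) *
        ∑ b ∈ nbf v, ENNReal.ofReal p * T b x := by
    intro x
    by_cases hx : x = v
    · subst hx
      rw [if_pos rfl, hN0a V E p x, sub_self, hn0]
      exact bot_le
    · rw [if_neg hx, sub_zero]
      exact hN0 V E p T nbf hp0 hp1 hdom hnb v x hx
  have e4 : ∑' x : V, NNr 3 (WW E p {v} v x - if x = v then 1 else 0) ≤ 6 * eps :=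
    (ENNReal.tsum_le_tsum fun x => e3 x).trans
      ((zero_sum hTK (nbf v) (ENNReal.ofReal p) v).trans (mul_le_mul' le_rfl (heps v v)))
  have e5 : ∀ N : ℕ, ∑' x : V, PsiR 3 nbf (ENNReal.ofReal p) T (N + 1) v v x ≤
      2 * 10 ^ 16 * B ^ 10 * eps * (4 * 10 ^ 8 * B ^ 4 * eps) ^ N :=
    fun N => hRec V T B eps (ENNReal.ofReal p) nbf hTK heps N v
  calc ∑' x : V, NNr 3 (gE E p M v x - if x = v then 1 else 0)
      ≤ ∑' x : V, (NNr 3 (WW E p {v} v x - if x = v then 1 else 0) +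
          ∑ N ∈ Finset.range M, PsiR 3 nbf (ENNReal.ofReal p) T (N + 1) v v x) :=
        ENNReal.tsum_le_tsum fun x => e1 x
    _ = (∑' x : V, NNr 3 (WW E p {v} v x - if x = v then 1 else 0)) +
          ∑ N ∈ Finset.range M, ∑' x : V, PsiR 3 nbf (ENNReal.ofReal p) T (N + 1) v v x := by
        rw [ENNReal.tsum_add, Summable.tsum_finsetSum (fun _ _ => ENNReal.summable)]
    _ ≤ 6 * eps + ∑ N ∈ Finset.range M,
          2 * 10 ^ 16 * B ^ 10 * eps * (4 * 10 ^ 8 * B ^ 4 * eps) ^ N :=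
        add_le_add e4 (Finset.sum_le_sum fun N _ => e5 N)
    _ = 6 * eps + 2 * 10 ^ 16 * B ^ 10 * eps *
          ∑ N ∈ Finset.range M, (4 * 10 ^ 8 * B ^ 4 * eps) ^ N := by
        rw [← Finset.mul_sum]
    _ ≤ 6 * (B ^ 10 * eps) + 2 * 10 ^ 16 * B ^ 10 * eps * 2 := by
        refine add_le_add (mul_le_mul' le_rfl ?_) (mul_le_mul' le_rfl (geom_le _ hsmall M))
        calc eps = 1 * eps := (one_mul _).symm
          _ ≤ B ^ 10 * eps := mul_le_mul' (one_le_pow₀ hB) le_rfl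
    _ = (40000000000000006 : ENNReal) * (B ^ 10 * eps) := by ring
    _ ≤ (5 * 10 ^ 16) * (B ^ 10 * eps) := by
        refine mul_le_mul' ?_ le_rfl
        norm_num
    _ = 5 * 10 ^ 16 * B ^ 10 * eps := by ring

end Pool.NL

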