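import Pool.Agent.Helper22.NL.StM
import Pool.Agent.Helper84.LE.BGR
import Pool.Agent.Helper84.LE.BWT

/-! Project NL (MP_65faa7), module Dist: different clusters. -/

set_option autoImplicit false
set_option linter.unusedSectionVars false
open scoped BigOperators ENNReal
open Pool.LE

namespace Pool.NL

variable {V : Type} [DecidableEq V]

theorem dist_cset_rst {ω : Finset (Sym2 V)} {a b : V} (h : ¬ con ω a b) :
    cset ω b = cset (rst ω (cset ω a)) b := by
  ext y
  show con ω b y ↔ con (rst ω (cset ω a)) b y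
  refine con_iff_of_cluster (fun e he => ?_) y
  obtain ⟨v, hv, hbv⟩ := he
  rw [mem_rst]
  refine ⟨fun heω => ⟨heω, fun w hw hwS => h ?_⟩, fun h' => h'.1⟩
  have h1 : con ω v w := by
    by_cases hvw : v = w
    · rw [hvw]; exact con_refl ω w
    · have : e = s(v, w) := (Sym2.mem_and_mem_iff hvw).1 ⟨hv, hw⟩
      rw [this] at heω
      exact con_of_mem heω
  exact con_trans hwS (con_symm (con_trans hbv h1))

theorem dist_cset_mono {ω η : Finset (Sym2 V)} (h : ω ⊆ η) (a : V) : cset ω a ⊆ cset η a :=
  fun _ hy => con_mono h hy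

theorem dist_ind_of {A : Prop} (h : A) : ind A = 1 := by unfold ind; rw [if_pos h]

theorem dist_ind_not {A : Prop} (h : ¬ A) : ind A = 0 := by unfold ind; rw [if_neg h]

theorem dist_ind_nonneg (A : Prop) : 0 ≤ ind A := by
  by_cases h : A
  · rw [dist_ind_of h]; exact zero_le_one
  · rw [dist_ind_not h]

theorem dist_rst_inter {E η : Finset (Sym2 V)} (h : η ⊆ E) (S : Set V) :
    rst η S = η ∩ rst E S := by
  ext e
  rw [mem_rst, Finset.mem_inter, mem_rst]
  exact ⟨fun h' => ⟨h'.1, h h'.1, h'.2⟩, fun h' => ⟨h'.1, h'.2.2⟩⟩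

theorem hDist (hMK : StMK) (hB : StBasic) : StDist := by
  intro V _ p h0 h1 c
  induction c with
  | nil =>
    intro _ E
    rw [List.map_nil, List.prod_nil]
    exact (((hB V E p h0 h1).2.2.2.2.2.2.1) _).2.1
  | cons q c ih =>
    intro hinc E
    have ih' := ih (fun q' hq' => hinc q' (List.mem_cons_of_mem _ hq'))
    have hq := hinc q List.mem_cons_self
    obtain ⟨hmono, -, -, -, hmul, -, hpr, -, -, -⟩ := hB V E p h0 h1
    -- the event for the other clusters
    set A : Finset (Sym2 V) → Prop := fun ζ =>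
      (∀ q' ∈ c, q'.2 (cset ζ q'.1)) ∧ c.Pairwise (fun q q' => ¬ con ζ q.1 q'.1) with hA
    set G : Set V → Finset (Sym2 V) → ℝ := fun S ζ => ind (q.2 S) * ind (A ζ) with hG
    set PI0 : ℝ := (c.map (fun q => pr E p (fun ω => q.2 (cset ω q.1)))).prod with hPI0
    have hPI00 : 0 ≤ PI0 := by
      rw [hPI0]
      refine List.prod_nonneg (fun x hx => ?_)
      obtain ⟨q', -, rfl⟩ := List.mem_map.1 hx
      exact (hpr _).1
    -- step 1
    have step1 : pr E p (fun ω => (∀ q' ∈ q :: c, q'.2 (cset ω q'.1)) ∧
        (q :: c).Pairwise (fun q q' => ¬ con ω q.1 q'.1)) ≤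
        ex E p (fun ω => G (cset ω q.1) (rst ω (cset ω q.1))) := by
      refine hmono _ _ (fun ω _ => ?_)
      by_cases hev : (∀ q' ∈ q :: c, q'.2 (cset ω q'.1)) ∧
        (q :: c).Pairwise (fun q q' => ¬ con ω q.1 q'.1)
      · rw [dist_ind_of hev]
        obtain ⟨he1, he2⟩ := hev
        rw [List.pairwise_cons] at he2
        have hA' : A (rst ω (cset ω q.1)) := by
          refine ⟨fun q' hq' => ?_, he2.2.imp (fun {q₁ q₂} hn hc => hn
            (con_mono (rst_subset _ _) hc))⟩
          rw [← dist_cset_rst (he2.1 q' hq')]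
          exact he1 q' (List.mem_cons_of_mem _ hq')
        simp only [hG]
        rw [dist_ind_of (he1 q List.mem_cons_self), dist_ind_of hA', one_mul]
      · rw [dist_ind_not hev]
        exact mul_nonneg (dist_ind_nonneg _) (dist_ind_nonneg _)
    -- step 2
    have step2 : ∀ S : Set V, ex E p (fun η => ind (A (rst η S))) ≤ PI0 := by
      intro S
      have e1 : ex E p (fun η => ind (A (rst η S))) = pr (rst E S) p A := by
        unfold ex pr
        rw [← Ex_inter (rst_subset E S) p (fun ω => ind (A ω))]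
        exact Ex_congr (fun η hη => by rw [dist_rst_inter hη])
      rw [e1]
      refine (ih' (rst E S)).trans ?_
      rw [hPI0]
      obtain ⟨-, -, -, -, -, -, hpr', -, -, -⟩ := hB V (rst E S) p h0 h1
      have hterm : ∀ q' ∈ c, pr (rst E S) p (fun ω => q'.2 (cset ω q'.1)) ≤
          pr E p (fun ω => q'.2 (cset ω q'.1)) := by
        intro q' hq'
        have h2 := Pr_mono_edges (rst_subset E S) h0 h1 (A := fun ω => q'.2 (cset ω q'.1))
          (fun ω η hωη hω => hinc q' (List.mem_cons_of_mem _ hq') _ _ (dist_cset_mono hωη _) hω)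
        rw [(hpr _).2.2.1, (hpr' _).2.2.1] at h2
        exact (ENNReal.ofReal_le_ofReal_iff (hpr _).1).1 h2
      have hgen : ∀ l : List (V × (Set V → Prop)), (∀ q' ∈ l, q' ∈ c) →
          (l.map (fun q => pr (rst E S) p (fun ω => q.2 (cset ω q.1)))).prod ≤
            (l.map (fun q => pr E p (fun ω => q.2 (cset ω q.1)))).prod ∧
          0 ≤ (l.map (fun q => pr (rst E S) p (fun ω => q.2 (cset ω q.1)))).prod := by
        intro l
        induction l with
        | nil => intro _; simp
        | cons q' l ihl =>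
          intro hl
          obtain ⟨hl1, hl2⟩ := ihl (fun q'' hq'' => hl q'' (List.mem_cons_of_mem _ hq''))
          rw [List.map_cons, List.map_cons, List.prod_cons, List.prod_cons]
          exact ⟨mul_le_mul (hterm q' (hl q' List.mem_cons_self)) hl1 hl2 (hpr _).1,
            mul_nonneg (hpr' _).1 hl2⟩
      exact (hgen c (fun _ h => h)).1
    -- conclusion
    calc _ ≤ ex E p (fun ω => G (cset ω q.1) (rst ω (cset ω q.1))) := step1
      _ = ex E p (fun ω => ex E p (fun η => G (cset ω q.1) (rst η (cset ω q.1)))) :=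
          hMK V E p q.1 G
      _ ≤ ex E p (fun ω => PI0 * ind (q.2 (cset ω q.1))) := by
          refine hmono _ _ (fun ω _ => ?_)
          simp only [hG]
          rw [hmul (ind (q.2 (cset ω q.1))) (fun η => ind (A (rst η (cset ω q.1)))),
            mul_comm]
          exact mul_le_mul_of_nonneg_right (step2 _) (dist_ind_nonneg _)
      _ = PI0 * pr E p (fun ω => q.2 (cset ω q.1)) := hmul _ _
      _ = _ := by
          rw [List.map_cons, List.prod_cons, mul_comm, hPI0]

end Pool.NL
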