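import Pool.Agent.Helper22.NL.StM
import Pool.Agent.Helper84.LE.BWT

/-! # Project NL, module Edge: one edge -/

set_option autoImplicit false

open scoped BigOperators ENNReal
open Pool.LE

namespace Pool.NL

theorem ex_split_Edge {V : Type} [DecidableEq V] (E : Finset (Sym2 V)) (p : ℝ) (e : Sym2 V)
    (he : e ∈ E) (f g h : Finset (Sym2 V) → ℝ)
    (hg : ∀ ω, ω ⊆ E.erase e → e ∉ ω → f (insert e ω) = g ω)
    (hh : ∀ ω, ω ⊆ E.erase e → e ∉ ω → f ω = h ω) :
    ex E p f = p * ex (E.erase e) p g + (1 - p) * ex (E.erase e) p h := by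
  have h1 := sum_insert_wt (Finset.notMem_erase e E) p f
  rw [Finset.insert_erase he] at h1
  unfold ex
  have h2 : Ex (E.erase e) p (fun ω => f (insert e ω)) = Ex (E.erase e) p g :=
    Ex_congr fun ω hω => hg ω hω fun h => Finset.notMem_erase e E (hω h)
  have h3 : Ex (E.erase e) p f = Ex (E.erase e) p h :=
    Ex_congr fun ω hω => hh ω hω fun h => Finset.notMem_erase e E (hω h)
  rw [h1, h2, h3, smul_eq_mul, smul_eq_mul, add_comm]

theorem ex_sub_Edge {V : Type} [DecidableEq V] (E : Finset (Sym2 V)) (p : ℝ)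
    (f g : Finset (Sym2 V) → ℝ) : ex E p (fun ω => f ω - g ω) = ex E p f - ex E p g := by
  unfold ex Ex
  simp only [smul_eq_mul, mul_sub, Finset.sum_sub_distrib]

theorem ex_mul_Edge {V : Type} [DecidableEq V] (E : Finset (Sym2 V)) (p c : ℝ)
    (f : Finset (Sym2 V) → ℝ) : ex E p (fun ω => f ω * c) = ex E p f * c := by
  unfold ex Ex
  rw [Finset.sum_mul]
  exact Finset.sum_congr rfl fun ω _ => by simp only [smul_eq_mul]; ring

theorem hEdge : StEdge := by
  intro V _ E p e f he
  refine ⟨ex_split_Edge E p e he f _ _ (fun _ _ _ => rfl) (fun _ _ _ => rfl), ?_, ?_, ?_⟩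
  · rw [ex_split_Edge E p e he (fun ω => f ω * (ind (e ∈ ω) - p))
      (fun ω => f (insert e ω) * (1 - p)) (fun ω => f ω * (0 - p)) ?_ ?_,
      ex_split_Edge E p e he (fun ω => f (insert e ω) - f (ω.erase e))
      (fun ω => f (insert e ω) - f ω) (fun ω => f (insert e ω) - f ω) ?_ ?_,
      ex_sub_Edge, ex_mul_Edge, ex_mul_Edge]
    · ring
    · intro ω _ hω
      simp only [Finset.insert_idem, Finset.erase_insert hω]
    · intro ω _ hω
      simp only [Finset.erase_eq_of_notMem hω]
    · intro ω _ hω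
      simp only [ind, Finset.mem_insert_self, if_true]
    · intro ω _ hω
      simp only [ind, hω, if_false]
  · rw [ex_split_Edge E p e he (fun ω => f (ω.erase e)) f f ?_ ?_]
    · ring
    · intro ω _ hω
      simp only [Finset.erase_insert hω]
    · intro ω _ hω
      simp only [Finset.erase_eq_of_notMem hω]
  · rw [ex_split_Edge E p e he (fun ω => f (insert e ω)) (fun ω => f (insert e ω))
      (fun ω => f (insert e ω)) ?_ ?_]
    · ring
    · intro ω _ hω
      simp only [Finset.insert_idem]
    · intro ω _ hω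
      rfl

end Pool.NL
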