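import Pool.Agent.Helper22.NL.StZ

/-! # Project NL: module Err -/

set_option autoImplicit false

open scoped BigOperators ENNReal
open Pool.LE

namespace Pool.NL

theorem hErr (hT : StTri) (hH : StHub) (hBn : StBn) (hHh : StHh) : StErr := by
  intro d C₁ B c₀ hE n hn a ha b hb
  obtain ⟨hFG, -⟩ := hBn d n
  have hp0 : 0 ≤ pH d := hE.p0.le
  have hp1 : pH d ≤ 1 := by linarith [hE.p1]
  obtain ⟨-, hcp, -, -, hh1⟩ := hHh (Zd d) (Bn d n) (ES (Bn d n)) (2 * d) (pH d) hFG hp0 hp1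
  have hub := hH d C₁ B c₀ hE n hn
  have htri := (hT d C₁ B c₀ hE n hn).1 a ha b hb
  have hc0 : ∀ x y : Zd d, 0 ≤ cp (ES (Bn d n)) (pH d) x y := fun x y => (hcp x y).2.1
  have hhx : ∀ x ∈ Bn d n, 0 ≤ hh (Bn d n) (ES (Bn d n)) (pH d) x := fun x hx =>
    zero_le_one.trans (hh1 x hx)
  have hC : 0 ≤ C₁ * (n : ℝ) ^ 2 := mul_nonneg (zero_le_one.trans hE.hC) (by positivity)
  refine le_trans ?_ (mul_le_mul_of_nonneg_left htri (sq_nonneg (C₁ * (n : ℝ) ^ 2)))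
  unfold pairErr
  rw [Finset.mul_sum]
  refine Finset.sum_le_sum fun w hw => ?_
  rw [Finset.mul_sum]
  refine Finset.sum_le_sum fun z hz => ?_
  have e1 : cp (ES (Bn d n)) (pH d) b w * hh (Bn d n) (ES (Bn d n)) (pH d) w *
      cp (ES (Bn d n)) (pH d) w z * cp (ES (Bn d n)) (pH d) z a *
      hh (Bn d n) (ES (Bn d n)) (pH d) z =
      (hh (Bn d n) (ES (Bn d n)) (pH d) w * hh (Bn d n) (ES (Bn d n)) (pH d) z) *
      (cp (ES (Bn d n)) (pH d) b w * cp (ES (Bn d n)) (pH d) w z *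
        cp (ES (Bn d n)) (pH d) z a) := by ring
  rw [e1]
  refine mul_le_mul_of_nonneg_right ?_ (mul_nonneg (mul_nonneg (hc0 _ _) (hc0 _ _)) (hc0 _ _))
  rw [pow_two]
  exact mul_le_mul (hub w hw) (hub z hz) (hhx z hz) hC

end Pool.NL
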