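import Pool.Agent.Helper22.NL.StT

/-! # Project NL: module FZ (the step kernel of the lattice at the critical point) -/

set_option autoImplicit false

open scoped BigOperators ENNReal Topology
open Pool.LE

namespace Pool.NL

theorem fz_neg {d : ℕ} {f : Zd d → ℝ} (hf : SymF f) (x : Zd d) : f (-x) = f x := by
  have h := hf (Equiv.refl _) (fun _ => -1) x
  have h2 : sgp (Equiv.refl (Fin d)) (fun _ => (-1 : ℤˣ)) x = -x := by
    funext i
    simp [sgp]
  rw [h2] at h
  exact h

theorem fz_sq_nonneg {d : ℕ} (x : Zd d) : 0 ≤ LE.sq x := Finset.sum_nonneg fun i _ => sq_nonneg _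

theorem hFZ (hB8 : StB8) (hCvA : StCvA) (hBox : StBox) (hS6d : StS6d) : StFZ := by
  classical
  obtain ⟨d₁, hd₁, hB⟩ := hB8
  refine ⟨d₁, by omega, ?_⟩
  intro d hd
  obtain ⟨hp0, -, hp1, heta, hFT⟩ := hB d hd
  have hne : eta d (pH d) ≠ ⊤ := ne_top_of_le_ne_top ENNReal.ofReal_ne_top heta
  obtain ⟨-, -, -, -, -, hSQ, hSym⟩ := hCvA d (pH d) hne
  obtain ⟨-, -, hnb, hnbs, -, -, -, -, -, -, -, hcard, hsq1⟩ := hBox d
  set g : Zd d → ℝ := gS d (pH d) with hg
  have hQ1 : ∀ x : Zd d, 2 ≤ Qw x := by
    intro x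
    have := fz_sq_nonneg x
    unfold Qw
    linarith
  have hQn : ∀ u y : Zd d, y ∈ nb u → Qw y ≤ 4 * Qw u := by
    intro u y hy
    have h1 := hsq1 u y hy
    have h2 : LE.sq y ≤ 2 * LE.sq u + 2 * LE.sq (y - u) := by
      unfold LE.sq
      rw [Finset.mul_sum, Finset.mul_sum, ← Finset.sum_add_distrib]
      refine Finset.sum_le_sum fun i _ => ?_
      simp only [Pi.sub_apply, Int.cast_sub]
      nlinarith [sq_nonneg ((y i : ℝ) - 2 * (u i : ℝ))]
    have h3 := fz_sq_nonneg u
    unfold Qw
    rw [h1] at h2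
    linarith
  -- the double sum
  set F : Zd d × Zd d → ℝ := fun q => if q.2 ∈ nb q.1 then Qw q.2 * |g q.1| else 0 with hF
  have hF0 : ∀ q, 0 ≤ F q := by
    intro q
    simp only [hF]
    split_ifs
    · exact mul_nonneg (by linarith [hQ1 q.2]) (abs_nonneg _)
    · exact le_rfl
  have hFS : Summable F := by
    refine (summable_prod_of_nonneg hF0).2 ⟨?_, ?_⟩
    · intro u
      refine summable_of_ne_finset_zero (s := nb u) ?_
      intro y hy
      simp only [hF]
      rw [if_neg hy]
    · have hb : ∀ u : Zd d, ∑' y, F (u, y) ≤ 2 * d * 4 * (Qw u * |g u|) := by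
        intro u
        rw [tsum_eq_sum (s := nb u) (by
          intro y hy
          simp only [hF]
          rw [if_neg hy])]
        have h1 : ∑ y ∈ nb u, F (u, y) ≤ ∑ _y ∈ nb u, 4 * (Qw u * |g u|) := by
          refine Finset.sum_le_sum fun y hy => ?_
          simp only [hF]
          rw [if_pos hy]
          have := mul_le_mul_of_nonneg_right (hQn u y hy) (abs_nonneg (g u))
          linarith
        refine h1.trans (le_of_eq ?_)
        rw [Finset.sum_const, hcard, nsmul_eq_mul]
        push_cast
        ring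
      refine Summable.of_nonneg_of_le (fun u => tsum_nonneg fun y => hF0 _) hb ?_
      exact Summable.mul_left _ hSQ
  -- sum over the first variable
  have hin : ∀ y : Zd d, ∑' u, F (u, y) = Qw y * ∑ u ∈ nb y, |g u| := by
    intro y
    rw [tsum_eq_sum (s := nb y) (by
      intro u hu
      simp only [hF]
      rw [if_neg]
      intro h
      exact hu ((hnbs u y).1 h))]
    rw [Finset.mul_sum]
    refine Finset.sum_congr rfl fun u hu => ?_
    simp only [hF]
    rw [if_pos ((hnbs u y).2 hu)]
  have hS1 : Summable (fun y : Zd d => Qw y * ∑ u ∈ nb y, |g u|) := by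
    have h := (hFS.prod_symm).prod
    refine h.congr fun y => ?_
    exact (hin y)
  have hS2 : Summable (fun y : Zd d => Qw y * |FZ d (pH d) y|) := by
    refine Summable.of_nonneg_of_le (fun y => mul_nonneg (by linarith [hQ1 y]) (abs_nonneg _)) ?_
      (hS1.mul_left (pH d))
    intro y
    have h1 : |FZ d (pH d) y| ≤ pH d * ∑ u ∈ nb y, |g u| := by
      unfold FZ
      rw [abs_mul, abs_of_pos hp0]
      exact mul_le_mul_of_nonneg_left (Finset.abs_sum_le_sum_abs _ _) hp0.le
    have h2 := mul_le_mul_of_nonneg_left h1 (show 0 ≤ Qw y by linarith [hQ1 y])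
    linarith
  have hS3 : Summable (fun y : Zd d => |FZ d (pH d) y|) := by
    refine Summable.of_nonneg_of_le (fun y => abs_nonneg _) (fun y => ?_) hS2
    have h1 := hQ1 y
    nlinarith [abs_nonneg (FZ d (pH d) y)]
  have hS4 : Summable (fun y : Zd d => LE.sq y * |FZ d (pH d) y|) := by
    refine Summable.of_nonneg_of_le (fun y => mul_nonneg (fz_sq_nonneg y) (abs_nonneg _)) (fun y => ?_) hS2
    have h1 : LE.sq y ≤ Qw y := by
      have := fz_sq_nonneg y
      unfold Qw
      linarith
    exact mul_le_mul_of_nonneg_right h1 (abs_nonneg _)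
  have hnn : 0 ≤ ∑' y : Zd d, LE.sq y * |FZ d (pH d) y| :=
    tsum_nonneg fun y => mul_nonneg (fz_sq_nonneg y) (abs_nonneg _)
  refine ⟨∑' y : Zd d, LE.sq y * |FZ d (pH d) y| + 1, by linarith, hS3, ?_, ?_, hS4, by linarith⟩
  · -- the total mass
    set G : Zd d → Zd d → ℝ := fun u y => if y ∈ nb u then g u else 0 with hG
    have hGS : Summable (Function.uncurry G) := by
      refine Summable.of_norm_bounded hFS ?_
      rintro ⟨u, y⟩
      simp only [Function.uncurry, hG, hF, Real.norm_eq_abs]
      split_ifs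
      · have h1 := hQ1 y
        nlinarith [abs_nonneg (g u)]
      · simp
    have hcomm := hGS.tsum_comm
    have e1 : ∀ y : Zd d, FZ d (pH d) y = pH d * ∑' u, G u y := by
      intro y
      unfold FZ
      congr 1
      rw [tsum_eq_sum (s := nb y) (by
        intro u hu
        simp only [hG]
        rw [if_neg]
        intro h
        exact hu ((hnbs u y).1 h))]
      refine Finset.sum_congr rfl fun u hu => ?_
      simp only [hG]
      rw [if_pos ((hnbs u y).2 hu)]
    have e2 : ∀ u : Zd d, ∑' y, G u y = 2 * d * g u := by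
      intro u
      rw [tsum_eq_sum (s := nb u) (by
        intro y hy
        simp only [hG]
        rw [if_neg hy])]
      have h1 : ∑ y ∈ nb u, G u y = ∑ _y ∈ nb u, g u := by
        refine Finset.sum_congr rfl fun y hy => ?_
        simp only [hG]
        rw [if_pos hy]
      rw [h1, Finset.sum_const, hcard, nsmul_eq_mul]
      push_cast
      ring
    have e3 : FT g 0 = ∑' u, g u := by
      unfold FT
      refine tsum_congr fun u => ?_
      simp
    calc ∑' y : Zd d, FZ d (pH d) y = ∑' y : Zd d, pH d * ∑' u, G u y := tsum_congr e1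
      _ = pH d * ∑' y : Zd d, ∑' u, G u y := tsum_mul_left
      _ = pH d * ∑' u : Zd d, ∑' y, G u y := by rw [hcomm]
      _ = pH d * ∑' u : Zd d, 2 * d * g u := by rw [tsum_congr e2]
      _ = pH d * (2 * d * ∑' u : Zd d, g u) := by rw [tsum_mul_left]
      _ = 1 := by
          rw [← e3, ← hFT]
          ring
  · intro y
    unfold FZ
    congr 1
    refine Finset.sum_bij' (fun u _ => -u) (fun u _ => -u) ?_ ?_ ?_ ?_ ?_
    · intro u hu
      obtain ⟨i, hi⟩ := (hnb (-y) u).1 hu
      refine (hnb y (-u)).2 ⟨i, ?_⟩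
      rcases hi with rfl | rfl
      · right; abel
      · left; abel
    · intro u hu
      obtain ⟨i, hi⟩ := (hnb y u).1 hu
      refine (hnb (-y) (-u)).2 ⟨i, ?_⟩
      rcases hi with rfl | rfl
      · right; abel
      · left; abel
    · intro u _
      simp
    · intro u _
      simp
    · intro u _
      exact (fz_neg hSym u).symm

end Pool.NL
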