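import Pool.Agent.Helper22.NL.StM
import Pool.Agent.Helper22.NL.StZ

/-! # Project NL: module Fam -/

set_option autoImplicit false

open scoped BigOperators ENNReal Topology
open Pool.LE Filter

namespace Pool.NL

private lemma minDeg_mono {V : Type} [DecidableEq V] {E : Finset (Sym2 V)}
    {F : Finset (Finset V)} {k k' : ℕ} (h : minDeg E F k') (hk : k ≤ k') : minDeg E F k :=
  fun A hA => hk.trans (h A hA)

theorem hFam (hL : StLowJ) (hU : StUpJ) (hPZ : StPZ) (hG : StGraph) (hBn : StBn)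
    (hB : StBasic) : StFam := by
  intro d C₁ B c₀ hE
  obtain ⟨η, c, hη, hη1, hc, n₀, hn₀, hlow⟩ := hL d C₁ B c₀ hE
  obtain ⟨C, hC, hup⟩ := hU d C₁ B c₀ η hE hη hη1
  have hd := hE.hd
  have hp0 : 0 ≤ pH d := hE.p0.le
  have hp1 : pH d ≤ 1 := hE.p1.trans (by norm_num)
  obtain ⟨K, hK⟩ : ∃ K : ℝ, K = 24 * C / c ^ 2 := ⟨_, rfl⟩
  have hK0 : 0 < K := by rw [hK]; positivity
  obtain ⟨c₁, hc₁⟩ : ∃ c₁ : ℝ, c₁ = c ^ 2 / (16 * K ^ 2 * C ^ 2) := ⟨_, rfl⟩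
  have hc₁0 : 0 < c₁ := by rw [hc₁]; positivity
  obtain ⟨c₂, hc₂⟩ : ∃ c₂ : ℝ, c₂ = (c ^ 2 / (8 * K * C)) ^ 2 / (K * C) := ⟨_, rfl⟩
  have hc₂0 : 0 < c₂ := by rw [hc₂]; positivity
  have hc3 : 0 < c ^ 2 / (8 * C) := by positivity
  refine ⟨η, min (c ^ 2 / (8 * C)) (min c₂ c₁), hη, hη1, lt_min hc3 (lt_min hc₂0 hc₁0), n₀, hn₀,
    ?_⟩
  intro n hn
  have hn1 : 1 ≤ n := hn₀.trans hn
  have hx : (0 : ℝ) < n := by exact_mod_cast hn1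
  obtain ⟨hFG, -, -, -, -⟩ := hBn d n
  obtain ⟨hup1, hup2, hup3, hup4⟩ := hup n hn1
  have hlow' := hlow n hn
  obtain ⟨P, hP⟩ : ∃ P : ℝ, P = (n : ℝ) ^ (d - 6) := ⟨_, rfl⟩
  have hP0 : 0 < P := by rw [hP]; positivity
  have e4 : (n : ℝ) ^ (d - 4) = P * (n : ℝ) ^ 2 := by
    rw [hP, ← pow_add]; congr 1; omega
  have e2 : (n : ℝ) ^ (d - 2) = P * (n : ℝ) ^ 4 := by
    rw [hP, ← pow_add]; congr 1; omega
  have e8 : (n : ℝ) ^ (2 * d - 8) = P ^ 2 * (n : ℝ) ^ 4 := by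
    rw [hP, ← pow_mul, ← pow_add]; congr 1; omega
  rw [e8] at hup1
  rw [e2] at hup2
  rw [e4] at hup3 hlow'
  rw [← hP] at hup4
  set m := thr η n with hm
  have hm1 : 1 ≤ m := Nat.one_le_ceil_iff.2 (by positivity)
  have hPx : 0 < P * (n : ℝ) ^ 2 := by positivity
  have hPZ' := hPZ (Zd d) (ES (Bn d n)) (pH d) hp0 hp1
    (fun ω => ((JJ (Bn d n) (ES (Bn d n)) m ω).card : ℝ))
    (fun ω => (SS1 (Bn d n) (ES (Bn d n)) m ω : ℝ))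
    (fun ω => (SS2 (Bn d n) (ES (Bn d n)) m ω : ℝ))
    (fun ω => ((big (Bn d n) m ω).card : ℝ))
    (c * (P * (n : ℝ) ^ 2)) (C * (P ^ 2 * (n : ℝ) ^ 4)) (C * (P * (n : ℝ) ^ 4))
    (C * (P * (n : ℝ) ^ 2)) (C * P)
    (fun ω _ => ⟨Nat.cast_nonneg _, Nat.cast_nonneg _, Nat.cast_nonneg _, Nat.cast_nonneg _⟩)
    (by positivity) (by positivity) hlow' hup1 (by positivity) (by positivity) (by positivity)
    hup2 hup3 hup4
  have hKeq : 24 * (C * (P ^ 2 * (n : ℝ) ^ 4)) / (c * (P * (n : ℝ) ^ 2)) ^ 2 = K := by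
    rw [hK]
    field_simp
  rw [hKeq] at hPZ'
  have heq : (c * (P * (n : ℝ) ^ 2)) ^ 2 / (8 * (C * (P ^ 2 * (n : ℝ) ^ 4))) =
      c ^ 2 / (8 * C) := by
    field_simp
  rw [heq] at hPZ'
  refine (min_le_left _ _).trans (hPZ'.trans ?_)
  obtain ⟨-, -, -, -, -, -, -, hmono, -, -⟩ := hB (Zd d) (ES (Bn d n)) (pH d) hp0 hp1
  refine hmono _ _ ?_
  rintro ω hω ⟨h1, h2, h3, h4⟩
  obtain ⟨F, hF1, hF2, hF3⟩ := hG (Zd d) (Bn d n) (ES (Bn d n)) ω (2 * d) m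
    (c * (P * (n : ℝ) ^ 2) / 2) (K * (C * (P * (n : ℝ) ^ 4))) (K * (C * (P * (n : ℝ) ^ 2)))
    (K * (C * P)) hFG hω hm1 (by positivity) (by positivity) (by positivity) (by positivity)
    h1 h2 h3 h4
  have g1 : ((c * (P * (n : ℝ) ^ 2) / 2) ^ 2 / (2 * (K * (C * (P * (n : ℝ) ^ 2))))) ^ 2 /
      (K * (C * (P * (n : ℝ) ^ 4))) = c₂ * P := by
    rw [hc₂]
    field_simp
    ring
  have g2 : (c * (P * (n : ℝ) ^ 2) / 2) ^ 2 / (4 * (K * (C * P)) *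
      (K * (C * (P * (n : ℝ) ^ 2)))) = c₁ * (n : ℝ) ^ 2 := by
    rw [hc₁]
    field_simp
    ring
  rw [g1] at hF2
  rw [g2] at hF3
  refine ⟨F, hF1, ?_, minDeg_mono hF3 (Nat.floor_le_floor ?_)⟩
  · rw [← hP]
    refine le_trans ?_ hF2
    exact mul_le_mul_of_nonneg_right ((min_le_right _ _).trans (min_le_left _ _)) hP0.le
  · exact mul_le_mul_of_nonneg_right ((min_le_right _ _).trans (min_le_right _ _)) (by positivity)

end Pool.NL
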