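import Pool.Agent.Helper22.NL.StR
import Pool.Agent.Helper84.LE.St3

/-! NL module Fej1: the Fejér kernel. -/

set_option autoImplicit false
open scoped BigOperators
open MeasureTheory Pool.LE

namespace Pool.NL

namespace Fej1M

/-- the Dirichlet kernel -/
noncomputable def DK (N : ℕ) (t : ℝ) : ℝ := ∑ j ∈ Finset.Icc (-(N : ℤ)) N, Real.cos (j * t)

/-- `N` times the Fejér kernel -/
noncomputable def TK' (N : ℕ) (t : ℝ) : ℝ :=
  ∑ j ∈ Finset.Icc (-(N : ℤ)) N, ((N : ℝ) - |(j : ℝ)|) * Real.cos (j * t)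

theorem DK_succ (N : ℕ) (t : ℝ) : DK (N + 1) t = DK N t + 2 * Real.cos ((N + 1) * t) := by
  unfold DK
  have h := Finset.sum_Icc_succ_eq_add_endpoints (fun j : ℤ => Real.cos (j * t)) (N := N)
  push_cast at h ⊢
  rw [h, show (-(N + 1 : ℝ)) * t = -((N + 1) * t) by ring, Real.cos_neg]
  ring

theorem TK_succ (N : ℕ) (t : ℝ) : TK' (N + 1) t = TK' N t + DK N t := by
  unfold TK' DK
  have h := Finset.sum_Icc_succ_eq_add_endpoints
    (fun j : ℤ => (((N + 1 : ℕ) : ℝ) - |(j : ℝ)|) * Real.cos (j * t)) (N := N)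
  push_cast at h ⊢
  rw [h, abs_neg, abs_of_nonneg (by positivity : (0 : ℝ) ≤ (N : ℝ) + 1), sub_self, zero_mul,
    zero_mul, zero_add, zero_add, ← Finset.sum_add_distrib]
  refine Finset.sum_congr rfl fun j _ => ?_
  ring

theorem DK_mul (N : ℕ) (t : ℝ) :
    (1 - Real.cos t) * DK N t = Real.cos (N * t) - Real.cos ((N + 1) * t) := by
  induction N with
  | zero => simp [DK]
  | succ N ih =>
    rw [DK_succ, mul_add, ih]
    push_cast
    have h1 : Real.cos ((N : ℝ) * t) = Real.cos ((N + 1) * t) * Real.cos t +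
        Real.sin ((N + 1) * t) * Real.sin t := by
      rw [← Real.cos_sub]; congr 1; ring
    have h2 : Real.cos (((N : ℝ) + 1 + 1) * t) = Real.cos ((N + 1) * t) * Real.cos t -
        Real.sin ((N + 1) * t) * Real.sin t := by
      rw [← Real.cos_add]; congr 1; ring
    rw [h1, h2]
    ring

theorem TK_mul (N : ℕ) (t : ℝ) : (1 - Real.cos t) * TK' N t = 1 - Real.cos (N * t) := by
  induction N with
  | zero => simp [TK']
  | succ N ih =>
    rw [TK_succ, mul_add, ih, DK_mul]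
    push_cast
    ring

/-- the kernel of the statement -/
noncomputable def KK (n : ℕ) (t : ℝ) : ℝ :=
  ∑ j ∈ Finset.Icc (-(2 * n : ℤ)) (2 * n), fej n j * Real.cos (j * t)

theorem fej_nonneg (n : ℕ) (j : ℤ) : 0 ≤ fej n j := le_max_left _ _

theorem fej_le_one (n : ℕ) (j : ℤ) : fej n j ≤ 1 :=
  max_le zero_le_one (sub_le_self _ (by positivity))

theorem KK_eq {n : ℕ} (hn : 1 ≤ n) (t : ℝ) : KK n t = TK' (2 * n) t / (2 * n) := by
  have hn0 : (0 : ℝ) < n := by exact_mod_cast hn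
  unfold KK TK'
  rw [Finset.sum_div]
  push_cast
  refine Finset.sum_congr rfl fun j hj => ?_
  rw [Finset.mem_Icc] at hj
  have h1 : |(j : ℝ)| ≤ 2 * n := by
    rw [abs_le]
    constructor
    · have := hj.1; exact_mod_cast this
    · exact_mod_cast hj.2
  have h2 : fej n j = 1 - |(j : ℝ)| / (2 * n) := by
    refine max_eq_right ?_
    rw [sub_nonneg, div_le_one (by positivity)]
    exact h1
  rw [h2]
  field_simp

theorem KK_nonneg {n : ℕ} (hn : 1 ≤ n) (t : ℝ) : 0 ≤ KK n t := by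
  have hn0 : (0 : ℝ) < n := by exact_mod_cast hn
  rcases (Real.cos_le_one t).lt_or_eq with h | h
  · rw [KK_eq hn]
    refine div_nonneg ?_ (by positivity)
    have h1 := TK_mul (2 * n) t
    have h2 : 0 ≤ (1 - Real.cos t) * TK' (2 * n) t := by
      rw [h1]
      linarith [Real.cos_le_one (((2 * n : ℕ) : ℝ) * t)]
    exact nonneg_of_mul_nonneg_right h2 (by linarith)
  · obtain ⟨k, hk⟩ := (Real.cos_eq_one_iff t).1 h
    refine Finset.sum_nonneg fun j _ => mul_nonneg (fej_nonneg n j) ?_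
    have h1 : Real.cos (j * t) = 1 := by
      rw [← hk, ← mul_assoc, ← Int.cast_mul, Real.cos_int_mul_two_pi]
    rw [h1]
    exact zero_le_one

theorem KK_le {n : ℕ} (hn : 1 ≤ n) (t : ℝ) : KK n t ≤ 5 * n := by
  have hn1 : (1 : ℝ) ≤ n := by exact_mod_cast hn
  calc KK n t ≤ ∑ _j ∈ Finset.Icc (-(2 * n : ℤ)) (2 * n), (1 : ℝ) := by
        refine Finset.sum_le_sum fun j _ => ?_
        calc fej n j * Real.cos (j * t) ≤ fej n j * 1 :=
              mul_le_mul_of_nonneg_left (Real.cos_le_one _) (fej_nonneg n j)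
          _ ≤ 1 := by rw [mul_one]; exact fej_le_one n j
    _ = ((4 * n + 1 : ℕ) : ℝ) := by
        rw [Finset.sum_const, Int.card_Icc, nsmul_eq_mul, mul_one]
        congr 1
        omega
    _ ≤ 5 * n := by push_cast; linarith

theorem KK_cont (n : ℕ) : Continuous (KK n) := by
  unfold KK
  fun_prop

theorem int_cos1 (m : ℤ) : ∫ t, Real.cos (m * t) ∂nu = if m = 0 then 1 else 0 := by
  unfold nu
  have hpi := Real.pi_pos
  rw [integral_smul_measure, ← intervalIntegral.integral_of_le (by linarith),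
    ENNReal.toReal_ofReal (by positivity)]
  split_ifs with hm
  · subst hm
    simp only [Int.cast_zero, zero_mul, Real.cos_zero]
    rw [intervalIntegral.integral_const, smul_eq_mul, smul_eq_mul, mul_one]
    field_simp
    ring
  · have hm' : (m : ℝ) ≠ 0 := by exact_mod_cast hm
    rw [intervalIntegral.integral_comp_mul_left (fun x => Real.cos x) hm', integral_cos,
      Real.sin_int_mul_pi, mul_neg, Real.sin_neg, Real.sin_int_mul_pi]
    simp

theorem int_KK (hN : StNuProb) {n : ℕ} (hn : 1 ≤ n) :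
    ∫⁻ t, ENNReal.ofReal (KK n t) ∂nu = 1 := by
  have hn0 : (0 : ℝ) < n := by exact_mod_cast hn
  have := hN.1
  have hc : ∀ j : ℤ, Integrable (fun t : ℝ => fej n j * Real.cos (j * t)) nu := by
    intro j
    refine Integrable.of_bound (Continuous.aestronglyMeasurable (by fun_prop)) 1 ?_
    refine Filter.Eventually.of_forall fun t => ?_
    rw [Real.norm_eq_abs, abs_mul, abs_of_nonneg (fej_nonneg n j)]
    calc fej n j * |Real.cos (j * t)| ≤ 1 * 1 :=
          mul_le_mul (fej_le_one n j) (Real.abs_cos_le_one _) (abs_nonneg _) zero_le_one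
      _ = 1 := one_mul 1
  have hI : Integrable (KK n) nu := by
    unfold KK
    exact integrable_finsetSum _ fun j _ => hc j
  rw [← ofReal_integral_eq_lintegral_ofReal hI (Filter.Eventually.of_forall (KK_nonneg hn))]
  have h1 : ∫ t, KK n t ∂nu = 1 := by
    unfold KK
    rw [integral_finsetSum _ fun j _ => hc j]
    simp only [integral_const_mul, int_cos1]
    rw [Finset.sum_eq_single (0 : ℤ)]
    · simp [fej]
    · intro j _ hj
      rw [if_neg hj, mul_zero]
    · intro h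
      exfalso
      apply h
      rw [Finset.mem_Icc]
      constructor <;> omega
  rw [h1, ENNReal.ofReal_one]

theorem integrableOn_abs_rpow {r : ℝ} (hr : -1 < r) :
    IntegrableOn (fun x : ℝ => |x| ^ r) (Set.Ioc (-Real.pi) Real.pi) := by
  have h0 : -Real.pi ≤ Real.pi := by linarith [Real.pi_pos]
  have h1 : IntervalIntegrable (fun x : ℝ => |x| ^ r) volume 0 Real.pi := by
    refine (intervalIntegral.intervalIntegrable_rpow' (a := 0) (b := Real.pi) hr).congr ?_
    intro x hx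
    rw [Set.uIoc_of_le Real.pi_pos.le] at hx
    simp only
    rw [abs_of_pos hx.1]
  have h2 : IntervalIntegrable (fun x : ℝ => |x| ^ r) volume (-Real.pi) 0 := by
    have h3 := (IntervalIntegrable.iff_comp_neg (f := fun x : ℝ => |x| ^ r)
      (a := 0) (b := Real.pi)).1 h1
    simp only [abs_neg, neg_zero] at h3
    exact h3.symm
  rw [← intervalIntegrable_iff_integrableOn_Ioc_of_le h0]
  exact h2.trans h1

theorem cos_bound {s : ℝ} (hs : 0 ≤ s) {t : ℝ} (ht : |t| ≤ Real.pi) :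
    (1 - Real.cos t) ^ (-s) ≤ (2 / Real.pi ^ 2) ^ (-s) * |t| ^ (-(2 * s)) := by
  rcases eq_or_ne t 0 with rfl | h0
  · rw [Real.cos_zero, sub_self, abs_zero]
    rcases hs.eq_or_lt with rfl | h1
    · simp
    · rw [Real.zero_rpow (by linarith)]
      positivity
  · have h1 := Real.cos_le_one_sub_mul_cos_sq ht
    have ha : 0 < |t| := abs_pos.2 h0
    have h2 : 0 < 2 / Real.pi ^ 2 * |t| ^ 2 := by positivity
    have h3 : 2 / Real.pi ^ 2 * |t| ^ 2 ≤ 1 - Real.cos t := by
      rw [sq_abs]; linarith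
    calc (1 - Real.cos t) ^ (-s) ≤ (2 / Real.pi ^ 2 * |t| ^ 2) ^ (-s) :=
          Real.rpow_le_rpow_of_nonpos h2 h3 (by linarith)
      _ = (2 / Real.pi ^ 2) ^ (-s) * |t| ^ (-(2 * s)) := by
          rw [Real.mul_rpow (by positivity) (by positivity), ← Real.rpow_natCast |t| 2,
            ← Real.rpow_mul ha.le]
          congr 2
          push_cast; ring

/-- the small arc -/
noncomputable def sm (h x : ℝ) : ℝ := if x ≤ h then x ^ (-(2 / 3) : ℝ) else 0

theorem int_sm {h : ℝ} (h0 : 0 < h) : ∫ x, sm h |x| = 6 * h ^ (1 / 3 : ℝ) := by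
  rw [integral_comp_abs (f := sm h)]
  have e1 : ∫ x in Set.Ioi (0 : ℝ), sm h x = ∫ x in Set.Ioc (0 : ℝ) h, x ^ (-(2 / 3) : ℝ) := by
    have e2 : ∀ x, (Set.Ioi (0 : ℝ)).indicator (sm h) x =
        (Set.Ioc (0 : ℝ) h).indicator (fun x => x ^ (-(2 / 3) : ℝ)) x := by
      intro x
      by_cases hx : 0 < x
      · rw [Set.indicator_of_mem (Set.mem_Ioi.2 hx)]
        by_cases hxh : x ≤ h
        · have h' : x ∈ Set.Ioc (0 : ℝ) h := ⟨hx, hxh⟩
          rw [Set.indicator_of_mem h', sm, if_pos hxh]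
        · have h' : x ∉ Set.Ioc (0 : ℝ) h := fun h' => hxh h'.2
          rw [Set.indicator_of_notMem h', sm, if_neg hxh]
      · have h' : x ∉ Set.Ioc (0 : ℝ) h := fun h' => hx h'.1
        have h'' : x ∉ Set.Ioi (0 : ℝ) := fun h' => hx h'
        rw [Set.indicator_of_notMem h', Set.indicator_of_notMem h'']
    rw [← integral_indicator measurableSet_Ioi, ← integral_indicator measurableSet_Ioc]
    exact integral_congr_ae (Filter.Eventually.of_forall e2)
  rw [e1, ← intervalIntegral.integral_of_le h0.le, integral_rpow (Or.inl (by norm_num)),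
    Real.zero_rpow (by norm_num)]
  norm_num
  ring

theorem integrable_sm {h : ℝ} (h1 : h < Real.pi) : Integrable (fun x : ℝ => sm h |x|) := by
  have e1 : (fun x : ℝ => sm h |x|) =
      (Set.Icc (-h) h).indicator (fun x : ℝ => |x| ^ (-(2 / 3) : ℝ)) := by
    funext x
    by_cases hx : |x| ≤ h
    · rw [Set.indicator_of_mem (Set.mem_Icc.2 (abs_le.1 hx)), sm, if_pos hx]
    · have h' : x ∉ Set.Icc (-h) h := fun h' => hx (abs_le.2 h')
      rw [Set.indicator_of_notMem h', sm, if_neg hx]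
  rw [e1, integrable_indicator_iff measurableSet_Icc]
  refine (integrableOn_abs_rpow (by norm_num)).mono_set fun x hx => ?_
  exact ⟨by linarith [hx.1], by linarith [hx.2]⟩

theorem sm_nonneg (h : ℝ) (x : ℝ) : 0 ≤ sm h |x| := by
  unfold sm
  split_ifs
  · positivity
  · exact le_rfl

theorem lint_sm {h : ℝ} (h0 : 0 < h) (h1 : h < Real.pi) :
    ∫⁻ x, ENNReal.ofReal (sm h |x|) ∂nu ≤ ENNReal.ofReal (h ^ (1 / 3 : ℝ)) := by
  have hpi := Real.pi_gt_three
  rw [nu, lintegral_smul_measure, smul_eq_mul]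
  calc ENNReal.ofReal (1 / (2 * Real.pi)) *
        ∫⁻ x in Set.Ioc (-Real.pi) Real.pi, ENNReal.ofReal (sm h |x|)
      ≤ ENNReal.ofReal (1 / (2 * Real.pi)) * ∫⁻ x, ENNReal.ofReal (sm h |x|) :=
        mul_le_mul' le_rfl (setLIntegral_le_lintegral _ _)
    _ = ENNReal.ofReal (1 / (2 * Real.pi)) * ENNReal.ofReal (6 * h ^ (1 / 3 : ℝ)) := by
        rw [← ofReal_integral_eq_lintegral_ofReal (integrable_sm h1)
          (Filter.Eventually.of_forall (sm_nonneg h)), int_sm h0]
    _ = ENNReal.ofReal (1 / (2 * Real.pi) * (6 * h ^ (1 / 3 : ℝ))) :=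
        (ENNReal.ofReal_mul (by positivity)).symm
    _ ≤ ENNReal.ofReal (h ^ (1 / 3 : ℝ)) := by
        refine ENNReal.ofReal_le_ofReal ?_
        have h2 : 0 ≤ h ^ (1 / 3 : ℝ) := by positivity
        have h3 : 1 / (2 * Real.pi) * 6 ≤ 1 := by
          rw [one_div_mul_eq_div, div_le_one (by positivity)]
          linarith
        nlinarith

end Fej1M

open Fej1M in
theorem hFej1 (hN : StNuProb) : StFej1 := by
  obtain ⟨c, hc⟩ : ∃ c : ℝ, c = (2 / Real.pi ^ 2) ^ (-(1 / 3) : ℝ) := ⟨_, rfl⟩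
  have hc0 : 0 < c := by rw [hc]; positivity
  refine ⟨6 * c, by positivity, fun n hn => ⟨KK_nonneg hn, int_KK hN hn, ?_⟩⟩
  have hn0 : (0 : ℝ) < n := by exact_mod_cast hn
  have hn1 : (1 : ℝ) ≤ n := by exact_mod_cast hn
  obtain ⟨h, hh⟩ : ∃ h : ℝ, h = 1 / n := ⟨_, rfl⟩
  have h0 : 0 < h := by rw [hh]; positivity
  have h1 : h < Real.pi := by
    have : h ≤ 1 := by rw [hh, div_le_one hn0]; exact hn1
    linarith [Real.pi_gt_three]
  have hinv : h ^ (-(2 / 3) : ℝ) = (n : ℝ) ^ (2 / 3 : ℝ) := by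
    rw [hh, one_div, Real.inv_rpow hn0.le, Real.rpow_neg hn0.le, inv_inv]
  have hpt : ∀ t : ℝ, |t| ≤ Real.pi → KK n t * (1 - Real.cos t) ^ (-(1 / 3 : ℝ)) ≤
      c * (n : ℝ) ^ (2 / 3 : ℝ) * KK n t + 5 * n * c * sm h |t| := by
    intro t ht
    have hK0 := KK_nonneg hn t
    have hb := cos_bound (s := 1 / 3) (by norm_num) ht
    rw [← hc, show (-(2 * (1 / 3)) : ℝ) = -(2 / 3) by norm_num] at hb
    by_cases hth : |t| ≤ h
    · have e1 : KK n t * (1 - Real.cos t) ^ (-(1 / 3 : ℝ)) ≤ 5 * n * (c * |t| ^ (-(2 / 3) : ℝ)) :=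
        mul_le_mul (KK_le hn t) hb (Real.rpow_nonneg (by linarith [Real.cos_le_one t]) _)
          (by positivity)
      have e2 : 0 ≤ c * (n : ℝ) ^ (2 / 3 : ℝ) * KK n t := by positivity
      rw [sm, if_pos hth]
      linarith
    · rw [sm, if_neg hth, mul_zero, add_zero]
      push Not at hth
      have e1 : |t| ^ (-(2 / 3) : ℝ) ≤ (n : ℝ) ^ (2 / 3 : ℝ) := by
        rw [← hinv]
        exact Real.rpow_le_rpow_of_nonpos h0 hth.le (by norm_num)
      calc KK n t * (1 - Real.cos t) ^ (-(1 / 3 : ℝ))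
          ≤ KK n t * (c * (n : ℝ) ^ (2 / 3 : ℝ)) :=
            mul_le_mul_of_nonneg_left (hb.trans (mul_le_mul_of_nonneg_left e1 hc0.le)) hK0
        _ = c * (n : ℝ) ^ (2 / 3 : ℝ) * KK n t := by ring
  have hmK : Measurable fun t : ℝ => ENNReal.ofReal (c * (n : ℝ) ^ (2 / 3 : ℝ) * KK n t) :=
    ((KK_cont n).measurable.const_mul _).ennreal_ofReal
  calc ∫⁻ t, ENNReal.ofReal (KK n t * (1 - Real.cos t) ^ (-(1 / 3 : ℝ))) ∂nu
      ≤ ∫⁻ t, (ENNReal.ofReal (c * (n : ℝ) ^ (2 / 3 : ℝ) * KK n t) +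
          ENNReal.ofReal (5 * n * c * sm h |t|)) ∂nu := by
        unfold nu
        refine lintegral_mono_ae ?_
        have hae : ∀ᵐ t ∂(volume.restrict (Set.Ioc (-Real.pi) Real.pi)), |t| ≤ Real.pi := by
          filter_upwards [ae_restrict_mem measurableSet_Ioc] with t ht
          exact abs_le.2 ⟨ht.1.le, ht.2⟩
        filter_upwards [Measure.ae_smul_measure hae _] with t ht
        refine (ENNReal.ofReal_le_ofReal (hpt t ht)).trans ?_
        exact ENNReal.ofReal_add_le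
    _ = ENNReal.ofReal (c * (n : ℝ) ^ (2 / 3 : ℝ)) * 1 +
          ENNReal.ofReal (5 * n * c) * ∫⁻ t, ENNReal.ofReal (sm h |t|) ∂nu := by
        rw [lintegral_add_left hmK]
        congr 1
        · rw [← int_KK hN hn, ← lintegral_const_mul _ (KK_cont n).measurable.ennreal_ofReal]
          refine lintegral_congr fun t => ?_
          rw [ENNReal.ofReal_mul (by positivity)]
        · rw [← lintegral_const_mul' _ _ ENNReal.ofReal_ne_top]
          refine lintegral_congr fun t => ?_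
          rw [ENNReal.ofReal_mul (by positivity)]
    _ ≤ ENNReal.ofReal (c * (n : ℝ) ^ (2 / 3 : ℝ)) * 1 +
          ENNReal.ofReal (5 * n * c) * ENNReal.ofReal (h ^ (1 / 3 : ℝ)) :=
        add_le_add le_rfl (mul_le_mul' le_rfl (lint_sm h0 h1))
    _ = ENNReal.ofReal (c * (n : ℝ) ^ (2 / 3 : ℝ) + 5 * n * c * h ^ (1 / 3 : ℝ)) := by
        rw [mul_one, ← ENNReal.ofReal_mul (by positivity),
          ← ENNReal.ofReal_add (by positivity) (by positivity)]
    _ = ENNReal.ofReal (6 * c * (n : ℝ) ^ (2 / 3 : ℝ)) := by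
        congr 1
        have e1 : (n : ℝ) * h ^ (1 / 3 : ℝ) = (n : ℝ) ^ (2 / 3 : ℝ) := by
          rw [hh, one_div, Real.inv_rpow hn0.le, ← Real.rpow_neg hn0.le]
          nth_rewrite 1 [← Real.rpow_one (n : ℝ)]
          rw [← Real.rpow_add hn0]
          norm_num
        calc c * (n : ℝ) ^ (2 / 3 : ℝ) + 5 * n * c * h ^ (1 / 3 : ℝ) =
            c * (n : ℝ) ^ (2 / 3 : ℝ) + 5 * c * (n * h ^ (1 / 3 : ℝ)) := by ring
          _ = _ := by rw [e1]; ring

end Pool.NL

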