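import Pool.Agent.Helper22.NL.StR
import Pool.Agent.Helper84.LE.M_RW0
import Pool.Agent.Helper84.LE.M_RW1

/-! # Project NL, module FejD -/

set_option autoImplicit false

open scoped BigOperators ENNReal
open MeasureTheory Pool.LE

namespace Pool.NL

namespace FejDM

/-- the Fejer sum -/
noncomputable def K (n : ℕ) (t : ℝ) : ℝ :=
  ∑ j ∈ Finset.Icc (-(2 * n : ℤ)) (2 * n), fej n j * Real.cos (j * t)

theorem K_meas (n : ℕ) : Measurable (K n) := by
  unfold K
  refine Finset.measurable_sum _ fun j _ => ?_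
  exact measurable_const.mul (Real.measurable_cos.comp (measurable_const.mul measurable_id))

theorem wd (n : ℕ) (h0 : ∀ t, 0 ≤ K n t) (g : ℝ → ℝ) (hg : Measurable g) :
    ∫⁻ t, ENNReal.ofReal (K n t * g t) ∂nu =
      ∫⁻ t, ENNReal.ofReal (g t) ∂(nu.withDensity fun t => ENNReal.ofReal (K n t)) := by
  have h := lintegral_withDensity_eq_lintegral_mul nu (ENNReal.measurable_ofReal.comp (K_meas n))
    (ENNReal.measurable_ofReal.comp hg)
  refine Eq.trans ?_ h.symm
  refine lintegral_congr fun t => ?_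
  rw [Pi.mul_apply, ENNReal.ofReal_mul (h0 t)]
  rfl

end FejDM

open FejDM in
theorem hFejD (hF : StFej1) (_hN : StNuProb) (_hDh : StDh) : StFejD := by
  obtain ⟨C, hC, hF⟩ := hF
  refine ⟨C ^ 3, by positivity, ?_⟩
  intro d n hd hn
  obtain ⟨h0, h1, h2⟩ := hF n hn
  have h0' : ∀ t, 0 ≤ K n t := h0
  have hd0 : 0 < d := by omega
  have hd' : (0 : ℝ) < d := by exact_mod_cast hd0
  have hd3 : (3 : ℝ) ≤ d := by exact_mod_cast hd
  haveI := RW0M.nu_finite
  set μ : Measure ℝ := nu.withDensity fun t => ENNReal.ofReal (K n t) with hμ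
  haveI : IsProbabilityMeasure μ := by
    refine ⟨?_⟩
    rw [hμ, withDensity_apply _ MeasurableSet.univ, Measure.restrict_univ]
    exact h1
  have hgm : ∀ s : ℝ, Measurable fun t : ℝ => (1 - Real.cos t) ^ s := fun s =>
    (measurable_const.sub Real.measurable_cos).pow_const _
  set Y : ℝ → ENNReal := fun t => ENNReal.ofReal ((1 - Real.cos t) ^ (-(1 / 3 : ℝ))) with hYdef
  have hY : Measurable Y := ENNReal.measurable_ofReal.comp (hgm _)
  have hθ0 : (0 : ℝ) < 3 / d := div_pos (by norm_num) hd'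
  have hθ1 : (3 : ℝ) / d ≤ 1 := (div_le_one hd').2 hd3
  have e1 : ∀ t : ℝ, ENNReal.ofReal ((1 - Real.cos t) ^ (-((1 : ℕ) : ℝ) / d)) =
      Y t ^ ((3 : ℝ) / d) := by
    intro t
    have hx : 0 ≤ 1 - Real.cos t := by linarith [Real.cos_le_one t]
    rw [hYdef]
    simp only
    rw [ENNReal.ofReal_rpow_of_nonneg (Real.rpow_nonneg hx _) hθ0.le, ← Real.rpow_mul hx]
    congr 2
    push_cast
    field_simp
  have e2 : ∫⁻ t, ENNReal.ofReal (K n t * (1 - Real.cos t) ^ (-((1 : ℕ) : ℝ) / d)) ∂nu ≤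
      (ENNReal.ofReal (C * (n : ℝ) ^ (2 / 3 : ℝ))) ^ ((3 : ℝ) / d) := by
    rw [wd n h0' _ (hgm _), lintegral_congr e1]
    refine (RW1M.lint_rpow_le hY hθ0 hθ1).trans ?_
    refine ENNReal.rpow_le_rpow ?_ hθ0.le
    rw [hYdef, ← wd n h0' _ (hgm _)]
    exact h2
  have hmeas : Measurable fun t : ℝ =>
      ENNReal.ofReal (K n t * (1 - Real.cos t) ^ (-((1 : ℕ) : ℝ) / d)) :=
    ENNReal.measurable_ofReal.comp ((K_meas n).mul (hgm _))
  have e3 : ∫⁻ k, ENNReal.ofReal ((1 - Dh k)⁻¹ * ∏ i, K n (k i)) ∂(muT d) ≤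
      ∫⁻ k : Fin d → ℝ, ∏ i, ENNReal.ofReal (K n (k i) *
        (1 - Real.cos (k i)) ^ (-((1 : ℕ) : ℝ) / d)) ∂(muT d) := by
    unfold muT
    refine lintegral_mono_ae ?_
    have h1 : ∀ᵐ k ∂(Measure.pi fun _ : Fin d => nu), ∀ i, Real.cos (k i) ≠ 1 := by
      rw [ae_all_iff]
      intro i
      have h2 : Filter.Tendsto (Function.eval i) (ae (Measure.pi fun _ : Fin d => nu)) (ae nu) :=
        Measure.tendsto_eval_ae_ae (μ := fun _ : Fin d => nu) (i := i)
      exact h2.eventually RW0M.ae_cos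
    filter_upwards [h1] with k hk
    rw [← ENNReal.ofReal_prod_of_nonneg]
    · refine ENNReal.ofReal_le_ofReal ?_
      have h3 := RW0M.pointwise (n := 1) hd0 k hk
      rw [pow_one] at h3
      rw [Finset.prod_mul_distrib, mul_comm]
      refine mul_le_mul_of_nonneg_left ?_ (Finset.prod_nonneg fun i _ => h0' _)
      refine h3.trans (le_of_eq ?_)
      refine Finset.prod_congr rfl fun i _ => ?_
      congr 1
      ring
    · intro i _
      exact mul_nonneg (h0' _) (Real.rpow_nonneg (by linarith [Real.cos_le_one (k i)]) _)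
  have e4 : ∫⁻ k : Fin d → ℝ, ∏ i, ENNReal.ofReal (K n (k i) *
        (1 - Real.cos (k i)) ^ (-((1 : ℕ) : ℝ) / d)) ∂(muT d) =
      (∫⁻ t, ENNReal.ofReal (K n t * (1 - Real.cos t) ^ (-((1 : ℕ) : ℝ) / d)) ∂nu) ^ d :=
    RW0M.lint_prod hmeas d
  refine e3.trans ?_
  rw [e4]
  refine (pow_le_pow_left' e2 d).trans (le_of_eq ?_)
  rw [← ENNReal.rpow_natCast, ← ENNReal.rpow_mul, div_mul_cancel₀ _ hd'.ne']
  have hn0 : (0 : ℝ) ≤ (n : ℝ) := by positivity
  rw [ENNReal.ofReal_rpow_of_nonneg (by positivity) (by norm_num)]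
  congr 1
  rw [Real.mul_rpow hC.le (by positivity), ← Real.rpow_mul hn0]
  norm_num

end Pool.NL
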