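import Pool.Agent.Helper22.NL.StR

/-! # Project NL: Parseval for the Fejér weight -/

set_option autoImplicit false

open scoped BigOperators Polynomial ENNReal
open Polynomial Pool.LE

namespace Pool.NL

theorem fejP_even (n : ℕ) (j : ℤ) : fej n (-j) = fej n j := by
  unfold fej
  push_cast
  rw [abs_neg]

theorem fejP_zero {n : ℕ} (hn : 1 ≤ n) {j : ℤ} (hj : j ∉ Finset.Icc (-(2 * n : ℤ)) (2 * n)) :
    fej n j = 0 := by
  have hj' : (2 * n : ℤ) < |j| := by
    rw [Finset.mem_Icc, ← abs_le, not_le] at hj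
    exact hj
  have hn' : (0 : ℝ) < 2 * n := by
    have : (0 : ℝ) < n := by exact_mod_cast hn
    positivity
  have h1 : (2 * n : ℝ) < |(j : ℝ)| := by
    have : ((2 * n : ℤ) : ℝ) < ((|j| : ℤ) : ℝ) := by exact_mod_cast hj'
    push_cast at this
    exact this
  unfold fej
  refine max_eq_left ?_
  have h2 : 1 < |(j : ℝ)| / (2 * n) := by rwa [one_lt_div hn']
  linarith

theorem fejP_sin (n : ℕ) (t : ℝ) :
    ∑ j ∈ Finset.Icc (-(2 * n : ℤ)) (2 * n), fej n j * Real.sin (j * t) = 0 := by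
  have h1 : ∑ j ∈ Finset.Icc (-(2 * n : ℤ)) (2 * n), fej n j * Real.sin (j * t) =
      ∑ j ∈ Finset.Icc (-(2 * n : ℤ)) (2 * n), -(fej n j * Real.sin (j * t)) := by
    refine Finset.sum_equiv (Equiv.neg ℤ) (fun j => ?_) (fun j _ => ?_)
    · simp only [Equiv.neg_apply, Finset.mem_Icc]
      constructor
      · rintro ⟨h, h'⟩; constructor <;> linarith
      · rintro ⟨h, h'⟩; constructor <;> linarith
    · rw [Equiv.neg_apply, fejP_even]
      push_cast
      rw [neg_mul, Real.sin_neg]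
      ring
  rw [Finset.sum_neg_distrib] at h1
  linarith

theorem fejP_exp (n : ℕ) (t : ℝ) :
    ((∑ j ∈ Finset.Icc (-(2 * n : ℤ)) (2 * n), fej n j * Real.cos (j * t) : ℝ) : ℂ) =
      ∑ j ∈ Finset.Icc (-(2 * n : ℤ)) (2 * n),
        (fej n j : ℂ) * Complex.exp (((j * t : ℝ) : ℂ) * Complex.I) := by
  apply Complex.ext
  · rw [Complex.ofReal_re, Complex.re_sum]
    refine Finset.sum_congr rfl fun j _ => ?_
    rw [Complex.re_ofReal_mul, Complex.exp_ofReal_mul_I_re]
  · rw [Complex.ofReal_im, Complex.im_sum, ← fejP_sin n t]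
    refine Finset.sum_congr rfl fun j _ => ?_
    rw [Complex.im_ofReal_mul, Complex.exp_ofReal_mul_I_im]

theorem fejP_prod {d : ℕ} (n : ℕ) (k : Fin d → ℝ) :
    ∏ i, (∑ j ∈ Finset.Icc (-(2 * n : ℤ)) (2 * n), fej n j * Real.cos (j * k i)) =
      ∑ x ∈ Fintype.piFinset (fun _ : Fin d => Finset.Icc (-(2 * n : ℤ)) (2 * n)),
        (∏ i, fej n (x i)) * Real.cos (∑ i, k i * x i) := by
  have h1 : ((∏ i, (∑ j ∈ Finset.Icc (-(2 * n : ℤ)) (2 * n), fej n j * Real.cos (j * k i)) : ℝ) :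
      ℂ) = ∑ x ∈ Fintype.piFinset (fun _ : Fin d => Finset.Icc (-(2 * n : ℤ)) (2 * n)),
        (((∏ i, fej n (x i)) : ℝ) : ℂ) *
          Complex.exp (((∑ i, k i * x i : ℝ) : ℂ) * Complex.I) := by
    rw [Complex.ofReal_prod]
    simp_rw [fejP_exp]
    rw [Finset.prod_univ_sum]
    refine Finset.sum_congr rfl fun x _ => ?_
    rw [Finset.prod_mul_distrib, Complex.ofReal_prod, ← Complex.exp_sum]
    congr 2
    rw [Complex.ofReal_sum, Finset.sum_mul]
    refine Finset.sum_congr rfl fun i _ => ?_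
    push_cast
    ring
  have h2 := congrArg Complex.re h1
  rw [Complex.ofReal_re, Complex.re_sum] at h2
  rw [h2]
  refine Finset.sum_congr rfl fun x _ => ?_
  rw [Complex.re_ofReal_mul, Complex.exp_ofReal_mul_I_re]

theorem fejP_evenF {d : ℕ} {f : Zd d → ℝ} (hf : SymF f) : EvenF f := by
  intro x
  have h := hf 1 (fun _ => -1) x
  rw [← h]
  congr 1
  funext i
  simp [sgp]

theorem hFejP (hInv : StInv) : StFejP := by
  intro d n f hs hf hn
  have hI := hInv d f hs (fejP_evenF hf)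
  have h1 : ∀ k : Fin d → ℝ, FT f k *
      ∏ i, (∑ j ∈ Finset.Icc (-(2 * n : ℤ)) (2 * n), fej n j * Real.cos (j * k i)) =
      ∑ x ∈ Fintype.piFinset (fun _ : Fin d => Finset.Icc (-(2 * n : ℤ)) (2 * n)),
        (∏ i, fej n (x i)) * (FT f k * Real.cos (∑ i, k i * x i)) := by
    intro k
    rw [fejP_prod, Finset.mul_sum]
    refine Finset.sum_congr rfl fun x _ => ?_
    ring
  simp_rw [h1]
  rw [MeasureTheory.integral_finset_sum _ (fun x _ => ((hI x).1.const_mul _))]
  rw [tsum_eq_sum (s := Fintype.piFinset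
    (fun _ : Fin d => Finset.Icc (-(2 * n : ℤ)) (2 * n)))]
  · refine Finset.sum_congr rfl fun x _ => ?_
    rw [MeasureTheory.integral_const_mul, ← (hI x).2, mul_comm]
  · intro x hx
    rw [Fintype.mem_piFinset] at hx
    push Not at hx
    obtain ⟨i, hi⟩ := hx
    rw [Finset.prod_eq_zero (Finset.mem_univ i) (fejP_zero hn hi), mul_zero]

end Pool.NL
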