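import Pool.Agent.Helper22.NL.StT

/-! NL module Fin: the finite volume identity. -/

set_option autoImplicit false
open scoped BigOperators ENNReal Polynomial
open Polynomial Pool.LE

namespace Pool.NL

namespace FinM

theorem hasSum_cg {α : Type} {f g : α → ℝ} {a : ℝ} (h : HasSum g a) (e : ∀ x, f x = g x) :
    HasSum f a := by
  rw [show f = g from funext e]
  exact h

/-- the sum of the coefficients of a polynomial -/
theorem hasSum_coeff (P : ℝ[X]) : HasSum (fun n => P.coeff n) (P.eval 1) := by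
  have h : P.eval 1 = ∑ n ∈ Finset.range (P.natDegree + 1), P.coeff n := by
    rw [eval_eq_sum_range]
    exact Finset.sum_congr rfl fun n _ => by rw [one_pow, mul_one]
  rw [h]
  refine hasSum_sum_of_ne_finset_zero ?_
  intro n hn
  apply coeff_eq_zero_of_natDegree_lt
  simp only [Finset.mem_range, not_lt] at hn
  omega

/-- the two-point function as a connection probability -/
theorem eval_GG {V : Type} [DecidableEq V] (E : Finset (Sym2 V)) (p : ℝ) (v x : V) :
    (GG E p v x).eval 1 = cp E p v x := by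
  unfold GG cp pr Ex
  rw [eval_finsetSum]
  refine Finset.sum_congr rfl fun ω _ => ?_
  show (wt E p ω • mon ω v x).eval 1 = wt E p ω • ind (con ω v x)
  rw [eval_smul]
  congr 1
  by_cases h : con ω v x
  · have e1 : mon ω v x = X ^ (gr ω).dist v x := if_pos h
    have e2 : ind (con ω v x) = 1 := if_pos h
    rw [e1, e2, eval_pow, eval_X, one_pow]
  · have e1 : mon ω v x = 0 := if_neg h
    have e2 : ind (con ω v x) = 0 := if_neg h
    rw [e1, e2, eval_zero]

/-- shifted Cauchy product -/
theorem cauchy (a b : ℕ → ℝ) (p : ℝ) (ha : Summable (fun n => |a n|))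
    (hb : Summable (fun n => |b n|)) :
    HasSum (fun n => ∑ j ∈ Finset.range n, a j * p * b (n - 1 - j)) ((∑' n, a n) * p * ∑' n, b n) := by
  have ha' : Summable (fun n => ‖a n‖) := ha
  have hb' : Summable (fun n => ‖b n‖) := hb
  have h1 := tsum_mul_tsum_eq_tsum_sum_range_of_summable_norm ha' hb'
  have h2 := (summable_norm_sum_mul_range_of_summable_norm ha' hb').of_norm
  have h3 : HasSum (fun n => ∑ k ∈ Finset.range (n + 1), a k * b (n - k))
      ((∑' n, a n) * ∑' n, b n) := by
    rw [h1]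
    exact h2.hasSum
  have h4 := h3.mul_right p
  set c : ℕ → ℝ := fun n => ∑ j ∈ Finset.range n, a j * p * b (n - 1 - j) with hc
  have h5 : HasSum (fun n => c (n + 1)) ((∑' n, a n) * (∑' n, b n) * p) := by
    refine hasSum_cg h4 fun n => ?_
    show ∑ j ∈ Finset.range (n + 1), a j * p * b (n + 1 - 1 - j) =
      (∑ k ∈ Finset.range (n + 1), a k * b (n - k)) * p
    rw [Finset.sum_mul]
    refine Finset.sum_congr rfl fun j _ => ?_
    rw [Nat.add_sub_cancel]
    ring
  have h6 := (hasSum_nat_add_iff 1).1 h5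
  have h7 : (∑' n, a n) * (∑' n, b n) * p + ∑ i ∈ Finset.range 1, c i =
      (∑' n, a n) * p * ∑' n, b n := by
    have h8 : c 0 = 0 := by
      show ∑ j ∈ Finset.range 0, a j * p * b (0 - 1 - j) = 0
      rw [Finset.sum_range_zero]
    rw [Finset.sum_range_one, h8]
    ring
  rw [h7] at h6
  exact h6

theorem hasSum_ind (A : Prop) : HasSum (fun m : ℕ => ind (m = 0 ∧ A)) (ind A) := by
  have h := hasSum_ite_eq (0 : ℕ) (ind A)
  refine hasSum_cg h fun m => ?_
  unfold ind
  by_cases hm : m = 0 <;> by_cases hA : A <;> simp [hm, hA]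

theorem hasSum_ind' {α : Type} [DecidableEq α] (v : α) :
    HasSum (fun x : α => ind (x = v)) 1 := by
  have h := hasSum_ite_eq v (1 : ℝ)
  refine hasSum_cg h fun x => ?_
  unfold ind
  by_cases hx : x = v <;> simp [hx]

end FinM

open FinM in
theorem hFin (hCoef : StCoef) (hCU : StCoefU) : StFin := by
  intro d E p hp0 hp1 hE hG v x
  -- the error
  set h : Zd d → Zd d → ℕ → ℝ := fun v x m => gL E p v x m - ind (m = 0 ∧ x = v) with hh
  have hG' : ∀ v : Zd d, ∑' x : Zd d, ∑' m : ℕ, ENNReal.ofReal |h v x m| ≤ ENNReal.ofReal (1 / 4) := by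
    intro v
    refine le_trans (ENNReal.tsum_le_tsum fun x => ENNReal.tsum_le_tsum fun m => ?_) (hG v)
    calc ENNReal.ofReal |h v x m| = 1 * ENNReal.ofReal |h v x m| := (one_mul _).symm
      _ ≤ (1 + (m : ENNReal)) ^ 3 * ENNReal.ofReal |h v x m| := by
        refine mul_le_mul' ?_ le_rfl
        exact one_le_pow₀ (by simp)
  have hne : ∀ v x : Zd d, ∑' m : ℕ, ENNReal.ofReal |h v x m| ≠ ⊤ := by
    intro v x
    refine ne_top_of_le_ne_top ENNReal.ofReal_ne_top (le_trans ?_ (hG' v))
    exact ENNReal.le_tsum x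
  have hs1 : ∀ v x : Zd d, Summable (fun m => |h v x m|) := by
    intro v x
    have := ENNReal.summable_toReal (hne v x)
    refine this.congr fun m => ?_
    rw [ENNReal.toReal_ofReal (abs_nonneg _)]
  have hs2 : ∀ v x : Zd d, Summable (fun m => |gL E p v x m|) := by
    intro v x
    have h1 := (hs1 v x).of_abs.add (hasSum_ind (x = v)).summable
    refine (h1.congr fun m => ?_).abs
    show gL E p v x m - ind (m = 0 ∧ x = v) + ind (m = 0 ∧ x = v) = gL E p v x m
    ring
  have ht1 : ∀ v x : Zd d, gT E p v x - ind (x = v) = ∑' m, h v x m := by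
    intro v x
    have h1 : HasSum (fun m => h v x m) (gT E p v x - ind (x = v)) :=
      (hs2 v x).of_abs.hasSum.sub (hasSum_ind (x = v))
    exact h1.tsum_eq.symm
  have ht2 : ∀ v x : Zd d, |gT E p v x - ind (x = v)| ≤
      (∑' m : ℕ, ENNReal.ofReal |h v x m|).toReal := by
    intro v x
    rw [ht1, ENNReal.tsum_toReal_eq (fun m => ENNReal.ofReal_ne_top)]
    have h1 : ∀ m, (ENNReal.ofReal |h v x m|).toReal = ‖h v x m‖ := fun m => by
      rw [ENNReal.toReal_ofReal (abs_nonneg _), Real.norm_eq_abs]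
    rw [tsum_congr h1]
    have h2 : Summable (fun m => ‖h v x m‖) := hs1 v x
    exact norm_tsum_le_tsum_norm h2
  have hA : ∀ v : Zd d, Summable (fun x => (∑' m : ℕ, ENNReal.ofReal |h v x m|).toReal) ∧
      ∑' x : Zd d, (∑' m : ℕ, ENNReal.ofReal |h v x m|).toReal ≤ 1 / 4 := by
    intro v
    have h0 : ∑' x : Zd d, ∑' m : ℕ, ENNReal.ofReal |h v x m| ≠ ⊤ :=
      ne_top_of_le_ne_top ENNReal.ofReal_ne_top (hG' v)
    refine ⟨ENNReal.summable_toReal h0, ?_⟩
    rw [← ENNReal.tsum_toReal_eq (hne v)]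
    have := ENNReal.toReal_mono ENNReal.ofReal_ne_top (hG' v)
    rwa [ENNReal.toReal_ofReal (by norm_num)] at this
  have hB : ∀ v : Zd d, Summable (fun x => |gT E p v x - ind (x = v)|) := fun v =>
    Summable.of_nonneg_of_le (fun x => abs_nonneg _) (ht2 v) (hA v).1
  have hC : ∀ v : Zd d, ∑' x : Zd d, |gT E p v x - ind (x = v)| ≤ 1 / 4 := fun v =>
    ((hB v).tsum_le_tsum (ht2 v) (hA v).1).trans (hA v).2
  have hD : ∀ v : Zd d, Summable (fun x => |gT E p v x|) := by
    intro v
    have h1 := (hB v).of_abs.add (hasSum_ind' v).summable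
    refine (h1.congr fun x => ?_).abs
    ring
  refine ⟨hs2, hD, hC, ?_⟩
  -- the identity
  have hGG : ∀ v x : Zd d, HasSum (fun n => (GG E p v x).coeff n) (cp E p v x) := by
    intro v x
    rw [← eval_GG]
    exact hasSum_coeff _
  have hGGs : ∀ v x : Zd d, Summable (fun n => |(GG E p v x).coeff n|) := fun v x =>
    (hGG v x).summable.abs
  have hc : ∀ n, (GG E p v x).coeff n = gL E p v x n + ∑ ub ∈ drt E, ∑ j ∈ Finset.range n,
      gL E p v ub.1 j * p * (GG E p ub.2 x).coeff (n - 1 - j) := by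
    intro n
    rw [hCoef (Zd d) E p n n v x le_rfl]
    congr 1
    refine Finset.sum_congr rfl fun ub _ => Finset.sum_congr rfl fun j hj => ?_
    rw [hCU d E p n j v ub.1 (Finset.mem_range.1 hj).le]
  have hR : HasSum (fun n => gL E p v x n + ∑ ub ∈ drt E, ∑ j ∈ Finset.range n,
      gL E p v ub.1 j * p * (GG E p ub.2 x).coeff (n - 1 - j))
      (gT E p v x + ∑ ub ∈ drt E, gT E p v ub.1 * p * cp E p ub.2 x) := by
    refine (hs2 v x).of_abs.hasSum.add (hasSum_sum fun ub _ => ?_)
    have h1 := cauchy (fun j => gL E p v ub.1 j) (fun j => (GG E p ub.2 x).coeff j) p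
      (hs2 v ub.1) (hGGs ub.2 x)
    rw [(hGG ub.2 x).tsum_eq] at h1
    exact h1
  have hL := hGG v x
  simp_rw [hc] at hL
  exact hL.unique hR

end Pool.NL
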