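import Pool.Agent.Helper22.NL.StM

set_option autoImplicit false

open scoped BigOperators ENNReal
open Pool.LE

namespace Pool.NL

theorem hG2 (hTG : StTG2) (hB : StBasic) (hHh : StHh) : StG2 := by
  intro V _ L E D p χ hFG h0 h1 hχ m hm u hu u' hu'
  have h1' : p ≤ 1 := by linarith
  obtain ⟨hmono, -, -, -, hsmul, -, -, -, -, -⟩ := hB V E p h0 h1'
  obtain ⟨-, hcp, -, -, -⟩ := hHh V L E D p hFG h0 h1'
  have hm0 : (0 : ℝ) < m := by exact_mod_cast hm
  have e1 : (m : ℝ) * GG2 L E p m u u' ≤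
      ex E p (fun ω => (Xc L ω u : ℝ) * ind (con ω u u')) := by
    have e2 : (m : ℝ) * GG2 L E p m u u' =
        ex E p (fun ω => (m : ℝ) * ind (m ≤ Xc L ω u ∧ con ω u u')) := by
      rw [hsmul]
      rfl
    rw [e2]
    refine hmono _ _ fun ω _ => ?_
    unfold ind
    by_cases hc : con ω u u'
    · by_cases hx : m ≤ Xc L ω u
      · rw [if_pos ⟨hx, hc⟩, if_pos hc, mul_one, mul_one]
        exact_mod_cast hx
      · rw [if_neg (fun h => hx h.1), if_pos hc, mul_zero, mul_one]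
        exact Nat.cast_nonneg _
    · rw [if_neg (fun h => hc h.2), if_neg hc, mul_zero, mul_zero]
  have e3 := hTG V L E D p hFG h0 h1 u hu u' hu'
  have e4 : ∑ z ∈ L, cp E p u z * cp E p z u' * hh L E p z ≤
      χ * ∑ z ∈ L, cp E p u z * cp E p z u' := by
    rw [Finset.mul_sum]
    refine Finset.sum_le_sum fun z hz => ?_
    rw [mul_comm χ]
    exact mul_le_mul_of_nonneg_left (hχ z hz) (mul_nonneg (hcp u z).2.1 (hcp z u').2.1)
  have e5 : (m : ℝ) * GG2 L E p m u u' ≤ χ * ∑ z ∈ L, cp E p u z * cp E p z u' :=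
    e1.trans (e3.trans e4)
  rw [div_mul_eq_mul_div, le_div_iff₀ hm0, mul_comm]
  exact e5

end Pool.NL
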