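import Pool.Agent.Helper22.NL.StT

/-! NL module G3: the third moment bounds, from the uniform bound `StDiagH`. -/

set_option autoImplicit false

open scoped BigOperators Polynomial ENNReal
open Polynomial Pool.LE

namespace Pool.NL

/-- partial sums in the second index -/
theorem tsum_le_G3 {α : Type} (f : α → ℕ → ENNReal) (B : ENNReal)
    (h : ∀ M : ℕ, ∑' x : α, ∑ m ∈ Finset.range M, f x m ≤ B) : ∑' x : α, ∑' m : ℕ, f x m ≤ B := by
  rw [ENNReal.tsum_comm]
  refine ENNReal.tsum_le_of_sum_range_le fun M => ?_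
  rw [← Summable.tsum_finsetSum (fun m _ => ENNReal.summable)]
  exact h M

theorem sum_le_NNr_G3 (M : ℕ) (P : ℝ[X]) (g : ℕ → ℝ) (h : ∀ m, m < M → P.coeff m = g m) :
    ∑ m ∈ Finset.range M, (1 + (m : ENNReal)) ^ 3 * ENNReal.ofReal |g m| ≤ NNr 3 P := by
  unfold NNr
  refine le_trans (le_of_eq ?_) (ENNReal.sum_le_tsum (Finset.range M))
  refine Finset.sum_congr rfl fun m hm => ?_
  rw [h m (Finset.mem_range.1 hm)]

theorem hG3 (hDH : StDiagH) (hCU : StCoefU) (hG : StGcoef) (hBox : StBox) : StG3 := by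
  classical
  obtain ⟨d₁, h⟩ := hDH
  refine ⟨d₁, fun d hd => ⟨?_, ?_⟩⟩
  · refine tsum_le_G3 _ _ fun M => ?_
    have hsub : ((Eb d M : Finset (Sym2 (Zd d))) : Set (Sym2 (Zd d))) ⊆ latE d :=
      (hBox d).2.2.2.2.2.2.2.2.1 (bx d M)
    refine le_trans (ENNReal.tsum_le_tsum fun x => ?_) (h d hd (Eb d M) hsub M 0)
    refine sum_le_NNr_G3 M _ (fun m => hm d (pH d) m x) fun m hm' => ?_
    have htr : trE 0 (Eb d m) ⊆ Eb d M := by
      intro e he
      unfold trE at he
      obtain ⟨e', he', rfl⟩ := Finset.mem_map.1 he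
      have h0 : ((Equiv.addLeft (0 : Zd d)).toEmbedding.sym2Map) e' = e' := by
        induction e' with
        | _ a b => simp [Function.Embedding.sym2Map]
      rw [h0]
      exact (hBox d).2.2.2.2.2.2.2.2.2.1 m M hm'.le he'
    have h1 := hG d (pH d) M m (Eb d M) 0 x hm'.le hsub htr
    rw [coeff_sub, h1, sub_zero]
    unfold hm
    congr 1
    by_cases hx : x = 0
    · rw [if_pos hx, coeff_one]
      simp [hx]
    · rw [if_neg hx, coeff_zero, if_neg (fun hh => hx hh.2)]
  · intro E hE v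
    refine tsum_le_G3 _ _ fun M => ?_
    refine le_trans (ENNReal.tsum_le_tsum fun x => ?_) (h d hd E hE M v)
    refine sum_le_NNr_G3 M _ (fun m => gL E (pH d) v x m - ind (m = 0 ∧ x = v)) fun m hm' => ?_
    rw [coeff_sub, hCU d E (pH d) M m v x hm'.le]
    unfold ind
    congr 1
    by_cases hx : x = v
    · rw [if_pos hx, coeff_one]
      simp [hx]
    · rw [if_neg hx, coeff_zero, if_neg (fun hh => hx hh.2)]

end Pool.NL
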