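import Pool.Agent.Helper22.NL.StM
import Pool.Agent.Helper84.LE.BGR

/-! # Project NL: module Grow (4.2) -/

set_option autoImplicit false

open scoped BigOperators ENNReal
open Pool.LE

namespace Pool.NL

section grow

variable {V : Type} [DecidableEq V]

/-- There is a sequence of `j` new members of `F`, starting from `A`, consecutive ones joined by an
edge of `η`. -/
private def QG (F : Finset (Finset V)) (η : Finset (Sym2 V)) :
    ℕ → Finset (Finset V) → Finset V → Prop
  | 0, _, _ => True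
  | j + 1, U, A => ∃ B ∈ F, B ∉ U ∧ jn η A B ∧ QG F η j (insert B U) B

private theorem QG_mono (F : Finset (Finset V)) {η η' : Finset (Sym2 V)} (h : η ⊆ η') :
    ∀ (j : ℕ) (U : Finset (Finset V)) (A : Finset V), QG F η j U A → QG F η' j U A := by
  intro j
  induction j with
  | zero => intro U A _; trivial
  | succ j ih =>
    rintro U A ⟨B, hB, hBU, ⟨u, hu, b, hb, hub⟩, hQ⟩
    exact ⟨B, hB, hBU, ⟨u, hu, b, hb, h hub⟩, ih _ _ hQ⟩

/-- members of `F` are clusters -/
private def IsCl (L : Finset V) (ω : Finset (Sym2 V)) (m : ℕ) (A : Finset V) : Prop :=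
  (∀ x ∈ A, ∀ y ∈ A, con ω x y) ∧ A ⊆ L ∧ m ≤ A.card

private theorem QG_family {L : Finset V} {ω η : Finset (Sym2 V)} {m : ℕ}
    {F : Finset (Finset V)} (hF : ∀ A ∈ F, IsCl L ω m A) :
    ∀ (j : ℕ) (U : Finset (Finset V)) (A : Finset V), A ∈ F → A ∈ U → QG F η j U A →
      ∃ G : Finset (Finset V), G ⊆ F ∧ G.card = j + 1 ∧ A ∈ G ∧ (∀ C ∈ G, C ≠ A → C ∉ U) ∧
        ∀ C ∈ G, ∀ y ∈ C, ∀ x ∈ A, con (ω ∪ η) x y := by
  intro j
  induction j with
  | zero =>
    intro U A hA hAU _
    refine ⟨{A}, Finset.singleton_subset_iff.2 hA, by simp, Finset.mem_singleton_self A, ?_, ?_⟩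
    · intro C hC hCA
      exact absurd (Finset.mem_singleton.1 hC) hCA
    · intro C hC y hy x hx
      rw [Finset.mem_singleton.1 hC] at hy
      exact con_mono Finset.subset_union_left ((hF A hA).1 x hx y hy)
  | succ j ih =>
    rintro U A hA hAU ⟨B, hB, hBU, ⟨u, hu, b, hb, hub⟩, hQ⟩
    obtain ⟨G, hGF, hGc, hBG, hGU, hGcon⟩ := ih (insert B U) B hB (Finset.mem_insert_self B U) hQ
    have hAB : A ≠ B := by rintro rfl; exact hBU hAU
    have hAG : A ∉ G := by
      intro h
      exact hGU A h hAB (Finset.mem_insert_of_mem hAU)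
    refine ⟨insert A G, Finset.insert_subset hA hGF, by rw [Finset.card_insert_of_notMem hAG, hGc],
      Finset.mem_insert_self A G, ?_, ?_⟩
    · intro C hC hCA
      rcases Finset.mem_insert.1 hC with h | h
      · exact absurd h hCA
      · by_cases hCB : C = B
        · rw [hCB]; exact hBU
        · exact fun hCU => hGU C h hCB (Finset.mem_insert_of_mem hCU)
    · intro C hC y hy x hx
      rcases Finset.mem_insert.1 hC with h | h
      · rw [h] at hy
        exact con_mono Finset.subset_union_left ((hF A hA).1 x hx y hy)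
      · have h1 : con (ω ∪ η) x u := con_mono Finset.subset_union_left ((hF A hA).1 x hx u hu)
        have h2 : con (ω ∪ η) u b := con_of_mem (Finset.mem_union_right _ hub)
        exact con_trans h1 (con_trans h2 (hGcon C h y hy b hb))

private theorem ind_mono {A B : Prop} (h : A → B) : ind A ≤ ind B := by
  unfold ind
  by_cases hA : A
  · rw [if_pos hA, if_pos (h hA)]
  · rw [if_neg hA]
    split_ifs <;> norm_num

private theorem ind_nonneg (A : Prop) : 0 ≤ ind A := by
  unfold ind
  split_ifs <;> norm_num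

/-- one step of the exploration -/
private theorem step_aux (hE : StEdge) (hB : StBasic) {δ r : ℝ} (h0 : 0 ≤ δ) (h1 : δ ≤ 1)
    (hr : 0 ≤ r) (K : Finset (Sym2 V)) (ed : Finset V → Sym2 V)
    (R : Finset V → Finset (Sym2 V) → Prop)
    (hRm : ∀ B (η η' : Finset (Sym2 V)), η ⊆ η' → R B η → R B η') (N : Finset (Finset V))
    (hK : ∀ B ∈ N, ed B ∉ K) (hinj : ∀ B ∈ N, ∀ B' ∈ N, ed B = ed B' → B = B')
    (hR : ∀ B ∈ N, ∀ E' : Finset (Sym2 V), K ⊆ E' → r ≤ ex E' δ (fun η => ind (R B η))) :
    ∀ M : Finset (Finset V), M ⊆ N → ∀ E' : Finset (Sym2 V), K ⊆ E' → (∀ B ∈ M, ed B ∈ E') →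
      (1 - (1 - δ) ^ M.card) * r ≤ ex E' δ (fun η => ind (∃ B ∈ M, ed B ∈ η ∧ R B η)) := by
  classical
  intro M
  induction M using Finset.induction_on with
  | empty =>
    intro _ E' _ _
    have h := (hB V E' δ h0 h1).1 (fun _ => 0)
      (fun η => ind (∃ B ∈ (∅ : Finset (Finset V)), ed B ∈ η ∧ R B η)) (fun η _ => ind_nonneg _)
    rw [(hB V E' δ h0 h1).2.1 0] at h
    simpa using h
  | insert B M hBM ih =>
    intro hMN E' hKE hed
    have hBN : B ∈ N := hMN (Finset.mem_insert_self B M)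
    have hMN' : M ⊆ N := fun C hC => hMN (Finset.mem_insert_of_mem hC)
    have hmem : ed B ∈ E' := hed B (Finset.mem_insert_self B M)
    have hKE' : K ⊆ E'.erase (ed B) := by
      intro e he
      refine Finset.mem_erase.2 ⟨?_, hKE he⟩
      rintro rfl
      exact hK B hBN he
    have hed' : ∀ C ∈ M, ed C ∈ E'.erase (ed B) := by
      intro C hC
      refine Finset.mem_erase.2 ⟨?_, hed C (Finset.mem_insert_of_mem hC)⟩
      intro h
      have := hinj C (hMN' hC) B hBN h
      rw [this] at hC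
      exact hBM hC
    have i1 := ih hMN' (E'.erase (ed B)) hKE' hed'
    have i2 := hR B hBN (E'.erase (ed B)) hKE'
    have e1 := (hE V E' δ (ed B)
      (fun η => ind (∃ C ∈ insert B M, ed C ∈ η ∧ R C η)) hmem).1
    have m1 : ex (E'.erase (ed B)) δ (fun η => ind (R B η)) ≤
        ex (E'.erase (ed B)) δ
          (fun η => ind (∃ C ∈ insert B M, ed C ∈ insert (ed B) η ∧ R C (insert (ed B) η))) := by
      refine (hB V _ δ h0 h1).1 _ _ fun η _ => ind_mono fun h => ?_
      exact ⟨B, Finset.mem_insert_self B M, Finset.mem_insert_self _ _,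
        hRm B _ _ (Finset.subset_insert _ _) h⟩
    have m2 : ex (E'.erase (ed B)) δ (fun η => ind (∃ C ∈ M, ed C ∈ η ∧ R C η)) ≤
        ex (E'.erase (ed B)) δ (fun η => ind (∃ C ∈ insert B M, ed C ∈ η ∧ R C η)) := by
      refine (hB V _ δ h0 h1).1 _ _ fun η _ => ind_mono fun h => ?_
      obtain ⟨C, hC, hC'⟩ := h
      exact ⟨C, Finset.mem_insert_of_mem hC, hC'⟩
    rw [e1, Finset.card_insert_of_notMem hBM, pow_succ]
    have a1 : δ * r ≤ δ * ex (E'.erase (ed B)) δ
          (fun η => ind (∃ C ∈ insert B M, ed C ∈ insert (ed B) η ∧ R C (insert (ed B) η))) :=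
      mul_le_mul_of_nonneg_left (i2.trans m1) h0
    have a2 : (1 - δ) * ((1 - (1 - δ) ^ M.card) * r) ≤ (1 - δ) *
        ex (E'.erase (ed B)) δ (fun η => ind (∃ C ∈ insert B M, ed C ∈ η ∧ R C η)) :=
      mul_le_mul_of_nonneg_left (i1.trans m2) (by linarith)
    nlinarith

end grow

theorem hGrow (hE : StEdge) (hB : StBasic) (hClu : StClu) : StGrow := by
  intro V _ L E ω D m δ hFG hω hm h0 h1 F k' hFb hdeg k hk A₀ hA₀ x₀ hx₀
  classical
  have hC := hClu V L E ω D hFG hω
  -- members of `F` are clusters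
  have hcl : ∀ A ∈ F, ∃ z ∈ L, m ≤ Xc L ω z ∧ clu L ω z = A := by
    intro A hA
    have h := hFb hA
    unfold big at h
    rw [Finset.mem_image] at h
    obtain ⟨z, hz, hz'⟩ := h
    rw [Finset.mem_filter] at hz
    exact ⟨z, hz.1, hz.2, hz'⟩
  have hF : ∀ A ∈ F, IsCl L ω m A := by
    intro A hA
    obtain ⟨z, hz, hzm, rfl⟩ := hcl A hA
    refine ⟨?_, ?_, hzm⟩
    · intro x hx y hy
      unfold clu at hx hy
      exact con_trans (con_symm (Finset.mem_filter.1 hx).2) (Finset.mem_filter.1 hy).2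
    · unfold clu
      exact Finset.filter_subset _ _
  have hdisj : ∀ A ∈ F, ∀ B ∈ F, A ≠ B → Disjoint A B := by
    intro A hA B hB' hAB
    obtain ⟨z, hz, hzm, rfl⟩ := hcl A hA
    obtain ⟨w, hw, hwm, rfl⟩ := hcl B hB'
    refine hC.2.2.1 z w fun hcon => hAB (hC.2.1 z w hcon).1
  set r₀ : ℝ := 1 - (1 - δ) ^ (k' - k) with hr₀
  have hq0 : 0 ≤ 1 - δ := by linarith
  have hq1 : 1 - δ ≤ 1 := by linarith
  have hr0 : 0 ≤ r₀ := by
    have := pow_le_one₀ (n := k' - k) hq0 hq1
    linarith
  -- the main estimate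
  have key : ∀ (j : ℕ) (U : Finset (Finset V)) (A : Finset V), A ∈ U → U ⊆ F →
      U.card + j ≤ k + 1 → ∀ E' : Finset (Sym2 V),
      (∀ e ∈ E, (∀ v ∈ e, ∀ C ∈ U, C ≠ A → v ∉ C) → e ∈ E') →
        r₀ ^ j ≤ ex E' δ (fun η => ind (QG F η j U A)) := by
    intro j
    induction j with
    | zero =>
      intro U A _ _ _ E' _
      have h := (hB V E' δ h0 h1).2.1 1
      have e : (fun η : Finset (Sym2 V) => ind (QG F η 0 U A)) = fun _ => (1 : ℝ) := by
        funext η
        unfold ind QG
        simp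
      rw [e, h, pow_zero]
    | succ j ih =>
      intro U A hAU hUF hcard E' hE'
      have hAF : A ∈ F := hUF hAU
      set N : Finset (Finset V) := F.filter (fun B => B ∉ U ∧ jn E A B) with hN
      have hNcard : k' - k ≤ N.card := by
        have h2 := hdeg A hAF
        have h3 : F.filter (fun B => B ≠ A ∧ jn E A B) ⊆ N ∪ U.erase A := by
          intro B hB'
          rw [Finset.mem_filter] at hB'
          by_cases hBU : B ∈ U
          · exact Finset.mem_union_right _ (Finset.mem_erase.2 ⟨hB'.2.1, hBU⟩)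
          · exact Finset.mem_union_left _ (Finset.mem_filter.2 ⟨hB'.1, hBU, hB'.2.2⟩)
        have h4 := (Finset.card_le_card h3).trans (Finset.card_union_le _ _)
        rw [Finset.card_erase_of_mem hAU] at h4
        have h2' : k' ≤ (F.filter (fun B => B ≠ A ∧ jn E A B)).card := by
          convert h2 using 2
        omega
      -- the chosen edges
      have hch : ∀ B : Finset V, ∃ e : Sym2 V, B ∈ N →
          e ∈ E ∧ ∃ u ∈ A, ∃ b ∈ B, e = s(u, b) := by
        intro B
        by_cases hBN : B ∈ N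
        · obtain ⟨u, hu, b, hb, hub⟩ := (Finset.mem_filter.1 hBN).2.2
          exact ⟨s(u, b), fun _ => ⟨hub, u, hu, b, hb, rfl⟩⟩
        · by_cases hne : Nonempty V
          · obtain ⟨v⟩ := hne
            exact ⟨s(v, v), fun h => absurd h hBN⟩
          · obtain ⟨z, hz, -⟩ := hcl A hAF
            exact absurd ⟨z⟩ hne
      choose ed hed using hch
      set K : Finset (Sym2 V) := E.filter (fun e => ∀ v ∈ e, ∀ C ∈ U, v ∉ C) with hK
      have hedK : ∀ B ∈ N, ed B ∉ K := by
        intro B hBN h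
        obtain ⟨-, u, hu, b, hb, he⟩ := hed B hBN
        exact (Finset.mem_filter.1 h).2 u (by rw [he]; exact Sym2.mem_mk_left u b) A hAU hu
      have hinj : ∀ B ∈ N, ∀ B' ∈ N, ed B = ed B' → B = B' := by
        intro B hBN B' hBN' h
        obtain ⟨-, u, hu, b, hb, he⟩ := hed B hBN
        obtain ⟨-, u', hu', b', hb', he'⟩ := hed B' hBN'
        rw [he, he', Sym2.eq_iff] at h
        have hBF := (Finset.mem_filter.1 hBN).1
        have hBF' := (Finset.mem_filter.1 hBN').1
        by_contra hne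
        rcases h with ⟨-, h⟩ | ⟨h, h'⟩
        · rw [← h] at hb'
          exact (Finset.disjoint_left.1 (hdisj B hBF B' hBF' hne)) hb hb'
        · rw [← h] at hb'
          have hAB : A ≠ B' := by
            rintro rfl
            exact (Finset.mem_filter.1 hBN').2.1 hAU
          exact (Finset.disjoint_left.1 (hdisj A hAF B' hBF' hAB)) hu hb'
      have hR : ∀ B ∈ N, ∀ E'' : Finset (Sym2 V), K ⊆ E'' →
          r₀ ^ j ≤ ex E'' δ (fun η => ind (QG F η j (insert B U) B)) := by
        intro B hBN E'' hKE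
        obtain ⟨hBF, hBU, -⟩ := Finset.mem_filter.1 hBN
        refine ih (insert B U) B (Finset.mem_insert_self B U) (Finset.insert_subset hBF hUF) ?_
          E'' ?_
        · rw [Finset.card_insert_of_notMem hBU]; omega
        · intro e he hv
          refine hKE (Finset.mem_filter.2 ⟨he, fun v hve C hCU => ?_⟩)
          exact hv v hve C (Finset.mem_insert_of_mem hCU) (by rintro rfl; exact hBU hCU)
      have hKE' : K ⊆ E' := by
        intro e he
        obtain ⟨heE, hev⟩ := Finset.mem_filter.1 he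
        exact hE' e heE fun v hve C hCU _ => hev v hve C hCU
      have hedE' : ∀ B ∈ N, ed B ∈ E' := by
        intro B hBN
        obtain ⟨heE, u, hu, b, hb, he⟩ := hed B hBN
        obtain ⟨hBF, hBU, -⟩ := Finset.mem_filter.1 hBN
        refine hE' _ heE fun v hve C hCU hCA hvC => ?_
        rw [he, Sym2.mem_iff] at hve
        rcases hve with rfl | rfl
        · exact (Finset.disjoint_left.1 (hdisj C (hUF hCU) A hAF hCA)) hvC hu
        · have hCB : C ≠ B := by rintro rfl; exact hBU hCU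
          exact (Finset.disjoint_left.1 (hdisj C (hUF hCU) B hBF hCB)) hvC hb
      have hmain := step_aux hE hB h0 h1 (pow_nonneg hr0 j) K ed
        (fun B η => QG F η j (insert B U) B)
        (fun B η η' h hQ => QG_mono F h j _ _ hQ) N hedK hinj hR N (Finset.Subset.refl N) E' hKE'
        hedE'
      have hmono : ex E' δ (fun η => ind (∃ B ∈ N, ed B ∈ η ∧ QG F η j (insert B U) B)) ≤
          ex E' δ (fun η => ind (QG F η (j + 1) U A)) := by
        refine (hB V E' δ h0 h1).1 _ _ fun η _ => ind_mono ?_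
        rintro ⟨B, hBN, heη, hQ⟩
        obtain ⟨hBF, hBU, -⟩ := Finset.mem_filter.1 hBN
        obtain ⟨-, u, hu, b, hb, he⟩ := hed B hBN
        rw [he] at heη
        exact ⟨B, hBF, hBU, ⟨u, hu, b, hb, heη⟩, hQ⟩
      refine le_trans ?_ (hmain.trans hmono)
      have hpow : (1 - δ) ^ N.card ≤ (1 - δ) ^ (k' - k) := pow_le_pow_of_le_one hq0 hq1 hNcard
      rw [pow_succ, mul_comm (r₀ ^ j)]
      refine mul_le_mul_of_nonneg_right ?_ (pow_nonneg hr0 j)
      rw [hr₀]; linarith
  have h2 := key k {A₀} A₀ (Finset.mem_singleton_self A₀) (Finset.singleton_subset_iff.2 hA₀)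
    (by rw [Finset.card_singleton, add_comm]) E (fun e he _ => he)
  refine h2.trans ((hB V E δ h0 h1).1 _ _ fun η hη => ind_mono fun hQ => ?_)
  obtain ⟨G, hGF, hGc, hAG, -, hGcon⟩ := QG_family (η := η) hF k {A₀} A₀ hA₀
    (Finset.mem_singleton_self A₀) hQ
  have hsub : G.biUnion id ⊆ clu L (ω ∪ η) x₀ := by
    intro y hy
    rw [Finset.mem_biUnion] at hy
    obtain ⟨C, hCG, hyC⟩ := hy
    unfold clu
    exact Finset.mem_filter.2 ⟨(hF C (hGF hCG)).2.1 hyC, hGcon C hCG y hyC x₀ hx₀⟩
  have hcardU : (k + 1) * m ≤ (G.biUnion id).card := by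
    have hpd : ∀ A ∈ G, ∀ B ∈ G, A ≠ B → Disjoint (id A) (id B) :=
      fun A hA B hB' hAB => hdisj A (hGF hA) B (hGF hB') hAB
    rw [Finset.card_biUnion hpd]
    calc (k + 1) * m = ∑ _C ∈ G, m := by rw [Finset.sum_const, hGc, smul_eq_mul]
      _ ≤ ∑ C ∈ G, (id C).card := Finset.sum_le_sum fun C hCG => (hF C (hGF hCG)).2.2
  exact hcardU.trans (Finset.card_le_card hsub)

end Pool.NL
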