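import Pool.Agent.Helper22.NL.StZ
import Pool.Agent.Helper84.LE.BGR

/-! # Project NL, module Heq: the finite volume identity summed over the box -/

set_option autoImplicit false

open scoped BigOperators ENNReal Topology
open Pool.LE

namespace Pool.NL

theorem hHeq (hFin : StFin) (hBn : StBn) (_hHh : StHh) (hBox : StBox) : StHeq := by
  classical
  intro d n p hp0 hp1 hG v _hv
  obtain ⟨-, -, hlat, -, -⟩ := hBn d n
  have hES := (hBox d).2.2.2.2.2.2.2.1
  have hsym := (hBox d).2.2.2.1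
  have h1 : hh (Bn d n) (ES (Bn d n)) p v = ∑ x ∈ Bn d n, (gT (ES (Bn d n)) p v x +
      ∑ ub ∈ drt (ES (Bn d n)), gT (ES (Bn d n)) p v ub.1 * p * cp (ES (Bn d n)) p ub.2 x) := by
    unfold hh
    exact Finset.sum_congr rfl fun x _ => (hFin d (ES (Bn d n)) p hp0 hp1 hlat hG v x).2.2.2
  have h2 : ∑ x ∈ Bn d n, ∑ ub ∈ drt (ES (Bn d n)),
      gT (ES (Bn d n)) p v ub.1 * p * cp (ES (Bn d n)) p ub.2 x =
      ∑ ub ∈ drt (ES (Bn d n)), gT (ES (Bn d n)) p v ub.1 * p *
        hh (Bn d n) (ES (Bn d n)) p ub.2 := by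
    rw [Finset.sum_comm]
    refine Finset.sum_congr rfl fun ub _ => ?_
    unfold hh
    rw [Finset.mul_sum]
  have h3 : ∑ ub ∈ drt (ES (Bn d n)), gT (ES (Bn d n)) p v ub.1 * p *
        hh (Bn d n) (ES (Bn d n)) p ub.2 =
      ∑ b ∈ Bn d n, ∑ u ∈ (nb b).filter (fun u => s(u, b) ∈ ES (Bn d n)),
        gT (ES (Bn d n)) p v u * p * hh (Bn d n) (ES (Bn d n)) p b := by
    refine Finset.sum_finset_product_right (drt (ES (Bn d n))) (Bn d n)
      (fun b => (nb b).filter (fun u => s(u, b) ∈ ES (Bn d n))) ?_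
    intro q
    rw [mem_drt', Finset.mem_filter]
    constructor
    · intro h
      have h4 := (hES (Bn d n) q.1 q.2).1 h
      exact ⟨h4.2.1, (hsym q.1 q.2).1 h4.2.2, h⟩
    · intro h
      exact h.2.2
  rw [h1, Finset.sum_add_distrib, h2, h3]
  congr 1
  refine Finset.sum_congr rfl fun b _ => ?_
  unfold FL
  rw [Finset.sum_mul, Finset.sum_filter]
  refine Finset.sum_congr rfl fun u _ => ?_
  split_ifs
  · rfl
  · rw [zero_mul]

end Pool.NL
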