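import Pool.Agent.Helper22.NL.StM
import Pool.Agent.Helper84.LE.BWT

set_option autoImplicit false

open scoped BigOperators ENNReal
open Pool.LE

namespace Pool.NL

private theorem ind_congr_Hh {A B : Prop} (h : A ↔ B) : ind A = ind B := by
  rw [propext h]

theorem hHh (hB : StBasic) (hC : StClu) : StHh := by
  intro V _ L E D p hFG h0 h1
  obtain ⟨-, hconst, -, -, -, hsum, hpr, -, -, -⟩ := hB V E p h0 h1
  have hcong : ∀ f g : Finset (Sym2 V) → ℝ, (∀ ω, ω ⊆ E → f ω = g ω) → ex E p f = ex E p g :=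
    fun f g h => Ex_congr h
  have hself : ∀ x, cp E p x x = 1 := by
    intro x
    have h2 : cp E p x x = ex E p (fun _ => (1 : ℝ)) := by
      refine hcong _ _ fun ω _ => ?_
      have h3 : con ω x x := SimpleGraph.Reachable.refl x
      unfold ind
      exact if_pos h3
    rw [h2, hconst]
  refine ⟨?_, ?_, hself, ?_, ?_⟩
  · intro x
    have h2 : ex E p (fun ω => (Xc L ω x : ℝ)) = ex E p (fun ω => ∑ y ∈ L, ind (con ω x y)) :=
      hcong _ _ fun ω hω => (hC V L E ω D hFG hω).2.2.2.2.2.1 x
    rw [h2, hsum V L (fun y ω => ind (con ω x y))]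
    rfl
  · intro x y
    refine ⟨?_, (hpr _).1, (hpr _).2.1⟩
    refine hcong _ _ fun ω _ => ind_congr_Hh ?_
    exact ⟨fun h => SimpleGraph.Reachable.symm h, fun h => SimpleGraph.Reachable.symm h⟩
  · intro x y hx hy
    have h2 : cp E p x y = ex E p (fun _ => (0 : ℝ)) := by
      refine hcong _ _ fun ω hω => ?_
      have h3 : ¬ con ω x y := fun h => hy ((hC V L E ω D hFG hω).2.2.2.1 x y hx h)
      unfold ind
      exact if_neg h3
    rw [h2, hconst]
  · intro x hx
    unfold hh
    rw [← hself x]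
    exact Finset.single_le_sum (f := fun y => cp E p x y) (fun y _ => (hpr _).1) hx

end Pool.NL
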