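import Pool.Agent.Helper22.NL.StZ

/-! # Project NL: module Hub (`h ≤ C n²`) -/

set_option autoImplicit false

open scoped BigOperators
open Pool.LE

namespace Pool.NL

theorem hHub (hCT : StCpTau) (hBn : StBn) (hTB : StTauBasic) : StHub := by
  intro d C₁ B c₀ hE n hn x hx
  have h0 : 0 ≤ pH d := hE.p0.le
  have h1 : pH d ≤ 1 := hE.p1.trans (by norm_num)
  have hpos : ∀ y, 0 ≤ tau d (pH d) y := fun y => ((hTB d (pH d) h0 h1).2.2.2.2 y).1
  calc hh (Bn d n) (ES (Bn d n)) (pH d) x = ∑ y ∈ Bn d n, cp (ES (Bn d n)) (pH d) x y := rfl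
    _ ≤ ∑ y ∈ Bn d n, tau d (pH d) (y - x) :=
        Finset.sum_le_sum fun y _ => hCT d n (pH d) x y h0 h1
    _ = ∑ w ∈ (Bn d n).image (fun y => y - x), tau d (pH d) w := by
        rw [Finset.sum_image]
        intro a _ b _ hab
        exact sub_left_injective hab
    _ ≤ ∑ w ∈ bx d n, tau d (pH d) w := by
        refine Finset.sum_le_sum_of_subset_of_nonneg ?_ fun w _ _ => hpos w
        intro w hw
        obtain ⟨y, hy, rfl⟩ := Finset.mem_image.1 hw
        exact (hBn d n).2.2.2.2 x hx y hy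
    _ ≤ C₁ * (n : ℝ) ^ 2 := hE.A1 n hn

end Pool.NL
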