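import Pool.Agent.Helper22.NL.StM
import Pool.Agent.Helper84.LE.BKP

/-! # Project NL, module InsS: product rule for the insertion of a mark -/

set_option autoImplicit false

open scoped BigOperators ENNReal
open Pool.LE

namespace Pool.NL

theorem insS_comb {A a' a B b' b ρ : ENNReal} (h1 : A + ρ * a' ≤ ρ * a) (h2 : B + ρ * b' ≤ ρ * b)
    (hb : b' ≤ b) : A * b' + a' * B + ρ * (a' * b') ≤ ρ * (a * b) := by
  calc A * b' + a' * B + ρ * (a' * b') = A * b' + a' * (B + ρ * b') := by ring
    _ ≤ A * b + a' * (ρ * b) := add_le_add (mul_le_mul' le_rfl hb) (mul_le_mul' le_rfl h2)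
    _ = (A + ρ * a') * b := by ring
    _ ≤ (ρ * a) * b := mul_le_mul' h1 le_rfl
    _ = ρ * (a * b) := by ring

section

variable {V : Type} [DecidableEq V] {S S' : V → V → ENNReal} {ρ : ENNReal}

theorem insS_word (h1 : ∀ a b, S' a b ≤ S a b)
    (h2 : ∀ a b, ∑' z, S' a z * S' z b + ρ * S' a b ≤ ρ * S a b) (x : V) (l : List V) (y : V) :
    ∑' z : V, ((List.permutations'Aux z l).map (fun l' => cw S' x l' y)).sum + ρ * cw S' x l y ≤
      ρ * cw S x l y := by
  induction l generalizing x with
  | nil =>
    simp only [List.permutations'Aux, List.map_cons, List.map_nil, List.sum_cons, List.sum_nil,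
      cw, add_zero]
    exact h2 x y
  | cons a l ih =>
    have h3 : ∀ z : V, ((List.permutations'Aux z (a :: l)).map (fun l' => cw S' x l' y)).sum =
        S' x z * S' z a * cw S' a l y +
          S' x a * ((List.permutations'Aux z l).map (fun l' => cw S' a l' y)).sum := by
      intro z
      rw [List.permutations'Aux, List.map_cons, List.sum_cons, List.map_map]
      congr 1
      · show S' x z * (S' z a * cw S' a l y) = _
        rw [mul_assoc]
      · rw [← List.sum_map_mul_left]
        rfl
    rw [tsum_congr h3, ENNReal.tsum_add, ENNReal.tsum_mul_right, ENNReal.tsum_mul_left]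
    exact insS_comb (h2 x a) (ih a) (cw_mono h1 a l y)

theorem insS_lsum {α : Type} (l : List α) (f g h : α → ENNReal)
    (H : ∀ a ∈ l, f a + ρ * g a ≤ ρ * h a) :
    (l.map f).sum + ρ * (l.map g).sum ≤ ρ * (l.map h).sum := by
  induction l with
  | nil => simp
  | cons a l ih =>
    rw [List.map_cons, List.map_cons, List.map_cons, List.sum_cons, List.sum_cons, List.sum_cons]
    have h3 := H a List.mem_cons_self
    have h4 := ih (fun b hb => H b (List.mem_cons_of_mem a hb))
    calc f a + (l.map f).sum + ρ * (g a + (l.map g).sum)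
        = (f a + ρ * g a) + ((l.map f).sum + ρ * (l.map g).sum) := by ring
      _ ≤ ρ * h a + ρ * (l.map h).sum := add_le_add h3 h4
      _ = ρ * (h a + (l.map h).sum) := by ring

theorem insS_chain (h1 : ∀ a b, S' a b ≤ S a b)
    (h2 : ∀ a b, ∑' z, S' a z * S' z b + ρ * S' a b ≤ ρ * S a b) (x : V) (M : List V) (y : V) :
    ∑' z : V, cm S' (x, z :: M, y) + ρ * cm S' (x, M, y) ≤ ρ * cm S (x, M, y) := by
  have h3 : ∀ z : V, cm S' (x, z :: M, y) =
      (M.permutations'.map (fun l =>
        ((List.permutations'Aux z l).map (fun l' => cw S' x l' y)).sum)).sum := by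
    intro z
    rw [bkp_cm_eq, List.permutations', bkp_sum_flatMap_map]
  rw [tsum_congr h3, bkp_tsum_list_sum, bkp_cm_eq, bkp_cm_eq]
  exact insS_lsum _ _ _ _ fun l _ => insS_word h1 h2 x l y

end

theorem hInsS : StInsS := by
  intro V _ S S' ρ h1 h2 L
  induction L with
  | nil => simp [ins, cmL]
  | cons c L ih =>
    have h3 : ∀ z : V, ((ins z (c :: L)).map (cmL S')).sum =
        cm S' (c.1, z :: c.2.1, c.2.2) * cmL S' L + cm S' c * ((ins z L).map (cmL S')).sum := by
      intro z
      rw [ins, List.map_cons, List.sum_cons, cmL_cons, List.map_map, ← List.sum_map_mul_left]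
      congr 2
    rw [tsum_congr h3, ENNReal.tsum_add, ENNReal.tsum_mul_right, ENNReal.tsum_mul_left, cmL_cons,
      cmL_cons]
    exact insS_comb (insS_chain h1 h2 c.1 c.2.1 c.2.2) ih (cmL_mono h1 L)

end Pool.NL
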