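import Pool.Agent.Helper22.NL.StM
import Pool.Agent.Helper84.LE.BKP

set_option autoImplicit false

open scoped BigOperators ENNReal
open Pool.LE

namespace Pool.NL

section Ker

variable {V : Type} [DecidableEq V]

theorem ker_real {l l' : ℝ} (h0 : 0 ≤ l') (h : l' ≤ l) (n : ℕ) :
    (n + 1) * l' ^ n * (l - l') ≤ l ^ (n + 1) - l' ^ (n + 1) := by
  induction n with
  | zero => simp
  | succ n ih =>
    have h1 : 0 ≤ l := h0.trans h
    have h2 : 0 ≤ l - l' := sub_nonneg.2 h
    have h3 : 0 ≤ l' ^ n := pow_nonneg h0 n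
    have h4 : 0 ≤ l ^ (n + 1) - l' ^ (n + 1) :=
      sub_nonneg.2 (pow_le_pow_left₀ h0 h _)
    have h5 : l' * (l ^ (n + 1) - l' ^ (n + 1)) ≤ l * (l ^ (n + 1) - l' ^ (n + 1)) :=
      mul_le_mul_of_nonneg_right h h4
    have h6 : l' * ((n + 1) * l' ^ n * (l - l')) ≤ l' * (l ^ (n + 1) - l' ^ (n + 1)) :=
      mul_le_mul_of_nonneg_left ih h0
    have e1 : l ^ (n + 1 + 1) - l' ^ (n + 1 + 1)
        = l * (l ^ (n + 1) - l' ^ (n + 1)) + l' ^ (n + 1) * (l - l') := by ring
    have e2 : ((n + 1 : ℕ) + 1 : ℝ) * l' ^ (n + 1) * (l - l')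
        = l' * ((n + 1) * l' ^ n * (l - l')) + l' ^ (n + 1) * (l - l') := by
      push_cast; ring
    rw [e1, e2]
    linarith

/-- row sums of the powers -/
theorem ker_row {T : V → V → ENNReal} {c : ENNReal} (hT : ∀ x, ∑' y, T x y ≤ c) (n : ℕ) :
    ∀ x, ∑' y, kp T (n + 1) x y ≤ c ^ (n + 1) := by
  induction n with
  | zero => intro x; simpa [kp_one] using hT x
  | succ n ih =>
    intro x
    rw [kp_add T (n + 1) 1, kp_one]
    unfold kc
    rw [ENNReal.tsum_comm]
    calc ∑' z, ∑' y, kp T (n + 1) x z * T z y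
        = ∑' z, kp T (n + 1) x z * ∑' y, T z y :=
          tsum_congr fun z => ENNReal.tsum_mul_left
      _ ≤ ∑' z, kp T (n + 1) x z * c :=
          ENNReal.tsum_le_tsum fun z => mul_le_mul_right (hT z) _
      _ = (∑' z, kp T (n + 1) x z) * c := ENNReal.tsum_mul_right
      _ ≤ c ^ (n + 1) * c := mul_le_mul_left (ih x) _
      _ = c ^ (n + 1 + 1) := (pow_succ _ _).symm

end Ker

theorem hKer : StKer := by
  intro V _ T χ hχ hT
  have hχ0 : 0 < χ := by linarith
  refine ⟨fun l a b => ∑' j : ℕ, ENNReal.ofReal (l ^ j) * kp T (j + 1) a b, ?_, ?_, ?_⟩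
  · intro a b
    show ∑' j : ℕ, ENNReal.ofReal ((0 : ℝ) ^ j) * kp T (j + 1) a b = T a b
    rw [tsum_eq_single 0]
    · simp [kp_one]
    · intro j hj
      rw [zero_pow hj, ENNReal.ofReal_zero, zero_mul]
  · intro l hl0 hl x
    show ∑' y, ∑' j : ℕ, ENNReal.ofReal (l ^ j) * kp T (j + 1) x y ≤ _
    rw [ENNReal.tsum_comm]
    have h1 : ∀ j : ℕ, ∑' y, ENNReal.ofReal (l ^ j) * kp T (j + 1) x y
        ≤ ENNReal.ofReal χ * (ENNReal.ofReal (1 / 2)) ^ j := by
      intro j
      rw [ENNReal.tsum_mul_left]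
      calc ENNReal.ofReal (l ^ j) * ∑' y, kp T (j + 1) x y
          ≤ ENNReal.ofReal (l ^ j) * (ENNReal.ofReal χ) ^ (j + 1) :=
            mul_le_mul_right (ker_row hT j x) _
        _ = ENNReal.ofReal (l ^ j * χ ^ (j + 1)) := by
            rw [← ENNReal.ofReal_pow hχ0.le, ← ENNReal.ofReal_mul (pow_nonneg hl0 _)]
        _ ≤ ENNReal.ofReal (χ * (1 / 2) ^ j) := by
            apply ENNReal.ofReal_le_ofReal
            have h2 : l * χ ≤ 1 / 2 := by
              rw [le_div_iff₀ (by positivity)] at hl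
              linarith
            have h3 : (l * χ) ^ j ≤ (1 / 2) ^ j := pow_le_pow_left₀ (by positivity) h2 _
            calc l ^ j * χ ^ (j + 1) = χ * (l * χ) ^ j := by rw [mul_pow]; ring
              _ ≤ χ * (1 / 2) ^ j := mul_le_mul_of_nonneg_left h3 hχ0.le
        _ = _ := by
            rw [ENNReal.ofReal_mul hχ0.le, ENNReal.ofReal_pow (by norm_num)]
    calc ∑' j : ℕ, ∑' y, ENNReal.ofReal (l ^ j) * kp T (j + 1) x y
        ≤ ∑' j : ℕ, ENNReal.ofReal χ * (ENNReal.ofReal (1 / 2)) ^ j := ENNReal.tsum_le_tsum h1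
      _ = ENNReal.ofReal χ * (1 - ENNReal.ofReal (1 / 2))⁻¹ := by
          rw [ENNReal.tsum_mul_left, ENNReal.tsum_geometric]
      _ = ENNReal.ofReal (2 * χ) := by
          have h4 : (1 : ENNReal) - ENNReal.ofReal (1 / 2) = ENNReal.ofReal (1 / 2) := by
            rw [← ENNReal.ofReal_one, ← ENNReal.ofReal_sub _ (by norm_num)]
            norm_num
          rw [h4, ← ENNReal.ofReal_inv_of_pos (by norm_num), ← ENNReal.ofReal_mul hχ0.le]
          congr 1
          ring
  · intro l l' h0 hl a b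
    refine ⟨?_, ?_⟩
    · refine ENNReal.tsum_le_tsum fun j => mul_le_mul_left ?_ _
      exact ENNReal.ofReal_le_ofReal (pow_le_pow_left₀ h0 hl.le _)
    · show ∑' z, (∑' j : ℕ, ENNReal.ofReal (l' ^ j) * kp T (j + 1) a z) *
          (∑' j : ℕ, ENNReal.ofReal (l' ^ j) * kp T (j + 1) z b)
          + ENNReal.ofReal (1 / (l - l')) * ∑' j : ℕ, ENNReal.ofReal (l' ^ j) * kp T (j + 1) a b
          ≤ ENNReal.ofReal (1 / (l - l')) * ∑' j : ℕ, ENNReal.ofReal (l ^ j) * kp T (j + 1) a b
      have hd : 0 < l - l' := sub_pos.2 hl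
      -- the product
      have h1 : ∑' z, (∑' j : ℕ, ENNReal.ofReal (l' ^ j) * kp T (j + 1) a z) *
          (∑' j : ℕ, ENNReal.ofReal (l' ^ j) * kp T (j + 1) z b)
          = ∑' n : ℕ, ((n + 1 : ℕ) : ENNReal) * (ENNReal.ofReal (l' ^ n) * kp T (n + 2) a b) := by
        calc ∑' z, (∑' j : ℕ, ENNReal.ofReal (l' ^ j) * kp T (j + 1) a z) *
              (∑' j : ℕ, ENNReal.ofReal (l' ^ j) * kp T (j + 1) z b)
            = ∑' z, ∑' i : ℕ, ∑' j : ℕ, ENNReal.ofReal (l' ^ (i + j)) *
                (kp T (i + 1) a z * kp T (j + 1) z b) := by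
              refine tsum_congr fun z => ?_
              rw [← ENNReal.tsum_mul_right]
              refine tsum_congr fun i => ?_
              rw [← ENNReal.tsum_mul_left]
              refine tsum_congr fun j => ?_
              rw [pow_add, ENNReal.ofReal_mul (pow_nonneg h0 _)]
              ring
          _ = ∑' i : ℕ, ∑' j : ℕ, ENNReal.ofReal (l' ^ (i + j)) * kp T (i + j + 2) a b := by
              rw [ENNReal.tsum_comm]
              refine tsum_congr fun i => ?_
              rw [ENNReal.tsum_comm]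
              refine tsum_congr fun j => ?_
              rw [ENNReal.tsum_mul_left]
              congr 1
              have : i + j + 2 = (i + 1) + (j + 1) := by ring
              rw [this, kp_add T (i + 1) (j + 1)]
              rfl
          _ = ∑' x : ℕ × ℕ, ENNReal.ofReal (l' ^ (x.1 + x.2)) * kp T (x.1 + x.2 + 2) a b := by
              rw [ENNReal.tsum_prod']
          _ = ∑' n : ℕ, ∑' y : Finset.HasAntidiagonal.antidiagonal n,
                ENNReal.ofReal (l' ^ ((y : ℕ × ℕ).1 + (y : ℕ × ℕ).2)) *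
                  kp T ((y : ℕ × ℕ).1 + (y : ℕ × ℕ).2 + 2) a b := by
              rw [← (Finset.HasAntidiagonal.sigmaAntidiagonalEquivProd (A := ℕ)).tsum_eq, ENNReal.tsum_sigma']
              rfl
          _ = _ := by
              refine tsum_congr fun n => ?_
              have : ∀ y : Finset.HasAntidiagonal.antidiagonal n,
                  ENNReal.ofReal (l' ^ ((y : ℕ × ℕ).1 + (y : ℕ × ℕ).2)) *
                    kp T ((y : ℕ × ℕ).1 + (y : ℕ × ℕ).2 + 2) a b
                  = ENNReal.ofReal (l' ^ n) * kp T (n + 2) a b := by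
                intro y
                have hy := Finset.HasAntidiagonal.mem_antidiagonal.1 y.2
                rw [hy]
              rw [tsum_congr this, tsum_fintype, Finset.sum_const, Finset.card_univ,
                Fintype.card_coe, Finset.Nat.card_antidiagonal, nsmul_eq_mul]
      rw [h1, ← ENNReal.tsum_mul_left, ← ENNReal.tsum_mul_left,
        tsum_eq_zero_add' (f := fun j : ℕ => ENNReal.ofReal (1 / (l - l')) *
          (ENNReal.ofReal (l' ^ j) * kp T (j + 1) a b)) ENNReal.summable,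
        tsum_eq_zero_add' (f := fun j : ℕ => ENNReal.ofReal (1 / (l - l')) *
          (ENNReal.ofReal (l ^ j) * kp T (j + 1) a b)) ENNReal.summable]
      simp only [pow_zero]
      rw [add_left_comm]
      refine add_le_add le_rfl ?_
      rw [← ENNReal.tsum_add]
      refine ENNReal.tsum_le_tsum fun n => ?_
      have h2 : ((n + 1 : ℕ) : ENNReal) * ENNReal.ofReal (l' ^ n)
          + ENNReal.ofReal (1 / (l - l')) * ENNReal.ofReal (l' ^ (n + 1))
          ≤ ENNReal.ofReal (1 / (l - l')) * ENNReal.ofReal (l ^ (n + 1)) := by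
        have e1 : ((n + 1 : ℕ) : ENNReal) = ENNReal.ofReal ((n + 1 : ℕ) : ℝ) :=
          (ENNReal.ofReal_natCast _).symm
        have hd' : (0 : ℝ) ≤ 1 / (l - l') := by positivity
        rw [e1, ← ENNReal.ofReal_mul (by positivity), ← ENNReal.ofReal_mul hd',
          ← ENNReal.ofReal_mul hd', ← ENNReal.ofReal_add (by positivity) (by positivity)]
        apply ENNReal.ofReal_le_ofReal
        have h3 := ker_real h0 hl.le n
        rw [one_div_mul_eq_div, one_div_mul_eq_div, le_div_iff₀ hd, add_mul,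
          div_mul_cancel₀ _ hd.ne']
        push_cast
        linarith
      calc ((n + 1 : ℕ) : ENNReal) * (ENNReal.ofReal (l' ^ n) * kp T (n + 2) a b)
            + ENNReal.ofReal (1 / (l - l')) * (ENNReal.ofReal (l' ^ (n + 1)) * kp T (n + 1 + 1) a b)
          = (((n + 1 : ℕ) : ENNReal) * ENNReal.ofReal (l' ^ n)
            + ENNReal.ofReal (1 / (l - l')) * ENNReal.ofReal (l' ^ (n + 1))) * kp T (n + 2) a b := by
            ring
        _ ≤ (ENNReal.ofReal (1 / (l - l')) * ENNReal.ofReal (l ^ (n + 1))) * kp T (n + 2) a b :=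
            mul_le_mul_left h2 _
        _ = _ := by ring

end Pool.NL
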