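import Pool.Agent.Helper22.NL.StR

/-! # Project NL, module KpQ: powers of the weighted kernel at `pH` -/

set_option autoImplicit false

open scoped BigOperators Polynomial ENNReal
open Polynomial Pool.LE MeasureTheory

namespace Pool.NL

private lemma even_KpQ {d : ℕ} {f : Zd d → ℝ} (h : SymF f) : EvenF f := by
  intro x
  have := h 1 (fun _ => -1) x
  rw [← this]
  congr 1
  funext i
  simp [sgp]

private lemma bd_KpQ {d : ℕ} {p : ℝ} (h : Bd 2 d p) : Bd 3 d p :=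
  ⟨h.hp.trans (by norm_num), fun k hk => (h.ft k hk).trans (by norm_num),
    fun k hk => (h.mt k hk).trans (by norm_num)⟩

private lemma kd_KpQ {d : ℕ} {p : ℝ} (hTB : StTauBasic) (hQ : StQw) (hp : 0 ≤ p) (hp1 : p ≤ 1)
    (x y : Zd d) : Kd d p x y = ENNReal.ofReal (Qw (y - x) * tau d p (y - x)) := by
  rw [Kd, ← (hTB d p hp hp1).2.2.2.1, ENNReal.ofReal_mul]
  have := (hQ d).1 (y - x)
  linarith

theorem hKpQ (hTL : StTauLeft) (hKS : StKpSup) (hB7 : StB7) (hB1 : StB1) (hKft : StKft)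
    (hKp : StKpInt) (hRW : StRW) (hTB : StTauBasic) (hAE : StAE) (hTM : StTauMono) (hS6d : StS6d)
    (hQ : StQw) : StKpQ := by
  obtain ⟨C₈, hC₈, d₂, h8⟩ := hRW 8
  obtain ⟨C', hC', d₁', h7⟩ := hB7
  refine ⟨18 ^ 4 * C₈ + 1, by nlinarith [hC₈], max (max d₂ d₁') 1, fun d hd x y => ?_⟩
  have hd2 : d₂ ≤ d := (le_max_left _ _).trans ((le_max_left _ _).trans hd)
  have hd1 : d₁' ≤ d := (le_max_right _ _).trans ((le_max_left _ _).trans hd)
  have hd0 : 0 < d := (le_max_right _ _).trans hd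
  obtain ⟨hp0, hp2⟩ := hS6d d hd0
  -- the bound below `pH`
  have hbelow : ∀ p : ℝ, 0 ≤ p → p < pH d → ∀ x y : Zd d,
      kp (Kd d p) 4 x y ≤ ENNReal.ofReal (18 ^ 4 * C₈ + 1) := by
    intro p h0 h1 x y
    have hp1 : p ≤ 1 := by linarith
    obtain ⟨hB, -⟩ := (h7 d hd1).1 p h0 h1
    obtain ⟨-, hsum, -, -, hl0, hl1, -⟩ := hB1 d p hd0 h0 h1
    obtain ⟨-, -, hsym, -, htau⟩ := hTB d p h0 hp1
    set f : Zd d → ℝ := fun x => Qw x * tau d p x with hf
    have hQ0 : ∀ x : Zd d, 0 ≤ Qw x := fun x => by have := (hQ d).1 x; linarith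
    have hf0 : ∀ x, 0 ≤ f x := fun x => mul_nonneg (hQ0 x) (htau x).1
    have hfs : Summable f := by
      refine hsum.congr fun x => ?_
      rw [hf, abs_of_nonneg (htau x).1]
    have hfe : EvenF f := by
      intro x
      show Qw (-x) * tau d p (-x) = Qw x * tau d p x
      rw [(hQ d).2.2.1, even_KpQ hsym x]
    have hK : Kd d p = fun x y => ENNReal.ofReal (f (y - x)) := by
      funext x y
      exact kd_KpQ hTB hQ h0 hp1 x y
    rw [hK]
    refine ((hKp d f hf0 hfs hfe 4 x y (by norm_num)).1).trans ?_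
    calc ∫⁻ k, ENNReal.ofReal (|FT f k| ^ 4) ∂(muT d)
        ≤ ∫⁻ k, ENNReal.ofReal (18 ^ 4) * ENNReal.ofReal (((1 - lam d p * Dh k) ^ 8)⁻¹) ∂(muT d) := by
          refine lintegral_mono_ae ?_
          filter_upwards [hAE d] with k hk
          rw [← ENNReal.ofReal_mul (by norm_num)]
          refine ENNReal.ofReal_le_ofReal ?_
          have h1 := hKft d p hd0 h0 h1 (bd_KpQ hB) k hk
          have h2 : |FT f k| ^ 4 ≤ (18 * ((1 - lam d p * Dh k) ^ 2)⁻¹) ^ 4 :=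
            pow_le_pow_left₀ (abs_nonneg _) h1 4
          refine h2.trans (le_of_eq ?_)
          rw [mul_pow, inv_pow, ← pow_mul]
      _ = ENNReal.ofReal (18 ^ 4) *
          ∫⁻ k, ENNReal.ofReal (((1 - lam d p * Dh k) ^ 8)⁻¹) ∂(muT d) :=
          lintegral_const_mul' _ _ ENNReal.ofReal_ne_top
      _ ≤ ENNReal.ofReal (18 ^ 4) * ENNReal.ofReal C₈ :=
          mul_le_mul_right ((h8 d hd2 (lam d p) hl0 hl1).1) _
      _ = ENNReal.ofReal (18 ^ 4 * C₈) := (ENNReal.ofReal_mul (by norm_num)).symm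
      _ ≤ ENNReal.ofReal (18 ^ 4 * C₈ + 1) := ENNReal.ofReal_le_ofReal (by linarith)
  -- the limit
  have : Nonempty {p : ℝ // 0 ≤ p ∧ p < pH d} := ⟨⟨0, le_rfl, hp0⟩⟩
  have hK : Kd d (pH d) = fun x y => ⨆ q : {p : ℝ // 0 ≤ p ∧ p < pH d}, Kd d q.1 x y := by
    funext x y
    simp only [Kd]
    rw [hTL d (y - x) hd0, ENNReal.mul_iSup]
  rw [hK, hKS (Zd d) {p : ℝ // 0 ≤ p ∧ p < pH d} (fun q => Kd d q.1) ?_ 4 x y]
  · exact iSup_le fun q => hbelow q.1 q.2.1 q.2.2 x y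
  · intro i j hij x y
    simp only [Kd]
    refine mul_le_mul_right (hTM d i.1 j.1 _ i.2.1 hij ?_) _
    have := j.2.2
    linarith

end Pool.NL
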