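import Pool.Agent.Helper22.NL.StR
import Pool.Agent.Helper84.LE.BKP

/-! # NL module KpTau: powers of the two-point function at `pH` -/

set_option autoImplicit false

open scoped BigOperators ENNReal
open MeasureTheory Pool.LE

namespace Pool.NL

namespace KpTauAux

theorem sq_nonneg' {d : ℕ} (x : Zd d) : 0 ≤ LE.sq x := by
  unfold LE.sq
  exact Finset.sum_nonneg fun i _ => sq_nonneg _

theorem one_le_Qw {d : ℕ} (x : Zd d) : 1 ≤ Qw x := by
  unfold Qw
  have := sq_nonneg' x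
  linarith

theorem summable_of_sumQ {d : ℕ} {f : Zd d → ℝ} (h : SumQ f) : Summable f := by
  refine Summable.of_norm_bounded h ?_
  intro x
  rw [Real.norm_eq_abs]
  exact le_mul_of_one_le_left (abs_nonneg _) (one_le_Qw x)

theorem even_of_sym {d : ℕ} {f : Zd d → ℝ} (h : SymF f) : EvenF f := by
  intro x
  have h1 := h (Equiv.refl _) (fun _ => -1) x
  have h2 : sgp (Equiv.refl _) (fun _ => -1) x = -x := by
    funext i
    simp [sgp]
  rwa [h2] at h1

/-- the bounds below `pH` -/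
theorem below (hKp : StKpInt) (hTB : StTauBasic) (hAE : StAE) (hDh : StDh) (d n : ℕ) (p C0 : ℝ)
    (hd : 0 < d) (hn : 1 ≤ n) (hp0 : 0 ≤ p) (hp1 : p ≤ 1) (hSQ : SumQ (tau d p))
    (hl0 : 0 ≤ lam d p) (hl1 : lam d p < 1) (hBd : Bd 2 d p)
    (hI1 : ∫⁻ k, ENNReal.ofReal (((1 - lam d p * Dh k) ^ n)⁻¹) ∂(muT d) ≤ ENNReal.ofReal C0)
    (hI2 : ∫⁻ k, ENNReal.ofReal (|Dh k| * ((1 - lam d p * Dh k) ^ n)⁻¹) ∂(muT d) ≤
      ENNReal.ofReal (C0 / Real.sqrt d)) (x y : Zd d) :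
    kp (tk d p) n x y ≤ ENNReal.ofReal (2 ^ n * C0) ∧
    ∑ b ∈ nb x, kp (tk d p) n b y ≤ ENNReal.ofReal (2 * d * (2 ^ n * C0 / Real.sqrt d)) := by
  obtain ⟨-, -, hSym, htE, ht0⟩ := hTB d p hp0 hp1
  have hfs : Summable (tau d p) := summable_of_sumQ hSQ
  have hfe : EvenF (tau d p) := even_of_sym hSym
  have hK : tk d p = fun x y => ENNReal.ofReal (tau d p (y - x)) := by
    funext x y
    unfold tk
    rw [htE]
  have hDpos : ∀ k : Fin d → ℝ, 0 < 1 - lam d p * Dh k := fun k =>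
    ((hDh d k hd).2.2.2 (lam d p) hl0 hl1).1
  have hpt : ∀ k : Fin d → ℝ, (∀ i, |k i| ≤ Real.pi) →
      |FT (tau d p) k| ^ n ≤ 2 ^ n * ((1 - lam d p * Dh k) ^ n)⁻¹ := by
    intro k hk
    have h1 := hBd.ft k hk
    have h2 : |FT (tau d p) k| ≤ 2 * (1 - lam d p * Dh k)⁻¹ := by
      rw [← div_eq_mul_inv, le_div_iff₀ (hDpos k)]
      exact h1
    have h3 := pow_le_pow_left₀ (abs_nonneg _) h2 n
    refine h3.trans (le_of_eq ?_)
    rw [mul_pow, inv_pow]
  have hae := hAE d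
  have h0 := hKp d (tau d p) (fun x => (ht0 x).1) hfs hfe n x y hn
  rw [← hK] at h0
  constructor
  · refine h0.1.trans ?_
    calc ∫⁻ k, ENNReal.ofReal (|FT (tau d p) k| ^ n) ∂(muT d)
        ≤ ∫⁻ k, ENNReal.ofReal (2 ^ n) *
            ENNReal.ofReal (((1 - lam d p * Dh k) ^ n)⁻¹) ∂(muT d) := by
          apply lintegral_mono_ae
          filter_upwards [hae] with k hk
          rw [← ENNReal.ofReal_mul (by positivity)]
          exact ENNReal.ofReal_le_ofReal (hpt k hk)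
      _ = ENNReal.ofReal (2 ^ n) *
            ∫⁻ k, ENNReal.ofReal (((1 - lam d p * Dh k) ^ n)⁻¹) ∂(muT d) :=
          lintegral_const_mul' _ _ ENNReal.ofReal_ne_top
      _ ≤ ENNReal.ofReal (2 ^ n) * ENNReal.ofReal C0 := mul_le_mul_right hI1 _
      _ = ENNReal.ofReal (2 ^ n * C0) := by rw [← ENNReal.ofReal_mul (by positivity)]
  · refine h0.2.trans ?_
    calc ∫⁻ k, ENNReal.ofReal (2 * d * |Dh k| * |FT (tau d p) k| ^ n) ∂(muT d)
        ≤ ∫⁻ k, ENNReal.ofReal (2 * d * 2 ^ n) *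
            ENNReal.ofReal (|Dh k| * ((1 - lam d p * Dh k) ^ n)⁻¹) ∂(muT d) := by
          apply lintegral_mono_ae
          filter_upwards [hae] with k hk
          rw [← ENNReal.ofReal_mul (by positivity)]
          apply ENNReal.ofReal_le_ofReal
          have h1 : 0 ≤ 2 * (d : ℝ) * |Dh k| := by positivity
          have h2 := mul_le_mul_of_nonneg_left (hpt k hk) h1
          refine h2.trans (le_of_eq ?_)
          ring
      _ = ENNReal.ofReal (2 * d * 2 ^ n) *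
            ∫⁻ k, ENNReal.ofReal (|Dh k| * ((1 - lam d p * Dh k) ^ n)⁻¹) ∂(muT d) :=
          lintegral_const_mul' _ _ ENNReal.ofReal_ne_top
      _ ≤ ENNReal.ofReal (2 * d * 2 ^ n) * ENNReal.ofReal (C0 / Real.sqrt d) :=
          mul_le_mul_right hI2 _
      _ = ENNReal.ofReal (2 * d * (2 ^ n * C0 / Real.sqrt d)) := by
          rw [← ENNReal.ofReal_mul (by positivity)]
          congr 1
          ring

/-- the case `n = 0` -/
theorem zero_case (d : ℕ) (hd : 1 ≤ d) (p : ℝ) (hp : p ≤ 1 / d) (T : Zd d → Zd d → ENNReal)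
    (x y : Zd d) : kp T 0 x y ≤ ENNReal.ofReal 1 ∧
      ∑ b ∈ nb x, ENNReal.ofReal p * kp T 0 b y ≤ ENNReal.ofReal (1 / Real.sqrt d) := by
  have hd0 : (0 : ℝ) < d := by exact_mod_cast hd
  have hd1 : (1 : ℝ) ≤ d := by exact_mod_cast hd
  constructor
  · show (if x = y then (1 : ENNReal) else 0) ≤ _
    split_ifs
    · simp
    · exact zero_le
  · have h1 : ∑ b ∈ nb x, ENNReal.ofReal p * kp T 0 b y ≤ ENNReal.ofReal p := by
      rw [← Finset.mul_sum]
      have h2 : ∑ b ∈ nb x, kp T 0 b y ≤ 1 := by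
        show ∑ b ∈ nb x, (if b = y then (1 : ENNReal) else 0) ≤ 1
        rw [Finset.sum_ite_eq' (nb x) y]
        split_ifs
        · exact le_rfl
        · exact zero_le
      calc ENNReal.ofReal p * ∑ b ∈ nb x, kp T 0 b y ≤ ENNReal.ofReal p * 1 :=
            mul_le_mul_right h2 _
        _ = ENNReal.ofReal p := mul_one _
    refine h1.trans (ENNReal.ofReal_le_ofReal ?_)
    refine hp.trans ?_
    apply one_div_le_one_div_of_le (Real.sqrt_pos.2 hd0)
    rw [Real.sqrt_le_left (by linarith)]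
    nlinarith

end KpTauAux

open KpTauAux

theorem hKpTau (hTL : StTauLeft) (hKS : StKpSup) (hB7 : StB7) (hB1 : StB1) (hKp : StKpInt)
    (hRW : StRW) (hTB : StTauBasic) (hAE : StAE) (hTM : StTauMono) (hS6d : StS6d) (hDh : StDh) :
    StKpTau := by
  intro n
  obtain ⟨C7, -, d7, h7⟩ := hB7
  rcases Nat.eq_zero_or_pos n with hn | hn
  · subst hn
    refine ⟨1, one_pos, max d7 1, fun d hd x y => ?_⟩
    exact zero_case d (le_trans (le_max_right _ _) hd) (pH d)
      (h7 d (le_trans (le_max_left _ _) hd)).2 _ x y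
  obtain ⟨C0, hC0, dR, hR⟩ := hRW n
  refine ⟨2 * (2 ^ n * C0), by positivity, max d7 (max dR 1), fun d hd x y => ?_⟩
  have hd7 : d7 ≤ d := le_trans (le_max_left _ _) hd
  have hdR : dR ≤ d := le_trans ((le_max_left _ _).trans (le_max_right _ _)) hd
  have hd1 : 1 ≤ d := le_trans ((le_max_right _ _).trans (le_max_right _ _)) hd
  have hd0 : (0 : ℝ) < d := by exact_mod_cast hd1
  have hsd : 0 < Real.sqrt d := Real.sqrt_pos.2 hd0
  obtain ⟨hb, hpd⟩ := h7 d hd7
  obtain ⟨hpos, hhalf⟩ := hS6d d hd1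
  -- below `pH`
  have hlow : ∀ q : {p : ℝ // 0 ≤ p ∧ p < pH d}, ∀ x y : Zd d,
      kp (tk d q.1) n x y ≤ ENNReal.ofReal (2 ^ n * C0) ∧
      ∑ b ∈ nb x, kp (tk d q.1) n b y ≤ ENNReal.ofReal (2 * d * (2 ^ n * C0 / Real.sqrt d)) := by
    rintro ⟨p, hp0, hp1⟩ x y
    obtain ⟨hp2, hSQ, -, -, hl0, hl1, -⟩ := hB1 d p hd1 hp0 hp1
    obtain ⟨hI1, hI2⟩ := hR d hdR (lam d p) hl0 hl1
    exact below hKp hTB hAE hDh d n p C0 hd1 hn hp0 (by linarith) hSQ hl0 hl1 (hb p hp0 hp1).1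
      hI1 hI2 x y
  -- the limit
  haveI : Nonempty {p : ℝ // 0 ≤ p ∧ p < pH d} := ⟨⟨0, le_rfl, hpos⟩⟩
  have hmono : ∀ i j : {p : ℝ // 0 ≤ p ∧ p < pH d}, i ≤ j → ∀ x y, tk d i.1 x y ≤ tk d j.1 x y := by
    intro i j hij x y
    unfold tk
    exact hTM d i.1 j.1 (y - x) i.2.1 hij (by linarith [j.2.2])
  have hT : tk d (pH d) = fun x y => ⨆ q : {p : ℝ // 0 ≤ p ∧ p < pH d}, tk d q.1 x y := by
    funext x y
    unfold tk
    exact hTL d (y - x) hd1
  have hsup : ∀ x y : Zd d, kp (tk d (pH d)) n x y =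
      ⨆ q : {p : ℝ // 0 ≤ p ∧ p < pH d}, kp (tk d q.1) n x y := by
    intro x y
    rw [hT]
    exact hKS (Zd d) {p : ℝ // 0 ≤ p ∧ p < pH d} (fun q => tk d q.1) hmono n x y
  constructor
  · rw [hsup]
    refine iSup_le fun q => (hlow q x y).1.trans (ENNReal.ofReal_le_ofReal ?_)
    have : 0 < 2 ^ n * C0 := by positivity
    linarith
  · rw [← Finset.mul_sum]
    have h1 : ∑ b ∈ nb x, kp (tk d (pH d)) n b y ≤
        ENNReal.ofReal (2 * d * (2 ^ n * C0 / Real.sqrt d)) := by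
      have h2 : ∑ b ∈ nb x, kp (tk d (pH d)) n b y =
          ∑ b ∈ nb x, ⨆ q : {p : ℝ // 0 ≤ p ∧ p < pH d}, kp (tk d q.1) n b y :=
        Finset.sum_congr rfl fun b _ => hsup b y
      rw [h2, ENNReal.finsetSum_iSup_of_monotone]
      · exact iSup_le fun q => (hlow q x y).2
      · intro b i j hij
        exact kp_mono (hmono i j hij) n b y
    calc ENNReal.ofReal (pH d) * ∑ b ∈ nb x, kp (tk d (pH d)) n b y
        ≤ ENNReal.ofReal (1 / d) * ENNReal.ofReal (2 * d * (2 ^ n * C0 / Real.sqrt d)) :=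
          mul_le_mul' (ENNReal.ofReal_le_ofReal hpd) h1
      _ = ENNReal.ofReal (2 * (2 ^ n * C0) / Real.sqrt d) := by
          rw [← ENNReal.ofReal_mul (by positivity)]
          congr 1
          field_simp

end Pool.NL
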