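import Pool.Agent.Helper22.NL.StI
import Pool.Agent.Helper84.LE.BWT

/-! # Project NL: module LawE -/

set_option autoImplicit false

open scoped BigOperators ENNReal
open Pool.LE MeasureTheory

namespace Pool.NL

theorem hLawE (hLaw : StLaw) (hBox : StBox) (hB : StBasic) : StLawE := by
  classical
  intro d E p A hE h0 h1
  obtain ⟨-, -, -, -, -, -, -, -, -, -, hR, -, -⟩ := hBox d
  obtain ⟨R, hER⟩ := hR E hE
  have hset : {ω | A (opE E p ω)} =
      {ω : ((Fin d → ℤ) × Fin d) → unitInterval | A (opn d p R ω ∩ E)} := by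
    ext ω
    have : opE E p ω = opn d p R ω ∩ E := by
      ext e
      unfold opE opn
      rw [Finset.mem_inter, Finset.mem_filter, Finset.mem_filter]
      constructor
      · rintro ⟨h, h'⟩; exact ⟨⟨hER h, h'⟩, h⟩
      · rintro ⟨⟨-, h'⟩, h⟩; exact ⟨h, h'⟩
    rw [Set.mem_setOf_eq, Set.mem_setOf_eq, this]
  obtain ⟨hl1, hl2⟩ := hLaw d R p (fun ζ => A (ζ ∩ E)) h0 h1
  rw [hset]
  refine ⟨?_, hl2⟩
  change Pi8 d _ = _
  rw [hl1]
  obtain ⟨-, -, -, -, -, -, hpr, -⟩ := hB (Zd d) E p h0 h1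
  rw [← (hpr A).2.2.1]
  unfold Pr
  exact ExE_inter hER h0 h1 (fun ω => if A ω then 1 else 0)

end Pool.NL
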