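import Pool.Agent.Helper22.NL.StR
import Pool.Agent.Helper84.LE.BWT
import Pool.Agent.Helper84.LE.BKP

/-! # Project NL: module LevG (`r` ears and one attachment, in expectation) -/

set_option autoImplicit false

open scoped BigOperators ENNReal
open Pool.LE

namespace Pool.NL

section LevG

variable {V : Type} [DecidableEq V]

theorem levg_ExE_list_sum {ι : Type} (E : Finset (Sym2 V)) (p : ℝ)
    (f : ι → Finset (Sym2 V) → ENNReal) (S : List ι) :
    ExE E p (fun ω => (S.map (fun i => f i ω)).sum) = (S.map (fun i => ExE E p (f i))).sum := by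
  induction S with
  | nil => simp [ExE]
  | cons i S ih =>
    simp only [List.map_cons, List.sum_cons]
    rw [ExE_add, ih]

theorem levg_le_sum {ι : Type} {S : List ι} {i : ι} (hi : i ∈ S) (f : ι → ENNReal) :
    f i ≤ (S.map f).sum := by
  induction S with
  | nil => simp at hi
  | cons j S ih =>
    rw [List.map_cons, List.sum_cons]
    rcases List.mem_cons.1 hi with rfl | h
    · exact le_self_add
    · exact (ih h).trans le_add_self

theorem levg_list_sum_mul_right {ι : Type} (S : List ι) (f : ι → ENNReal) (c : ENNReal) :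
    (S.map f).sum * c = (S.map (fun i => f i * c)).sum := by
  induction S with
  | nil => simp
  | cons i S ih => simp only [List.map_cons, List.sum_cons, add_mul, ih]

omit [DecidableEq V] in
/-- the points of a list survive an insertion -/
theorem levg_pts_ins (z : V) (L : List (V × List V × V)) : ∀ L' : List (V × List V × V),
    L' ∈ ins z L → ∀ x ∈ pts L, x ∈ pts L' := by
  induction L with
  | nil => intro L' h; simp [ins] at h
  | cons c L ih =>
    intro L' h x hx
    simp only [ins, List.mem_cons, List.mem_map] at h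
    rcases h with rfl | ⟨L'', hL'', rfl⟩
    · simp only [pts, List.flatMap_cons, List.mem_append, List.mem_cons] at hx ⊢
      rcases hx with (hx | hx | hx) | hx
      · exact Or.inl (Or.inl hx)
      · exact Or.inl (Or.inr (Or.inl hx))
      · exact Or.inl (Or.inr (Or.inr (Or.inr hx)))
      · exact Or.inr hx
    · simp only [pts, List.flatMap_cons, List.mem_append] at hx ⊢
      rcases hx with hx | hx
      · exact Or.inl hx
      · exact Or.inr (ih L'' hL'' x hx)

omit [DecidableEq V] in
theorem levg_pts_cons (c : V × List V × V) (L : List (V × List V × V)) :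
    ∀ x ∈ pts L, x ∈ pts (c :: L) := by
  intro x hx
  simp only [pts, List.flatMap_cons, List.mem_append] at hx ⊢
  exact Or.inr hx

end LevG

theorem hLevG (hEAR : StEAR) (hATT : StATT) (hDR : StDRBK) : StLevG := by
  classical
  intro r
  induction r with
  | zero =>
    intro V _ E p T h0 h1 hD L v u s' hv hu
    have hpt : ∀ ω, (if DR L ω ∧ con ω v s' then
        (∑' y : V, if Yp ω v u y then (1 : ENNReal) else 0) ^ 0 else 0) ≤
        ∑' w : V, ((ins w L).map (fun L' =>
          if DR ((w, [], s') :: L') ω then (1 : ENNReal) else 0)).sum := by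
      intro ω
      split_ifs with h
      · rw [pow_zero]
        obtain ⟨z, L', hL', hD'⟩ := hATT V ω L v s' h.1 hv h.2
        refine le_trans ?_ (ENNReal.le_tsum z)
        refine le_trans ?_ (levg_le_sum hL' _)
        rw [if_pos hD']
      · exact zero_le
    refine (ExE_mono fun ω _ => hpt ω).trans ?_
    rw [ExE_tsum]
    refine ENNReal.tsum_le_tsum fun w => ?_
    rw [levg_ExE_list_sum]
    show _ ≤ ((ins w L).map (cmL T)).sum * T w s'
    rw [levg_list_sum_mul_right]
    refine List.sum_le_sum fun L' _ => ?_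
    have := hDR V E p T h0 h1 hD ((w, [], s') :: L')
    rw [cmL_cons, cm_nil, mul_comm] at this
    exact this
  | succ r ih =>
    intro V _ E p T h0 h1 hD L v u s' hv hu
    have hpt : ∀ ω, (if DR L ω ∧ con ω v s' then
        (∑' y : V, if Yp ω v u y then (1 : ENNReal) else 0) ^ (r + 1) else 0) ≤
        ∑' z₁ : V, ∑' z₂ : V, ∑' y : V, ((ins z₁ L).map (fun L₁ =>
          ((ins z₂ L₁).map (fun L₂ => if DR ((z₁, [y], z₂) :: L₂) ω ∧ con ω v s' then
            (∑' y : V, if Yp ω v u y then (1 : ENNReal) else 0) ^ r else 0)).sum)).sum := by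
      intro ω
      by_cases h : DR L ω ∧ con ω v s'
      swap
      · rw [if_neg h]; exact zero_le
      rw [if_pos h, pow_succ, ← ENNReal.tsum_mul_left]
      have hrot : ∀ f : V → V → V → ENNReal, ∑' z₁, ∑' z₂, ∑' y, f z₁ z₂ y =
          ∑' y, ∑' z₁, ∑' z₂, f z₁ z₂ y := by
        intro f
        have e1 : ∀ z₁, ∑' z₂, ∑' y, f z₁ z₂ y = ∑' y, ∑' z₂, f z₁ z₂ y := fun z₁ =>
          ENNReal.tsum_comm
        rw [tsum_congr e1, ENNReal.tsum_comm]
      rw [hrot]
      refine ENNReal.tsum_le_tsum fun y => ?_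
      by_cases hy : Yp ω v u y
      swap
      · rw [if_neg hy, mul_zero]; exact zero_le
      rw [if_pos hy, mul_one]
      obtain ⟨z₁, z₂, L₁, hL₁, L₂, hL₂, hD2⟩ := hEAR V ω L v u y h.1 hv hu hy
      refine le_trans ?_ (ENNReal.le_tsum z₁)
      refine le_trans ?_ (ENNReal.le_tsum z₂)
      refine le_trans ?_ (levg_le_sum hL₁ _)
      refine le_trans ?_ (levg_le_sum hL₂ _)
      rw [if_pos ⟨hD2, h.2⟩]
    refine (ExE_mono fun ω _ => hpt ω).trans ?_
    have hrot2 : ∑' w : V, earS T (r + 1) L w * T w s' =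
        ∑' z₁ : V, ∑' z₂ : V, ∑' y : V, ((ins z₁ L).map (fun L₁ =>
          ((ins z₂ L₁).map (fun L₂ =>
            ∑' w : V, earS T r ((z₁, [y], z₂) :: L₂) w * T w s')).sum)).sum := by
      have e0 : ∀ w : V, earS T (r + 1) L w * T w s' =
          ∑' z₁ : V, ∑' z₂ : V, ∑' y : V, ((ins z₁ L).map (fun L₁ =>
            ((ins z₂ L₁).map (fun L₂ => earS T r ((z₁, [y], z₂) :: L₂) w * T w s')).sum)).sum := by
        intro w
        show (∑' z₁ : V, ∑' z₂ : V, ∑' y : V, ((ins z₁ L).map (fun L₁ =>
            ((ins z₂ L₁).map (fun L₂ => earS T r ((z₁, [y], z₂) :: L₂) w)).sum)).sum) * T w s' = _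
        rw [← ENNReal.tsum_mul_right]
        refine tsum_congr fun z₁ => ?_
        rw [← ENNReal.tsum_mul_right]
        refine tsum_congr fun z₂ => ?_
        rw [← ENNReal.tsum_mul_right]
        refine tsum_congr fun y => ?_
        rw [levg_list_sum_mul_right]
        refine congrArg List.sum (List.map_congr_left fun L₁ _ => ?_)
        rw [levg_list_sum_mul_right]
      rw [tsum_congr e0, ENNReal.tsum_comm]
      refine tsum_congr fun z₁ => ?_
      rw [ENNReal.tsum_comm]
      refine tsum_congr fun z₂ => ?_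
      rw [ENNReal.tsum_comm]
      refine tsum_congr fun y => ?_
      rw [bkp_tsum_list_sum]
      refine congrArg List.sum (List.map_congr_left fun L₁ _ => ?_)
      rw [bkp_tsum_list_sum]
    rw [hrot2, ExE_tsum]
    refine ENNReal.tsum_le_tsum fun z₁ => ?_
    rw [ExE_tsum]
    refine ENNReal.tsum_le_tsum fun z₂ => ?_
    rw [ExE_tsum]
    refine ENNReal.tsum_le_tsum fun y => ?_
    rw [levg_ExE_list_sum]
    refine List.sum_le_sum fun L₁ hL₁ => ?_
    rw [levg_ExE_list_sum]
    refine List.sum_le_sum fun L₂ hL₂ => ?_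
    refine ih V E p T h0 h1 hD ((z₁, [y], z₂) :: L₂) v u s' ?_ ?_
    · exact levg_pts_cons _ _ v (levg_pts_ins z₂ L₁ L₂ hL₂ v (levg_pts_ins z₁ L L₁ hL₁ v hv))
    · exact levg_pts_cons _ _ u (levg_pts_ins z₂ L₁ L₂ hL₂ u (levg_pts_ins z₁ L L₁ hL₁ u hu))

end Pool.NL
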