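import Pool.Agent.Helper22.NL.StR
import Pool.Agent.Helper84.LE.BWT

/-! Project NL (MP_65faa7), module LevR: one level with `r` ears. -/

set_option autoImplicit false
open scoped BigOperators Polynomial ENNReal
open Polynomial Pool.LE

namespace Pool.NL

open Classical in
theorem hLevR (hNw : StNwR) (hBase : StBase) (hLG : StLevG) : StLevR := by
  intro r V _ E p T h0 h1 hD A v u s'
  -- the number of points on paths
  set Y : Finset (Sym2 V) → ENNReal := fun ω =>
    (∑' y : V, if Yp ω v u y then (1 : ENNReal) else 0) ^ r with hY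
  set g : V → V → V → Finset (Sym2 V) → ENNReal := fun s t w' ω =>
    if DR [(v, [t, w'], s), (t, [u], w')] ω ∧ con ω v s' then Y ω else 0 with hg
  -- pointwise bound
  have hpt : ∀ ω, NNr r (wA ω A v u) * (if con ω v s' then (1 : ENNReal) else 0) ≤
      2 * ∑' s : V, ∑' t : V, ∑' w' : V, if s ∈ A then g s t w' ω else 0 := by
    intro ω
    by_cases hc : con ω v s'
    swap
    · rw [if_neg hc, mul_zero]; exact zero_le
    rw [if_pos hc, mul_one]
    refine (hNw r V ω A v u).trans (mul_le_mul_right ?_ _)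
    rw [ENNReal.tsum_comm]
    refine ENNReal.tsum_le_tsum fun s => ENNReal.tsum_le_tsum fun t => ?_
    by_cases hh : s ∈ A ∧ Bt ω v u t s
    swap
    · rw [if_neg hh]; exact zero_le
    rw [if_pos hh]
    obtain ⟨w', hw'⟩ := hBase V ω v u t s hh.2
    refine le_trans ?_ (ENNReal.le_tsum w')
    rw [if_pos hh.1]
    simp only [hg]
    rw [if_pos ⟨hw', hc⟩]
  refine (ExE_mono fun ω _ => hpt ω).trans ?_
  rw [ExE_mul_left]
  refine mul_le_mul_right ?_ _
  rw [ExE_tsum]
  refine ENNReal.tsum_le_tsum fun s => ?_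
  by_cases hs : s ∈ A
  swap
  · simp only [if_neg hs, tsum_zero]
    simp [ExE]
  simp only [if_pos hs]
  rw [ExE_tsum]
  have hterm : ∀ t w' : V, ExE E p (g s t w') ≤
      ∑' w : V, earS T r [(v, [t, w'], s), (t, [u], w')] w * T w s' := by
    intro t w'
    exact hLG r V E p T h0 h1 hD [(v, [t, w'], s), (t, [u], w')] v u s' (by simp [pts])
      (by simp [pts])
  calc ∑' t : V, ExE E p (fun ω => ∑' w' : V, g s t w' ω)
      = ∑' t : V, ∑' w' : V, ExE E p (g s t w') := tsum_congr fun t => by rw [ExE_tsum]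
    _ ≤ ∑' t : V, ∑' w' : V, ∑' w : V,
          earS T r [(v, [t, w'], s), (t, [u], w')] w * T w s' :=
        ENNReal.tsum_le_tsum fun t => ENNReal.tsum_le_tsum fun w' => hterm t w'
    _ = ∑' t : V, ∑' w : V, ∑' w' : V,
          earS T r [(v, [t, w'], s), (t, [u], w')] w * T w s' :=
        tsum_congr fun t => ENNReal.tsum_comm
    _ = ∑' w : V, ∑' t : V, ∑' w' : V,
          earS T r [(v, [t, w'], s), (t, [u], w')] w * T w s' := ENNReal.tsum_comm
    _ = ∑' w : V, coreR r T v s u w * T w s' := by
        refine tsum_congr fun w => ?_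
        unfold coreR
        rw [← ENNReal.tsum_mul_right]
        exact tsum_congr fun t => ENNReal.tsum_mul_right

end Pool.NL
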