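import Pool.Agent.Helper22.NL.StZ
import Pool.Agent.Helper84.LE.BWT
import Pool.Agent.Helper84.LE.BGR

/-! # Project NL: module Line -/

set_option autoImplicit false

open scoped BigOperators ENNReal Topology
open Pool.LE Filter

namespace Pool.NL

private lemma mem_Bn_Li {d n : ℕ} (x : Zd d) : x ∈ Bn d n ↔ ∀ i, 0 ≤ x i ∧ x i < n := by
  simp [Bn]

private lemma e0_add_Li {d : ℕ} (a b : ℕ) : (e0 (a + b) : Zd d) = e0 a + e0 b := by
  funext i
  simp only [e0, Pi.add_apply]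
  split_ifs <;> simp

private lemma e0_one_Li {d : ℕ} (hd : 1 ≤ d) : (e0 1 : Zd d) = Pi.single ⟨0, hd⟩ 1 := by
  funext i
  simp only [e0, Pi.single_apply, Fin.ext_iff]
  split_ifs <;> simp

private lemma ex_nn_Li {V : Type} [DecidableEq V] (E : Finset (Sym2 V)) (p : ℝ) (h0 : 0 ≤ p)
    (h1 : p ≤ 1) (f : Finset (Sym2 V) → ℝ) (hf : ∀ ω, 0 ≤ f ω) : 0 ≤ ex E p f := by
  unfold ex Ex
  refine Finset.sum_nonneg fun ω _ => ?_
  rw [smul_eq_mul]
  exact mul_nonneg (wt_nonneg h0 h1 E ω) (hf ω)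

private lemma ind_nn_Li (A : Prop) : 0 ≤ ind A := by
  classical
  unfold ind
  split_ifs <;> norm_num

theorem hLine (hS : StSurg) (hBn : StBn) (hBox : StBox) : StLine := by
  classical
  intro d p J Lr c' hd hp0 hp1 hLr hc'
  have hJL : 0 < p ^ (J * Lr) / ((J * Lr : ℕ) + 1) := by positivity
  refine ⟨c' * (p ^ (J * Lr) / ((J * Lr : ℕ) + 1)), by positivity, ?_⟩
  intro n k t P f hk1 hkJ ht hf0 hfm hP hPe hPc hPt
  obtain ⟨hFG, -, -, -, -⟩ := hBn d n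
  obtain ⟨l, hl⟩ : ∃ l, l = k * Lr := ⟨_, rfl⟩
  rw [← hl] at hPe hPt
  have hlJ : l ≤ J * Lr := hl ▸ Nat.mul_le_mul_right Lr hkJ
  let F : Zd d × Zd d → ℝ := fun ub =>
    eB d n p (fun ω => f (XB d n ω ub.1) (XB d n ω ub.2) * ind (¬ con ω ub.1 ub.2))
  have hF0 : ∀ ub, 0 ≤ F ub := fun ub =>
    ex_nn_Li _ _ hp0.le hp1 _ (fun ω => mul_nonneg (hf0 _ _) (ind_nn_Li _))
  obtain ⟨Sg, hSg⟩ : ∃ Sg, Sg = ∑ ub ∈ drt (ES (Bn d n)), F ub := ⟨_, rfl⟩
  have hSg0 : 0 ≤ Sg := hSg ▸ Finset.sum_nonneg fun ub _ => hF0 ub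
  have hin : ∀ a ∈ P, ∀ i : ℕ, i ≤ l → a + e0 i ∈ Bn d n := by
    intro a ha i hi
    have h1 := (mem_Bn_Li a).1 (hP ha)
    have h2 := (mem_Bn_Li _).1 (hPe a ha)
    rw [mem_Bn_Li]
    intro j
    have h3 := h1 j
    have h4 := h2 j
    simp only [Pi.add_apply, e0] at h4 ⊢
    by_cases hj : (j : ℕ) = 0
    · rw [if_pos hj] at h4 ⊢
      have : (i : ℤ) ≤ l := by exact_mod_cast hi
      constructor <;> omega
    · rw [if_neg hj] at h4 ⊢
      exact h4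
  have hedge : ∀ a ∈ P, ∀ i : ℕ, i < l → s(a + e0 i, a + e0 (i + 1)) ∈ ES (Bn d n) := by
    intro a ha i hi
    rw [(hBox d).2.2.2.2.2.2.2.1]
    refine ⟨hin a ha i hi.le, hin a ha (i + 1) hi, ?_⟩
    rw [(hBox d).2.2.1]
    refine ⟨⟨0, hd⟩, Or.inl ?_⟩
    rw [e0_add_Li, e0_one_Li hd, add_assoc]
  have hinner : ∀ i, i < l → ∑ a ∈ P, F (a + e0 i, a + e0 (i + 1)) ≤ Sg := by
    intro i hi
    have hinj : Set.InjOn (fun a : Zd d => (a + e0 i, a + e0 (i + 1))) (P : Set (Zd d)) := by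
      intro a _ b _ h
      simp only [Prod.mk.injEq] at h
      exact add_right_cancel h.1
    rw [← Finset.sum_image (g := fun a : Zd d => (a + e0 i, a + e0 (i + 1))) (f := F) hinj, hSg]
    apply Finset.sum_le_sum_of_subset_of_nonneg
    · intro q hq
      obtain ⟨a, ha, rfl⟩ := Finset.mem_image.1 hq
      exact mem_drt.2 (hedge a ha i hi)
    · intro q _ _
      exact hF0 q
  have hone : ∀ a ∈ P, t ≤ (1 / p) ^ l * ∑ i ∈ Finset.range l, F (a + e0 i, a + e0 (i + 1)) := by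
    intro a ha
    have h1 := hS (Zd d) (Bn d n) (ES (Bn d n)) (2 * d) p hFG hp0 hp1 f hf0 hfm l (fun i => a + e0 i)
      (fun i hi => hedge a ha i hi)
    have h2 := hPt a ha
    have h0 : (a + e0 0 : Zd d) = a := by
      funext j
      simp [e0]
    rw [h0] at h1
    exact h2.trans h1
  have hsum : (P.card : ℝ) * t ≤ (1 / p) ^ l * (l * Sg) := by
    calc (P.card : ℝ) * t = ∑ _a ∈ P, t := by rw [Finset.sum_const, nsmul_eq_mul]
      _ ≤ ∑ a ∈ P, (1 / p) ^ l * ∑ i ∈ Finset.range l, F (a + e0 i, a + e0 (i + 1)) :=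
          Finset.sum_le_sum hone
      _ = (1 / p) ^ l * ∑ i ∈ Finset.range l, ∑ a ∈ P, F (a + e0 i, a + e0 (i + 1)) := by
          rw [← Finset.mul_sum, Finset.sum_comm]
      _ ≤ (1 / p) ^ l * ∑ _i ∈ Finset.range l, Sg := by
          apply mul_le_mul_of_nonneg_left _ (by positivity)
          exact Finset.sum_le_sum fun i hi => hinner i (Finset.mem_range.1 hi)
      _ = (1 / p) ^ l * (l * Sg) := by
          rw [Finset.sum_const, Finset.card_range, nsmul_eq_mul]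
  have hp' : 1 ≤ 1 / p := by
    rw [le_div_iff₀ hp0]
    linarith
  have h3 : (1 / p) ^ l * (l * Sg) ≤ (1 / p) ^ (J * Lr) * (((J * Lr : ℕ) + 1) * Sg) := by
    apply mul_le_mul (pow_le_pow_right₀ hp' hlJ) _ (by positivity) (by positivity)
    apply mul_le_mul_of_nonneg_right _ hSg0
    have : (l : ℝ) ≤ (J * Lr : ℕ) := by exact_mod_cast hlJ
    linarith
  have h4 : c' * (n : ℝ) ^ d * t ≤ (1 / p) ^ (J * Lr) * (((J * Lr : ℕ) + 1) * Sg) :=
    (mul_le_mul_of_nonneg_right hPc ht).trans (hsum.trans h3)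
  have h5 := mul_le_mul_of_nonneg_left h4 hJL.le
  have h6 : p ^ (J * Lr) / ((J * Lr : ℕ) + 1) * ((1 / p) ^ (J * Lr) * (((J * Lr : ℕ) + 1) * Sg)) = Sg := by
    rw [one_div, inv_pow]
    field_simp
  rw [h6] at h5
  refine le_trans (le_of_eq ?_) (h5.trans (le_of_eq hSg))
  ring

end Pool.NL
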