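import Pool.Agent.Helper22.NL.StZ

/-! # Project NL: the lower bound in the box (module Low) -/

set_option autoImplicit false

open scoped BigOperators ENNReal Topology
open Pool.LE Filter

namespace Pool.NL

theorem hLow (hT : StTra) (hS : StSec2) (hM : StMomB) (hBn : StBn) (hB : StBasic) : StLow := by
  intro d C₁ B c₀ hE
  obtain ⟨ε, hε, n₀, hn₀, hn⟩ := hT d C₁ B c₀ hE
  refine ⟨ε, hε, ?_⟩
  have hp0 : 0 ≤ pH d := hE.p0.le
  have hp1 : pH d ≤ 1 := hE.p1.trans (by norm_num)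
  have hC : 1 ≤ C₁ := hE.hC
  have hd := hE.hd
  -- the key estimate
  have key : ∀ n : ℕ, n₀ ≤ n → 1 - 8 * C₁ ^ 3 / (n : ℝ) ≤ pB d n (pH d) (fun ω => ∃ x ∈ Bn d n,
      ε * (n : ℝ) ^ 4 * Real.log n ≤ XB d n ω x) := by
    intro n hnn
    obtain ⟨s, hs1, hs2, hs3⟩ := hn n hnn
    have hn1 : 1 ≤ n := hn₀.trans hnn
    have hnR : (0 : ℝ) < n := by exact_mod_cast hn1
    obtain ⟨hFG, hcard, -, -, -⟩ := hBn d n
    obtain ⟨-, -, -, -, -, -, hpr, hmono, -, -⟩ := hB (Zd d) (ES (Bn d n)) (pH d) hp0 hp1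
    have h1 := hS (Zd d) (Bn d n) (ES (Bn d n)) (2 * d) (pH d) hFG hp0 hp1 s hs1
    set q := pr (ES (Bn d n)) (pH d) (fun ω => ∀ x ∈ Bn d n, Xc (Bn d n) ω x < s) with hq
    have hq0 : 0 ≤ q := (hpr _).1
    have h2 : ∑ x ∈ Bn d n, ex (ES (Bn d n)) (pH d) (fun ω => (Xc (Bn d n) ω x : ℝ) ^ 2) ≤
        (n : ℝ) ^ d * (8 * C₁ ^ 3 * (n : ℝ) ^ 6) := by
      calc ∑ x ∈ Bn d n, ex (ES (Bn d n)) (pH d) (fun ω => (Xc (Bn d n) ω x : ℝ) ^ 2) ≤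
          ∑ x ∈ Bn d n, 8 * C₁ ^ 3 * (n : ℝ) ^ 6 :=
            Finset.sum_le_sum fun x hx => (hM d C₁ B c₀ hE n hn1 x hx).2.1
        _ = _ := by rw [Finset.sum_const, hcard, nsmul_eq_mul]; push_cast; ring
    have h3 : q * ((n : ℝ) ^ (d - 7)) ^ 2 ≤ (n : ℝ) ^ d * (8 * C₁ ^ 3 * (n : ℝ) ^ 6) := by
      refine le_trans ?_ (h1.trans h2)
      refine mul_le_mul_of_nonneg_left ?_ hq0
      exact pow_le_pow_left₀ (by positivity) hs3 2
    have h4 : q ≤ 8 * C₁ ^ 3 / (n : ℝ) := by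
      rw [le_div_iff₀ hnR]
      obtain ⟨k, rfl⟩ : ∃ k, d = 21 + k := ⟨d - 21, by omega⟩
      have e1 : ((n : ℝ) ^ (21 + k - 7)) ^ 2 = (n : ℝ) ^ (27 + k) * ((n : ℝ) * (n : ℝ) ^ k) := by
        rw [show 21 + k - 7 = 14 + k by omega]; ring
      have e2 : (n : ℝ) ^ (21 + k) * (8 * C₁ ^ 3 * (n : ℝ) ^ 6) =
          (n : ℝ) ^ (27 + k) * (8 * C₁ ^ 3) := by ring
      rw [e1, e2] at h3
      have h5 : (n : ℝ) ^ (27 + k) * (q * (n * (n : ℝ) ^ k)) ≤ (n : ℝ) ^ (27 + k) * (8 * C₁ ^ 3) := by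
        linarith
      have h6 := le_of_mul_le_mul_left h5 (by positivity)
      have h7 : (1 : ℝ) ≤ (n : ℝ) ^ k := one_le_pow₀ (by exact_mod_cast hn1)
      calc q * n = q * n * 1 := by ring
        _ ≤ q * n * (n : ℝ) ^ k := mul_le_mul_of_nonneg_left h7 (by positivity)
        _ = q * (n * (n : ℝ) ^ k) := by ring
        _ ≤ _ := h6
    have h5 := (hpr (fun ω => ∀ x ∈ Bn d n, Xc (Bn d n) ω x < s)).2.2.2
    have h6 : pr (ES (Bn d n)) (pH d) (fun ω => ¬ ∀ x ∈ Bn d n, Xc (Bn d n) ω x < s) ≤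
        pB d n (pH d) (fun ω => ∃ x ∈ Bn d n, ε * (n : ℝ) ^ 4 * Real.log n ≤ XB d n ω x) := by
      refine hmono _ _ fun ω _ h => ?_
      push Not at h
      obtain ⟨x, hx, hxs⟩ := h
      refine ⟨x, hx, hs2.trans ?_⟩
      exact_mod_cast hxs
    rw [h5, ← hq] at h6
    linarith
  refine tendsto_of_tendsto_of_tendsto_of_le_of_le' (g := fun n : ℕ => 1 - 8 * C₁ ^ 3 / (n : ℝ))
    (h := fun _ => 1) ?_ tendsto_const_nhds ?_ ?_
  · have h1 : Tendsto (fun n : ℕ => 8 * C₁ ^ 3 / (n : ℝ)) atTop (𝓝 0) :=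
      tendsto_const_div_atTop_nhds_zero_nat _
    simpa using (tendsto_const_nhds (x := (1 : ℝ))).sub h1
  · filter_upwards [eventually_ge_atTop n₀] with n hnn
    exact key n hnn
  · refine Eventually.of_forall fun n => ?_
    obtain ⟨-, -, -, -, -, -, hpr, -, -, -⟩ := hB (Zd d) (ES (Bn d n)) (pH d) hp0 hp1
    exact (hpr _).2.1

end Pool.NL
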