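import Pool.Agent.Helper22.NL.StZ

/-! # Project NL: lower bound for the bridges (module LowJ) -/

set_option autoImplicit false

open scoped BigOperators ENNReal
open Pool.LE

namespace Pool.NL

private theorem lj_sq {d : ℕ} (hd : 1 ≤ d) (m : ℕ) : LE.sq (e0 m : Zd d) = (m : ℝ) ^ 2 := by
  have h0 : 0 < d := hd
  unfold LE.sq e0
  rw [Finset.sum_eq_single (⟨0, h0⟩ : Fin d)]
  · simp
  · intro i _ hi
    have : (i : ℕ) ≠ 0 := fun h => hi (Fin.ext h)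
    simp [this]
  · intro h
    exact absurd (Finset.mem_univ _) h

private theorem lj_Qw {d : ℕ} (hd : 1 ≤ d) (k Lr : ℕ) (hk : 1 ≤ k) :
    2 * (Lr : ℝ) ^ 2 ≤ Qw (e0 (k * Lr) : Zd d) := by
  unfold Qw
  rw [lj_sq hd]
  push_cast
  have h1 : (1 : ℝ) ≤ k := by exact_mod_cast hk
  have h2 : (Lr : ℝ) ^ 2 ≤ ((k : ℝ) * Lr) ^ 2 := by
    rw [mul_pow]
    have h3 : (1 : ℝ) ≤ (k : ℝ) ^ 2 := one_le_pow₀ h1
    nlinarith [sq_nonneg (Lr : ℝ)]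
  linarith

private theorem lj_ind_mul (A B : Prop) : ind A * ind B = ind (A ∧ B) := by
  classical
  unfold ind
  by_cases hA : A <;> by_cases hB : B <;> simp [hA, hB]

private theorem lj_ind_nonneg (A : Prop) : 0 ≤ ind A := by
  classical
  unfold ind
  split_ifs <;> norm_num

private theorem lj_ind_mono {A B : Prop} (h : A → B) : ind A ≤ ind B := by
  classical
  unfold ind
  by_cases hA : A
  · simp [hA, h hA]
  · by_cases hB : B <;> simp [hA, hB]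

private theorem lj_card {V : Type} [DecidableEq V] (L : Finset V) (E : Finset (Sym2 V)) (m : ℕ)
    (ω : Finset (Sym2 V)) : ((JJ L E m ω).card : ℝ) =
      ∑ ub ∈ drt E, ind (m ≤ Xc L ω ub.1 ∧ m ≤ Xc L ω ub.2 ∧ ¬ con ω ub.1 ub.2) := by
  classical
  unfold JJ
  rw [Finset.card_filter, Nat.cast_sum]
  refine Finset.sum_congr rfl fun ub _ => ?_
  unfold ind
  by_cases h : m ≤ Xc L ω ub.1 ∧ m ≤ Xc L ω ub.2 ∧ ¬ con ω ub.1 ub.2
  · simp [h]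
  · simp [h]

private theorem lj_arith {c C₁ B η Q n m : ℝ} (hc : 0 < c) (hC : 1 ≤ C₁) (hB : 1 ≤ B)
    (hη : 0 < η) (hn : 1 ≤ n) (hQ : C₁ ^ 2 * B / (η ^ 2 * c ^ 2) ≤ Q) (hm : η * n ^ 4 ≤ m) :
    (C₁ * n ^ 2) ^ 2 * (B / Q) / (2 * m ^ 2) ≤ c ^ 2 / (2 * n ^ 4) := by
  have hQ0 : 0 < Q := lt_of_lt_of_le (by positivity) hQ
  have hm0 : 0 < m := lt_of_lt_of_le (by positivity) hm
  have hn0 : 0 < n := by linarith
  have h1 : C₁ ^ 2 * B ≤ Q * (η ^ 2 * c ^ 2) := by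
    rwa [div_le_iff₀ (by positivity)] at hQ
  have h2 : η ^ 2 * n ^ 8 ≤ m ^ 2 := by
    have : (η * n ^ 4) ^ 2 ≤ m ^ 2 := pow_le_pow_left₀ (by positivity) hm 2
    calc η ^ 2 * n ^ 8 = (η * n ^ 4) ^ 2 := by ring
      _ ≤ m ^ 2 := this
  rw [mul_div_assoc', div_div, div_le_div_iff₀ (by positivity) (by positivity)]
  calc (C₁ * n ^ 2) ^ 2 * B * (2 * n ^ 4) = 2 * n ^ 8 * (C₁ ^ 2 * B) := by ring
    _ ≤ 2 * n ^ 8 * (Q * (η ^ 2 * c ^ 2)) := mul_le_mul_of_nonneg_left h1 (by positivity)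
    _ = 2 * Q * c ^ 2 * (η ^ 2 * n ^ 8) := by ring
    _ ≤ 2 * Q * c ^ 2 * m ^ 2 := mul_le_mul_of_nonneg_left h2 (by positivity)
    _ = c ^ 2 * (Q * (2 * m ^ 2)) := by ring

theorem hLowJ (hBig : StBig) (hShift : StShift) (hP : StPair2) (hErr : StErr) (hLine : StLine)
    (hBn : StBn) (hB : StBasic) : StLowJ := by
  intro d C₁ B c₀ hE
  obtain ⟨η, c, c', hη, hη1, hc, hc', n₁, hn₁, hbig⟩ := hBig d C₁ B c₀ hE
  have hd : 21 ≤ d := hE.hd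
  have hd1 : 1 ≤ d := by omega
  -- the length `Lr`
  obtain ⟨Lr, hLr⟩ := exists_nat_gt (C₁ ^ 2 * B / (η ^ 2 * c ^ 2))
  have hC := hE.hC
  have hBB := hE.hB
  have hpos : 0 < C₁ ^ 2 * B / (η ^ 2 * c ^ 2) := by
    have : 0 < C₁ := by linarith
    have : 0 < B := by linarith
    positivity
  have hLr1 : 1 ≤ Lr := by
    have : (0 : ℝ) < Lr := hpos.trans hLr
    exact_mod_cast this
  have hLr2 : C₁ ^ 2 * B / (η ^ 2 * c ^ 2) ≤ 2 * (Lr : ℝ) ^ 2 := by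
    have h1 : (1 : ℝ) ≤ Lr := by exact_mod_cast hLr1
    nlinarith
  obtain ⟨J, hJ, c₂, hc₂, hsh⟩ := hShift d c' Lr hd1 hc' hLr1
  obtain ⟨c₃, hc₃, hline⟩ := hLine d (pH d) J Lr c₂ hd1 hE.p0 (hE.p1.trans (by norm_num)) hLr1 hc₂
  refine ⟨η, c₃ * (c ^ 2 / 2), hη, hη1, by positivity, max n₁ (max (J * Lr) 1), by simp, ?_⟩
  intro n hn
  have hnn₁ : n₁ ≤ n := (le_max_left _ _).trans hn
  have hnJ : J * Lr ≤ n := (le_max_left _ _).trans ((le_max_right _ _).trans hn)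
  have hn1 : 1 ≤ n := hn₁.trans hnn₁
  have hnr : (1 : ℝ) ≤ n := by exact_mod_cast hn1
  have hn0 : (0 : ℝ) < n := by linarith
  obtain ⟨G, hGs, hGp, hGc⟩ : ∃ G : Finset (Zd d), G ⊆ Bn d n ∧
      (∀ x ∈ G, c / (n : ℝ) ^ 2 ≤ pB d n (pH d) (fun ω => 2 * thr η n ≤ XB d n ω x)) ∧
      c' * (n : ℝ) ^ d ≤ G.card :=
    ⟨_, Finset.filter_subset _ _, fun x hx => (Finset.mem_filter.1 hx).2, hbig n hnn₁⟩
  obtain ⟨k, hk1, hkJ, hcard⟩ := hsh n G hnJ hGs hGc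
  obtain ⟨P, hPs, hPp, hPc⟩ : ∃ P : Finset (Zd d), P ⊆ G ∧
      (∀ x ∈ P, x + e0 (k * Lr) ∈ G) ∧ c₂ * (n : ℝ) ^ d ≤ P.card :=
    ⟨_, Finset.filter_subset _ _, fun x hx => (Finset.mem_filter.1 hx).2, hcard⟩
  obtain ⟨hFG, -, -, -, -⟩ := hBn d n
  set m : ℕ := thr η n with hm
  have hmr : η * (n : ℝ) ^ 4 ≤ m := Nat.le_ceil _
  have hm1 : 1 ≤ m := by
    have : 0 < η * (n : ℝ) ^ 4 := by positivity
    exact Nat.one_le_iff_ne_zero.2 (Nat.pos_iff_ne_zero.1 (Nat.ceil_pos.2 this))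
  set t : ℝ := c ^ 2 / (2 * (n : ℝ) ^ 4) with ht
  have hpair : ∀ a ∈ P, t ≤ eB d n (pH d) (fun ω =>
      (fun x y : ℕ => ind (m ≤ x ∧ m ≤ y)) (XB d n ω a) (XB d n ω (a + e0 (k * Lr))) *
        ind (¬ con ω a (a + e0 (k * Lr)))) := by
    intro a ha
    have haG := hPs ha
    have hbG := hPp a ha
    have h1 := hP (Zd d) (Bn d n) (ES (Bn d n)) (2 * d) (pH d) hFG hE.p0.le hE.p1 a (hGs haG)
      (a + e0 (k * Lr)) (hGs hbG) m hm1
    have h2 := hErr d C₁ B c₀ hE n hn1 a (hGs haG) (a + e0 (k * Lr)) (hGs hbG)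
    rw [add_sub_cancel_left] at h2
    have h3 : pairErr (Bn d n) (ES (Bn d n)) (pH d) a (a + e0 (k * Lr)) / (2 * (m : ℝ) ^ 2) ≤
        c ^ 2 / (2 * (n : ℝ) ^ 4) := by
      refine (div_le_div_of_nonneg_right h2 (by positivity)).trans ?_
      exact lj_arith hc hC hBB hη hnr (hLr2.trans (lj_Qw hd1 k Lr hk1)) hmr
    have h4 : c ^ 2 / (n : ℝ) ^ 4 ≤ pr (ES (Bn d n)) (pH d) (fun ω => 2 * m ≤ Xc (Bn d n) ω a) *
        pr (ES (Bn d n)) (pH d) (fun ω => 2 * m ≤ Xc (Bn d n) ω (a + e0 (k * Lr))) := by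
      have h5 : c / (n : ℝ) ^ 2 ≤ pr (ES (Bn d n)) (pH d) (fun ω => 2 * m ≤ Xc (Bn d n) ω a) :=
        hGp a haG
      have h6 : c / (n : ℝ) ^ 2 ≤ pr (ES (Bn d n)) (pH d)
          (fun ω => 2 * m ≤ Xc (Bn d n) ω (a + e0 (k * Lr))) := hGp _ hbG
      have h7 : c ^ 2 / (n : ℝ) ^ 4 = c / (n : ℝ) ^ 2 * (c / (n : ℝ) ^ 2) := by
        field_simp
      rw [h7]
      exact mul_le_mul h5 h6 (by positivity) (le_trans (by positivity) h5)
    have h8 : t ≤ pr (ES (Bn d n)) (pH d) (fun ω => m ≤ Xc (Bn d n) ω a ∧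
        m ≤ Xc (Bn d n) ω (a + e0 (k * Lr)) ∧ ¬ con ω a (a + e0 (k * Lr))) := by
      refine le_trans ?_ h1
      have h9 : c ^ 2 / (n : ℝ) ^ 4 = t + c ^ 2 / (2 * (n : ℝ) ^ 4) := by
        rw [ht]
        field_simp
        ring
      rw [h9] at h4
      linarith
    have h10 : eB d n (pH d) (fun ω =>
        (fun x y : ℕ => ind (m ≤ x ∧ m ≤ y)) (XB d n ω a) (XB d n ω (a + e0 (k * Lr))) *
          ind (¬ con ω a (a + e0 (k * Lr)))) =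
        pr (ES (Bn d n)) (pH d) (fun ω => m ≤ Xc (Bn d n) ω a ∧
        m ≤ Xc (Bn d n) ω (a + e0 (k * Lr)) ∧ ¬ con ω a (a + e0 (k * Lr))) := by
      unfold eB pr ex
      congr 1
      funext ω
      beta_reduce
      rw [lj_ind_mul, and_assoc]
      rfl
    rw [h10]
    exact h8
  have hmain := hline n k t P (fun x y : ℕ => ind (m ≤ x ∧ m ≤ y)) hk1 hkJ (by positivity)
    (fun a b => lj_ind_nonneg _)
    (fun a a' b b' h1 h2 => lj_ind_mono fun h => ⟨h.1.trans h1, h.2.trans h2⟩)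
    (hPs.trans hGs) (fun a ha => hGs (hPp a ha)) hPc hpair
  obtain ⟨-, -, -, -, -, hsum, -⟩ := hB (Zd d) (ES (Bn d n)) (pH d) hE.p0.le
    (hE.p1.trans (by norm_num))
  have hEJ : eB d n (pH d) (fun ω => ((JJ (Bn d n) (ES (Bn d n)) m ω).card : ℝ)) =
      ∑ ub ∈ drt (ES (Bn d n)), eB d n (pH d) (fun ω =>
        (fun x y : ℕ => ind (m ≤ x ∧ m ≤ y)) (XB d n ω ub.1) (XB d n ω ub.2) *
          ind (¬ con ω ub.1 ub.2)) := by
    unfold eB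
    rw [← hsum]
    congr 1
    funext ω
    rw [lj_card]
    refine Finset.sum_congr rfl fun ub _ => ?_
    beta_reduce
    rw [lj_ind_mul, and_assoc]
    rfl
  rw [hEJ]
  refine le_trans (le_of_eq ?_) hmain
  have hpow : (n : ℝ) ^ d = (n : ℝ) ^ (d - 4) * (n : ℝ) ^ 4 := by
    rw [← pow_add]
    congr 1
    omega
  rw [ht, hpow]
  field_simp

end Pool.NL
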