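import Pool.Agent.Helper22.NL.StM
import Pool.Agent.Helper84.LE.BWT
import Pool.Agent.Helper84.LE.BGR

set_option autoImplicit false

open scoped BigOperators
open Pool.LE

namespace Pool.NL

section MK

variable {V : Type} [DecidableEq V]

theorem mk_mul_left (E : Finset (Sym2 V)) (p c : ℝ) (f : Finset (Sym2 V) → ℝ) :
    Ex E p (fun ω => c * f ω) = c * Ex E p f := Ex_smul E p c f

theorem mk_mul_right (E : Finset (Sym2 V)) (p c : ℝ) (f : Finset (Sym2 V) → ℝ) :
    Ex E p (fun ω => f ω * c) = Ex E p f * c := by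
  rw [mul_comm, ← mk_mul_left]
  exact Ex_congr fun ω _ => mul_comm _ _

/-- independence of disjoint sets of edges -/
theorem mk_disj {E₁ E₂ : Finset (Sym2 V)} (hd : Disjoint E₁ E₂) (p : ℝ)
    (f g : Finset (Sym2 V) → ℝ) :
    Ex (E₁ ∪ E₂) p (fun ω => f (ω ∩ E₁) * g (ω ∩ E₂)) = Ex E₁ p f * Ex E₂ p g := by
  induction E₁ using Finset.induction_on generalizing f with
  | empty =>
    have h1 : Ex (∅ : Finset (Sym2 V)) p f = f ∅ := by simp [Ex, wt]
    rw [Finset.empty_union, h1, ← mk_mul_left]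
    refine Ex_congr fun ω hω => ?_
    rw [Finset.inter_empty, Finset.inter_eq_left.2 hω]
  | insert e E he ih =>
    have hd' : Disjoint E E₂ := Finset.disjoint_of_subset_left (Finset.subset_insert _ _) hd
    have he2 : e ∉ E₂ := fun h => (Finset.disjoint_left.1 hd) (Finset.mem_insert_self _ _) h
    have heU : e ∉ E ∪ E₂ := by simp [he, he2]
    rw [Finset.insert_union, sum_insert_wt heU, sum_insert_wt he]
    have h1 : Ex (E ∪ E₂) p (fun ω => f (ω ∩ insert e E) * g (ω ∩ E₂)) = Ex E p f * Ex E₂ p g := by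
      rw [← ih hd' f]
      refine Ex_congr fun ω hω => ?_
      rw [Finset.inter_insert_of_notMem (fun h => heU (hω h))]
    have h2 : Ex (E ∪ E₂) p (fun ω => f ((insert e ω) ∩ insert e E) * g ((insert e ω) ∩ E₂)) =
        Ex E p (fun ω => f (insert e ω)) * Ex E₂ p g := by
      rw [← ih hd' (fun ω => f (insert e ω))]
      refine Ex_congr fun ω hω => ?_
      rw [Finset.insert_inter_of_notMem he2, ← Finset.insert_inter_distrib]
    rw [h1, h2, add_mul, smul_mul_assoc, smul_mul_assoc]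

open Classical in
/-- the conditional independence for one value of the cluster -/
theorem mk_fixed (F : Finset (Sym2 V)) (p : ℝ) (T : Set V) (a : V)
    (G : Finset (Sym2 V) → ℝ) :
    Ex F p (fun η => (if cset η a = T then (1 : ℝ) else 0) * G (rst η T)) =
      Ex F p (fun η => (if cset η a = T then (1 : ℝ) else 0) * Ex F p (fun η => G (rst η T))) := by
  obtain ⟨F₁, hF₁⟩ : ∃ F₁, F₁ = F.filter (fun e => ∃ y ∈ e, y ∈ T) := ⟨_, rfl⟩
  obtain ⟨F₂, hF₂⟩ : ∃ F₂, F₂ = rst F T := ⟨_, rfl⟩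
  have hm₁ : ∀ e, e ∈ F₁ ↔ e ∈ F ∧ ∃ y ∈ e, y ∈ T := by
    intro e; rw [hF₁]; exact Finset.mem_filter
  have hm₂ : ∀ e, e ∈ F₂ ↔ e ∈ F ∧ ∀ y ∈ e, y ∉ T := by
    intro e; rw [hF₂]; exact mem_rst
  have hdisj : Disjoint F₁ F₂ := by
    rw [Finset.disjoint_left]
    intro e h1 h2
    obtain ⟨-, y, hy, hT⟩ := (hm₁ e).1 h1
    exact ((hm₂ e).1 h2).2 y hy hT
  have hunion : F₁ ∪ F₂ = F := by
    ext e
    rw [Finset.mem_union, hm₁, hm₂]
    constructor
    · rintro (h | h)
      · exact h.1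
      · exact h.1
    · intro h
      by_cases h' : ∃ y ∈ e, y ∈ T
      · exact Or.inl ⟨h, h'⟩
      · exact Or.inr ⟨h, fun y hy hT => h' ⟨y, hy, hT⟩⟩
  obtain ⟨φ, hφ⟩ : ∃ φ : Finset (Sym2 V) → ℝ,
      φ = fun η => if cset η a = T then (1 : ℝ) else 0 := ⟨_, rfl⟩
  obtain ⟨ψ, hψ⟩ : ∃ ψ : Finset (Sym2 V) → ℝ, ψ = fun η => G (rst η T) := ⟨_, rfl⟩
  have h1 : ∀ η ⊆ F, φ η = φ (η ∩ F₁) := by
    intro η hη
    have key : cset η a = T ↔ cset (η ∩ F₁) a = T := by
      constructor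
      · intro hT
        rw [← hT]
        ext y
        refine (con_iff_of_cluster (ω := η) (η := η ∩ F₁) (x := a) ?_ y).symm
        rintro f ⟨y, hy, hc⟩
        rw [Finset.mem_inter, hm₁]
        have hyT : y ∈ T := by rw [← hT]; exact hc
        exact ⟨fun h => ⟨h, hη h, y, hy, hyT⟩, fun h => h.1⟩
      · intro hT
        rw [← hT]
        ext y
        refine (con_iff_of_cluster (ω := η ∩ F₁) (η := η) (x := a) ?_ y).symm
        rintro f ⟨y, hy, hc⟩
        rw [Finset.mem_inter, hm₁]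
        have hyT : y ∈ T := by rw [← hT]; exact hc
        exact ⟨fun h => h.1, fun h => ⟨h, hη h, y, hy, hyT⟩⟩
    rw [hφ]
    dsimp only
    by_cases hT : cset η a = T
    · rw [if_pos hT, if_pos (key.1 hT)]
    · rw [if_neg hT, if_neg (fun h => hT (key.2 h))]
  have h2 : ∀ η ⊆ F, ψ η = ψ (η ∩ F₂) := by
    intro η hη
    rw [hψ]
    dsimp only
    have : rst η T = rst (η ∩ F₂) T := by
      ext e
      rw [mem_rst, mem_rst, Finset.mem_inter, hm₂]
      exact ⟨fun h => ⟨⟨h.1, hη h.1, h.2⟩, h.2⟩, fun h => ⟨h.1.1, h.2⟩⟩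
    rw [this]
  have hψE : Ex F p ψ = Ex F₂ p ψ := by
    rw [← Ex_inter (E := F) (F := F₂) (by rw [hF₂]; exact rst_subset _ _) p ψ]
    exact Ex_congr fun η hη => h2 η hη
  have hφE : Ex F p φ = Ex F₁ p φ := by
    rw [← Ex_inter (E := F) (F := F₁) (by rw [hF₁]; exact Finset.filter_subset _ _) p φ]
    exact Ex_congr fun η hη => h1 η hη
  have e1 : Ex F p (fun η => φ η * ψ η) = Ex F₁ p φ * Ex F₂ p ψ := by
    rw [← mk_disj hdisj, hunion]
    refine Ex_congr fun η hη => ?_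
    rw [← h1 η hη, ← h2 η hη]
  have e2 : Ex F p (fun η => φ η * Ex F p ψ) = Ex F₁ p φ * Ex F₂ p ψ := by
    rw [mk_mul_right, ← hφE, hψE]
  have e3 := e1.trans e2.symm
  rw [hφ, hψ] at e3
  exact e3

end MK

theorem hMK : StMK := by
  classical
  intro V _ E p a G
  unfold ex
  have h1 : ∀ g : Set V → Finset (Sym2 V) → ℝ,
      Ex E p (fun η => g (cset η a) η) =
        ∑ T ∈ E.powerset.image (fun η => cset η a),
          Ex E p (fun η => (if cset η a = T then (1 : ℝ) else 0) * g T η) := by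
    intro g
    rw [← Ex_sum]
    refine Ex_congr fun η hη => ?_
    rw [Finset.sum_eq_single (cset η a)]
    · rw [if_pos rfl, one_mul]
    · intro T _ hT
      rw [if_neg (fun h => hT h.symm), zero_mul]
    · intro h
      exact absurd (Finset.mem_image_of_mem _ (Finset.mem_powerset.2 hη)) h
  rw [h1 (fun T ω => G T (rst ω T)), h1 (fun T _ => Ex E p (fun η => G T (rst η T)))]
  exact Finset.sum_congr rfl fun T _ => mk_fixed E p T a (G T)

end Pool.NL
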