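import Pool.Agent.Helper22.NL.StZ

namespace Pool.NL
open Pool.LE

theorem hMany (hBn : StBn) : StMany := by
  classical
  intro d c C hc hC n k f hn hf hs
  set S := (Bn d n).filter (fun x => c / 2 * (n : ℝ) ^ k ≤ f x) with hS
  have hcard : ((Bn d n).card : ℝ) = (n : ℝ) ^ d := by
    have := (hBn d n).2.1
    exact_mod_cast this
  have hn0 : (0 : ℝ) < n := by exact_mod_cast hn
  have hnk : (0 : ℝ) < (n : ℝ) ^ k := pow_pos hn0 k
  have hnd : (0 : ℝ) < (n : ℝ) ^ d := pow_pos hn0 d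
  have h1 : ∑ x ∈ Bn d n, f x ≤ (S.card : ℝ) * (C * (n : ℝ) ^ k) +
      (n : ℝ) ^ d * (c / 2 * (n : ℝ) ^ k) := by
    rw [← Finset.sum_filter_add_sum_filter_not (Bn d n) (fun x => c / 2 * (n : ℝ) ^ k ≤ f x)]
    refine add_le_add ?_ ?_
    · have : ∑ x ∈ S, f x ≤ ∑ _x ∈ S, C * (n : ℝ) ^ k :=
        Finset.sum_le_sum (fun x hx => hf x (Finset.mem_filter.1 hx).1)
      rw [Finset.sum_const, nsmul_eq_mul] at this
      exact this
    · have h2 : ∑ x ∈ (Bn d n).filter (fun x => ¬ c / 2 * (n : ℝ) ^ k ≤ f x), f x ≤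
          ∑ _x ∈ (Bn d n).filter (fun x => ¬ c / 2 * (n : ℝ) ^ k ≤ f x), c / 2 * (n : ℝ) ^ k :=
        Finset.sum_le_sum (fun x hx => (not_le.1 (Finset.mem_filter.1 hx).2).le)
      rw [Finset.sum_const, nsmul_eq_mul] at h2
      refine h2.trans ?_
      refine mul_le_mul_of_nonneg_right ?_ (by positivity)
      rw [← hcard]
      exact_mod_cast Finset.card_filter_le _ _
  have h3 : c / 2 * (n : ℝ) ^ d * (n : ℝ) ^ k ≤ (S.card : ℝ) * C * (n : ℝ) ^ k := by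
    have h4 := hs.trans h1
    rw [pow_add] at h4
    nlinarith
  have h5 : c / 2 * (n : ℝ) ^ d ≤ (S.card : ℝ) * C := le_of_mul_le_mul_right h3 hnk
  have h6 : c / (2 * C) * (n : ℝ) ^ d = (c / 2 * (n : ℝ) ^ d) / C := by
    field_simp
  rw [h6, div_le_iff₀ hC]
  exact h5

end Pool.NL
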