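import Pool.Agent.Helper22.NL.StR
import Pool.Agent.Helper84.LE.BKP

set_option autoImplicit false

open scoped BigOperators ENNReal
open Pool.LE

namespace Pool.NL

variable {V : Type}

theorem mg_siz_eq (L : List (V × List V × V)) :
    (L.map (fun c => c.2.1.length + 1)).sum = siz L := by
  induction L with
  | nil => simp [siz]
  | cons c L ih =>
    simp only [siz, List.map_cons, List.sum_cons, List.length_cons] at ih ⊢
    omega

theorem mg_siz_cons (c : V × List V × V) (L : List (V × List V × V)) :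
    siz (c :: L) = siz L + c.2.1.length + 1 := by
  simp only [siz, List.map_cons, List.sum_cons, List.length_cons]
  omega

theorem mg_siz_ins (z : V) (L L' : List (V × List V × V)) (h : L' ∈ ins z L) :
    siz L' = siz L + 1 := by
  induction L generalizing L' with
  | nil => simp [ins] at h
  | cons c L ih =>
    rw [ins, List.mem_cons, List.mem_map] at h
    rcases h with h | ⟨M, hM, rfl⟩
    · subst h
      simp only [mg_siz_cons, List.length_cons]
      omega
    · rw [mg_siz_cons, mg_siz_cons, ih M hM]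
      omega

variable [DecidableEq V]

theorem mg_free {T : V → V → ENNReal} (h : ∀ x, 1 ≤ T x x) (L : List (V × List V × V)) :
    ∑' z : V, ((ins z L).map (cmL T)).sum ≤ ((siz L : ℕ) : ENNReal) * cmL (kc T T) L := by
  have h1 := free h L
  rw [mg_siz_eq] at h1
  exact h1

theorem hMassG : StMassG := by
  intro r
  induction r with
  | zero =>
    intro V _ T B hT _ L
    have h1 := mg_free hT L
    simp only [earS, aR, pow_zero, mul_one]
    rw [kp_two]
    exact h1
  | succ r ih =>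
    intro V _ T B hT hB L
    have hB' : ∀ x y, kp T (4 ^ (r + 1)) x y ≤ B := fun x y =>
      (kp_le_kp hT (Nat.pow_le_pow_right (by norm_num) (Nat.le_succ _)) x y).trans (hB x y)
    obtain ⟨S, hS⟩ : ∃ S, S = kp T (2 * 4 ^ r) := ⟨_, rfl⟩
    obtain ⟨S2, hS2⟩ : ∃ S2, S2 = kp T (4 ^ (r + 1)) := ⟨_, rfl⟩
    have hSS : kc S S = S2 := by
      rw [hS2, hS, ← kp_two, kp_mul]
      congr 1
      rw [pow_succ]
      ring
    have hSS2 : kc S2 S2 = kp T (2 * 4 ^ (r + 1)) := by
      rw [hS2, ← kp_two, kp_mul, mul_comm]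
    have hS1 : ∀ x, 1 ≤ S x x := fun x => by rw [hS]; exact one_le_kp hT _ x
    have hS21 : ∀ x, 1 ≤ S2 x x := fun x => by rw [hS2]; exact one_le_kp hT _ x
    have hSB : ∀ x y, S2 x y ≤ B := fun x y => by rw [hS2]; exact hB' x y
    obtain ⟨a, ha⟩ : ∃ a : ENNReal, a = (aR r (siz L + 4) : ENNReal) * B ^ r := ⟨_, rfl⟩
    -- the bound for one configuration
    have key : ∀ z₁ z₂ y : V, ∀ L₁ ∈ ins z₁ L, ∀ L₂ ∈ ins z₂ L₁,
        ∑' w : V, earS T r ((z₁, [y], z₂) :: L₂) w ≤ a * cmL S L₂ * (S z₁ y * S y z₂) := by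
      intro z₁ z₂ y L₁ h₁ L₂ h₂
      have h3 := ih V T B hT hB' ((z₁, [y], z₂) :: L₂)
      rw [mg_siz_cons, mg_siz_ins z₂ L₁ L₂ h₂, mg_siz_ins z₁ L L₁ h₁, ← hS, cmL_cons, cm_one] at h3
      have h4 : siz L + 1 + 1 + (z₁, [y], z₂).2.1.length + 1 = siz L + 4 := by
        simp
      rw [h4] at h3
      refine h3.trans (le_of_eq ?_)
      rw [ha]
      ring
    have s1 : ∑' w : V, earS T (r + 1) L w = ∑' z₁ : V, ∑' z₂ : V, ∑' y : V,
        ((ins z₁ L).map (fun L₁ => ((ins z₂ L₁).map (fun L₂ =>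
          ∑' w : V, earS T r ((z₁, [y], z₂) :: L₂) w)).sum)).sum := by
      simp only [earS]
      rw [ENNReal.tsum_comm]
      refine tsum_congr fun z₁ => ?_
      rw [ENNReal.tsum_comm]
      refine tsum_congr fun z₂ => ?_
      rw [ENNReal.tsum_comm]
      refine tsum_congr fun y => ?_
      rw [bkp_tsum_list_sum]
      congr 1
      refine List.map_congr_left fun L₁ _ => ?_
      rw [bkp_tsum_list_sum]
    have s2 : ∀ z₁ z₂ : V, ∑' y : V,
        ((ins z₁ L).map (fun L₁ => ((ins z₂ L₁).map (fun L₂ =>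
          ∑' w : V, earS T r ((z₁, [y], z₂) :: L₂) w)).sum)).sum ≤
        a * B * ((ins z₁ L).map (fun L₁ => ((ins z₂ L₁).map (cmL S)).sum)).sum := by
      intro z₁ z₂
      rw [bkp_tsum_list_sum, ← List.sum_map_mul_left]
      refine List.sum_le_sum fun L₁ h₁ => ?_
      rw [bkp_tsum_list_sum, ← List.sum_map_mul_left]
      refine List.sum_le_sum fun L₂ h₂ => ?_
      calc ∑' y : V, ∑' w : V, earS T r ((z₁, [y], z₂) :: L₂) w
          ≤ ∑' y : V, a * cmL S L₂ * (S z₁ y * S y z₂) :=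
            ENNReal.tsum_le_tsum fun y => key z₁ z₂ y L₁ h₁ L₂ h₂
        _ = a * cmL S L₂ * S2 z₁ z₂ := by
            rw [ENNReal.tsum_mul_left, ← hSS]
            rfl
        _ ≤ a * cmL S L₂ * B := mul_le_mul' le_rfl (hSB z₁ z₂)
        _ = a * B * cmL S L₂ := by ring
    have s3 : ∀ z₁ : V, ∑' z₂ : V, a * B *
        ((ins z₁ L).map (fun L₁ => ((ins z₂ L₁).map (cmL S)).sum)).sum ≤
        a * B * ((siz L + 1 : ℕ) : ENNReal) * ((ins z₁ L).map (cmL S2)).sum := by
      intro z₁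
      rw [ENNReal.tsum_mul_left, bkp_tsum_list_sum, mul_assoc (a * B)]
      refine mul_le_mul' le_rfl ?_
      rw [← List.sum_map_mul_left]
      refine List.sum_le_sum fun L₁ h₁ => ?_
      have h5 := mg_free hS1 L₁
      rw [mg_siz_ins z₁ L L₁ h₁, hSS] at h5
      exact h5
    rw [s1]
    calc _ ≤ ∑' z₁ : V, ∑' z₂ : V, a * B *
          ((ins z₁ L).map (fun L₁ => ((ins z₂ L₁).map (cmL S)).sum)).sum :=
          ENNReal.tsum_le_tsum fun z₁ => ENNReal.tsum_le_tsum fun z₂ => s2 z₁ z₂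
      _ ≤ ∑' z₁ : V, a * B * ((siz L + 1 : ℕ) : ENNReal) * ((ins z₁ L).map (cmL S2)).sum :=
          ENNReal.tsum_le_tsum fun z₁ => s3 z₁
      _ = a * B * ((siz L + 1 : ℕ) : ENNReal) * ∑' z₁ : V, ((ins z₁ L).map (cmL S2)).sum := by
          rw [ENNReal.tsum_mul_left]
      _ ≤ a * B * ((siz L + 1 : ℕ) : ENNReal) * (((siz L : ℕ) : ENNReal) * cmL (kc S2 S2) L) :=
          mul_le_mul' le_rfl (mg_free hS21 L)
      _ = (aR (r + 1) (siz L) : ENNReal) * B ^ (r + 1) * cmL (kp T (2 * 4 ^ (r + 1))) L := by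
          rw [hSS2, ha]
          simp only [aR]
          push_cast
          ring

end Pool.NL
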