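import Pool.Agent.Helper22.NL.StR
import Pool.Agent.Helper84.LE.BKP

/-! # Project NL: mass of one level -/

set_option autoImplicit false

open scoped BigOperators Polynomial ENNReal
open Polynomial Pool.LE

namespace Pool.NL

theorem massR_aR : aR 3 5 = 8353800 := by
  simp [aR]

theorem massR_kp3 {V : Type} [DecidableEq V] (S : V → V → ENNReal) (v s : V) :
    kp S 3 v s = ∑' z : V, S v z * ∑' y : V, S z y * S y s := by
  show kc S (kp S 2) v s = _
  rw [kp_two]
  rfl

theorem hMassR (h : StMassG) : StMassR := by
  intro V _ T B hT v s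
  set S : V → V → ENNReal := kp T 128 with hS
  have hB256 : ∀ x y, kp T (4 ^ (3 + 1)) x y ≤ B := fun x y =>
    (kp_le_kp hT.one_le (by norm_num) x y).trans (hT.le_B x y)
  have hSS : ∀ x y, ∑' u : V, S x u * S u y ≤ B := by
    intro x y
    have h1 : ∑' u : V, S x u * S u y = kp T 256 x y := by
      have h2 : kp T 256 = kp S 2 := by
        rw [hS, kp_mul]
      rw [h2, kp_two]
      rfl
    rw [h1]
    exact hB256 x y
  set K : ENNReal := 8353800 * B ^ 3 with hK
  have hstep : ∀ u t w' : V, ∑' w : V, earS T 3 [(v, [t, w'], s), (t, [u], w')] w ≤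
      K * ((S v t * S t w' * S w' s + S v w' * S w' t * S t s) * (S t u * S u w')) := by
    intro u t w'
    have h1 := h 3 V T B hT.one_le hB256 [(v, [t, w'], s), (t, [u], w')]
    refine h1.trans (le_of_eq ?_)
    have h2 : siz [(v, [t, w'], s), (t, [u], w')] = 5 := by simp [siz]
    have h3 : 2 * 4 ^ 3 = 128 := by norm_num
    rw [h2, massR_aR, h3, ← hS, cmL_cons, cmL_cons, cm_two, cm_one]
    have h4 : cmL S ([] : List (V × List V × V)) = 1 := by simp [cmL]
    rw [h4, mul_one, hK]
    norm_num
  calc ∑' u : V, ∑' w : V, coreR 3 T v s u w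
      = ∑' u : V, ∑' t : V, ∑' w' : V, ∑' w : V,
          earS T 3 [(v, [t, w'], s), (t, [u], w')] w := by
        refine tsum_congr fun u => ?_
        unfold coreR
        rw [ENNReal.tsum_comm]
        exact tsum_congr fun t => ENNReal.tsum_comm
    _ ≤ ∑' u : V, ∑' t : V, ∑' w' : V,
          K * ((S v t * S t w' * S w' s + S v w' * S w' t * S t s) * (S t u * S u w')) :=
        ENNReal.tsum_le_tsum fun u => ENNReal.tsum_le_tsum fun t =>
          ENNReal.tsum_le_tsum fun w' => hstep u t w'
    _ = ∑' t : V, ∑' w' : V, ∑' u : V,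
          K * ((S v t * S t w' * S w' s + S v w' * S w' t * S t s) * (S t u * S u w')) := by
        rw [ENNReal.tsum_comm]
        exact tsum_congr fun t => ENNReal.tsum_comm
    _ ≤ ∑' t : V, ∑' w' : V,
          K * B * (S v t * S t w' * S w' s + S v w' * S w' t * S t s) := by
        refine ENNReal.tsum_le_tsum fun t => ENNReal.tsum_le_tsum fun w' => ?_
        rw [ENNReal.tsum_mul_left, ENNReal.tsum_mul_left]
        calc K * ((S v t * S t w' * S w' s + S v w' * S w' t * S t s) *
              ∑' u : V, S t u * S u w')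
            ≤ K * ((S v t * S t w' * S w' s + S v w' * S w' t * S t s) * B) := by
              gcongr
              exact hSS t w'
          _ = _ := by ring
    _ = K * B * (2 * kp T 384 v s) := by
        have e1 : ∑' t : V, ∑' w' : V, S v t * S t w' * S w' s = kp T 384 v s := by
          have h2 : kp T 384 = kp S 3 := by rw [hS, kp_mul]
          rw [h2, massR_kp3]
          refine tsum_congr fun t => ?_
          rw [← ENNReal.tsum_mul_left]
          exact tsum_congr fun w' => mul_assoc _ _ _
        have e2 : ∑' t : V, ∑' w' : V, S v w' * S w' t * S t s = kp T 384 v s := by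
          rw [ENNReal.tsum_comm]
          exact e1
        have e3 : ∀ t : V, ∑' w' : V,
            K * B * (S v t * S t w' * S w' s + S v w' * S w' t * S t s) =
            K * B * (∑' w' : V, S v t * S t w' * S w' s +
              ∑' w' : V, S v w' * S w' t * S t s) := by
          intro t
          rw [ENNReal.tsum_mul_left, ENNReal.tsum_add]
        rw [tsum_congr e3, ENNReal.tsum_mul_left, ENNReal.tsum_add, e1, e2, two_mul]
    _ = 16707600 * (B ^ 4 * kp T 384 v s) := by
        rw [hK]
        ring
    _ ≤ 2 * 10 ^ 7 * (B ^ 4 * kp T 384 v s) := by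
        refine mul_le_mul' ?_ le_rfl
        norm_num
    _ = 2 * 10 ^ 7 * B ^ 4 * kp T 384 v s := by simp only [mul_assoc]

end Pool.NL
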