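import Pool.Agent.Helper22.NL.StZ

/-! # Project NL: moments in the box (module MomB) -/

set_option autoImplicit false

open scoped BigOperators ENNReal Topology
open Pool.LE

namespace Pool.NL

theorem hMomB (hM : StMomS) (hHub : StHub) (hHh : StHh) (hB : StBasic) (hBn : StBn) :
    StMomB := by
  intro d C₁ B c₀ hE n hn x hx
  obtain ⟨hFG, -, -, -, -⟩ := hBn d n
  have hp0 : 0 ≤ pH d := hE.p0.le
  have hp1 : pH d ≤ 1 := hE.p1.trans (by norm_num)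
  have hn1 : (1 : ℝ) ≤ n := by exact_mod_cast hn
  have hχ : 1 ≤ C₁ * (n : ℝ) ^ 2 := by
    have h1 : (1 : ℝ) ≤ (n : ℝ) ^ 2 := one_le_pow₀ hn1
    nlinarith [hE.hC]
  have hhub : ∀ x ∈ Bn d n, hh (Bn d n) (ES (Bn d n)) (pH d) x ≤ C₁ * (n : ℝ) ^ 2 :=
    fun x hx => hHub d C₁ B c₀ hE n hn x hx
  have hmom := hM (Zd d) (Bn d n) (ES (Bn d n)) (2 * d) (pH d) (C₁ * (n : ℝ) ^ 2) hFG hp0 hE.p1 hχ
    hhub x hx
  obtain ⟨hh1, -⟩ := hHh (Zd d) (Bn d n) (ES (Bn d n)) (2 * d) (pH d) hFG hp0 hp1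
  have h2 : eB d n (pH d) (fun ω => (XB d n ω x : ℝ) ^ 2) ≤ 8 * C₁ ^ 3 * (n : ℝ) ^ 6 := by
    have h := hmom 1 le_rfl
    refine (le_of_eq ?_).trans (h.trans (le_of_eq ?_))
    · rfl
    · push_cast; ring
  have h3 : eB d n (pH d) (fun ω => (XB d n ω x : ℝ) ^ 3) ≤ 128 * C₁ ^ 5 * (n : ℝ) ^ 10 := by
    have h := hmom 2 (by norm_num)
    refine (le_of_eq ?_).trans (h.trans (le_of_eq ?_))
    · rfl
    · push_cast; ring
  refine ⟨?_, h2, h3, ?_⟩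
  · have h := hh1 x
    have h' := hhub x hx
    rw [h] at h'
    exact h'
  · intro m hm
    have hm0 : (0 : ℝ) < (m : ℝ) ^ 2 := by
      have : (0 : ℝ) < m := by exact_mod_cast hm
      positivity
    obtain ⟨-, -, -, -, -, -, -, hmono, -, hmark⟩ :=
      hB (Zd d) (ES (Bn d n)) (pH d) hp0 hp1
    have e1 := hmark (fun ω => (XB d n ω x : ℝ) ^ 2) ((m : ℝ) ^ 2) (fun ω _ => by positivity) hm0
    have e2 : pB d n (pH d) (fun ω => m ≤ XB d n ω x) ≤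
        pr (ES (Bn d n)) (pH d) (fun ω => (m : ℝ) ^ 2 ≤ (XB d n ω x : ℝ) ^ 2) := by
      refine hmono _ _ fun ω _ h => ?_
      have h' : (m : ℝ) ≤ XB d n ω x := by exact_mod_cast h
      exact pow_le_pow_left₀ (Nat.cast_nonneg m) h' 2
    refine (e2.trans e1).trans ?_
    exact div_le_div_of_nonneg_right h2 hm0.le

end Pool.NL
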