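import Pool.Agent.Helper22.NL.StM
import Pool.Agent.Helper84.LE.BWT
import Pool.Agent.Helper84.LE.BGR
import Pool.Agent.Helper84.LE.BKP

/-! # Project NL: module MomS (moments of the cluster size) -/

set_option autoImplicit false

open scoped BigOperators ENNReal
open Pool.LE

namespace Pool.NL

section MomS

variable {V : Type} [DecidableEq V]

theorem moms_ExE_list_sum {ι : Type} (E : Finset (Sym2 V)) (p : ℝ)
    (f : ι → Finset (Sym2 V) → ENNReal) (S : List ι) :
    ExE E p (fun ω => (S.map (fun i => f i ω)).sum) = (S.map (fun i => ExE E p (f i))).sum := by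
  induction S with
  | nil => simp [ExE]
  | cons i S ih =>
    simp only [List.map_cons, List.sum_cons]
    rw [ExE_add, ih]

theorem moms_le_sum {ι : Type} {S : List ι} {i : ι} (hi : i ∈ S) (f : ι → ENNReal) :
    f i ≤ (S.map f).sum := by
  induction S with
  | nil => simp at hi
  | cons j S ih =>
    rw [List.map_cons, List.sum_cons]
    rcases List.mem_cons.1 hi with rfl | h
    · exact le_self_add
    · exact (ih h).trans le_add_self

omit [DecidableEq V] in
theorem moms_pts_ins (z : V) (L : List (V × List V × V)) : ∀ L' : List (V × List V × V),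
    L' ∈ ins z L → ∀ x ∈ pts L, x ∈ pts L' := by
  induction L with
  | nil => intro L' h; simp [ins] at h
  | cons c L ih =>
    intro L' h x hx
    simp only [ins, List.mem_cons, List.mem_map] at h
    rcases h with rfl | ⟨L'', hL'', rfl⟩
    · simp only [pts, List.flatMap_cons, List.mem_append, List.mem_cons] at hx ⊢
      rcases hx with (hx | hx | hx) | hx
      · exact Or.inl (Or.inl hx)
      · exact Or.inl (Or.inr (Or.inl hx))
      · exact Or.inl (Or.inr (Or.inr (Or.inr hx)))
      · exact Or.inr hx
    · simp only [pts, List.flatMap_cons, List.mem_append] at hx ⊢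
      rcases hx with hx | hx
      · exact Or.inl hx
      · exact Or.inr (ih L'' hL'' x hx)

omit [DecidableEq V] in
theorem moms_pts_cons (c : V × List V × V) (L : List (V × List V × V)) :
    ∀ x ∈ pts L, x ∈ pts (c :: L) := by
  intro x hx
  simp only [pts, List.flatMap_cons, List.mem_append] at hx ⊢
  exact Or.inr hx

/-- a connection is a chain without marks -/
theorem moms_DR_con {ω : Finset (Sym2 V)} {x y : V} (h : con ω x y) : DR [(x, [], y)] ω := by
  obtain ⟨q, hq, -⟩ := exists_path_dist h
  exact ⟨ω, Finset.Subset.refl _, ⟨q, hq.isTrail, fun m hm => by simp at hm⟩, trivial⟩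

omit [DecidableEq V] in
/-- the number of points of the cluster -/
theorem moms_Xc (L : Finset V) (ω : Finset (Sym2 V)) (x : V) [DecidablePred fun y => con ω x y] :
    (Xc L ω x : ENNReal) = ∑ y ∈ L, if con ω x y then (1 : ENNReal) else 0 := by
  classical
  unfold Xc clu
  rw [Finset.card_filter, Nat.cast_sum]
  refine Finset.sum_congr rfl fun y _ => ?_
  by_cases h : con ω x y
  · simp [h]
  · simp [h]

end MomS

theorem hMomS (hATT : StATT) (hDR : StDRBK) (hIns : StInsS) (hKer : StKer) (hB : StBasic)
    (hHh : StHh) (_hClu : StClu) : StMomS := by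
  classical
  intro V _ L E D p χ hFG h0 h12 hχ hhχ x hx r hr
  have h1 : p ≤ 1 := h12.trans (by norm_num)
  have hχ0 : 0 < χ := lt_of_lt_of_le one_pos hχ
  have hr0 : (0 : ℝ) < r := by exact_mod_cast hr
  obtain ⟨-, -, -, -, -, -, hPr, -⟩ := hB V E p h0 h1
  obtain ⟨-, hcp, -, hcp0, -⟩ := hHh V L E D p hFG h0 h1
  set T : V → V → ENNReal := fun a b => Pr E p (fun ω => con ω a b) with hT
  have hTcp : ∀ a b, T a b = ENNReal.ofReal (cp E p a b) := fun a b => (hPr _).2.2.1
  -- row sums
  have hrow : ∀ a, ∑' b, T a b ≤ ENNReal.ofReal χ := by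
    intro a
    by_cases ha : a ∈ L
    · have e1 : ∑' b, T a b = ∑ b ∈ L, T a b := by
        refine tsum_eq_sum fun b hb => ?_
        rw [hTcp, hcp0 a b ha hb, ENNReal.ofReal_zero]
      have e2 : ∑ b ∈ L, T a b = ENNReal.ofReal (hh L E p a) := by
        unfold hh
        rw [ENNReal.ofReal_sum_of_nonneg fun b _ => (hcp a b).2.1]
        exact Finset.sum_congr rfl fun b _ => hTcp a b
      rw [e1, e2]
      exact ENNReal.ofReal_le_ofReal (hhχ a ha)
    · have e1 : ∑' b, T a b = T a a := by
        refine tsum_eq_single a fun b hb => ?_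
        have e3 : T a b = Pr E p (fun _ => False) := by
          refine le_antisymm (Pr_mono fun ω hω hc => ?_) (Pr_mono fun ω _ hc => hc.elim)
          obtain ⟨c, -, hc2, -⟩ := con_cases hc (Ne.symm hb)
          exact ha (hFG.inside _ (hω hc2) a (Sym2.mem_mk_left a c))
        rw [e3]
        simp [Pr, ExE]
      rw [e1]
      refine (Pr_le_one h0 h1 E _).trans ?_
      rw [← ENNReal.ofReal_one]
      exact ENNReal.ofReal_le_ofReal hχ
  have hDom : Dom E p T := fun a b => le_rfl
  obtain ⟨S, hS0, hSrow, hSstep⟩ := hKer V T χ hχ hrow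
  set l : ℕ → ℝ := fun i => i / (2 * χ * r) with hl
  have hl0 : l 0 = 0 := by simp [hl]
  have hden : 0 < 2 * χ * r := by positivity
  have hlnn : ∀ i, 0 ≤ l i := fun i => by simp only [hl]; positivity
  have hlr : l r = 1 / (2 * χ) := by
    simp only [hl]
    field_simp
  have hllt : ∀ i, l i < l (i + 1) := by
    intro i
    simp only [hl]
    exact div_lt_div_of_pos_right (by push_cast; linarith) hden
  have hlle : ∀ i, i ≤ r → l i ≤ 1 / (2 * χ) := by
    intro i hi
    rw [← hlr]
    simp only [hl]
    exact div_le_div_of_nonneg_right (by exact_mod_cast hi) hden.le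
  have hldiff : ∀ i, 1 / (l (i + 1) - l i) = 2 * χ * r := by
    intro i
    have : l (i + 1) - l i = 1 / (2 * χ * r) := by
      simp only [hl]
      push_cast
      ring
    rw [this, one_div_one_div]
  have hcl : ∀ i, i ≤ r → ∀ c : List (V × List V × V), x ∈ pts c →
      ExE E p (fun ω => if DR c ω then (Xc L ω x : ENNReal) ^ i else 0) ≤
        ENNReal.ofReal ((4 * χ ^ 2 * r) ^ i) * cmL (S (l i)) c := by
    intro i
    induction i with
    | zero =>
      intro _ c _
      have e1 := hDR V E p T h0 h12 hDom c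
      have e2 : cmL (S (l 0)) c = cmL T c := by
        rw [hl0]
        exact le_antisymm (cmL_mono (fun a b => (hS0 a b).le) c)
          (cmL_mono (fun a b => (hS0 a b).ge) c)
      rw [e2, pow_zero, ENNReal.ofReal_one, one_mul]
      refine le_trans (le_of_eq ?_) e1
      unfold Pr
      exact ExE_congr fun ω _ => by simp
    | succ i ih =>
      intro hi c hxc
      have hi' : i ≤ r := by omega
      have hpt : ∀ ω, (if DR c ω then (Xc L ω x : ENNReal) ^ (i + 1) else 0) ≤
          ∑ y ∈ L, ∑' z : V, ((ins z c).map (fun c' =>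
            if DR ((z, [], y) :: c') ω then (Xc L ω x : ENNReal) ^ i else 0)).sum := by
        intro ω
        by_cases h : DR c ω
        swap
        · rw [if_neg h]; exact zero_le
        rw [if_pos h, pow_succ]
        conv_lhs => rw [moms_Xc L ω x]
        rw [Finset.mul_sum]
        refine Finset.sum_le_sum fun y _ => ?_
        by_cases hy : con ω x y
        swap
        · rw [if_neg hy, mul_zero]; exact zero_le
        rw [if_pos hy, mul_one, ← moms_Xc L ω x]
        obtain ⟨z, c', hc', hD'⟩ := hATT V ω c x y h hxc hy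
        refine le_trans ?_ (ENNReal.le_tsum z)
        refine le_trans ?_ (moms_le_sum hc' _)
        rw [if_pos hD']
      refine (ExE_mono fun ω _ => hpt ω).trans ?_
      rw [ExE_sum]
      have e1 : ∀ y ∈ L, ExE E p (fun ω => ∑' z : V, ((ins z c).map (fun c' =>
            if DR ((z, [], y) :: c') ω then (Xc L ω x : ENNReal) ^ i else 0)).sum) ≤
          ∑' z : V, S (l i) z y * (ENNReal.ofReal ((4 * χ ^ 2 * r) ^ i) *
            ((ins z c).map (cmL (S (l i)))).sum) := by
        intro y _
        rw [ExE_tsum]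
        refine ENNReal.tsum_le_tsum fun z => ?_
        rw [moms_ExE_list_sum, ← List.sum_map_mul_left, ← List.sum_map_mul_left]
        refine List.sum_le_sum fun c' hc' => ?_
        refine (ih hi' ((z, [], y) :: c') (moms_pts_cons _ _ x (moms_pts_ins z c c' hc' x hxc))).trans
          (le_of_eq ?_)
        rw [cmL_cons, cm_nil]
        ring
      refine (Finset.sum_le_sum e1).trans ?_
      have e2 : ∑ y ∈ L, ∑' z : V, S (l i) z y * (ENNReal.ofReal ((4 * χ ^ 2 * r) ^ i) *
            ((ins z c).map (cmL (S (l i)))).sum) ≤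
          ∑' z : V, ENNReal.ofReal (2 * χ) * (ENNReal.ofReal ((4 * χ ^ 2 * r) ^ i) *
            ((ins z c).map (cmL (S (l i)))).sum) := by
        rw [← Summable.tsum_finsetSum (fun _ _ => ENNReal.summable)]
        refine ENNReal.tsum_le_tsum fun z => ?_
        rw [← Finset.sum_mul]
        refine mul_le_mul' ?_ le_rfl
        exact (ENNReal.sum_le_tsum L).trans (hSrow (l i) (hlnn i) (hlle i hi') z)
      refine e2.trans ?_
      rw [ENNReal.tsum_mul_left, ENNReal.tsum_mul_left]
      have hst := hSstep (l (i + 1)) (l i) (hlnn i) (hllt i)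
      have e3 := hIns V (S (l (i + 1))) (S (l i)) (ENNReal.ofReal (1 / (l (i + 1) - l i)))
        (fun a b => (hst a b).1) (fun a b => (hst a b).2) c
      have e4 : ∑' z : V, ((ins z c).map (cmL (S (l i)))).sum ≤
          ENNReal.ofReal (2 * χ * r) * cmL (S (l (i + 1))) c := by
        rw [hldiff i] at e3
        exact le_self_add.trans e3
      calc ENNReal.ofReal (2 * χ) * (ENNReal.ofReal ((4 * χ ^ 2 * r) ^ i) *
            ∑' z : V, ((ins z c).map (cmL (S (l i)))).sum)
          ≤ ENNReal.ofReal (2 * χ) * (ENNReal.ofReal ((4 * χ ^ 2 * r) ^ i) *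
            (ENNReal.ofReal (2 * χ * r) * cmL (S (l (i + 1))) c)) := by gcongr
        _ = ENNReal.ofReal ((4 * χ ^ 2 * r) ^ (i + 1)) * cmL (S (l (i + 1))) c := by
          rw [← mul_assoc, ← mul_assoc, ← ENNReal.ofReal_mul (by positivity),
            ← ENNReal.ofReal_mul (by positivity)]
          congr 2
          ring
  -- the last step
  have hpt : ∀ ω, (Xc L ω x : ENNReal) ^ (r + 1) ≤
      ∑ y ∈ L, if DR [(x, [], y)] ω then (Xc L ω x : ENNReal) ^ r else 0 := by
    intro ω
    rw [pow_succ]
    conv_lhs => rw [moms_Xc L ω x]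
    rw [Finset.mul_sum]
    refine Finset.sum_le_sum fun y _ => ?_
    by_cases hy : con ω x y
    swap
    · rw [if_neg hy, mul_zero]; exact zero_le
    rw [if_pos hy, mul_one, ← moms_Xc L ω x, if_pos (moms_DR_con hy)]
  have hfin : ExE E p (fun ω => (Xc L ω x : ENNReal) ^ (r + 1)) ≤
      ENNReal.ofReal (2 * χ * (4 * χ ^ 2 * r) ^ r) := by
    refine (ExE_mono fun ω _ => hpt ω).trans ?_
    rw [ExE_sum]
    calc ∑ y ∈ L, ExE E p (fun ω => if DR [(x, [], y)] ω then (Xc L ω x : ENNReal) ^ r else 0)
        ≤ ∑ y ∈ L, ENNReal.ofReal ((4 * χ ^ 2 * r) ^ r) * S (l r) x y := by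
          refine Finset.sum_le_sum fun y _ => ?_
          refine (hcl r le_rfl [(x, [], y)] (by simp [pts])).trans (le_of_eq ?_)
          rw [cmL_cons, cm_nil]
          simp [cmL]
      _ = ENNReal.ofReal ((4 * χ ^ 2 * r) ^ r) * ∑ y ∈ L, S (l r) x y := by
          rw [Finset.mul_sum]
      _ ≤ ENNReal.ofReal ((4 * χ ^ 2 * r) ^ r) * ENNReal.ofReal (2 * χ) := by
          refine mul_le_mul' le_rfl ?_
          exact (ENNReal.sum_le_tsum L).trans (hSrow (l r) (hlnn r) (hlle r le_rfl) x)
      _ = ENNReal.ofReal (2 * χ * (4 * χ ^ 2 * r) ^ r) := by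
          rw [← ENNReal.ofReal_mul (by positivity)]
          congr 1
          ring
  have hconv : ExE E p (fun ω => (Xc L ω x : ENNReal) ^ (r + 1)) =
      ENNReal.ofReal (ex E p (fun ω => (Xc L ω x : ℝ) ^ (r + 1))) := by
    unfold ex
    rw [← ExE_ofReal h0 h1 E _ (fun ω => by positivity)]
    refine ExE_congr fun ω _ => ?_
    rw [ENNReal.ofReal_pow (Nat.cast_nonneg _), ENNReal.ofReal_natCast]
  rw [hconv] at hfin
  exact (ENNReal.ofReal_le_ofReal_iff (by positivity)).1 hfin

end Pool.NL
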