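import Pool.Agent.Helper22.NL.StR
import Pool.Agent.Helper84.LE.M_N0

/-! Project NL (MP_65faa7), module N0R: the zeroth term, third moment. -/

set_option autoImplicit false
set_option linter.unusedSectionVars false
open scoped BigOperators Polynomial ENNReal
open Polynomial Pool.LE

namespace Pool.NL

variable {V : Type} [DecidableEq V]

/-- the event of three points -/
def n0r_Ev (N : Finset V) (v x : V) (l : List V) (ω : Finset (Sym2 V)) : Prop :=
  ∃ η ⊆ ω, TR η (v, l, x) ∧ n0F N v x (ω \ η)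

theorem n0r_event (hM : StMenger) {E ω : Finset (Sym2 V)} (hω : ω ⊆ E) {nbf : V → Finset V}
    (hn : ∀ u b, s(u, b) ∈ E → b ∈ nbf u) {v x : V} (hx : x ≠ v) (hd : dbl ω v x) :
    ∃ P : (gr ω).Walk v x, P.IsPath ∧
      ∀ l : List V, (∀ y ∈ l, y ∈ P.support) → n0r_Ev (nbf v) v x l ω := by
  obtain ⟨P, Q, hP, hQ, hPQ⟩ := hM V ω v x hd
  refine ⟨P, hP, fun l hl => ⟨P.edges.toFinset, fun e he => mem_edges_gr P (List.mem_toFinset.1 he),
    n0_TR_of_walk (c := (v, l, x)) P hP.isTrail hl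
      (fun e he => List.mem_toFinset.2 he), ?_⟩⟩
  cases Q with
  | nil => exact absurd rfl hx
  | cons hadj Q' =>
    rename_i b
    rw [SimpleGraph.Walk.cons_isPath_iff] at hQ
    have hvb : s(v, b) ∈ ω := (gr_adj.1 hadj).1
    refine ⟨b, hn v b (hω hvb), {s(v, b)}, ?_, Finset.mem_singleton_self _, ?_⟩
    · intro e he
      rw [Finset.mem_singleton] at he
      subst he
      rw [Finset.mem_sdiff, List.mem_toFinset]
      refine ⟨hvb, fun h => hPQ _ h ?_⟩
      rw [SimpleGraph.Walk.edges_cons]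
      exact List.mem_cons_self
    · obtain ⟨q, -, -, -⟩ := exists_walk_of_edges
        (η := (ω \ P.edges.toFinset) \ {s(v, b)}) Q' (fun e he => by
          rw [Finset.mem_sdiff, Finset.mem_sdiff, List.mem_toFinset, Finset.mem_singleton]
          refine ⟨⟨mem_edges_gr Q' he, fun h => hPQ _ h ?_⟩, ?_⟩
          · rw [SimpleGraph.Walk.edges_cons]
            exact List.mem_cons_of_mem _ he
          · rintro rfl
            exact hQ.2 (Q'.fst_mem_support_of_mem_edges he))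
      exact ⟨q⟩

open Classical in
theorem n0r_cube (S : Finset V) (A : V → V → V → Prop)
    (hA : ∀ y₁ ∈ S, ∀ y₂ ∈ S, ∀ y₃ ∈ S, A y₁ y₂ y₃) :
    (S.card : ENNReal) ^ 3 ≤ ∑' y₁ : V, ∑' y₂ : V, ∑' y₃ : V, if A y₁ y₂ y₃ then (1 : ENNReal) else 0 := by
  calc (S.card : ENNReal) ^ 3 = ∑ y₁ ∈ S, ∑ y₂ ∈ S, ∑ y₃ ∈ S, (1 : ENNReal) := by
        simp only [Finset.sum_const, nsmul_eq_mul, mul_one]
        ring
    _ ≤ ∑ y₁ ∈ S, ∑ y₂ ∈ S, ∑ y₃ ∈ S, (if A y₁ y₂ y₃ then (1 : ENNReal) else 0) := by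
        refine Finset.sum_le_sum fun y₁ h₁ => Finset.sum_le_sum fun y₂ h₂ =>
          Finset.sum_le_sum fun y₃ h₃ => ?_
        rw [if_pos (hA y₁ h₁ y₂ h₂ y₃ h₃)]
    _ ≤ ∑ y₁ ∈ S, ∑ y₂ ∈ S, ∑' y₃ : V, (if A y₁ y₂ y₃ then (1 : ENNReal) else 0) :=
        Finset.sum_le_sum fun y₁ _ => Finset.sum_le_sum fun y₂ _ => ENNReal.sum_le_tsum _
    _ ≤ ∑ y₁ ∈ S, ∑' y₂ : V, ∑' y₃ : V, (if A y₁ y₂ y₃ then (1 : ENNReal) else 0) :=
        Finset.sum_le_sum fun y₁ _ => ENNReal.sum_le_tsum _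
    _ ≤ _ := ENNReal.sum_le_tsum _

theorem hN0R (hNN : StNNr) (hMenger : StMenger) (hBK : StBK) (hTR : StTRcm) : StN0R := by
  intro V _ E p T nbf h0 hp hT hn v x hx
  classical
  have h1 : p ≤ 1 := by linarith
  obtain ⟨hN0, -, -, -, -, -, -, -, -, hNX, -, hNE⟩ := hNN 3
  have key : NNr 3 (WW E p {v} v x) ≤
      ∑' y₁ : V, ∑' y₂ : V, ∑' y₃ : V, Pr E p (n0r_Ev (nbf v) v x [y₁, y₂, y₃]) := by
    unfold WW
    refine (hNE V E p _ h0 h1).trans ?_
    unfold Pr
    simp only [← ExE_tsum]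
    refine ExE_mono fun ω hω => ?_
    rw [n0_wA]
    by_cases hd : dbl ω v x
    · rw [if_pos hd, mon_of_con hd.1, hNX]
      obtain ⟨P, hP, hev⟩ := n0r_event hMenger hω hn hx hd
      have h2 : (gr ω).dist v x ≤ P.length := SimpleGraph.dist_le P
      have h3 : P.support.toFinset.card = P.length + 1 := by
        rw [List.toFinset_card_of_nodup hP.support_nodup, SimpleGraph.Walk.length_support]
      calc (1 + ((gr ω).dist v x : ENNReal)) ^ 3 ≤ (P.support.toFinset.card : ENNReal) ^ 3 := by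
            gcongr
            rw [h3, Nat.cast_add, Nat.cast_one, add_comm]
            gcongr
        _ ≤ _ := n0r_cube _ _ (fun y₁ h₁ y₂ h₂ y₃ h₃ => hev [y₁, y₂, y₃] (by
            intro y hy
            simp only [List.mem_cons, List.not_mem_nil, or_false] at hy
            rcases hy with rfl | rfl | rfl
            · exact List.mem_toFinset.1 h₁
            · exact List.mem_toFinset.1 h₂
            · exact List.mem_toFinset.1 h₃))
    · rw [if_neg hd, hN0]
      exact zero_le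
  refine key.trans (ENNReal.tsum_le_tsum fun y₁ => ENNReal.tsum_le_tsum fun y₂ =>
    ENNReal.tsum_le_tsum fun y₃ => ?_)
  refine (hBK V E p h0 hp _ _ (n0_TR_inc (v, [y₁, y₂, y₃], x)) (n0F_inc (nbf v) v x)).trans ?_
  exact mul_le_mul' (hTR V E p T h0 hp hT (v, [y₁, y₂, y₃], x))
    (n0F_Pr hBK h0 hp hT (nbf v) v x)

end Pool.NL
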