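import Pool.Agent.Helper84.LE.BWT
import Pool.Agent.Helper84.LE.BGR
import Pool.Agent.Helper22.NL.StM

/-! MP_65faa7, project NL: module N2. -/

set_option autoImplicit false
set_option linter.unusedSectionVars false

open scoped BigOperators ENNReal
open Pool.LE

namespace Pool.NL

variable {V : Type} [DecidableEq V]

/-- the edge `e` touches the cluster of `x` -/
private def tc (x : V) (e : Sym2 V) (ω : Finset (Sym2 V)) : Prop := ∃ v ∈ e, con ω x v

private noncomputable def TT (x : V) (e : Sym2 V) (ω : Finset (Sym2 V)) : ℝ := ind (tc x e ω)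

private theorem tc_mono {x : V} {e : Sym2 V} {ω η : Finset (Sym2 V)} (h : ω ⊆ η) (ht : tc x e ω) :
    tc x e η := by
  obtain ⟨v, hv, hc⟩ := ht
  exact ⟨v, hv, con_mono h hc⟩

/-- an edge which does not touch the cluster does not change it -/
private theorem con_insert_N2 {x : V} {f : Sym2 V} {ω : Finset (Sym2 V)} (hf : ¬ tc x f ω) (y : V) :
    con (insert f ω) x y ↔ con ω x y := by
  symm
  exact con_iff_of_cluster (ω := ω) (η := insert f ω) (x := x) (fun e he => by
    rw [Finset.mem_insert]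
    constructor
    · exact Or.inr
    · rintro (rfl | h)
      · exact absurd he hf
      · exact h) y

private theorem TT_insert_self (x : V) (e : Sym2 V) (ω : Finset (Sym2 V)) :
    TT x e (insert e ω) = TT x e ω := by
  unfold TT
  congr 1
  apply propext
  constructor
  · intro h
    by_contra hn
    obtain ⟨v, hv, hc⟩ := h
    exact hn ⟨v, hv, (con_insert_N2 hn v).1 hc⟩
  · exact tc_mono (Finset.subset_insert _ _)

private theorem TT_insert_other (x : V) (e f : Sym2 V) (ω : Finset (Sym2 V)) :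
    (TT x e (insert f ω) - TT x e ω) * (TT x f (insert e ω) - TT x f ω) = 0 := by
  by_cases hf : tc x f ω
  · have h1 : TT x f ω = 1 := by unfold TT ind; rw [if_pos hf]
    have h2 : TT x f (insert e ω) = 1 := by
      unfold TT ind; rw [if_pos (tc_mono (Finset.subset_insert _ _) hf)]
    rw [h1, h2, sub_self, mul_zero]
  · have h1 : TT x e (insert f ω) = TT x e ω := by
      unfold TT
      congr 1
      apply propext
      unfold tc
      constructor
      · rintro ⟨v, hv, hc⟩
        exact ⟨v, hv, (con_insert_N2 hf v).1 hc⟩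
      · rintro ⟨v, hv, hc⟩
        exact ⟨v, hv, (con_insert_N2 hf v).2 hc⟩
    rw [h1, sub_self, zero_mul]

private theorem TT_sq (x : V) (e : Sym2 V) (ω : Finset (Sym2 V)) : TT x e ω * TT x e ω = TT x e ω := by
  unfold TT ind
  split_ifs <;> simp

private theorem TT_nonneg (x : V) (e : Sym2 V) (ω : Finset (Sym2 V)) : 0 ≤ TT x e ω := by
  unfold TT ind
  split_ifs <;> simp

/-- one summand of the martingale -/
private noncomputable def gg (p : ℝ) (x : V) (e : Sym2 V) (ω : Finset (Sym2 V)) : ℝ :=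
  TT x e ω * (ind (e ∈ ω) - p)

private theorem NM_eq (E : Finset (Sym2 V)) (p : ℝ) (x : V) (ω : Finset (Sym2 V)) :
    NM E p ω x = ∑ e ∈ E, gg p x e ω := by
  unfold NM gg TT tc
  refine Finset.sum_congr rfl fun e _ => ?_
  by_cases h : ∃ v ∈ e, con ω x v
  · rw [if_pos h]
    unfold ind
    rw [if_pos h, one_mul]
  · rw [if_neg h]
    unfold ind
    rw [if_neg h, zero_mul]

private theorem one_edge {E : Finset (Sym2 V)} {e : Sym2 V} (he : e ∈ E) (p : ℝ)
    (f : Finset (Sym2 V) → ℝ) :
    Ex E p f = (1 - p) * Ex (E.erase e) p f + p * Ex (E.erase e) p (fun ω => f (insert e ω)) := by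
  have h := sum_insert_wt (Finset.notMem_erase e E) p f
  rw [Finset.insert_erase he] at h
  simpa only [smul_eq_mul] using h

private theorem gg_diag {E : Finset (Sym2 V)} {e : Sym2 V} (he : e ∈ E) (p : ℝ) (x : V) :
    Ex E p (fun ω => gg p x e ω * gg p x e ω) = p * (1 - p) * Ex E p (TT x e) := by
  rw [one_edge he p (fun ω => gg p x e ω * gg p x e ω), one_edge he p (TT x e)]
  have h1 : Ex (E.erase e) p (fun ω => gg p x e ω * gg p x e ω) =
      Ex (E.erase e) p (fun ω => p ^ 2 • TT x e ω) := by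
    refine Ex_congr fun ω hω => ?_
    have hn : e ∉ ω := fun h => Finset.notMem_erase e E (hω h)
    unfold gg
    have h2 : (ind (e ∈ ω) : ℝ) = 0 := by unfold ind; rw [if_neg hn]
    rw [h2, smul_eq_mul]
    have h3 := TT_sq x e ω
    linear_combination p ^ 2 * h3
  have h4 : Ex (E.erase e) p (fun ω => gg p x e (insert e ω) * gg p x e (insert e ω)) =
      Ex (E.erase e) p (fun ω => (1 - p) ^ 2 • TT x e ω) := by
    refine Ex_congr fun ω hω => ?_
    unfold gg
    have h2 : (ind (e ∈ insert e ω) : ℝ) = 1 := by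
      unfold ind; rw [if_pos (Finset.mem_insert_self _ _)]
    rw [h2, smul_eq_mul, TT_insert_self]
    have h3 := TT_sq x e ω
    linear_combination (1 - p) ^ 2 * h3
  have h5 : Ex (E.erase e) p (fun ω => TT x e (insert e ω)) = Ex (E.erase e) p (TT x e) :=
    Ex_congr fun ω _ => TT_insert_self x e ω
  rw [h1, h4, h5, Ex_smul, Ex_smul, smul_eq_mul, smul_eq_mul]
  ring

private theorem gg_off {E : Finset (Sym2 V)} {e f : Sym2 V} (he : e ∈ E) (hf : f ∈ E) (hef : e ≠ f)
    (p : ℝ) (x : V) : Ex E p (fun ω => gg p x e ω * gg p x f ω) = 0 := by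
  have hf' : f ∈ E.erase e := Finset.mem_erase.2 ⟨hef.symm, hf⟩
  rw [one_edge he, one_edge hf' p (fun ω => gg p x e ω * gg p x f ω),
    one_edge hf' p (fun ω => gg p x e (insert e ω) * gg p x f (insert e ω))]
  have key : Ex ((E.erase e).erase f) p (fun ω =>
      ((1 - p) * (1 - p)) • (gg p x e ω * gg p x f ω) +
      (((1 - p) * p) • (gg p x e (insert f ω) * gg p x f (insert f ω)) +
      ((p * (1 - p)) • (gg p x e (insert e ω) * gg p x f (insert e ω)) +
      (p * p) • (gg p x e (insert e (insert f ω)) * gg p x f (insert e (insert f ω)))))) = 0 := by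
    rw [← Ex_zero (M := ℝ) ((E.erase e).erase f) p]
    refine Ex_congr fun ω hω => ?_
    have hnf : f ∉ ω := fun h => Finset.notMem_erase f _ (hω h)
    have hne : e ∉ ω := fun h => Finset.notMem_erase e E (Finset.mem_of_mem_erase (hω h))
    have i1 : (ind (e ∈ ω) : ℝ) = 0 := by unfold ind; rw [if_neg hne]
    have i2 : (ind (f ∈ ω) : ℝ) = 0 := by unfold ind; rw [if_neg hnf]
    have i3 : (ind (e ∈ insert f ω) : ℝ) = 0 := by
      unfold ind
      rw [if_neg (by rw [Finset.mem_insert]; exact not_or.2 ⟨hef, hne⟩)]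
    have i4 : (ind (f ∈ insert f ω) : ℝ) = 1 := by
      unfold ind; rw [if_pos (Finset.mem_insert_self _ _)]
    have i5 : (ind (e ∈ insert e ω) : ℝ) = 1 := by
      unfold ind; rw [if_pos (Finset.mem_insert_self _ _)]
    have i6 : (ind (f ∈ insert e ω) : ℝ) = 0 := by
      unfold ind
      rw [if_neg (by rw [Finset.mem_insert]; exact not_or.2 ⟨hef.symm, hnf⟩)]
    have i7 : (ind (e ∈ insert e (insert f ω)) : ℝ) = 1 := by
      unfold ind; rw [if_pos (Finset.mem_insert_self _ _)]
    have i8 : (ind (f ∈ insert e (insert f ω)) : ℝ) = 1 := by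
      unfold ind; rw [if_pos (Finset.mem_insert_of_mem (Finset.mem_insert_self _ _))]
    have j1 : TT x e (insert e (insert f ω)) = TT x e (insert f ω) := TT_insert_self _ _ _
    have j2 : TT x f (insert e (insert f ω)) = TT x f (insert e ω) := by
      rw [Finset.insert_comm]; exact TT_insert_self _ _ _
    have j3 : TT x e (insert e ω) = TT x e ω := TT_insert_self _ _ _
    have j4 : TT x f (insert f ω) = TT x f ω := TT_insert_self _ _ _
    have j5 := TT_insert_other x e f ω
    unfold gg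
    simp only [smul_eq_mul]
    rw [i1, i2, i3, i4, i5, i6, i7, i8, j1, j2, j3, j4]
    linear_combination (p * p * (1 - p) * (1 - p)) * j5
  rw [Ex_add, Ex_add, Ex_add, Ex_smul, Ex_smul, Ex_smul, Ex_smul] at key
  simp only [smul_eq_mul] at key
  linear_combination key

theorem hN2 (_hE : StEdge) (_hB : StBasic) (hClu : StClu) (hHh : StHh) : StN2 := by
  intro V _ L E D p hFG h0 h1 x hx
  have hhx := (hHh V L E D p hFG h0 h1).1 x
  rw [hhx]
  -- the square
  have e1 : ex E p (fun ω => (NM E p ω x) ^ 2) = ∑ e ∈ E, ∑ f ∈ E,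
      Ex E p (fun ω => gg p x e ω * gg p x f ω) := by
    unfold ex
    have : (fun ω => (NM E p ω x) ^ 2) = fun ω => ∑ e ∈ E, ∑ f ∈ E, gg p x e ω * gg p x f ω := by
      funext ω
      rw [NM_eq, pow_two, Finset.sum_mul_sum]
    rw [this, Ex_sum]
    refine Finset.sum_congr rfl fun e _ => ?_
    rw [Ex_sum]
  have e2 : ∀ e ∈ E, ∑ f ∈ E, Ex E p (fun ω => gg p x e ω * gg p x f ω) =
      p * (1 - p) * Ex E p (TT x e) := by
    intro e he
    rw [Finset.sum_eq_single_of_mem e he (fun f hf hne => gg_off he hf (Ne.symm hne) p x), gg_diag he]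
  rw [e1, Finset.sum_congr rfl e2, ← Finset.mul_sum, ← Ex_sum]
  have hpp : p * (1 - p) ≤ 1 := by nlinarith
  have hpp0 : 0 ≤ p * (1 - p) := mul_nonneg h0 (by linarith)
  -- the number of touching edges
  have hcount : ∀ ω, ω ⊆ E → ∑ e ∈ E, TT x e ω ≤ D * (Xc L ω x : ℝ) := by
    intro ω hω
    obtain ⟨-, -, -, c4, -, c6, -⟩ := hClu V L E ω D hFG hω
    have s1 : ∑ e ∈ E, TT x e ω ≤ ∑ e ∈ E, ∑ y ∈ L, (if y ∈ e then ind (con ω x y) else 0) := by
      refine Finset.sum_le_sum fun e he => ?_
      have hnn : ∀ y ∈ L, (0 : ℝ) ≤ (if y ∈ e then ind (con ω x y) else 0) := by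
        intro y _
        unfold ind
        split_ifs <;> simp
      by_cases ht : tc x e ω
      · obtain ⟨v, hv, hc⟩ := ht
        have hvL : v ∈ L := c4 x v hx hc
        have : TT x e ω = (if v ∈ e then ind (con ω x v) else 0) := by
          rw [if_pos hv]
          unfold TT ind
          rw [if_pos ⟨v, hv, hc⟩, if_pos hc]
        rw [this]
        exact Finset.single_le_sum (f := fun y => (if y ∈ e then ind (con ω x y) else 0 : ℝ)) hnn hvL
      · have : TT x e ω = 0 := by unfold TT ind; rw [if_neg ht]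
        rw [this]
        exact Finset.sum_nonneg hnn
    refine s1.trans ?_
    rw [Finset.sum_comm, c6, Finset.mul_sum]
    refine Finset.sum_le_sum fun y hy => ?_
    rw [← Finset.sum_filter, Finset.sum_const, nsmul_eq_mul]
    refine mul_le_mul_of_nonneg_right ?_ ?_
    · exact_mod_cast hFG.deg y hy
    · unfold ind
      split_ifs <;> simp
  -- conclusion
  have hmono : Ex E p (fun ω => ∑ e ∈ E, TT x e ω) ≤ Ex E p (fun ω => D * (Xc L ω x : ℝ)) := by
    unfold Ex
    refine Finset.sum_le_sum fun ω hω => ?_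
    exact smul_le_smul_of_nonneg_left (hcount ω (Finset.mem_powerset.1 hω)) (wt_nonneg h0 h1 E ω)
  have hnn : 0 ≤ Ex E p (fun ω => ∑ e ∈ E, TT x e ω) := by
    unfold Ex
    refine Finset.sum_nonneg fun ω _ => ?_
    exact smul_nonneg (wt_nonneg h0 h1 E ω) (Finset.sum_nonneg fun e _ => TT_nonneg x e ω)
  have e3 : Ex E p (fun ω => D * (Xc L ω x : ℝ)) = D * ex E p (fun ω => (Xc L ω x : ℝ)) := by
    unfold ex
    exact Ex_smul E p (D : ℝ) (fun ω => (Xc L ω x : ℝ))
  rw [← e3]
  calc p * (1 - p) * Ex E p (fun ω => ∑ e ∈ E, TT x e ω)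
      ≤ 1 * Ex E p (fun ω => ∑ e ∈ E, TT x e ω) := mul_le_mul_of_nonneg_right hpp hnn
    _ = Ex E p (fun ω => ∑ e ∈ E, TT x e ω) := one_mul _
    _ ≤ _ := hmono

end Pool.NL
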