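import Pool.Agent.Helper22.NL.StR
import Pool.Agent.Helper84.LE.BNN

/-! # Project NL: calculus of the norm `NNr` -/

set_option autoImplicit false

open scoped BigOperators Polynomial ENNReal
open Polynomial Pool.LE

namespace Pool.NL

theorem NNr_zero (r : ℕ) : NNr r 0 = 0 := by
  unfold NNr
  simp

theorem NNr_mono_of_abs (r : ℕ) {P Q : ℝ[X]} (h : ∀ n, |P.coeff n| ≤ |Q.coeff n|) :
    NNr r P ≤ NNr r Q := by
  unfold NNr
  exact ENNReal.tsum_le_tsum fun n => mul_le_mul_right (ENNReal.ofReal_le_ofReal (h n)) _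

theorem NNr_congr_of_abs (r : ℕ) {P Q : ℝ[X]} (h : ∀ n, |P.coeff n| = |Q.coeff n|) :
    NNr r P = NNr r Q :=
  le_antisymm (NNr_mono_of_abs r fun n => (h n).le) (NNr_mono_of_abs r fun n => (h n).ge)

theorem NNr_add_le (r : ℕ) (P Q : ℝ[X]) : NNr r (P + Q) ≤ NNr r P + NNr r Q := by
  unfold NNr
  rw [← ENNReal.tsum_add]
  refine ENNReal.tsum_le_tsum fun n => ?_
  rw [← mul_add]
  refine mul_le_mul_right ?_ _
  rw [← ENNReal.ofReal_add (abs_nonneg _) (abs_nonneg _), Polynomial.coeff_add]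
  exact ENNReal.ofReal_le_ofReal (abs_add_le _ _)

theorem NNr_neg (r : ℕ) (P : ℝ[X]) : NNr r (-P) = NNr r P :=
  NNr_congr_of_abs r fun n => by rw [Polynomial.coeff_neg, abs_neg]

theorem NNr_sub_le (r : ℕ) (P Q : ℝ[X]) : NNr r (P - Q) ≤ NNr r P + NNr r Q := by
  rw [sub_eq_add_neg, ← NNr_neg r Q]
  exact NNr_add_le r _ _

theorem NNr_sum_le (r : ℕ) {ι : Type} (s : Finset ι) (f : ι → ℝ[X]) :
    NNr r (∑ i ∈ s, f i) ≤ ∑ i ∈ s, NNr r (f i) := by
  classical
  induction s using Finset.induction_on with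
  | empty => simp [NNr_zero]
  | insert i s hi ih =>
    rw [Finset.sum_insert hi, Finset.sum_insert hi]
    exact (NNr_add_le r _ _).trans (add_le_add le_rfl ih)

theorem NNr_smul (r : ℕ) {c : ℝ} (hc : 0 ≤ c) (P : ℝ[X]) :
    NNr r (c • P) = ENNReal.ofReal c * NNr r P := by
  unfold NNr
  rw [← ENNReal.tsum_mul_left]
  refine tsum_congr fun n => ?_
  rw [Polynomial.coeff_smul, smul_eq_mul, abs_mul, abs_of_nonneg hc, ENNReal.ofReal_mul hc]
  ring

theorem NNr_C_mul (r : ℕ) {c : ℝ} (hc : 0 ≤ c) (P : ℝ[X]) :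
    NNr r (Polynomial.C c * P) = ENNReal.ofReal c * NNr r P := by
  rw [← Polynomial.smul_eq_C_mul, NNr_smul r hc]

theorem NNr_X_pow (r n : ℕ) : NNr r (Polynomial.X ^ n) = (1 + (n : ENNReal)) ^ r := by
  unfold NNr
  rw [tsum_eq_single n]
  · rw [Polynomial.coeff_X_pow_self]
    simp
  · intro m hm
    rw [Polynomial.coeff_X_pow, if_neg hm]
    simp

theorem NNr_one (r : ℕ) : NNr r 1 = 1 := by
  have := NNr_X_pow r 0
  simpa using this

theorem NNr_X (r : ℕ) : NNr r Polynomial.X = 2 ^ r := by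
  have := NNr_X_pow r 1
  rw [pow_one] at this
  rw [this]
  norm_num

theorem NNr_mul_le (r : ℕ) (P Q : ℝ[X]) : NNr r (P * Q) ≤ NNr r P * NNr r Q := by
  have h1 : NNr r P * NNr r Q = ∑' n : ℕ, ∑ q ∈ Finset.HasAntidiagonal.antidiagonal n,
      ((1 + (q.1 : ENNReal)) ^ r * ENNReal.ofReal |P.coeff q.1|) *
        ((1 + (q.2 : ENNReal)) ^ r * ENNReal.ofReal |Q.coeff q.2|) := by
    rw [Pool.LE.tsum_sum_antidiagonal
      (fun q => ((1 + (q.1 : ENNReal)) ^ r * ENNReal.ofReal |P.coeff q.1|) *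
        ((1 + (q.2 : ENNReal)) ^ r * ENNReal.ofReal |Q.coeff q.2|)), ENNReal.tsum_prod']
    unfold NNr
    rw [← ENNReal.tsum_mul_right]
    exact tsum_congr fun i => ENNReal.tsum_mul_left.symm
  rw [h1]
  unfold NNr
  refine ENNReal.tsum_le_tsum fun n => ?_
  rw [Polynomial.coeff_mul]
  calc (1 + (n : ENNReal)) ^ r *
        ENNReal.ofReal |∑ x ∈ Finset.HasAntidiagonal.antidiagonal n, P.coeff x.1 * Q.coeff x.2|
      ≤ (1 + (n : ENNReal)) ^ r * ∑ x ∈ Finset.HasAntidiagonal.antidiagonal n,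
          ENNReal.ofReal |P.coeff x.1| * ENNReal.ofReal |Q.coeff x.2| := by
        refine mul_le_mul_right ?_ _
        refine (ENNReal.ofReal_le_ofReal (Finset.abs_sum_le_sum_abs _ _)).trans ?_
        rw [ENNReal.ofReal_sum_of_nonneg (fun _ _ => abs_nonneg _)]
        refine Finset.sum_le_sum fun x _ => ?_
        rw [abs_mul, ENNReal.ofReal_mul (abs_nonneg _)]
    _ ≤ _ := by
        rw [Finset.mul_sum]
        refine Finset.sum_le_sum fun x hx => ?_
        have hn : n = x.1 + x.2 := (Finset.HasAntidiagonal.mem_antidiagonal.1 hx).symm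
        have h2 : (1 + (n : ENNReal)) ≤ (1 + (x.1 : ENNReal)) * (1 + (x.2 : ENNReal)) := by
          rw [hn, Nat.cast_add]
          calc (1 : ENNReal) + ((x.1 : ENNReal) + (x.2 : ENNReal))
              ≤ 1 + ((x.1 : ENNReal) + (x.2 : ENNReal)) + (x.1 : ENNReal) * (x.2 : ENNReal) :=
                le_self_add
            _ = _ := by ring
        have h3 : (1 + (n : ENNReal)) ^ r ≤
            (1 + (x.1 : ENNReal)) ^ r * (1 + (x.2 : ENNReal)) ^ r := by
          rw [← mul_pow]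
          exact pow_le_pow_left' h2 r
        calc (1 + (n : ENNReal)) ^ r *
              (ENNReal.ofReal |P.coeff x.1| * ENNReal.ofReal |Q.coeff x.2|)
            ≤ ((1 + (x.1 : ENNReal)) ^ r * (1 + (x.2 : ENNReal)) ^ r) *
              (ENNReal.ofReal |P.coeff x.1| * ENNReal.ofReal |Q.coeff x.2|) :=
              mul_le_mul_left h3 _
          _ = _ := by ring

theorem NNr_neg_one_pow_mul (r N : ℕ) (P : ℝ[X]) : NNr r ((-1) ^ N * P) = NNr r P := by
  rcases neg_one_pow_eq_or ℝ[X] N with h | h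
  · rw [h, one_mul]
  · rw [h, neg_one_mul, NNr_neg]

theorem NNr_Ex_le (r : ℕ) {V : Type} [DecidableEq V] {p : ℝ} (h0 : 0 ≤ p) (h1 : p ≤ 1)
    (E : Finset (Sym2 V)) (f : Finset (Sym2 V) → ℝ[X]) :
    NNr r (Ex E p f) ≤ ExE E p (fun ω => NNr r (f ω)) := by
  unfold Ex ExE
  refine (NNr_sum_le r _ _).trans (le_of_eq ?_)
  refine Finset.sum_congr rfl fun ω _ => ?_
  exact NNr_smul r (mul_nonneg (pow_nonneg h0 _) (pow_nonneg (by linarith) _)) _

theorem hNNr : StNNr := by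
  intro r
  exact ⟨NNr_zero r, NNr_one r, NNr_X r, NNr_add_le r, NNr_sub_le r, NNr_mul_le r,
    fun _ P hc => NNr_C_mul r hc P, NNr_neg_one_pow_mul r, fun _ s f => NNr_sum_le r s f,
    NNr_X_pow r, fun _ _ h => NNr_mono_of_abs r h,
    fun _ _ E _ f h0 h1 => NNr_Ex_le r h0 h1 E f⟩

end Pool.NL
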