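import Pool.Agent.Helper84.LE.M_Nw
import Pool.Agent.Helper22.NL.StR

/-! MP_65faa7, project NL: module NwR. -/

set_option autoImplicit false
set_option linter.unusedSectionVars false

open scoped BigOperators Polynomial ENNReal
open Polynomial Pool.LE

namespace Pool.NL

variable {V : Type} [DecidableEq V]

open Classical in
theorem hNwR (hNN : StNNr) (hLU : StLastU) (_hBR : StBR) : StNwR := by
  intro r V _ ω A v u
  obtain ⟨n0, -, -, -, nsub, -, -, -, -, npow, -, -⟩ := hNN r
  -- one monomial
  have one : ∀ q : (gr ω).Walk v u, q.IsPath → NNr r (X ^ q.length : ℝ[X]) ≤ cntY ω v u ^ r := by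
    intro q hq
    rw [npow]
    exact pow_le_pow_left' (le_cntY q hq) r
  -- it is enough to find one `t` and one `s`
  have key : ∀ t s : V, s ∈ A → Bt ω v u t s → NNr r (wA ω A v u) ≤ 2 * cntY ω v u ^ r →
      NNr r (wA ω A v u) ≤ 2 * ∑' t : V, ∑' s : V,
        if s ∈ A ∧ Bt ω v u t s then
          (∑' y : V, if Yp ω v u y then (1 : ENNReal) else 0) ^ r else 0 := by
    intro t s hs hB hle
    refine hle.trans (mul_le_mul_right ?_ 2)
    refine le_trans ?_ (ENNReal.le_tsum t)
    refine le_trans ?_ (ENNReal.le_tsum s)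
    rw [if_pos ⟨hs, hB⟩]
    unfold cntY
    exact le_rfl
  have hzero : wA ω A v u = 0 → NNr r (wA ω A v u) ≤ 2 * ∑' t : V, ∑' s : V,
        if s ∈ A ∧ Bt ω v u t s then
          (∑' y : V, if Yp ω v u y then (1 : ENNReal) else 0) ^ r else 0 := by
    intro h
    rw [h, n0]
    exact zero_le
  obtain ⟨hU1, hU2⟩ := hLU V ω v u
  by_cases hd : dbl ω v u
  · -- no pivotal edge
    have hw : wA ω A v u = mon ω v u - monA ω A v u := by
      unfold wA
      rw [if_pos hd, Finset.sum_eq_zero, add_zero]
      intro cb _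
      rw [if_neg (fun h => hU1 _ _ hd h.1)]
    by_cases he : mon ω v u = monA ω A v u
    · exact hzero (by rw [hw, he, sub_self])
    · obtain ⟨s, hs, q, hq, hsq⟩ := exists_mem_of_ne hd.1 he
      refine key v s hs ⟨Or.inl rfl, hd, q, hq, hsq⟩ ?_
      rw [hw]
      refine (nsub _ _).trans ?_
      rw [two_mul]
      refine add_le_add ?_ ?_
      · obtain ⟨q₂, hq₂, h⟩ := mon_cases hd.1
        rw [h]
        exact one q₂ hq₂
      · rcases monA_cases ω A v u with h | ⟨q', hq', h⟩
        · rw [h, n0]; exact zero_le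
        · rw [h]
          exact one q' hq'
  · by_cases hex : ∃ c b, piv ω v u c b ∧ dbl ω b u
    · obtain ⟨c, b, hp, hdb⟩ := hex
      have hmem : (c, b) ∈ drt ω := mem_drt.2 hp.1
      have hw : wA ω A v u = X * monA ω A v c * (mon ω b u - monA ω A b u) := by
        unfold wA
        rw [if_neg hd, zero_add, Finset.sum_eq_single_of_mem (c, b) hmem]
        · rw [if_pos ⟨hp, hdb⟩]
        · intro cb _ hne
          rw [if_neg]
          rintro ⟨h1, h2⟩
          obtain ⟨e1, e2⟩ := hU2 _ _ _ _ hp hdb h1 h2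
          exact hne (Prod.ext e1.symm e2.symm)
      by_cases he : mon ω b u = monA ω A b u
      · exact hzero (by rw [hw, he, sub_self, mul_zero])
      rcases monA_cases ω A v c with h0 | ⟨q₁, hq₁, h0⟩
      · exact hzero (by rw [hw, h0, mul_zero, zero_mul])
      obtain ⟨s, hs, q, hq, hsq⟩ := exists_mem_of_ne hdb.1 he
      refine key b s hs ⟨Or.inr ⟨c, hp⟩, hdb, q, hq, hsq⟩ ?_
      rw [hw, h0, mul_sub]
      refine (nsub _ _).trans ?_
      rw [two_mul]
      have hone : ∀ q₂ : (gr ω).Walk b u, q₂.IsPath →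
          NNr r (X * X ^ q₁.length * X ^ q₂.length) ≤ cntY ω v u ^ r := by
        intro q₂ hq₂
        obtain ⟨q', hq', hl⟩ := path_concat hp q₁ hq₁ q₂ hq₂
        have e : (X * X ^ q₁.length * X ^ q₂.length : ℝ[X]) = X ^ q'.length := by
          rw [hl]; ring
        rw [e]
        exact one q' hq'
      refine add_le_add ?_ ?_
      · obtain ⟨q₂, hq₂, h⟩ := mon_cases hdb.1
        rw [h]
        exact hone q₂ hq₂
      · rcases monA_cases ω A b u with h | ⟨q₂, hq₂, h⟩
        · rw [h, mul_zero, n0]; exact zero_le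
        · rw [h]
          exact hone q₂ hq₂
    · apply hzero
      unfold wA
      rw [if_neg hd, zero_add, Finset.sum_eq_zero]
      intro cb _
      rw [if_neg (fun h => hex ⟨_, _, h⟩)]

end Pool.NL
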