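import Pool.Agent.Helper22.NL.StM
import Pool.Agent.Helper84.LE.BWT
import Pool.Agent.Helper84.LE.BGR

set_option autoImplicit false

open scoped BigOperators
open Pool.LE

namespace Pool.NL

section Off

variable {V : Type} [DecidableEq V]

/-- a connection which is destroyed by the restriction passes through `S` -/
theorem off_path {ω : Finset (Sym2 V)} {S : Set V} {b y : V}
    (h : con ω b y) (h' : ¬ con (rst ω S) b y) :
    ∃ w, w ∈ S ∧ con ω b w ∧ ∃ η ⊆ ω, con η b w ∧ con (ω \ η) w y := by
  classical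
  obtain ⟨q0⟩ := h
  obtain ⟨q, hq⟩ : ∃ q : (gr ω).Walk b y, q.IsPath := ⟨q0.bypass, q0.bypass_isPath⟩
  have hw : ∃ w ∈ q.support, w ∈ S := by
    by_contra hn
    push Not at hn
    apply h'
    have hr : ∀ e ∈ q.edges, e ∈ rst ω S := by
      intro e he
      rw [mem_rst]
      refine ⟨mem_edges_gr q he, ?_⟩
      intro v hv
      induction e using Sym2.ind with
      | _ a c =>
        rcases Sym2.mem_iff.1 hv with rfl | rfl
        · exact hn _ (q.fst_mem_support_of_mem_edges he)
        · exact hn _ (q.snd_mem_support_of_mem_edges he)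
    obtain ⟨q', -⟩ := exists_walk_of_edges q hr
    exact ⟨q'⟩
  obtain ⟨w, hwq, hwS⟩ := hw
  refine ⟨w, hwS, ⟨q.takeUntil w hwq⟩, (q.takeUntil w hwq).edges.toFinset, ?_, ?_, ?_⟩
  · intro e he
    rw [List.mem_toFinset] at he
    exact mem_edges_gr _ he
  · obtain ⟨q', -⟩ := exists_walk_of_edges (η := (q.takeUntil w hwq).edges.toFinset)
      (q.takeUntil w hwq) (fun e he => List.mem_toFinset.2 he)
    exact ⟨q'⟩
  · have hnd : (q.takeUntil w hwq).edges.Disjoint (q.dropUntil w hwq).edges := by
      have h1 : q.edges.Nodup := hq.isTrail.edges_nodup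
      have h2 : q.edges = (q.takeUntil w hwq).edges ++ (q.dropUntil w hwq).edges := by
        rw [← SimpleGraph.Walk.edges_append, SimpleGraph.Walk.take_spec]
      rw [h2] at h1
      exact List.disjoint_of_nodup_append h1
    obtain ⟨q', -⟩ := exists_walk_of_edges (η := ω \ (q.takeUntil w hwq).edges.toFinset)
      (q.dropUntil w hwq) (fun e he => by
        rw [Finset.mem_sdiff, List.mem_toFinset]
        exact ⟨mem_edges_gr _ he, fun h => hnd h he⟩)
    exact ⟨q'⟩

theorem off_ind_nonneg (A : Prop) : 0 ≤ ind A := by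
  unfold ind
  split_ifs <;> norm_num

theorem off_ind_le_one (A : Prop) : ind A ≤ 1 := by
  unfold ind
  split_ifs <;> norm_num

theorem off_ind_of {A : Prop} (h : A) : ind A = 1 := if_pos h

theorem off_ind_not {A : Prop} (h : ¬ A) : ind A = 0 := if_neg h

end Off

open Classical in
theorem hOff (hBK : StBK) (hB : StBasic) (hHh : StHh) (hClu : StClu) : StOff := by
  intro V _ L E D p hFG hp0 hp2 S b hb
  have hp1 : p ≤ 1 := by linarith
  obtain ⟨hHx, hcp, hcpx, hcpn, hh1⟩ := hHh V L E D p hFG hp0 hp1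
  obtain ⟨hmono, hconst, hadd, hsub, hmul, hsum, hpr, hprm, -, -⟩ := hB V E p hp0 hp1
  have hle : ∀ ω, ω ⊆ E → Xr L S ω b ≤ Xc L ω b := by
    intro ω hω
    unfold Xr
    split_ifs with h
    · exact Nat.zero_le _
    · exact ((hClu V L E (rst ω S) D hFG ((rst_subset ω S).trans hω)).2.2.2.2.1 ω
        (rst_subset ω S) b).2
  refine ⟨hle, ?_⟩
  have hhn : ∀ w, 0 ≤ hh L E p w := fun w => Finset.sum_nonneg fun y _ => (hcp w y).2.1
  by_cases hbS : b ∈ S
  · have h1 : ex E p (fun ω => (Xc L ω b : ℝ) - Xr L S ω b) = hh L E p b := by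
      rw [hHx b]
      have : (fun ω : Finset (Sym2 V) => (Xc L ω b : ℝ) - Xr L S ω b)
          = fun ω => (Xc L ω b : ℝ) := by
        funext ω
        unfold Xr
        rw [if_pos hbS]
        simp
      rw [this]
    rw [h1]
    refine le_trans (le_of_eq ?_) (Finset.single_le_sum (f := fun w =>
      (if w ∈ S then 1 else 0) * (cp E p b w * hh L E p w)) (fun w _ => ?_) hb)
    · rw [if_pos hbS, hcpx b]
      ring
    · refine mul_nonneg ?_ (mul_nonneg (hcp b w).2.1 (hhn w))
      split_ifs <;> norm_num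
  · -- the pointwise bound
    have hpt : ∀ ω, ω ⊆ E → (Xc L ω b : ℝ) - Xr L S ω b ≤
        ∑ y ∈ L, ∑ w ∈ L, (if w ∈ S then 1 else 0) *
          ind (∃ η ⊆ ω, con η b w ∧ con (ω \ η) w y) := by
      intro ω hω
      have e1 : (Xc L ω b : ℝ) = ∑ y ∈ L, ind (con ω b y) :=
        (hClu V L E ω D hFG hω).2.2.2.2.2.1 b
      have e2 : (Xr L S ω b : ℝ) = ∑ y ∈ L, ind (con (rst ω S) b y) := by
        unfold Xr
        rw [if_neg hbS]
        exact (hClu V L E (rst ω S) D hFG ((rst_subset ω S).trans hω)).2.2.2.2.2.1 b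
      rw [e1, e2, ← Finset.sum_sub_distrib]
      refine Finset.sum_le_sum fun y _ => ?_
      have hnn : 0 ≤ ∑ w ∈ L, (if w ∈ S then (1 : ℝ) else 0) *
          ind (∃ η ⊆ ω, con η b w ∧ con (ω \ η) w y) :=
        Finset.sum_nonneg fun w _ => mul_nonneg (by split_ifs <;> norm_num) (off_ind_nonneg _)
      by_cases hc : con ω b y
      · by_cases hc' : con (rst ω S) b y
        · rw [off_ind_of hc, off_ind_of hc', sub_self]
          exact hnn
        · rw [off_ind_of hc, off_ind_not hc', sub_zero]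
          obtain ⟨w, hwS, hbw, hw⟩ := off_path hc hc'
          have hwL : w ∈ L := (hClu V L E ω D hFG hω).2.2.2.1 b w hb hbw
          refine le_trans (le_of_eq ?_) (Finset.single_le_sum (f := fun w =>
            (if w ∈ S then (1 : ℝ) else 0) * ind (∃ η ⊆ ω, con η b w ∧ con (ω \ η) w y))
            (fun w _ => mul_nonneg (by split_ifs <;> norm_num) (off_ind_nonneg _)) hwL)
          rw [if_pos hwS, off_ind_of hw, mul_one]
      · rw [off_ind_not hc]
        have := off_ind_nonneg (con (rst ω S) b y)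
        linarith
    have hbk : ∀ w y, pr E p (fun ω => ∃ η ⊆ ω, con η b w ∧ con (ω \ η) w y) ≤
        cp E p b w * cp E p w y := by
      intro w y
      have h1 := hBK V E p hp0 hp2 (fun η => con η b w) (fun η => con η w y)
        (fun ω η h hc => con_mono h hc) (fun ω η h hc => con_mono h hc)
      rw [(hpr _).2.2.1, (hpr _).2.2.1, (hpr _).2.2.1, ← ENNReal.ofReal_mul (hpr _).1] at h1
      exact (ENNReal.ofReal_le_ofReal_iff (mul_nonneg (hpr _).1 (hpr _).1)).1 h1
    calc ex E p (fun ω => (Xc L ω b : ℝ) - Xr L S ω b)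
        ≤ ex E p (fun ω => ∑ y ∈ L, ∑ w ∈ L, (if w ∈ S then 1 else 0) *
            ind (∃ η ⊆ ω, con η b w ∧ con (ω \ η) w y)) := hmono _ _ hpt
      _ = ∑ y ∈ L, ∑ w ∈ L, (if w ∈ S then 1 else 0) *
            pr E p (fun ω => ∃ η ⊆ ω, con η b w ∧ con (ω \ η) w y) := by
          rw [hsum]
          refine Finset.sum_congr rfl fun y _ => ?_
          rw [hsum]
          refine Finset.sum_congr rfl fun w _ => ?_
          rw [hmul]
          rfl
      _ ≤ ∑ y ∈ L, ∑ w ∈ L, (if w ∈ S then 1 else 0) * (cp E p b w * cp E p w y) := by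
          refine Finset.sum_le_sum fun y _ => Finset.sum_le_sum fun w _ => ?_
          exact mul_le_mul_of_nonneg_left (hbk w y) (by split_ifs <;> norm_num)
      _ = ∑ w ∈ L, (if w ∈ S then 1 else 0) * (cp E p b w * hh L E p w) := by
          rw [Finset.sum_comm]
          refine Finset.sum_congr rfl fun w _ => ?_
          rw [← Finset.mul_sum, ← Finset.mul_sum]
          rfl

end Pool.NL
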