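import Pool.Agent.Helper22.NL.StM

/-! # Project NL: module PZ (Paley-Zygmund and Markov) -/

set_option autoImplicit false

open scoped BigOperators ENNReal
open Pool.LE

namespace Pool.NL

theorem hPZ (hB : StBasic) : StPZ := by
  classical
  intro V _ E p h0 h1 Y Y₁ Y₂ Y₃ a b k₁ k₂ k₃ hY ha hb haE hbE hk1 hk2 hk3 e1 e2 e3
  obtain ⟨hmono, hconst, hadd, hsub, hmul, hsum, hpr, hprm, hcs, hmk⟩ := hB V E p h0 h1
  have ind01 : ∀ A : Prop, 0 ≤ ind A ∧ ind A ≤ 1 ∧ ind A ^ 2 = ind A := by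
    intro A
    unfold ind
    split_ifs <;> norm_num
  have indT : ∀ A : Prop, A → ind A = 1 := fun A h => by unfold ind; rw [if_pos h]
  have indF : ∀ A : Prop, ¬ A → ind A = 0 := fun A h => by unfold ind; rw [if_neg h]
  -- Paley-Zygmund
  set P : ℝ := pr E p (fun ω => a / 2 ≤ Y ω) with hPdef
  have hP0 : 0 ≤ P := (hpr _).1
  have hex : ex E p (fun ω => ind (a / 2 ≤ Y ω)) = P := rfl
  have s1 : ex E p Y ≤ a / 2 + ex E p (fun ω => Y ω * ind (a / 2 ≤ Y ω)) := by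
    have h := hmono Y (fun ω => a / 2 + Y ω * ind (a / 2 ≤ Y ω)) (fun ω hω => by
      have h0 := (hY ω hω).1
      by_cases hc : a / 2 ≤ Y ω
      · rw [indT _ hc]; linarith
      · rw [indF _ hc]; linarith)
    have h2 := hadd (fun _ => a / 2) (fun ω => Y ω * ind (a / 2 ≤ Y ω))
    rw [hconst] at h2
    rw [h2] at h
    exact h
  have s2 : (ex E p (fun ω => Y ω * ind (a / 2 ≤ Y ω))) ^ 2 ≤ b * P := by
    have h := hcs Y (fun ω => ind (a / 2 ≤ Y ω))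
    have h3 : (fun ω => ind (a / 2 ≤ Y ω) ^ 2) = fun ω => ind (a / 2 ≤ Y ω) := by
      funext ω
      exact (ind01 _).2.2
    rw [h3, hex] at h
    exact h.trans (mul_le_mul_of_nonneg_right hbE hP0)
  have s3 : a / 2 ≤ ex E p (fun ω => Y ω * ind (a / 2 ≤ Y ω)) := by linarith
  have s4 : a ^ 2 / (4 * b) ≤ P := by
    rw [div_le_iff₀ (by positivity)]
    nlinarith [mul_self_nonneg (ex E p (fun ω => Y ω * ind (a / 2 ≤ Y ω)) - a / 2)]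
  -- Markov
  have mk : ∀ (Z : Finset (Sym2 V) → ℝ) (k : ℝ), (∀ ω, ω ⊆ E → 0 ≤ Z ω) → 0 < k → ex E p Z ≤ k →
      pr E p (fun ω => 24 * b / a ^ 2 * k ≤ Z ω) ≤ a ^ 2 / (24 * b) := by
    intro Z k hZ hk hZk
    have hc : 0 < 24 * b / a ^ 2 * k := by positivity
    refine (hmk Z _ hZ hc).trans ?_
    refine (div_le_div_of_nonneg_right hZk hc.le).trans (le_of_eq ?_)
    field_simp
  have m1 := mk Y₁ k₁ (fun ω hω => (hY ω hω).2.1) hk1 e1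
  have m2 := mk Y₂ k₂ (fun ω hω => (hY ω hω).2.2.1) hk2 e2
  have m3 := mk Y₃ k₃ (fun ω hω => (hY ω hω).2.2.2) hk3 e3
  -- union bound
  set G : Finset (Sym2 V) → Prop := fun ω => a / 2 ≤ Y ω ∧ Y₁ ω ≤ 24 * b / a ^ 2 * k₁ ∧
        Y₂ ω ≤ 24 * b / a ^ 2 * k₂ ∧ Y₃ ω ≤ 24 * b / a ^ 2 * k₃ with hG
  have u1 : P ≤ pr E p G + (pr E p (fun ω => 24 * b / a ^ 2 * k₁ ≤ Y₁ ω) +
      (pr E p (fun ω => 24 * b / a ^ 2 * k₂ ≤ Y₂ ω) + pr E p (fun ω => 24 * b / a ^ 2 * k₃ ≤ Y₃ ω))) := by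
    have h := hmono (fun ω => ind (a / 2 ≤ Y ω)) (fun ω => ind (G ω) +
      (ind (24 * b / a ^ 2 * k₁ ≤ Y₁ ω) + (ind (24 * b / a ^ 2 * k₂ ≤ Y₂ ω) +
        ind (24 * b / a ^ 2 * k₃ ≤ Y₃ ω)))) (fun ω _ => by
      have g0 := (ind01 (G ω)).1
      have g1 := (ind01 (24 * b / a ^ 2 * k₁ ≤ Y₁ ω)).1
      have g2 := (ind01 (24 * b / a ^ 2 * k₂ ≤ Y₂ ω)).1
      have g3 := (ind01 (24 * b / a ^ 2 * k₃ ≤ Y₃ ω)).1
      by_cases hc : a / 2 ≤ Y ω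
      · rw [indT _ hc]
        by_cases c1 : 24 * b / a ^ 2 * k₁ ≤ Y₁ ω
        · rw [indT _ c1]; linarith
        · by_cases c2 : 24 * b / a ^ 2 * k₂ ≤ Y₂ ω
          · rw [indT _ c2]; linarith
          · by_cases c3 : 24 * b / a ^ 2 * k₃ ≤ Y₃ ω
            · rw [indT _ c3]; linarith
            · rw [indT (G ω) ⟨hc, (not_le.1 c1).le, (not_le.1 c2).le, (not_le.1 c3).le⟩]
              linarith
      · rw [indF _ hc]; linarith)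
    have h2 := hadd (fun ω => ind (G ω)) (fun ω => ind (24 * b / a ^ 2 * k₁ ≤ Y₁ ω) +
      (ind (24 * b / a ^ 2 * k₂ ≤ Y₂ ω) + ind (24 * b / a ^ 2 * k₃ ≤ Y₃ ω)))
    have h3 := hadd (fun ω => ind (24 * b / a ^ 2 * k₁ ≤ Y₁ ω)) (fun ω =>
      (ind (24 * b / a ^ 2 * k₂ ≤ Y₂ ω) + ind (24 * b / a ^ 2 * k₃ ≤ Y₃ ω)))
    have h4 := hadd (fun ω => ind (24 * b / a ^ 2 * k₂ ≤ Y₂ ω)) (fun ω =>
      ind (24 * b / a ^ 2 * k₃ ≤ Y₃ ω))
    rw [h2, h3, h4] at h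
    exact h
  have e : a ^ 2 / (4 * b) = a ^ 2 / (8 * b) + (a ^ 2 / (24 * b) + (a ^ 2 / (24 * b) + a ^ 2 / (24 * b))) := by
    field_simp
    norm_num
  have fin : a ^ 2 / (8 * b) ≤ pr E p G := by linarith
  exact fin

end Pool.NL
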