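import Pool.Agent.Helper22.NL.M_Pair1

set_option autoImplicit false

open scoped BigOperators ENNReal
open Pool.LE

namespace Pool.NL

theorem hPair2 (hMK : StMK) (hOff : StOff) (hTG : StTG2) (hB : StBasic) (hHh : StHh)
    (hClu : StClu) : StPair2 := by
  classical
  intro V _ L E D p hFG hp0 hp a ha b hb m hm
  have hp1 : p ≤ 1 := hp.trans (by norm_num)
  have hm0 : (0 : ℝ) < m := by exact_mod_cast hm
  obtain ⟨hmono, -, hadd, hsub, hmul, hsum, -, -, -, -⟩ := hB V E p hp0 hp1
  obtain ⟨hh1, hcp, -, -, -⟩ := hHh V L E D p hFG hp0 hp1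
  have hhn : ∀ w, 0 ≤ hh L E p w := fun w => by
    unfold hh
    exact Finset.sum_nonneg fun y _ => (hcp w y).2.1
  have hpr : ∀ A : Finset (Sym2 V) → Prop, pr E p A = ex E p (fun ω => ind (A ω)) := fun A => rfl
  -- the function of the Markov property
  set G : Set V → Finset (Sym2 V) → ℝ := fun S ζ =>
    ind (2 * (m : ℝ) ≤ ∑ y ∈ L, if y ∈ S then (1 : ℝ) else 0) *
      ind (b ∉ S ∧ m ≤ Xc L ζ b) with hG
  have h1 : ex E p (fun ω => G (cset ω a) (rst ω (cset ω a))) ≤
      pr E p (fun ω => m ≤ Xc L ω a ∧ m ≤ Xc L ω b ∧ ¬ con ω a b) := by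
    rw [hpr]
    apply hmono
    intro ω _
    rw [hG]
    simp only []
    rw [pair_card]
    by_cases hc : con ω a b
    · rw [pair_ind_false (A := b ∉ cset ω a ∧ _) (fun h => h.1 hc), mul_zero]
      exact pair_ind_nonneg _
    · rw [pair_xc_rst L hc]
      by_cases h2 : 2 * (m : ℝ) ≤ (Xc L ω a : ℝ)
      · by_cases h3 : m ≤ Xc L ω b
        · have h4 : m ≤ Xc L ω a := by
            have : (m : ℝ) ≤ (Xc L ω a : ℝ) := by linarith
            exact_mod_cast this
          rw [pair_ind_true (show m ≤ Xc L ω a ∧ m ≤ Xc L ω b ∧ ¬ con ω a b from ⟨h4, h3, hc⟩)]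
          exact mul_le_one₀ (pair_ind_le_one _) (pair_ind_nonneg _) (pair_ind_le_one _)
        · rw [pair_ind_false (A := b ∉ cset ω a ∧ _) (fun h => h3 h.2), mul_zero]
          exact pair_ind_nonneg _
      · rw [pair_ind_false h2, zero_mul]
        exact pair_ind_nonneg _
  refine le_trans ?_ h1
  rw [hMK V E p a G]
  -- lower bound of the inner probability
  have h2 : ∀ S : Set V, pr E p (fun ω => 2 * m ≤ Xc L ω b) - ∑ w ∈ L, (if w ∈ S then 1 else 0) *
      (cp E p b w * hh L E p w) / m ≤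
      ex E p (fun η => ind (b ∉ S ∧ m ≤ Xc L (rst η S) b)) := by
    intro S
    obtain ⟨h3a, h3⟩ := hOff V L E D p hFG hp0 hp S b hb
    have h4 : pr E p (fun ω => 2 * m ≤ Xc L ω b) ≤
        ex E p (fun η => ind (b ∉ S ∧ m ≤ Xc L (rst η S) b) +
          (1 / (m : ℝ)) * ((Xc L η b : ℝ) - Xr L S η b)) := by
      rw [hpr]
      apply hmono
      intro η hη
      have h5 : (Xr L S η b : ℝ) ≤ Xc L η b := by exact_mod_cast h3a η hη
      have h6 : 0 ≤ (1 / (m : ℝ)) * ((Xc L η b : ℝ) - Xr L S η b) :=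
        mul_nonneg (by positivity) (by linarith)
      by_cases h7 : 2 * m ≤ Xc L η b
      · rw [pair_ind_true h7]
        by_cases h8 : b ∉ S ∧ m ≤ Xc L (rst η S) b
        · rw [pair_ind_true h8]; linarith
        · rw [pair_ind_false h8, zero_add]
          have h9 : Xr L S η b < m := by
            unfold Xr
            split_ifs with h10
            · omega
            · by_contra h11
              exact h8 ⟨h10, not_lt.1 h11⟩
          have h12 : (m : ℝ) ≤ (Xc L η b : ℝ) - Xr L S η b := by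
            have h13 : (Xr L S η b : ℝ) ≤ m := by exact_mod_cast h9.le
            have h14 : (2 : ℝ) * m ≤ Xc L η b := by exact_mod_cast h7
            linarith
          calc (1 : ℝ) = (1 / (m : ℝ)) * m := by field_simp
            _ ≤ _ := mul_le_mul_of_nonneg_left h12 (by positivity)
      · rw [pair_ind_false h7]
        exact add_nonneg (pair_ind_nonneg _) h6
    rw [hadd, hmul] at h4
    have h5 : (1 / (m : ℝ)) * ex E p (fun ω => (Xc L ω b : ℝ) - Xr L S ω b) ≤
        ∑ w ∈ L, (if w ∈ S then 1 else 0) * (cp E p b w * hh L E p w) / m := by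
      refine le_trans (mul_le_mul_of_nonneg_left h3 (by positivity)) (le_of_eq ?_)
      rw [Finset.mul_sum]
      apply Finset.sum_congr rfl
      intro w _
      ring
    linarith
  have h5 : ∀ ω, ω ⊆ E → ind (2 * m ≤ Xc L ω a) * pr E p (fun ω => 2 * m ≤ Xc L ω b) -
      ∑ w ∈ L, (cp E p b w * hh L E p w / (2 * (m : ℝ) ^ 2)) * ((Xc L ω a : ℝ) * ind (con ω a w)) ≤
      ex E p (fun η => G (cset ω a) (rst η (cset ω a))) := by
    intro ω _
    have h6 : ex E p (fun η => G (cset ω a) (rst η (cset ω a))) =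
        ind (2 * m ≤ Xc L ω a) * ex E p (fun η => ind (b ∉ cset ω a ∧
          m ≤ Xc L (rst η (cset ω a)) b)) := by
      rw [← hmul]
      congr 1
      funext η
      rw [hG]
      simp only []
      rw [pair_card]
      congr 1
      have : (2 * (m : ℝ) ≤ (Xc L ω a : ℝ)) ↔ 2 * m ≤ Xc L ω a := by
        constructor
        · intro h; exact_mod_cast h
        · intro h; exact_mod_cast h
      unfold ind
      by_cases h : 2 * m ≤ Xc L ω a
      · rw [if_pos h, if_pos (this.2 h)]
      · rw [if_neg h, if_neg (fun h' => h (this.1 h'))]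
    rw [h6]
    have h7 := mul_le_mul_of_nonneg_left (h2 (cset ω a)) (pair_ind_nonneg (2 * m ≤ Xc L ω a))
    refine le_trans ?_ h7
    rw [mul_sub, Finset.mul_sum]
    apply sub_le_sub_left
    apply Finset.sum_le_sum
    intro w _
    have h8 : 0 ≤ cp E p b w * hh L E p w := mul_nonneg (hcp b w).2.1 (hhn w)
    by_cases hw : con ω a w
    · rw [pair_ind_true hw, if_pos (show w ∈ cset ω a from hw)]
      have h9 : ind (2 * m ≤ Xc L ω a) ≤ (Xc L ω a : ℝ) / (2 * m) := by
        by_cases h10 : 2 * m ≤ Xc L ω a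
        · rw [pair_ind_true h10, le_div_iff₀ (by positivity), one_mul]
          exact_mod_cast h10
        · rw [pair_ind_false h10]
          positivity
      have h10 : 0 ≤ cp E p b w * hh L E p w / m := div_nonneg h8 hm0.le
      calc ind (2 * m ≤ Xc L ω a) * (1 * (cp E p b w * hh L E p w) / m)
          = ind (2 * m ≤ Xc L ω a) * (cp E p b w * hh L E p w / m) := by ring
        _ ≤ (Xc L ω a : ℝ) / (2 * m) * (cp E p b w * hh L E p w / m) :=
            mul_le_mul_of_nonneg_right h9 h10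
        _ = _ := by field_simp
    · rw [pair_ind_false hw, if_neg (show w ∉ cset ω a from hw)]
      simp
  refine le_trans ?_ (hmono _ _ h5)
  rw [hsub, hsum]
  have h8 : ex E p (fun ω => ind (2 * m ≤ Xc L ω a) * pr E p (fun ω => 2 * m ≤ Xc L ω b)) =
      pr E p (fun ω => 2 * m ≤ Xc L ω a) * pr E p (fun ω => 2 * m ≤ Xc L ω b) := by
    rw [mul_comm (pr E p (fun ω => 2 * m ≤ Xc L ω a)), hpr (fun ω => 2 * m ≤ Xc L ω a), ← hmul]
    congr 1
    funext ω
    ring
  rw [h8]
  apply sub_le_sub_left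
  unfold pairErr
  rw [Finset.sum_div]
  apply Finset.sum_le_sum
  intro w hw
  rw [hmul]
  have h9 := hTG V L E D p hFG hp0 hp a ha w hw
  have h10 : 0 ≤ cp E p b w * hh L E p w / (2 * (m : ℝ) ^ 2) :=
    div_nonneg (mul_nonneg (hcp b w).2.1 (hhn w)) (by positivity)
  refine le_trans (mul_le_mul_of_nonneg_left h9 h10) (le_of_eq ?_)
  rw [Finset.mul_sum, Finset.sum_div]
  apply Finset.sum_congr rfl
  intro z _
  rw [(hcp w z).1, (hcp z a).1]
  ring

end Pool.NL
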