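import Pool.Agent.Helper22.NL.StR
import Pool.Agent.Helper84.LE.BKP

/-! NL module RecR: LE `StRec` for the third moment. -/

set_option autoImplicit false
open scoped BigOperators ENNReal
open Pool.LE

namespace Pool.NL

namespace RecRM

variable {V : Type} [DecidableEq V]

/-- mass of `PsiR` -/
noncomputable def psi (nbf : V → Finset V) (q₀ : ENNReal) (T : V → V → ENNReal) (N : ℕ) (s v : V) :
    ENNReal := ∑' x : V, PsiR 3 nbf q₀ T N s v x

theorem T_le_B {T : V → V → ENNReal} {B : ENNReal} (h : TK T B) (x y : V) : T x y ≤ B := by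
  refine le_trans ?_ (h.le_B x y)
  have h1 := kp_le_kp h.one_le (show 1 ≤ 1024 by norm_num) x y
  rwa [kp_one] at h1

theorem psi_zero {T : V → V → ENNReal} {B : ENNReal} (h : TK T B) (nbf : V → Finset V)
    (q₀ : ENNReal)
    (hM : ∀ v s : V, ∑' u : V, ∑' w : V, coreR 3 T v s u w ≤ 2 * 10 ^ 7 * B ^ 4 * kp T 384 v s)
    (s v : V) :
    psi nbf q₀ T 0 s v ≤ 2 * B * (2 * 10 ^ 7 * B ^ 4 * kp T 384 v s) := by
  unfold psi
  have h1 : ∀ x : V, PsiR 3 nbf q₀ T 0 s v x ≤ 2 * B * ∑' w : V, coreR 3 T v s x w := by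
    intro x
    show 2 * ∑' w : V, coreR 3 T v s x w * T w v ≤ _
    have h2 : (∑' w : V, coreR 3 T v s x w * T w v) ≤ (∑' w : V, coreR 3 T v s x w) * B := by
      rw [← ENNReal.tsum_mul_right]
      exact ENNReal.tsum_le_tsum fun w => mul_le_mul' le_rfl (T_le_B h w v)
    calc 2 * ∑' w : V, coreR 3 T v s x w * T w v
        ≤ 2 * ((∑' w : V, coreR 3 T v s x w) * B) := mul_le_mul' le_rfl h2
      _ = 2 * B * ∑' w : V, coreR 3 T v s x w := by ring
  calc ∑' x : V, PsiR 3 nbf q₀ T 0 s v x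
      ≤ ∑' x : V, 2 * B * ∑' w : V, coreR 3 T v s x w := ENNReal.tsum_le_tsum h1
    _ = 2 * B * ∑' x : V, ∑' w : V, coreR 3 T v s x w := ENNReal.tsum_mul_left
    _ ≤ 2 * B * (2 * 10 ^ 7 * B ^ 4 * kp T 384 v s) := mul_le_mul' le_rfl (hM v s)

theorem term_le {T : V → V → ENNReal} {nbf : V → Finset V}
    (q₀ : ENNReal) (N : ℕ) (s v x : V) :
    PsiR 3 nbf q₀ T (N + 1) s v x =
      ∑' u : V, ∑ b ∈ nbf u, ∑' s' : V, ∑' w : V,
        (16 * q₀ * (coreR 3 T v s u w * T w s')) * (PsiR 3 nbf q₀ T N s' b x) := by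
  show (∑' u : V, ∑ b ∈ nbf u, 2 ^ 3 * q₀ * ∑' s' : V,
      2 * (∑' w : V, coreR 3 T v s u w * T w s') * PsiR 3 nbf q₀ T N s' b x) = _
  refine tsum_congr fun u => ?_
  refine Finset.sum_congr rfl fun b _ => ?_
  rw [← ENNReal.tsum_mul_left]
  refine tsum_congr fun s' => ?_
  have e1 : 2 ^ 3 * q₀ * (2 * (∑' w : V, coreR 3 T v s u w * T w s') * PsiR 3 nbf q₀ T N s' b x) =
      ∑' w : V, (2 ^ 3 * q₀ * 2 * PsiR 3 nbf q₀ T N s' b x) * (coreR 3 T v s u w * T w s') := by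
    rw [ENNReal.tsum_mul_left]
    ring
  rw [e1]
  refine tsum_congr fun w => ?_
  ring

theorem psi_succ {T : V → V → ENNReal} {B : ENNReal} {nbf : V → Finset V}
    (q₀ : ENNReal)
    (hM : ∀ v s : V, ∑' u : V, ∑' w : V, coreR 3 T v s u w ≤ 2 * 10 ^ 7 * B ^ 4 * kp T 384 v s)
    (N : ℕ) (R : ENNReal)
    (hR : ∀ u w : V, ∑ b ∈ nbf u, q₀ * ∑' s' : V, T w s' * psi nbf q₀ T N s' b ≤ R) (s v : V) :
    psi nbf q₀ T (N + 1) s v ≤ 16 * R * (2 * 10 ^ 7 * B ^ 4 * kp T 384 v s) := by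
  have e1 : psi nbf q₀ T (N + 1) s v = ∑' x : V, ∑' u : V, ∑ b ∈ nbf u, ∑' s' : V, ∑' w : V,
        (16 * q₀ * (coreR 3 T v s u w * T w s')) * (PsiR 3 nbf q₀ T N s' b x) :=
    tsum_congr fun x => term_le q₀ N s v x
  have e2 : (∑' x : V, ∑' u : V, ∑ b ∈ nbf u, ∑' s' : V, ∑' w : V,
        (16 * q₀ * (coreR 3 T v s u w * T w s')) * (PsiR 3 nbf q₀ T N s' b x)) =
      ∑' u : V, ∑ b ∈ nbf u, ∑' s' : V, ∑' w : V,
        (16 * q₀ * (coreR 3 T v s u w * T w s')) * psi nbf q₀ T N s' b := by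
    rw [ENNReal.tsum_comm]
    refine tsum_congr fun u => ?_
    rw [Summable.tsum_finsetSum (fun _ _ => ENNReal.summable)]
    refine Finset.sum_congr rfl fun b _ => ?_
    rw [ENNReal.tsum_comm]
    refine tsum_congr fun s' => ?_
    rw [ENNReal.tsum_comm]
    refine tsum_congr fun w => ?_
    rw [ENNReal.tsum_mul_left]
    rfl
  have e3 : ∀ u : V, (∑ b ∈ nbf u, ∑' s' : V, ∑' w : V,
        (16 * q₀ * (coreR 3 T v s u w * T w s')) * psi nbf q₀ T N s' b) =
      ∑' w : V, (16 * coreR 3 T v s u w) *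
        ∑ b ∈ nbf u, q₀ * ∑' s' : V, T w s' * psi nbf q₀ T N s' b := by
    intro u
    have e4 : ∀ b ∈ nbf u, (∑' s' : V, ∑' w : V,
        (16 * q₀ * (coreR 3 T v s u w * T w s')) * psi nbf q₀ T N s' b) =
        ∑' w : V, (16 * coreR 3 T v s u w) *
          (q₀ * ∑' s' : V, T w s' * psi nbf q₀ T N s' b) := by
      intro b _
      rw [ENNReal.tsum_comm]
      refine tsum_congr fun w => ?_
      rw [← ENNReal.tsum_mul_left, ← ENNReal.tsum_mul_left]
      refine tsum_congr fun s' => ?_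
      ring
    rw [Finset.sum_congr rfl e4, ← Summable.tsum_finsetSum (fun _ _ => ENNReal.summable)]
    refine tsum_congr fun w => ?_
    rw [Finset.mul_sum]
  rw [e1, e2]
  calc (∑' u : V, ∑ b ∈ nbf u, ∑' s' : V, ∑' w : V,
        (16 * q₀ * (coreR 3 T v s u w * T w s')) * psi nbf q₀ T N s' b)
      = ∑' u : V, ∑' w : V, (16 * coreR 3 T v s u w) *
        ∑ b ∈ nbf u, q₀ * ∑' s' : V, T w s' * psi nbf q₀ T N s' b := tsum_congr e3
    _ ≤ ∑' u : V, ∑' w : V, (16 * R) * coreR 3 T v s u w := by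
        refine ENNReal.tsum_le_tsum fun u => ENNReal.tsum_le_tsum fun w => ?_
        calc _ ≤ (16 * coreR 3 T v s u w) * R := mul_le_mul' le_rfl (hR u w)
          _ = (16 * R) * coreR 3 T v s u w := by ring
    _ = (16 * R) * ∑' u : V, ∑' w : V, coreR 3 T v s u w := by
        rw [← ENNReal.tsum_mul_left]
        exact tsum_congr fun u => ENNReal.tsum_mul_left
    _ ≤ 16 * R * (2 * 10 ^ 7 * B ^ 4 * kp T 384 v s) := mul_le_mul' le_rfl (hM v s)

theorem sum_T {T : V → V → ENNReal} {B : ENNReal} (h : TK T B) (b w : V) :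
    ∑' s' : V, T w s' * kp T 384 b s' ≤ kp T 1024 b w := by
  have e1 : (∑' s' : V, T w s' * kp T 384 b s') = kp T 385 b w := by
    have e2 : kp T 385 = kc (kp T 384) T := by
      have := kp_add T 384 1
      rwa [kp_one] at this
    rw [e2]
    show _ = ∑' z, kp T 384 b z * T z w
    refine tsum_congr fun z => ?_
    rw [h.symm w z, mul_comm]
  rw [e1]
  exact kp_le_kp h.one_le (by norm_num) b w

/-- from a bound for `psi N` to a bound for `rho N` -/
theorem rho_le {T : V → V → ENNReal} {B : ENNReal} (h : TK T B) {nbf : V → Finset V}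
    (q₀ eps : ENNReal) (he : ∀ x y, ∑ b ∈ nbf x, q₀ * kp T 1024 b y ≤ eps)
    (N : ℕ) (c : ENNReal) (hc : ∀ s v, psi nbf q₀ T N s v ≤ c * kp T 384 v s) (u w : V) :
    ∑ b ∈ nbf u, q₀ * ∑' s' : V, T w s' * psi nbf q₀ T N s' b ≤ c * eps := by
  calc ∑ b ∈ nbf u, q₀ * ∑' s' : V, T w s' * psi nbf q₀ T N s' b
      ≤ ∑ b ∈ nbf u, c * (q₀ * kp T 1024 b w) := by
        refine Finset.sum_le_sum fun b _ => ?_
        have h1 : (∑' s' : V, T w s' * psi nbf q₀ T N s' b) ≤ c * kp T 1024 b w := by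
          calc (∑' s' : V, T w s' * psi nbf q₀ T N s' b)
              ≤ ∑' s' : V, c * (T w s' * kp T 384 b s') := by
                refine ENNReal.tsum_le_tsum fun s' => ?_
                calc T w s' * psi nbf q₀ T N s' b ≤ T w s' * (c * kp T 384 b s') :=
                      mul_le_mul' le_rfl (hc s' b)
                  _ = c * (T w s' * kp T 384 b s') := by ring
            _ = c * ∑' s' : V, T w s' * kp T 384 b s' := ENNReal.tsum_mul_left
            _ ≤ c * kp T 1024 b w := mul_le_mul' le_rfl (sum_T h b w)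
        calc q₀ * ∑' s' : V, T w s' * psi nbf q₀ T N s' b ≤ q₀ * (c * kp T 1024 b w) :=
              mul_le_mul' le_rfl h1
          _ = c * (q₀ * kp T 1024 b w) := by ring
    _ = c * ∑ b ∈ nbf u, q₀ * kp T 1024 b w := (Finset.mul_sum _ _ _).symm
    _ ≤ c * eps := mul_le_mul' le_rfl (he u w)

theorem psi_all {T : V → V → ENNReal} {B : ENNReal} (h : TK T B) {nbf : V → Finset V}
    (q₀ eps : ENNReal)
    (he : ∀ x y, ∑ b ∈ nbf x, q₀ * kp T 1024 b y ≤ eps)
    (hM : ∀ v s : V, ∑' u : V, ∑' w : V, coreR 3 T v s u w ≤ 2 * 10 ^ 7 * B ^ 4 * kp T 384 v s)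
    (N : ℕ) : ∀ s v, psi nbf q₀ T N s v ≤
      (4 * 10 ^ 7 * B ^ 5 * (32 * 10 ^ 7 * B ^ 4 * eps) ^ N) * kp T 384 v s := by
  induction N with
  | zero =>
    intro s v
    refine (psi_zero h nbf q₀ hM s v).trans (le_of_eq ?_)
    ring
  | succ N ih =>
    intro s v
    have h1 := psi_succ q₀ hM N _ (rho_le h q₀ eps he N _ ih) s v
    refine h1.trans (le_of_eq ?_)
    ring

end RecRM

open RecRM in
theorem hRecR (h : StMassR) : StRecR := by
  intro V _ T B eps q₀ nbf hT he N v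
  have hM := h V T B hT
  have h1 := psi_all hT q₀ eps he hM (N + 1) v v
  have h2 : kp T 384 v v ≤ B :=
    (kp_le_kp hT.one_le (show 384 ≤ 1024 by norm_num) v v).trans (hT.le_B v v)
  calc ∑' x : V, PsiR 3 nbf q₀ T (N + 1) v v x = psi nbf q₀ T (N + 1) v v := rfl
    _ ≤ (4 * 10 ^ 7 * B ^ 5 * (32 * 10 ^ 7 * B ^ 4 * eps) ^ (N + 1)) * kp T 384 v v := h1
    _ ≤ (4 * 10 ^ 7 * B ^ 5 * (32 * 10 ^ 7 * B ^ 4 * eps) ^ (N + 1)) * B :=
        mul_le_mul' le_rfl h2
    _ = (128 * 10 ^ 14 * B ^ 10 * eps) * (32 * 10 ^ 7 * B ^ 4 * eps) ^ N := by ring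
    _ ≤ 2 * 10 ^ 16 * B ^ 10 * eps * (4 * 10 ^ 8 * B ^ 4 * eps) ^ N := by
        refine mul_le_mul' ?_ ?_
        · refine mul_le_mul' (mul_le_mul' ?_ le_rfl) le_rfl
          norm_num
        · refine pow_le_pow_left' ?_ N
          refine mul_le_mul' (mul_le_mul' ?_ le_rfl) le_rfl
          norm_num

end Pool.NL
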