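import Pool.Agent.Helper22.NL.M_Sb

/-! # Project NL: module Sa, pairs of bridges with the same first cluster -/

set_option autoImplicit false

open scoped BigOperators ENNReal
open Pool.LE

namespace Pool.NL

section

variable {V : Type} [DecidableEq V]

theorem mem_drt_Sa {L : Finset V} {E : Finset (Sym2 V)} {D : ℕ} (hFG : FG L E D) {a : V × V}
    (ha : a ∈ drt E) : a.1 ∈ L ∧ a.2 ∈ L := by
  have h1 := mem_drt'.1 ha
  exact ⟨hFG.inside _ h1 _ (Sym2.mem_mk_left _ _), hFG.inside _ h1 _ (Sym2.mem_mk_right _ _)⟩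

theorem GG2_nonneg_Sa (hB : StBasic) (L : Finset V) (E : Finset (Sym2 V)) (m : ℕ)
    {p : ℝ} (h0 : 0 ≤ p) (h1 : p ≤ 1) (u v : V) : 0 ≤ GG2 L E p m u v := by
  obtain ⟨-, -, -, -, -, -, hpr, -⟩ := hB V E p h0 h1
  exact (hpr _).1

/-- Pairs of bridges with the same first cluster and different second clusters. -/
theorem pr_first_Sa (hD : StDist) (hB : StBasic) (L : Finset V) (E : Finset (Sym2 V)) (m : ℕ)
    {p : ℝ} (h0 : 0 ≤ p) (h1 : p ≤ 1) (a b : V × V) :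
    pr E p (fun ω => a ∈ JJ L E m ω ∧ b ∈ JJ L E m ω ∧ con ω a.1 b.1 ∧ ¬ con ω a.2 b.2) ≤
      GG2 L E p m a.1 b.1 * (pr E p (fun ω => m ≤ Xc L ω a.2) *
        pr E p (fun ω => m ≤ Xc L ω b.2)) := by
  obtain ⟨-, -, -, -, -, -, -, hprmono, -⟩ := hB V E p h0 h1
  have h := hD V p h0 h1 [(a.1, fun S => evm_Sb L m S ∧ b.1 ∈ S),
    (a.2, fun S => evm_Sb L m S), (b.2, fun S => evm_Sb L m S)] (by
      intro q hq S S' hS hqS
      rcases List.mem_cons.1 hq with rfl | hq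
      · exact ⟨evm_mono_Sb hS hqS.1, hS hqS.2⟩
      · rcases List.mem_cons.1 hq with rfl | hq
        · exact evm_mono_Sb hS hqS
        · rcases List.mem_cons.1 hq with rfl | hq
          · exact evm_mono_Sb hS hqS
          · exact absurd hq List.not_mem_nil) E
  simp only [List.map_cons, List.map_nil, List.prod_cons, List.prod_nil, mul_one] at h
  refine le_trans (hprmono _ _ ?_) h
  rintro ω - ⟨ha, hb, hc1, hc2⟩
  obtain ⟨-, hm1, hm2, hnc⟩ := mem_JJ_Sb ha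
  obtain ⟨-, hm1', hm2', hnc'⟩ := mem_JJ_Sb hb
  refine ⟨?_, ?_⟩
  · intro q hq
    rcases List.mem_cons.1 hq with rfl | hq
    · exact ⟨hm1, hc1⟩
    · rcases List.mem_cons.1 hq with rfl | hq
      · exact hm2
      · rcases List.mem_cons.1 hq with rfl | hq
        · exact hm2'
        · exact absurd hq List.not_mem_nil
  · have h3 : ¬ con ω a.1 b.2 := fun h => hnc' (con_trans (con_symm hc1) h)
    simp only [List.pairwise_cons, List.mem_cons, List.not_mem_nil, or_false, forall_eq,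
      List.Pairwise.nil, and_true, IsEmpty.forall_iff, implies_true, forall_eq_or_imp]
    exact ⟨⟨hnc, h3⟩, hc2⟩

end

theorem hSa (hD : StDist) (hB : StBasic) (hClu : StClu) : StSa := by
  intro V _ L E D p q m hFG h0 h1 hq
  have h2 := ex_pairs_Sb hB L E m h0 h1 (fun ω a b => con ω a.1 b.1)
    (fun ω => (SS1 L E m ω : ℝ)) (fun ω => by
      rw [← card_pairs_Sb L E m ω (fun a b => con ω a.1 b.1)]
      unfold SS1
      congr)
  rw [h2]
  obtain ⟨-, -, -, -, -, -, hpr, hprmono, -⟩ := hB V E p h0 h1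
  refine Finset.sum_le_sum fun a ha => Finset.sum_le_sum fun b hb => ?_
  have h3 := pr_first_Sa hD hB L E m h0 h1 a b
  have h4 := pr_both_Sb hD hB L E m h0 h1 a b
  have h5 := pr_or_Sb hB E h0 h1
    (fun ω => a ∈ JJ L E m ω ∧ b ∈ JJ L E m ω ∧ con ω a.1 b.1 ∧ ¬ con ω a.2 b.2)
    (fun ω => a ∈ JJ L E m ω ∧ b ∈ JJ L E m ω ∧ con ω a.1 b.1 ∧ con ω a.2 b.2)
  have h6 : pr E p (fun ω => a ∈ JJ L E m ω ∧ b ∈ JJ L E m ω ∧ con ω a.1 b.1) ≤
      pr E p (fun ω =>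
        (a ∈ JJ L E m ω ∧ b ∈ JJ L E m ω ∧ con ω a.1 b.1 ∧ ¬ con ω a.2 b.2) ∨
        (a ∈ JJ L E m ω ∧ b ∈ JJ L E m ω ∧ con ω a.1 b.1 ∧ con ω a.2 b.2)) :=
    hprmono _ _ fun ω _ h => by tauto
  have h7 : GG2 L E p m a.1 b.1 * (pr E p (fun ω => m ≤ Xc L ω a.2) *
        pr E p (fun ω => m ≤ Xc L ω b.2)) ≤ GG2 L E p m a.1 b.1 * q ^ 2 := by
    refine mul_le_mul_of_nonneg_left ?_ (GG2_nonneg_Sa hB L E m h0 h1 _ _)
    rw [pow_two]
    exact mul_le_mul (hq _ (mem_drt_Sa hFG ha).2) (hq _ (mem_drt_Sa hFG hb).2) (hpr _).1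
      (le_trans (hpr _).1 (hq _ (mem_drt_Sa hFG ha).2))
  linarith

end Pool.NL
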