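import Pool.Agent.Helper22.NL.StM

set_option autoImplicit false

open scoped BigOperators ENNReal
open Pool.LE

namespace Pool.NL

theorem hSd (hB : StBasic) (hClu : StClu) : StSd := by
  intro V _ L E D p q m hFG h0 h1 hm hq
  classical
  obtain ⟨hmono, -, -, -, hsmul, hsum, -, -, -, -⟩ := hB V E p h0 h1
  have hm0 : (0 : ℝ) < m := by exact_mod_cast hm
  -- combinatorial inequality
  have hcomb : ∀ ω, ω ⊆ E → m * (big L m ω).card ≤ (L.filter (fun x => m ≤ Xc L ω x)).card := by
    intro ω hω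
    obtain ⟨-, hcl, -, -, -, -, -⟩ := hClu V L E ω D hFG hω
    have e1 : (L.filter (fun x => m ≤ Xc L ω x)).card =
        ∑ A ∈ (L.filter (fun x => m ≤ Xc L ω x)).image (clu L ω),
          ((L.filter (fun x => m ≤ Xc L ω x)).filter (fun y => clu L ω y = A)).card :=
      Finset.card_eq_sum_card_image _ _
    have e2 : m * (big L m ω).card = ∑ A ∈ (L.filter (fun x => m ≤ Xc L ω x)).image (clu L ω),
        m := by
      rw [Finset.sum_const, smul_eq_mul, mul_comm]
      unfold big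
      congr!
    rw [e1, e2]
    refine Finset.sum_le_sum fun A hA => ?_
    obtain ⟨x, hx, rfl⟩ := Finset.mem_image.1 hA
    rw [Finset.mem_filter] at hx
    refine hx.2.trans ?_
    refine (Finset.card_le_card fun y hy => ?_ : (clu L ω x).card ≤ _)
    have hy2 : y ∈ L ∧ con ω x y := by
      unfold clu at hy
      rwa [Finset.mem_filter] at hy
    have e3 := hcl x y hy2.2
    rw [Finset.mem_filter, Finset.mem_filter]
    exact ⟨⟨hy2.1, by rw [← e3.2]; exact hx.2⟩, e3.1.symm⟩
  have e4 : (m : ℝ) * ex E p (fun ω => ((big L m ω).card : ℝ)) ≤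
      ∑ x ∈ L, pr E p (fun ω => m ≤ Xc L ω x) := by
    have e5 : ∑ x ∈ L, pr E p (fun ω => m ≤ Xc L ω x) =
        ex E p (fun ω => ∑ x ∈ L, ind (m ≤ Xc L ω x)) :=
      (hsum V L (fun x ω => ind (m ≤ Xc L ω x))).symm
    rw [e5, ← hsmul]
    refine hmono _ _ fun ω hω => ?_
    have e6 : ∑ x ∈ L, ind (m ≤ Xc L ω x) =
        ((L.filter (fun x => m ≤ Xc L ω x)).card : ℝ) := by
      rw [Finset.card_filter, Nat.cast_sum]
      refine Finset.sum_congr rfl fun x _ => ?_
      unfold ind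
      split_ifs <;> simp
    rw [e6]
    exact_mod_cast hcomb ω hω
  have e7 : ∑ x ∈ L, pr E p (fun ω => m ≤ Xc L ω x) ≤ L.card * q := by
    calc ∑ x ∈ L, pr E p (fun ω => m ≤ Xc L ω x) ≤ ∑ _x ∈ L, q := Finset.sum_le_sum hq
      _ = L.card * q := by rw [Finset.sum_const, nsmul_eq_mul]
  rw [le_div_iff₀ hm0, mul_comm]
  exact e4.trans e7

end Pool.NL
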