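import Pool.Agent.Helper22.NL.StZ

/-! # Project NL: module Shift -/

set_option autoImplicit false

open scoped BigOperators ENNReal Topology
open Pool.LE Filter

namespace Pool.NL

private lemma mem_Bn_Sh {d n : ℕ} (x : Zd d) : x ∈ Bn d n ↔ ∀ i, 0 ≤ x i ∧ x i < n := by
  simp [Bn]

private lemma card_Bn_Sh (d n : ℕ) : (Bn d n).card = n ^ d := by
  simp [Bn]

private lemma e0_add_Sh {d : ℕ} (a b : ℕ) : (e0 (a + b) : Zd d) = e0 a + e0 b := by
  funext i
  simp only [e0, Pi.add_apply]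
  split_ifs <;> simp

theorem hShift : StShift := by
  classical
  intro d c Lr hd hc hLr
  obtain ⟨J, hJ⟩ : ∃ J : ℕ, J = max 1 ⌈4 / c⌉₊ := ⟨_, rfl⟩
  have hJ1 : 1 ≤ J := hJ ▸ le_max_left _ _
  have hJc : 4 / c ≤ (J : ℝ) := by
    refine (Nat.le_ceil _).trans ?_
    exact_mod_cast hJ ▸ le_max_right _ _
  have hJ0 : (0 : ℝ) < J := by exact_mod_cast hJ1
  refine ⟨J, hJ1, c / (2 * J), by positivity, fun n G hn hG hGc => ?_⟩
  by_contra hcon
  push Not at hcon
  let D : ℕ → Finset (Zd d) := fun k => G.filter (fun a => a + e0 (k * Lr) ∈ G)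
  let U : Finset (Zd d) := (Finset.Icc 1 J).biUnion D
  let G' : Finset (Zd d) := G \ U
  have hU : (U.card : ℝ) ≤ c / 2 * (n : ℝ) ^ d := by
    have h1 : (U.card : ℝ) ≤ ∑ k ∈ Finset.Icc 1 J, ((D k).card : ℝ) := by
      exact_mod_cast Finset.card_biUnion_le
    have h2 : ∑ k ∈ Finset.Icc 1 J, ((D k).card : ℝ) ≤ ∑ _k ∈ Finset.Icc 1 J, c / (2 * J) * (n : ℝ) ^ d := by
      refine Finset.sum_le_sum fun k hk => ?_
      rw [Finset.mem_Icc] at hk
      exact (hcon k hk.1 hk.2).le
    rw [Finset.sum_const, Nat.card_Icc, nsmul_eq_mul, Nat.add_sub_cancel] at h2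
    have h3 : (J : ℝ) * (c / (2 * J) * (n : ℝ) ^ d) = c / 2 * (n : ℝ) ^ d := by
      field_simp
    rw [h3] at h2
    exact h1.trans h2
  have hinj : Set.InjOn (fun q : ℕ × Zd d => q.2 + e0 (q.1 * Lr))
      (Finset.range (J + 1) ×ˢ G' : Finset (ℕ × Zd d)) := by
    have key : ∀ i j : ℕ, i < j → j ≤ J → ∀ a ∈ G', ∀ b ∈ G', a + e0 (i * Lr) ≠ b + e0 (j * Lr) := by
      intro i j hij hjJ a ha b hb h
      have hb2 : b ∉ U := (Finset.mem_sdiff.1 hb).2
      apply hb2
      refine Finset.mem_biUnion.2 ⟨j - i, Finset.mem_Icc.2 ⟨by omega, by omega⟩, ?_⟩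
      refine Finset.mem_filter.2 ⟨(Finset.mem_sdiff.1 hb).1, ?_⟩
      have h1 : j * Lr = (j - i) * Lr + i * Lr := by
        rw [← Nat.add_mul, Nat.sub_add_cancel hij.le]
      rw [h1, e0_add_Sh, ← add_assoc] at h
      have h2 := add_right_cancel h
      rw [← h2]
      exact (Finset.mem_sdiff.1 ha).1
    rintro ⟨i, a⟩ hia ⟨j, b⟩ hjb h
    rw [Finset.mem_coe, Finset.mem_product, Finset.mem_range] at hia hjb
    simp only at hia hjb h
    rcases lt_trichotomy i j with hij | hij | hij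
    · exact absurd h (key i j hij (by omega) a hia.2 b hjb.2)
    · subst hij
      rw [add_right_cancel h]
    · exact absurd h.symm (key j i hij (by omega) b hjb.2 a hia.2)
  have hsub : (Finset.range (J + 1) ×ˢ G').image (fun q : ℕ × Zd d => q.2 + e0 (q.1 * Lr)) ⊆
      Bn d n ∪ (Bn d n).image (fun x => x + e0 n) := by
    intro x hx
    obtain ⟨⟨j, a⟩, hja, rfl⟩ := Finset.mem_image.1 hx
    rw [Finset.mem_product, Finset.mem_range] at hja
    simp only at hja ⊢
    have ha := (mem_Bn_Sh a).1 (hG (Finset.mem_sdiff.1 hja.2).1)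
    have hjn : j * Lr ≤ n := (Nat.mul_le_mul_right Lr (by omega : j ≤ J)).trans hn
    have hjn' : ((j * Lr : ℕ) : ℤ) ≤ n := by exact_mod_cast hjn
    have h0 : (0 : ℤ) ≤ ((j * Lr : ℕ) : ℤ) := Int.natCast_nonneg _
    by_cases hlt : a ⟨0, hd⟩ + ((j * Lr : ℕ) : ℤ) < n
    · apply Finset.mem_union_left
      rw [mem_Bn_Sh]
      intro i
      simp only [Pi.add_apply, e0]
      by_cases hi : (i : ℕ) = 0
      · have hi' : i = ⟨0, hd⟩ := Fin.ext hi
        rw [if_pos hi, hi']
        constructor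
        · have := (ha ⟨0, hd⟩).1
          omega
        · exact hlt
      · rw [if_neg hi, add_zero]
        exact ha i
    · apply Finset.mem_union_right
      refine Finset.mem_image.2 ⟨a + e0 (j * Lr) - e0 n, ?_, by abel⟩
      rw [mem_Bn_Sh]
      intro i
      simp only [Pi.add_apply, Pi.sub_apply, e0]
      by_cases hi : (i : ℕ) = 0
      · have hi' : i = ⟨0, hd⟩ := Fin.ext hi
        rw [if_pos hi, if_pos hi, hi']
        have := (ha ⟨0, hd⟩).2
        constructor <;> omega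
      · rw [if_neg hi, if_neg hi, add_zero, sub_zero]
        exact ha i
  have hcard : (J + 1) * G'.card ≤ 2 * n ^ d := by
    have h1 := Finset.card_le_card hsub
    rw [Finset.card_image_of_injOn hinj, Finset.card_product, Finset.card_range] at h1
    refine h1.trans ((Finset.card_union_le _ _).trans ?_)
    have h2 := Finset.card_image_le (s := Bn d n) (f := fun x => x + e0 n)
    rw [card_Bn_Sh] at h2 ⊢
    omega
  have hGle : (G.card : ℝ) ≤ G'.card + U.card := by
    have := Finset.card_le_card (Finset.subset_union_right : G ⊆ U ∪ G)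
    have h2 : (U ∪ G).card = U.card + (G \ U).card := by
      rw [← Finset.union_sdiff_self_eq_union, Finset.card_union_of_disjoint Finset.disjoint_sdiff]
    rw [h2] at this
    have h3 : G.card ≤ G'.card + U.card := by
      rw [add_comm]
      exact this
    exact_mod_cast h3
  have hcard' : ((J : ℝ) + 1) * G'.card ≤ 2 * (n : ℝ) ^ d := by exact_mod_cast hcard
  have hn0 : 0 < (n : ℝ) ^ d := by
    have : 1 ≤ n := le_trans (by
      calc 1 = 1 * 1 := rfl
        _ ≤ J * Lr := Nat.mul_le_mul hJ1 hLr) hn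
    have : (0 : ℝ) < n := by exact_mod_cast this
    positivity
  have hG'2 : c / 2 * (n : ℝ) ^ d ≤ G'.card := by linarith
  have h4 : ((J : ℝ) + 1) * (c / 2 * (n : ℝ) ^ d) ≤ 2 * (n : ℝ) ^ d :=
    (mul_le_mul_of_nonneg_left hG'2 (by positivity)).trans hcard'
  have h5 : (4 / c + 1) * (c / 2 * (n : ℝ) ^ d) ≤ 2 * (n : ℝ) ^ d :=
    (mul_le_mul_of_nonneg_right (by linarith) (by positivity)).trans h4
  have h6 : (4 / c + 1) * (c / 2 * (n : ℝ) ^ d) = 2 * (n : ℝ) ^ d + c / 2 * (n : ℝ) ^ d := by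
    field_simp
    ring
  rw [h6] at h5
  have h7 : 0 < c / 2 * (n : ℝ) ^ d := by positivity
  linarith

end Pool.NL
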