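import Pool.Agent.Helper22.NL.StM
import Pool.Agent.Helper84.LE.BWT

/-! # Project NL: module Spr (sprinkling) -/

set_option autoImplicit false

open scoped BigOperators ENNReal
open Pool.LE

namespace Pool.NL

theorem hSpr : StSpr := by
  intro V _ E p δ
  unfold ex
  induction E using Finset.induction_on with
  | empty =>
    intro f
    simp [Ex, wt]
  | insert e E he ih =>
    intro f
    rw [sum_insert_wt he, sum_insert_wt he, ih, ih]
    have h1 : ∀ ω : Finset (Sym2 V), Ex (insert e E) δ (fun η => f (ω ∪ η)) =
        (1 - δ) • Ex E δ (fun η => f (ω ∪ η)) + δ • Ex E δ (fun η => f (insert e (ω ∪ η))) := by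
      intro ω
      rw [sum_insert_wt he]
      simp only [Finset.union_insert]
    have h2 : ∀ ω : Finset (Sym2 V), Ex (insert e E) δ (fun η => f (insert e ω ∪ η)) =
        Ex E δ (fun η => f (insert e (ω ∪ η))) := by
      intro ω
      rw [sum_insert_wt he]
      simp only [Finset.union_insert, Finset.insert_union, Finset.insert_idem]
      rw [← add_smul]
      simp
    simp only [h2]
    simp only [h1]
    rw [Ex_add, Ex_smul, Ex_smul]
    simp only [smul_eq_mul]
    ring

end Pool.NL
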