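import Pool.Agent.Helper22.NL.StM
import Pool.Agent.Helper84.LE.BWT

set_option autoImplicit false

open scoped BigOperators ENNReal
open Pool.LE

namespace Pool.NL

theorem hT4 (hB : StBasic) : StT4 := by
  intro V _ E p h0 h1 Y a b c m hY hm hb hc ha hb2 hc3 hma
  obtain ⟨hmono, -, hadd, -, hsmul, -, hpr, -, hCS, -⟩ := hB V E p h0 h1
  have hcong : ∀ f g : Finset (Sym2 V) → ℝ, (∀ ω, ω ⊆ E → f ω = g ω) → ex E p f = ex E p g :=
    fun f g h => Ex_congr h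
  rcases hb.eq_or_lt with hb0 | hb0
  · rw [← hb0]
    simpa using (hpr (fun ω => m ≤ Y ω)).1
  set P := pr E p (fun ω => m ≤ Y ω) with hP
  set a1 := ex E p (fun ω => Y ω * ind (m ≤ Y ω)) with ha1
  set a2 := ex E p (fun ω => Y ω ^ 2 * ind (m ≤ Y ω)) with ha2
  have hind : ∀ A : Prop, ind A = 0 ∨ ind A = 1 := by
    intro A
    unfold ind
    split_ifs
    · exact Or.inr rfl
    · exact Or.inl rfl
  have hindsq : ∀ A : Prop, ind A ^ 2 = ind A := by
    intro A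
    rcases hind A with h | h <;> rw [h] <;> norm_num
  have hind0 : ∀ A : Prop, 0 ≤ ind A := by
    intro A
    rcases hind A with h | h <;> rw [h]; norm_num
  have ha1n : 0 ≤ a1 := by
    have e1 : ex E p (fun _ => (0 : ℝ)) ≤ a1 :=
      hmono _ _ fun ω hω => mul_nonneg (hY ω hω) (hind0 _)
    have e2 : ex E p (fun _ => (0 : ℝ)) = 0 := Ex_const E p 0
    linarith
  have hPn : 0 ≤ P := (hpr _).1
  -- a2 ≥ b / 2
  have hlow : b / 2 ≤ a2 := by
    have e1 : ex E p (fun ω => Y ω ^ 2) ≤ ex E p (fun ω => Y ω ^ 2 * ind (m ≤ Y ω) + m * Y ω) := by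
      refine hmono _ _ fun ω hω => ?_
      by_cases h : m ≤ Y ω
      · have h2 : ind (m ≤ Y ω) = 1 := if_pos h
        rw [h2]
        have := mul_nonneg hm (hY ω hω)
        linarith
      · have h2 : ind (m ≤ Y ω) = 0 := if_neg h
        rw [h2]
        push Not at h
        nlinarith [hY ω hω]
    rw [hadd, hsmul] at e1
    have e2 : m * ex E p Y ≤ m * a := mul_le_mul_of_nonneg_left ha hm
    have e3 : b ≤ a2 + m * ex E p Y := hb2.trans e1
    linarith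
  have ha2p : 0 < a2 := by linarith
  -- first Cauchy-Schwarz
  have cs1 : a2 ^ 2 ≤ c * a1 := by
    have e1 := hCS (fun ω => Y ω * Real.sqrt (Y ω)) (fun ω => Real.sqrt (Y ω) * ind (m ≤ Y ω))
    have e2 : ex E p (fun ω => Y ω * Real.sqrt (Y ω) * (Real.sqrt (Y ω) * ind (m ≤ Y ω))) = a2 := by
      refine hcong _ _ fun ω hω => ?_
      have := Real.mul_self_sqrt (hY ω hω)
      calc Y ω * Real.sqrt (Y ω) * (Real.sqrt (Y ω) * ind (m ≤ Y ω))
          = Y ω * (Real.sqrt (Y ω) * Real.sqrt (Y ω)) * ind (m ≤ Y ω) := by ring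
        _ = Y ω ^ 2 * ind (m ≤ Y ω) := by rw [this]; ring
    have e3 : ex E p (fun ω => (Y ω * Real.sqrt (Y ω)) ^ 2) = ex E p (fun ω => Y ω ^ 3) := by
      refine hcong _ _ fun ω hω => ?_
      have := Real.mul_self_sqrt (hY ω hω)
      calc (Y ω * Real.sqrt (Y ω)) ^ 2 = Y ω ^ 2 * (Real.sqrt (Y ω) * Real.sqrt (Y ω)) := by ring
        _ = Y ω ^ 3 := by rw [this]; ring
    have e4 : ex E p (fun ω => (Real.sqrt (Y ω) * ind (m ≤ Y ω)) ^ 2) = a1 := by
      refine hcong _ _ fun ω hω => ?_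
      have := Real.mul_self_sqrt (hY ω hω)
      calc (Real.sqrt (Y ω) * ind (m ≤ Y ω)) ^ 2
          = (Real.sqrt (Y ω) * Real.sqrt (Y ω)) * ind (m ≤ Y ω) ^ 2 := by ring
        _ = Y ω * ind (m ≤ Y ω) := by rw [this, hindsq]
    rw [e2, e3, e4] at e1
    exact e1.trans (mul_le_mul_of_nonneg_right hc3 ha1n)
  have cs2 : a1 ^ 2 ≤ a2 * P := by
    have e1 := hCS (fun ω => Y ω * ind (m ≤ Y ω)) (fun ω => ind (m ≤ Y ω))
    have e2 : ex E p (fun ω => Y ω * ind (m ≤ Y ω) * ind (m ≤ Y ω)) = a1 := by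
      refine hcong _ _ fun ω hω => ?_
      rw [mul_assoc, ← pow_two, hindsq]
    have e3 : ex E p (fun ω => (Y ω * ind (m ≤ Y ω)) ^ 2) = a2 := by
      refine hcong _ _ fun ω hω => ?_
      rw [mul_pow, hindsq]
    have e4 : ex E p (fun ω => ind (m ≤ Y ω) ^ 2) = P := by
      refine hcong _ _ fun ω hω => ?_
      rw [hindsq]
    rw [e2, e3, e4] at e1
    exact e1
  -- conclusion
  have e1 : a2 ^ 4 ≤ c ^ 2 * (a2 * P) := by
    calc a2 ^ 4 = (a2 ^ 2) ^ 2 := by ring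
      _ ≤ (c * a1) ^ 2 := pow_le_pow_left₀ (sq_nonneg _) cs1 2
      _ = c ^ 2 * a1 ^ 2 := by ring
      _ ≤ c ^ 2 * (a2 * P) := mul_le_mul_of_nonneg_left cs2 (sq_nonneg _)
  have e2 : a2 ^ 3 ≤ c ^ 2 * P := by
    have e3 : a2 * a2 ^ 3 ≤ a2 * (c ^ 2 * P) := by nlinarith
    exact le_of_mul_le_mul_left e3 ha2p
  rw [div_le_iff₀ (by positivity)]
  calc (b / 2) ^ 3 ≤ a2 ^ 3 := pow_le_pow_left₀ (by linarith) hlow 3
    _ ≤ c ^ 2 * P := e2
    _ = P * c ^ 2 := by ring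

end Pool.NL
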