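import Pool.Agent.Helper22.NL.M_Clu
import Pool.Agent.Helper84.LE.BKP

/-! # Project NL: module TG2 (`E[X_u 1(u ↔ u')]`) -/

set_option autoImplicit false

open scoped BigOperators ENNReal
open Pool.LE

namespace Pool.NL

theorem ind_nonneg_TG2 (A : Prop) : 0 ≤ ind A := by
  unfold ind
  split_ifs <;> norm_num

theorem hTG2 (hATT : StATT) (hDR : StDRBK) (hB : StBasic) (_hHh : StHh) : StTG2 := by
  classical
  intro V _ L E D p hG h0 h1 u hu u' hu'
  have hp1 : p ≤ 1 := by linarith
  obtain ⟨hmono, -, -, -, -, hsum, hpr, -, -, -⟩ := hB V E p h0 hp1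
  have hcp0 : ∀ x y, 0 ≤ cp E p x y := fun x y => (hpr _).1
  have hT : ∀ x y, Pr E p (fun ω => con ω x y) = ENNReal.ofReal (cp E p x y) :=
    fun x y => (hpr _).2.2.1
  have hDRz : ∀ y z, pr E p (DR [(z, [], y), (u, [z], u')]) ≤
      cp E p u z * cp E p z u' * cp E p z y := by
    intro y z
    have h2 := hDR V E p (fun x y => Pr E p (fun ω => con ω x y)) h0 h1 (fun x y => le_rfl)
      [(z, [], y), (u, [z], u')]
    have h3 : cmL (fun x y => Pr E p (fun ω => con ω x y)) [(z, [], y), (u, [z], u')] =
        ENNReal.ofReal (cp E p u z * cp E p z u' * cp E p z y) := by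
      simp only [cmL, List.map_cons, List.map_nil, List.prod_cons, List.prod_nil, cm_nil, cm_one,
        hT, mul_one]
      rw [← ENNReal.ofReal_mul (hcp0 _ _), ← ENNReal.ofReal_mul (hcp0 _ _)]
      congr 1
      ring
    rw [h3, (hpr _).2.2.1] at h2
    exact (ENNReal.ofReal_le_ofReal_iff
      (mul_nonneg (mul_nonneg (hcp0 _ _) (hcp0 _ _)) (hcp0 _ _))).1 h2
  have key : ∀ y ∈ L, ex E p (fun ω => ind (con ω u y) * ind (con ω u u')) ≤
      ∑ z ∈ L, cp E p u z * cp E p z u' * cp E p z y := by
    intro y _
    calc ex E p (fun ω => ind (con ω u y) * ind (con ω u u'))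
        ≤ ex E p (fun ω => ∑ z ∈ L, ind (DR [(z, [], y), (u, [z], u')] ω)) := by
          refine hmono _ _ ?_
          intro ω hω
          have hnn : 0 ≤ ∑ z ∈ L, ind (DR [(z, [], y), (u, [z], u')] ω) :=
            Finset.sum_nonneg fun z _ => ind_nonneg_TG2 _
          by_cases hA : con ω u y ∧ con ω u u'
          · obtain ⟨hy1, hu1⟩ := hA
            have hD0 : DR [(u, [], u')] ω := by
              obtain ⟨q⟩ := hu1
              exact ⟨ω, Finset.Subset.refl _,
                ⟨q.bypass, q.bypass_isPath.isTrail, fun m hm => absurd hm List.not_mem_nil⟩,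
                trivial⟩
            obtain ⟨z, L', hL', hD⟩ := hATT V ω [(u, [], u')] u y hD0 (by simp [pts]) hy1
            have hL'' : L' = [(u, [z], u')] := by
              simpa [ins] using hL'
            rw [hL''] at hD
            have hzL : z ∈ L := by
              obtain ⟨η, hη, -, η', hη', ⟨q, -, hq⟩, -⟩ := hD
              have hz : z ∈ q.support := hq z List.mem_cons_self
              have hcz : con η' u z := ⟨q.takeUntil z hz⟩
              have hcz' : con ω u z := con_mono (hη'.trans Finset.sdiff_subset) hcz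
              obtain ⟨r⟩ := hcz'
              exact walk_Clu (fun e he => hG.inside e (hω he)) r hu
            have h1' : ind (DR [(z, [], y), (u, [z], u')] ω) = 1 := by
              unfold ind
              rw [if_pos hD]
            have h2' : ind (DR [(z, [], y), (u, [z], u')] ω) ≤
                ∑ z ∈ L, ind (DR [(z, [], y), (u, [z], u')] ω) :=
              Finset.single_le_sum (f := fun z => ind (DR [(z, [], y), (u, [z], u')] ω))
                (fun z _ => ind_nonneg_TG2 _) hzL
            have h3' : ind (con ω u y) * ind (con ω u u') = 1 := by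
              unfold ind
              rw [if_pos hy1, if_pos hu1, one_mul]
            rw [h3', ← h1']
            exact h2'
          · have h3' : ind (con ω u y) * ind (con ω u u') = 0 := by
              unfold ind
              rw [not_and_or] at hA
              rcases hA with h | h
              · rw [if_neg h, zero_mul]
              · rw [if_neg h, mul_zero]
            rw [h3']
            exact hnn
      _ = ∑ z ∈ L, pr E p (DR [(z, [], y), (u, [z], u')]) :=
          hsum V L (fun z ω => ind (DR [(z, [], y), (u, [z], u')] ω))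
      _ ≤ ∑ z ∈ L, cp E p u z * cp E p z u' * cp E p z y :=
          Finset.sum_le_sum fun z _ => hDRz y z
  have hX : ∀ ω, ω ⊆ E → (Xc L ω u : ℝ) = ∑ y ∈ L, ind (con ω u y) := fun ω hω =>
    (hClu V L E ω D hG hω).2.2.2.2.2.1 u
  calc ex E p (fun ω => (Xc L ω u : ℝ) * ind (con ω u u'))
      ≤ ex E p (fun ω => ∑ y ∈ L, ind (con ω u y) * ind (con ω u u')) := by
        refine hmono _ _ ?_
        intro ω hω
        rw [hX ω hω, Finset.sum_mul]
    _ = ∑ y ∈ L, ex E p (fun ω => ind (con ω u y) * ind (con ω u u')) :=
        hsum V L (fun y ω => ind (con ω u y) * ind (con ω u u'))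
    _ ≤ ∑ y ∈ L, ∑ z ∈ L, cp E p u z * cp E p z u' * cp E p z y := Finset.sum_le_sum key
    _ = ∑ z ∈ L, cp E p u z * cp E p z u' * hh L E p z := by
        rw [Finset.sum_comm]
        refine Finset.sum_congr rfl ?_
        intro z _
        unfold hh
        rw [Finset.mul_sum]

end Pool.NL
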