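import Pool.Agent.Helper22.NL.StT

set_option autoImplicit false

open scoped BigOperators ENNReal
open Pool.LE

namespace Pool.NL

theorem tst_lip (t x : ℝ) :
    |(max 0 (1 - x)) ^ 2 - (max 0 (1 - t)) ^ 2 + 2 * max 0 (1 - t) * (x - t)| ≤ (x - t) ^ 2 := by
  rw [abs_le]
  rcases le_total 0 (1 - t) with h1 | h1 <;> rcases le_total 0 (1 - x) with h2 | h2
  · rw [max_eq_right h1, max_eq_right h2]
    constructor <;> nlinarith [sq_nonneg (x - t)]
  · rw [max_eq_right h1, max_eq_left h2]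
    constructor
    · nlinarith [sq_nonneg (x - t), sq_nonneg (1 - t)]
    · nlinarith [sq_nonneg (1 - x)]
  · rw [max_eq_left h1, max_eq_right h2]
    constructor
    · nlinarith [sq_nonneg (x - t), sq_nonneg (1 - x)]
    · nlinarith
  · rw [max_eq_left h1, max_eq_left h2]
    constructor
    · nlinarith [sq_nonneg (x - t)]
    · nlinarith [sq_nonneg (x - t)]

theorem tst_second (a q s : ℝ) (ha : 0 ≤ a) (hq : 0 ≤ q) (hs : s ^ 2 ≤ 4 * a * q)
    (h1 : 0 ≤ a + s + q) (h2 : 0 ≤ a - s + q) :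
    |(max 0 (1 - (a + s + q))) ^ 2 + (max 0 (1 - (a - s + q))) ^ 2 - 2 * (max 0 (1 - a)) ^ 2| ≤
      38 * q := by
  have hb : ∀ t : ℝ, 0 ≤ t → 0 ≤ max 0 (1 - t) ∧ max 0 (1 - t) ≤ 1 := fun t ht =>
    ⟨le_max_left _ _, max_le zero_le_one (by linarith)⟩
  rcases le_or_gt q 1 with hq1 | hq1
  · rcases le_or_gt a 4 with ha4 | ha4
    · have e1 := tst_lip a (a + s + q)
      have e2 := tst_lip a (a - s + q)
      obtain ⟨hm0, hm1⟩ := hb a ha
      rw [abs_le] at e1 e2 ⊢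
      obtain ⟨M, hM⟩ : ∃ M, M = max 0 (1 - a) := ⟨_, rfl⟩
      rw [← hM] at e1 e2 hm0 hm1 ⊢
      have e3 : 0 ≤ M * q := mul_nonneg hm0 hq
      have e4 : M * q ≤ q := by nlinarith
      have e5 : a * q ≤ 4 * q := by nlinarith
      have e6 : q ^ 2 ≤ q := by nlinarith
      constructor
      · nlinarith [e1.1, e2.1]
      · nlinarith [e1.2, e2.2]
    · have k1 : 1 ≤ a + s + q := by
        by_contra hc
        push Not at hc
        have : (a + q - 1) ^ 2 < s ^ 2 := by nlinarith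
        nlinarith [sq_nonneg (a - q - 3)]
      have k2 : 1 ≤ a - s + q := by
        by_contra hc
        push Not at hc
        have : (a + q - 1) ^ 2 < s ^ 2 := by nlinarith
        nlinarith [sq_nonneg (a - q - 3)]
      rw [max_eq_left (by linarith), max_eq_left (by linarith), max_eq_left (by linarith)]
      simp only [ne_eq, OfNat.ofNat_ne_zero, not_false_eq_true, zero_pow, add_zero, mul_zero,
        sub_zero, abs_zero]
      positivity
  · obtain ⟨a0, a1⟩ := hb a ha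
    obtain ⟨b0, b1⟩ := hb _ h1
    obtain ⟨c0, c1⟩ := hb _ h2
    have a2 : (max 0 (1 - a)) ^ 2 ≤ 1 := pow_le_one₀ a0 a1
    have b2 : (max 0 (1 - (a + s + q))) ^ 2 ≤ 1 := pow_le_one₀ b0 b1
    have c2 : (max 0 (1 - (a - s + q))) ^ 2 ≤ 1 := pow_le_one₀ c0 c1
    have a3 : 0 ≤ (max 0 (1 - a)) ^ 2 := sq_nonneg _
    have b3 : 0 ≤ (max 0 (1 - (a + s + q))) ^ 2 := sq_nonneg _
    have c3 : 0 ≤ (max 0 (1 - (a - s + q))) ^ 2 := sq_nonneg _
    rw [abs_le]
    constructor <;> linarith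

theorem tst_nonneg (d n : ℕ) (v : Zd d) : 0 ≤ phiT d n v ∧ phiT d n v ≤ 1 := by
  unfold phiT
  refine ⟨sq_nonneg _, pow_le_one₀ (le_max_left _ _) (max_le zero_le_one ?_)⟩
  have : 0 ≤ (∑ i, ((v i : ℝ) - n / 2) ^ 2) / ((n : ℝ) / 4) ^ 2 :=
    div_nonneg (Finset.sum_nonneg fun i _ => sq_nonneg _) (sq_nonneg _)
  linarith

theorem tst_diff (d n : ℕ) (hn : 1 ≤ n) (v y : Zd d) :
    |phiT d n (v + y) + phiT d n (v - y) - 2 * phiT d n v| ≤ 1000 * LE.sq y / (n : ℝ) ^ 2 := by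
  have hn0 : (0 : ℝ) < n := by exact_mod_cast hn
  obtain ⟨R, hR⟩ : ∃ R : ℝ, R = ((n : ℝ) / 4) ^ 2 := ⟨_, rfl⟩
  have hR0 : 0 < R := by rw [hR]; positivity
  obtain ⟨w, hw⟩ : ∃ w : Fin d → ℝ, w = fun i => (v i : ℝ) - n / 2 := ⟨_, rfl⟩
  obtain ⟨z, hz⟩ : ∃ z : Fin d → ℝ, z = fun i => (y i : ℝ) := ⟨_, rfl⟩
  have hsq : LE.sq y = ∑ i, z i ^ 2 := by rw [hz]; rfl
  obtain ⟨A, hA⟩ : ∃ A : ℝ, A = ∑ i, w i ^ 2 := ⟨_, rfl⟩
  obtain ⟨Q, hQ⟩ : ∃ Q : ℝ, Q = ∑ i, z i ^ 2 := ⟨_, rfl⟩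
  obtain ⟨P, hP⟩ : ∃ P : ℝ, P = ∑ i, w i * z i := ⟨_, rfl⟩
  have hA0 : 0 ≤ A := by rw [hA]; exact Finset.sum_nonneg fun i _ => sq_nonneg _
  have hQ0 : 0 ≤ Q := by rw [hQ]; exact Finset.sum_nonneg fun i _ => sq_nonneg _
  have hCS : P ^ 2 ≤ A * Q := by
    rw [hP, hA, hQ]
    exact Finset.sum_mul_sq_le_sq_mul_sq _ _ _
  have e0 : ∑ i, ((v i : ℝ) - n / 2) ^ 2 = A := by rw [hA, hw]
  have e1 : ∑ i, (((v + y) i : ℤ) - (n : ℝ) / 2) ^ 2 = A + 2 * P + Q := by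
    rw [hA, hP, hQ, Finset.mul_sum, ← Finset.sum_add_distrib, ← Finset.sum_add_distrib]
    refine Finset.sum_congr rfl fun i _ => ?_
    rw [hw, hz]
    simp only [Pi.add_apply]
    push_cast
    ring
  have e2 : ∑ i, (((v - y) i : ℤ) - (n : ℝ) / 2) ^ 2 = A - 2 * P + Q := by
    rw [hA, hP, hQ, Finset.mul_sum, ← Finset.sum_sub_distrib, ← Finset.sum_add_distrib]
    refine Finset.sum_congr rfl fun i _ => ?_
    rw [hw, hz]
    simp only [Pi.sub_apply]
    push_cast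
    ring
  have n1 : 0 ≤ A + 2 * P + Q := by
    rw [← e1]; exact Finset.sum_nonneg fun i _ => sq_nonneg _
  have n2 : 0 ≤ A - 2 * P + Q := by
    rw [← e2]; exact Finset.sum_nonneg fun i _ => sq_nonneg _
  unfold phiT
  rw [e0, e1, e2, ← hR, hsq, ← hQ]
  have f1 : (A + 2 * P + Q) / R = A / R + 2 * P / R + Q / R := by ring
  have f2 : (A - 2 * P + Q) / R = A / R - 2 * P / R + Q / R := by ring
  have hmain := tst_second (A / R) (Q / R) (2 * P / R) (div_nonneg hA0 hR0.le)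
    (div_nonneg hQ0 hR0.le) (by
      rw [div_pow, mul_pow, div_le_iff₀ (by positivity)]
      have : 4 * (A / R) * (Q / R) * R ^ 2 = 4 * (A * Q) := by
        field_simp
      rw [this]
      nlinarith) (by rw [← f1]; exact div_nonneg n1 hR0.le) (by rw [← f2]; exact div_nonneg n2 hR0.le)
  rw [f1, f2]
  refine hmain.trans ?_
  rw [hR]
  have hn2 : (0 : ℝ) < (n : ℝ) ^ 2 := by positivity
  have : 38 * (Q / ((n : ℝ) / 4) ^ 2) = 608 * Q / (n : ℝ) ^ 2 := by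
    field_simp
    ring
  rw [this]
  exact div_le_div_of_nonneg_right (by nlinarith) hn2.le

theorem tst_supp (d n : ℕ) (hn : 1 ≤ n) (v : Zd d) (hv : phiT d n v ≠ 0) :
    ∀ y ∈ bx d (n / 8), v + y ∈ Bn d n := by
  intro y hy
  have hn0 : (0 : ℝ) < n := by exact_mod_cast hn
  have h1 : (∑ i, ((v i : ℝ) - n / 2) ^ 2) < ((n : ℝ) / 4) ^ 2 := by
    by_contra hc
    push Not at hc
    apply hv
    unfold phiT
    have h2 : 1 ≤ (∑ i, ((v i : ℝ) - n / 2) ^ 2) / ((n : ℝ) / 4) ^ 2 := by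
      rw [le_div_iff₀ (by positivity), one_mul]
      exact hc
    rw [max_eq_left (by linarith)]
    simp
  unfold bx at hy
  rw [Fintype.mem_piFinset] at hy
  unfold Bn
  rw [Fintype.mem_piFinset]
  intro i
  have h3 := hy i
  rw [Finset.mem_Icc] at h3
  have h4 : ((v i : ℝ) - n / 2) ^ 2 < ((n : ℝ) / 4) ^ 2 :=
    (Finset.single_le_sum (f := fun i => ((v i : ℝ) - n / 2) ^ 2) (fun i _ => sq_nonneg _)
      (Finset.mem_univ i)).trans_lt h1
  have h5 := abs_lt_of_sq_lt_sq h4 (by positivity)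
  rw [abs_lt] at h5
  have h6 : (((n / 8 : ℕ) : ℤ) : ℝ) ≤ (n : ℝ) / 8 := by
    have : ((n / 8 : ℕ) : ℝ) ≤ (n : ℝ) / (8 : ℕ) := Nat.cast_div_le
    push_cast at this ⊢
    exact this
  have h7 : -(((n / 8 : ℕ) : ℤ) : ℝ) ≤ (y i : ℝ) := by exact_mod_cast h3.1
  have h8 : (y i : ℝ) ≤ (((n / 8 : ℕ) : ℤ) : ℝ) := by exact_mod_cast h3.2
  rw [Finset.mem_Ico, Pi.add_apply]
  constructor
  · have : (0 : ℝ) ≤ ((v i + y i : ℤ) : ℝ) := by
      push_cast
      linarith [h5.1]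
    exact_mod_cast this
  · have : ((v i + y i : ℤ) : ℝ) < ((n : ℤ) : ℝ) := by
      push_cast
      linarith [h5.2]
    exact_mod_cast this

theorem tst_low (d : ℕ) (hd : 1 ≤ d) (n : ℕ) (hn : 16 * d ≤ n) :
    1 / 2 * (1 / (32 * (d : ℝ))) ^ d * (n : ℝ) ^ d ≤ ∑ v ∈ Bn d n, phiT d n v := by
  have hd0 : (0 : ℝ) < d := by exact_mod_cast hd
  have hn0 : (0 : ℝ) < n := by
    have : 0 < n := by omega
    exact_mod_cast this
  have hnR : 16 * (d : ℝ) ≤ n := by exact_mod_cast hn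
  obtain ⟨m, hm⟩ : ∃ m : ℕ, m = n / (16 * d) := ⟨_, rfl⟩
  have hm1 : 1 ≤ m := by
    rw [hm]
    exact (Nat.one_le_div_iff (by omega)).2 hn
  have hmu : (m : ℝ) ≤ (n : ℝ) / (16 * d) := by
    rw [hm]
    have : ((n / (16 * d) : ℕ) : ℝ) ≤ (n : ℝ) / ((16 * d : ℕ) : ℝ) := Nat.cast_div_le
    push_cast at this
    exact this
  have hml : (n : ℝ) / (32 * d) ≤ m := by
    have h1 : (n : ℝ) / (16 * d) < m + 1 := by
      rw [hm]
      have := Nat.lt_div_mul_add (a := n) (b := 16 * d) (by omega)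
      rw [div_lt_iff₀ (by positivity)]
      have h2 : (n : ℝ) < ((n / (16 * d) * (16 * d) + 16 * d : ℕ) : ℝ) := by exact_mod_cast this
      refine h2.trans_le (le_of_eq ?_)
      push_cast
      ring
    have h3 : (1 : ℝ) ≤ m := by exact_mod_cast hm1
    have h4 : (n : ℝ) / (32 * d) = (n : ℝ) / (16 * d) / 2 := by
      field_simp
      ring
    rw [h4]
    linarith
  obtain ⟨h, hh⟩ : ∃ h : ℕ, h = n / 2 := ⟨_, rfl⟩
  have hh1 : (h : ℝ) ≤ (n : ℝ) / 2 := by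
    have : 2 * h ≤ n := by omega
    have h2 : (2 : ℝ) * h ≤ n := by exact_mod_cast this
    linarith
  have hh2 : (n : ℝ) / 2 - 1 / 2 ≤ h := by
    have : n ≤ 2 * h + 1 := by omega
    have h2 : (n : ℝ) ≤ 2 * h + 1 := by exact_mod_cast this
    linarith
  have hdn : (m : ℝ) ≤ (n : ℝ) / (8 * d) := by
    refine hmu.trans ?_
    exact div_le_div_of_nonneg_left hn0.le (by positivity) (by nlinarith)
  have hhalf : (1 : ℝ) / 2 ≤ (n : ℝ) / (8 * d) := by
    rw [div_le_div_iff₀ (by norm_num) (by positivity)]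
    nlinarith
  have hsub : Fintype.piFinset (fun _ : Fin d => Finset.Ico (h : ℤ) ((h : ℤ) + m)) ⊆ Bn d n := by
    unfold Bn
    refine Fintype.piFinset_subset _ _ fun i => ?_
    intro k hk
    rw [Finset.mem_Ico] at hk ⊢
    have : h + m ≤ n := by
      have h1 : m ≤ n / 16 := by
        rw [hm]
        exact Nat.div_le_div_left (by omega) (by norm_num)
      omega
    constructor <;> omega
  have hval : ∀ v ∈ Fintype.piFinset (fun _ : Fin d => Finset.Ico (h : ℤ) ((h : ℤ) + m)),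
      1 / 2 ≤ phiT d n v := by
    intro v hv
    rw [Fintype.mem_piFinset] at hv
    have h1 : ∀ i, ((v i : ℝ) - n / 2) ^ 2 ≤ ((n : ℝ) / (8 * d)) ^ 2 := by
      intro i
      have h2 := hv i
      rw [Finset.mem_Ico] at h2
      have h3 : (h : ℝ) ≤ (v i : ℝ) := by exact_mod_cast h2.1
      have h4 : (v i : ℝ) < (h : ℝ) + m := by exact_mod_cast h2.2
      rw [sq_le_sq, abs_of_nonneg (show 0 ≤ (n : ℝ) / (8 * d) by positivity), abs_le]
      constructor <;> linarith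
    have h2 : (∑ i, ((v i : ℝ) - n / 2) ^ 2) ≤ (d : ℝ) * ((n : ℝ) / (8 * d)) ^ 2 := by
      refine (Finset.sum_le_sum fun i _ => h1 i).trans (le_of_eq ?_)
      rw [Finset.sum_const, Finset.card_univ, Fintype.card_fin, nsmul_eq_mul]
    have h3 : (d : ℝ) * ((n : ℝ) / (8 * d)) ^ 2 / ((n : ℝ) / 4) ^ 2 ≤ 1 / 4 := by
      have h4 : (d : ℝ) * ((n : ℝ) / (8 * d)) ^ 2 / ((n : ℝ) / 4) ^ 2 = 1 / (4 * d) := by
        field_simp
        ring
      rw [h4]
      refine div_le_div_of_nonneg_left (by norm_num) (by norm_num) ?_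
      have : (1 : ℝ) ≤ d := by exact_mod_cast hd
      linarith
    have h4 : (∑ i, ((v i : ℝ) - n / 2) ^ 2) / ((n : ℝ) / 4) ^ 2 ≤ 1 / 4 :=
      (div_le_div_of_nonneg_right h2 (by positivity)).trans h3
    unfold phiT
    have h5 : 3 / 4 ≤ max 0 (1 - (∑ i, ((v i : ℝ) - n / 2) ^ 2) / ((n : ℝ) / 4) ^ 2) :=
      le_max_of_le_right (by linarith)
    nlinarith
  calc 1 / 2 * (1 / (32 * (d : ℝ))) ^ d * (n : ℝ) ^ d
      = 1 / 2 * ((n : ℝ) / (32 * d)) ^ d := by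
        rw [mul_assoc, ← mul_pow]
        congr 2
        ring
    _ ≤ 1 / 2 * (m : ℝ) ^ d := by
        refine mul_le_mul_of_nonneg_left ?_ (by norm_num)
        exact pow_le_pow_left₀ (by positivity) hml d
    _ = ∑ v ∈ Fintype.piFinset (fun _ : Fin d => Finset.Ico (h : ℤ) ((h : ℤ) + m)), (1 / 2 : ℝ) := by
        rw [Finset.sum_const, Fintype.card_piFinset]
        simp only [Int.card_Ico, add_sub_cancel_left, Int.toNat_natCast, Finset.prod_const,
          Finset.card_univ, Fintype.card_fin, nsmul_eq_mul, Nat.cast_pow]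
        ring
    _ ≤ ∑ v ∈ Fintype.piFinset (fun _ : Fin d => Finset.Ico (h : ℤ) ((h : ℤ) + m)), phiT d n v :=
        Finset.sum_le_sum hval
    _ ≤ ∑ v ∈ Bn d n, phiT d n v :=
        Finset.sum_le_sum_of_subset_of_nonneg hsub fun v _ _ => (tst_nonneg d n v).1

theorem hTest : StTest := by
  intro d hd
  have hd0 : (0 : ℝ) < d := by exact_mod_cast hd
  refine ⟨1 / 2 * (1 / (32 * (d : ℝ))) ^ d, by positivity, 16 * d, by omega, ?_⟩
  intro n hn
  refine ⟨tst_nonneg d n, fun v hv => tst_supp d n (by omega) v hv,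
    tst_diff d n (by omega), tst_low d hd n hn⟩

end Pool.NL
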