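import Pool.Agent.Helper22.NL.StZ

/-! # Project NL: module Tra (transfer from the sprinkled parameter to the critical one) -/

set_option autoImplicit false

open scoped BigOperators ENNReal Topology
open Pool.LE Filter

namespace Pool.NL

theorem hTra (hS : StSprB) (hT : StTree) (hBn : StBn) (hB : StBasic) : StTra := by
  intro d C₁ B c₀ hE
  obtain ⟨η, κ, hη, hη1, hκ, hmain⟩ := hS d C₁ B c₀ hE
  have hp0 : 0 < pH d := hE.p0
  have hp1 : pH d ≤ 1 / 2 := hE.p1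
  have hd21 : 21 ≤ d := hE.hd
  set p : ℝ := pH d with hpdef
  have hdpos : (0 : ℝ) < d := by
    have : (21 : ℝ) ≤ d := by exact_mod_cast hd21
    linarith
  -- the small constant
  have hε1 : 0 < min κ (p / (8 * d)) := lt_min hκ (by positivity)
  set ε1 : ℝ := min κ (p / (8 * d)) with hε1def
  have hεκ : ε1 ≤ κ := min_le_left _ _
  have hεp : ε1 ≤ p / (8 * d) := min_le_right _ _
  obtain ⟨n₀, hn₀, hn⟩ := hmain ε1 hε1 hεκ
  -- `n` large
  have hlog : ∀ᶠ n : ℕ in atTop, 8 * (d : ℝ) / p ≤ Real.log n :=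
    (Real.tendsto_log_atTop.comp tendsto_natCast_atTop_atTop).eventually_ge_atTop _
  obtain ⟨n₁, hn₁⟩ := eventually_atTop.1 hlog
  refine ⟨ε1 * η, mul_pos hε1 hη, max n₀ n₁, le_max_of_le_left hn₀, ?_⟩
  intro n hnn
  have hnn0 : n₀ ≤ n := le_trans (le_max_left _ _) hnn
  have hnn1 : n₁ ≤ n := le_trans (le_max_right _ _) hnn
  have hn1 : 1 ≤ n := le_trans hn₀ hnn0
  have hnR : (1 : ℝ) ≤ n := by exact_mod_cast hn1
  have hnR0 : (0 : ℝ) < n := by linarith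
  have hL := hn₁ n hnn1
  have hlog0 : 0 ≤ Real.log n := Real.log_nonneg hnR
  have hthr : η * (n : ℝ) ^ 4 ≤ (thr η n : ℝ) := Nat.le_ceil _
  have hthr1 : (thr η n : ℝ) ≤ 2 * (n : ℝ) ^ 4 := by
    have h1 : (thr η n : ℝ) < η * (n : ℝ) ^ 4 + 1 := Nat.ceil_lt_add_one (by positivity)
    have h2 : (1 : ℝ) ≤ (n : ℝ) ^ 4 := one_le_pow₀ hnR
    have h3 : η * (n : ℝ) ^ 4 ≤ 1 * (n : ℝ) ^ 4 := mul_le_mul_of_nonneg_right hη1 (by positivity)
    linarith
  have hthr0 : 1 ≤ thr η n := Nat.one_le_iff_ne_zero.2 (by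
    intro h0
    rw [h0] at hthr
    have : 0 < η * (n : ℝ) ^ 4 := by positivity
    simp at hthr
    linarith)
  set s : ℕ := (⌊ε1 * Real.log n⌋₊ + 1) * thr η n with hs
  have hs1 : 1 ≤ s := Nat.one_le_iff_ne_zero.2 (by
    rw [hs]
    exact Nat.mul_ne_zero (Nat.succ_ne_zero _) (by omega))
  have hsl : ε1 * η * (n : ℝ) ^ 4 * Real.log n ≤ (s : ℝ) := by
    rw [hs]
    push_cast
    have h1 : ε1 * Real.log n ≤ (⌊ε1 * Real.log n⌋₊ : ℝ) + 1 := (Nat.lt_floor_add_one _).le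
    have h2 : (ε1 * Real.log n) * (η * (n : ℝ) ^ 4) ≤
        ((⌊ε1 * Real.log n⌋₊ : ℝ) + 1) * (thr η n : ℝ) :=
      mul_le_mul h1 hthr (by positivity) (by positivity)
    calc ε1 * η * (n : ℝ) ^ 4 * Real.log n = (ε1 * Real.log n) * (η * (n : ℝ) ^ 4) := by ring
      _ ≤ _ := h2
  have hsu : (s : ℝ) ≤ (ε1 * Real.log n + 1) * (2 * (n : ℝ) ^ 4) := by
    rw [hs]
    push_cast
    have h1 : (⌊ε1 * Real.log n⌋₊ : ℝ) ≤ ε1 * Real.log n := Nat.floor_le (by positivity)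
    exact mul_le_mul (by linarith) hthr1 (by positivity) (by positivity)
  refine ⟨s, hs1, hsl, ?_⟩
  have hsum := hn n hnn0
  rw [← hs] at hsum
  -- the graph
  obtain ⟨hFG, hcard, -, -, -⟩ := hBn d n
  -- the sprinkled parameter
  set δ : ℝ := 1 / (n : ℝ) ^ 2 with hδ
  have hδ0 : 0 < δ := by positivity
  have hδ1 : δ ≤ 1 := by
    rw [hδ, div_le_one (by positivity)]
    exact one_le_pow₀ hnR
  have hps : ps d n = 1 - (1 - p) * (1 - δ) := rfl
  have hps0 : 0 ≤ ps d n := by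
    rw [hps]
    nlinarith
  have hps1 : ps d n ≤ 1 := by
    rw [hps]
    nlinarith
  set r : ℝ := (ps d n) ^ 2 / p + (1 - ps d n) ^ 2 / (1 - p) with hr
  have h1p : (0 : ℝ) < 1 - p := by linarith
  have hr' : r = 1 + (1 - p) * δ ^ 2 / p := by
    rw [hr, hps]
    field_simp
    ring
  have hr1 : r ≤ Real.exp (δ ^ 2 / p) := by
    have h1 : (1 - p) * δ ^ 2 / p ≤ δ ^ 2 / p := by
      apply div_le_div_of_nonneg_right _ hp0.le
      nlinarith [sq_nonneg δ]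
    have h2 := Real.add_one_le_exp (δ ^ 2 / p)
    rw [hr']
    linarith
  have hr0 : 0 ≤ r := by
    rw [hr']
    positivity
  have hrn : r ^ (2 * d * s) ≤ (n : ℝ) := by
    have h1 : r ^ (2 * d * s) ≤ Real.exp (δ ^ 2 / p) ^ (2 * d * s) := pow_le_pow_left₀ hr0 hr1 _
    refine h1.trans ?_
    rw [← Real.exp_nat_mul]
    conv_rhs => rw [← Real.exp_log hnR0]
    apply Real.exp_le_exp.2
    push_cast
    have h2 : δ ^ 2 = 1 / (n : ℝ) ^ 4 := by rw [hδ]; field_simp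
    rw [h2]
    have h3 : 2 * (d : ℝ) * (s : ℝ) * (1 / (n : ℝ) ^ 4 / p) ≤
        2 * (d : ℝ) * ((ε1 * Real.log n + 1) * (2 * (n : ℝ) ^ 4)) * (1 / (n : ℝ) ^ 4 / p) := by
      apply mul_le_mul_of_nonneg_right _ (by positivity)
      exact mul_le_mul_of_nonneg_left hsu (by positivity)
    refine h3.trans ?_
    have h4 : 2 * (d : ℝ) * ((ε1 * Real.log n + 1) * (2 * (n : ℝ) ^ 4)) * (1 / (n : ℝ) ^ 4 / p) =
        4 * d / p * ε1 * Real.log n + 4 * d / p := by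
      field_simp
      ring
    rw [h4]
    have h5 : 4 * (d : ℝ) / p * ε1 ≤ 1 / 2 := by
      calc 4 * (d : ℝ) / p * ε1 ≤ 4 * (d : ℝ) / p * (p / (8 * d)) :=
            mul_le_mul_of_nonneg_left hεp (by positivity)
        _ = 1 / 2 := by field_simp; norm_num
    have h6 : 4 * (d : ℝ) / p * ε1 * Real.log n ≤ 1 / 2 * Real.log n :=
      mul_le_mul_of_nonneg_right h5 hlog0
    have h7 : 8 * (d : ℝ) / p = 2 * (4 * d / p) := by ring
    rw [h7] at hL
    linarith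
  -- the probabilities
  have hP0 : ∀ x, 0 ≤ pB d n (pH d) (fun ω => s ≤ XB d n ω x) := fun x =>
    ((hB (Zd d) (ES (Bn d n)) p hp0.le (by linarith)).2.2.2.2.2.2.1 _).1
  have hone : ∀ x ∈ Bn d n, (pB d n (ps d n) (fun ω => s ≤ XB d n ω x)) ^ 2 ≤
      (n : ℝ) * pB d n (pH d) (fun ω => s ≤ XB d n ω x) := by
    intro x hx
    have h1 := hT (Zd d) (Bn d n) (ES (Bn d n)) (2 * d) p (ps d n) hFG hp0 (by linarith) hps0 hps1
      x hx s hs1
    refine le_trans h1 ?_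
    exact mul_le_mul_of_nonneg_right hrn (hP0 x)
  have hcs : (∑ x ∈ Bn d n, pB d n (ps d n) (fun ω => s ≤ XB d n ω x)) ^ 2 ≤
      ((Bn d n).card : ℝ) * ∑ x ∈ Bn d n, (pB d n (ps d n) (fun ω => s ≤ XB d n ω x)) ^ 2 :=
    sq_sum_le_card_mul_sum_sq
  have hsq : ((n : ℝ) ^ (d - 3)) ^ 2 ≤
      (∑ x ∈ Bn d n, pB d n (ps d n) (fun ω => s ≤ XB d n ω x)) ^ 2 :=
    pow_le_pow_left₀ (by positivity) hsum 2
  have hfin : ((n : ℝ) ^ (d - 3)) ^ 2 ≤
      (n : ℝ) ^ d * ((n : ℝ) * ∑ x ∈ Bn d n, pB d n (pH d) (fun ω => s ≤ XB d n ω x)) := by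
    refine hsq.trans (hcs.trans ?_)
    rw [hcard]
    push_cast
    apply mul_le_mul_of_nonneg_left _ (by positivity)
    rw [Finset.mul_sum]
    exact Finset.sum_le_sum hone
  have hpow : ((n : ℝ) ^ (d - 3)) ^ 2 = (n : ℝ) ^ d * ((n : ℝ) * (n : ℝ) ^ (d - 7)) := by
    rw [← pow_mul, ← pow_succ', ← pow_add]
    congr 1
    omega
  rw [hpow] at hfin
  have h8 := le_of_mul_le_mul_left hfin (by positivity)
  exact le_of_mul_le_mul_left h8 hnR0

end Pool.NL
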