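import Pool.Agent.Helper22.NL.StZ
import Pool.Agent.Helper84.LE.BKP

/-! # Project NL: module Tri (sums of products of connection probabilities in the box) -/

set_option autoImplicit false

open scoped BigOperators ENNReal Topology
open Pool.LE Filter

namespace Pool.NL

theorem tri_neg {d : ℕ} {f : Zd d → ℝ} (hf : SymF f) (x : Zd d) : f (-x) = f x := by
  have h := hf (Equiv.refl _) (fun _ => -1) x
  have h2 : sgp (Equiv.refl (Fin d)) (fun _ => (-1 : ℤˣ)) x = -x := by
    funext i
    simp [sgp]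
  rw [h2] at h
  exact h

theorem hTri (hCT : StCpTau) (hTB : StTauBasic) (hQ : StQw) (hBn : StBn) : StTri := by
  classical
  intro d C₁ B c₀ hE n hn
  have hp0 : 0 ≤ pH d := hE.p0.le
  have hp1 : pH d ≤ 1 := by linarith [hE.p1]
  obtain ⟨ht1, ht0, hts, hto, htr⟩ := hTB d (pH d) hp0 hp1
  obtain ⟨hq2, hqm, hqn, -⟩ := hQ d
  set K : Zd d → Zd d → ENNReal := Kd d (pH d) with hK
  set c : Zd d → Zd d → ℝ := fun x y => cp (ES (Bn d n)) (pH d) x y with hc
  have hc0 : ∀ x y, 0 ≤ c x y := by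
    intro x y
    show 0 ≤ Ex _ _ _
    unfold Ex
    refine Finset.sum_nonneg fun ω _ => ?_
    rw [smul_eq_mul]
    refine mul_nonneg ?_ ?_
    · unfold wt
      exact mul_nonneg (pow_nonneg hp0 _) (pow_nonneg (by linarith) _)
    · show 0 ≤ ind (con ω x y)
      unfold ind
      split_ifs <;> norm_num
  have hB0 : 0 < B := by linarith [hE.hB]
  -- the kernel
  have hcT : ∀ x y, ENNReal.ofReal (c x y) ≤ tauE d (pH d) (y - x) := by
    intro x y
    rw [← hto]
    exact ENNReal.ofReal_le_ofReal (hCT d n (pH d) x y hp0 hp1)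
  have hQK : ∀ x y, ENNReal.ofReal (Qw (y - x)) * ENNReal.ofReal (c x y) ≤ K x y := by
    intro x y
    exact mul_le_mul' le_rfl (hcT x y)
  have hcK : ∀ x y, ENNReal.ofReal (c x y) ≤ K x y := by
    intro x y
    refine le_trans ?_ (hQK x y)
    have h1 : (1 : ENNReal) ≤ ENNReal.ofReal (Qw (y - x)) := by
      rw [← ENNReal.ofReal_one]
      exact ENNReal.ofReal_le_ofReal (by linarith [hq2 (y - x)])
    calc ENNReal.ofReal (c x y) = 1 * ENNReal.ofReal (c x y) := (one_mul _).symm
      _ ≤ _ := mul_le_mul' h1 le_rfl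
  have hKd : ∀ x, 1 ≤ K x x := by
    intro x
    show 1 ≤ ENNReal.ofReal (Qw (x - x)) * tauE d (pH d) (x - x)
    rw [sub_self, ht0, mul_one, ← ENNReal.ofReal_one]
    exact ENNReal.ofReal_le_ofReal (by linarith [hq2 (0 : Zd d)])
  have hKs : ∀ x y, K x y = K y x := by
    intro x y
    show ENNReal.ofReal (Qw (y - x)) * tauE d (pH d) (y - x) =
      ENNReal.ofReal (Qw (x - y)) * tauE d (pH d) (x - y)
    rw [← hto, ← hto, ← neg_sub x y, hqn, tri_neg hts]
  constructor
  · intro a _ b _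
    set S : ℝ := ∑ w ∈ Bn d n, ∑ z ∈ Bn d n, c b w * c w z * c z a with hS
    have hS0 : 0 ≤ S := Finset.sum_nonneg fun w _ => Finset.sum_nonneg fun z _ =>
      mul_nonneg (mul_nonneg (hc0 _ _) (hc0 _ _)) (hc0 _ _)
    have hQ0 : 0 < Qw (b - a) := by linarith [hq2 (b - a)]
    have key : ENNReal.ofReal (Qw (b - a) * S) ≤ ENNReal.ofReal B := by
      have e1 : Qw (b - a) * S = ∑ w ∈ Bn d n, ∑ z ∈ Bn d n, Qw (b - a) * (c b w * c w z * c z a) := by
        rw [hS, Finset.mul_sum]
        refine Finset.sum_congr rfl fun w _ => ?_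
        rw [Finset.mul_sum]
      have hterm : ∀ w z : Zd d, ENNReal.ofReal (Qw (b - a) * (c b w * c w z * c z a)) ≤
          K b w * (K w z * K z a) := by
        intro w z
        have hq : Qw (b - a) ≤ Qw (w - b) * (Qw (z - w) * Qw (a - z)) := by
          have h1 := hqm (w - b) (a - w)
          have h2 := hqm (z - w) (a - z)
          have h3 : w - b + (a - w) = a - b := by abel
          have h4 : z - w + (a - z) = a - w := by abel
          rw [h3] at h1
          rw [h4] at h2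
          rw [← neg_sub a b, hqn]
          exact h1.trans (mul_le_mul_of_nonneg_left h2 (by linarith [hq2 (w - b)]))
        have h5 : Qw (b - a) * (c b w * c w z * c z a) ≤
            (Qw (w - b) * c b w) * ((Qw (z - w) * c w z) * (Qw (a - z) * c z a)) := by
          have h6 := mul_le_mul_of_nonneg_right hq
            (mul_nonneg (mul_nonneg (hc0 b w) (hc0 w z)) (hc0 z a))
          refine h6.trans (le_of_eq ?_)
          ring
        refine (ENNReal.ofReal_le_ofReal h5).trans ?_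
        have g1 : 0 ≤ Qw (w - b) := by linarith [hq2 (w - b)]
        have g2 : 0 ≤ Qw (z - w) := by linarith [hq2 (z - w)]
        have g3 : 0 ≤ Qw (a - z) := by linarith [hq2 (a - z)]
        rw [ENNReal.ofReal_mul (mul_nonneg g1 (hc0 _ _)), ENNReal.ofReal_mul g1,
          ENNReal.ofReal_mul (mul_nonneg g2 (hc0 _ _)), ENNReal.ofReal_mul g2, ENNReal.ofReal_mul g3]
        exact mul_le_mul' (hQK b w) (mul_le_mul' (hQK w z) (hQK z a))
      rw [e1, ENNReal.ofReal_sum_of_nonneg (fun w _ => Finset.sum_nonneg fun z _ =>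
        mul_nonneg hQ0.le (mul_nonneg (mul_nonneg (hc0 _ _) (hc0 _ _)) (hc0 _ _)))]
      have e2 : ∑ w ∈ Bn d n, ENNReal.ofReal (∑ z ∈ Bn d n, Qw (b - a) * (c b w * c w z * c z a)) ≤
          ∑ w ∈ Bn d n, K b w * kp K 2 w a := by
        refine Finset.sum_le_sum fun w _ => ?_
        rw [ENNReal.ofReal_sum_of_nonneg (fun z _ =>
          mul_nonneg hQ0.le (mul_nonneg (mul_nonneg (hc0 _ _) (hc0 _ _)) (hc0 _ _)))]
        refine (Finset.sum_le_sum fun z _ => hterm w z).trans ?_
        rw [← Finset.mul_sum, kp_two]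
        exact mul_le_mul' le_rfl (ENNReal.sum_le_tsum _)
      refine e2.trans ((ENNReal.sum_le_tsum _).trans ?_)
      have e3 : ∑' w, K b w * kp K 2 w a = kp K 3 b a := rfl
      rw [e3]
      exact (kp_le_kp hKd (by norm_num : 3 ≤ 4) b a).trans (hE.A2 b a)
    have h7 : Qw (b - a) * S ≤ B := (ENNReal.ofReal_le_ofReal_iff hB0.le).1 key
    show S ≤ B / Qw (b - a)
    rw [le_div_iff₀ hQ0]
    linarith
  · intro a _
    have hin : ∀ u : Zd d, ENNReal.ofReal (∑ z ∈ Bn d n, c a z * c z u) ≤ kp K 2 a u := by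
      intro u
      rw [ENNReal.ofReal_sum_of_nonneg (fun z _ => mul_nonneg (hc0 _ _) (hc0 _ _)), kp_two]
      refine le_trans (Finset.sum_le_sum fun z _ => ?_) (ENNReal.sum_le_tsum (Bn d n))
      rw [ENNReal.ofReal_mul (hc0 _ _)]
      exact mul_le_mul' (hcK a z) (hcK z u)
    have hn0 : ∀ u : Zd d, 0 ≤ ∑ z ∈ Bn d n, c a z * c z u := fun u =>
      Finset.sum_nonneg fun z _ => mul_nonneg (hc0 _ _) (hc0 _ _)
    have key : ENNReal.ofReal (∑ u ∈ Bn d n, (∑ z ∈ Bn d n, c a z * c z u) ^ 2) ≤ ENNReal.ofReal B := by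
      rw [ENNReal.ofReal_sum_of_nonneg (fun u _ => by positivity)]
      have e2 : ∑ u ∈ Bn d n, ENNReal.ofReal ((∑ z ∈ Bn d n, c a z * c z u) ^ 2) ≤
          ∑ u ∈ Bn d n, kp K 2 a u * kp K 2 u a := by
        refine Finset.sum_le_sum fun u _ => ?_
        rw [_root_.sq, ENNReal.ofReal_mul (hn0 u), kp_symm hKs 2 u a]
        exact mul_le_mul' (hin u) (hin u)
      refine e2.trans ((ENNReal.sum_le_tsum _).trans ?_)
      have e3 : ∑' u, kp K 2 a u * kp K 2 u a = kp K 4 a a := by
        rw [show (4 : ℕ) = 2 + 2 from rfl, kp_add]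
        rfl
      rw [e3]
      exact hE.A2 a a
    exact (ENNReal.ofReal_le_ofReal_iff hB0.le).1 key

end Pool.NL
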