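import Pool.Agent.Helper22.NL.StZ

/-! # Project NL: module Up (upper bound for the largest cluster of the box) -/

set_option autoImplicit false

open scoped BigOperators ENNReal Topology
open Pool.LE Filter

namespace Pool.NL

theorem hUp (hM : StMomS) (hHub : StHub) (hBn : StBn) (hB : StBasic) : StUp := by
  classical
  intro d C₁ B c₀ hE
  have hp0 : 0 ≤ pH d := hE.p0.le
  have hp1 : pH d ≤ 1 := by linarith [hE.p1]
  have hC1 : 1 ≤ C₁ := hE.hC
  have ind01 : ∀ A : Prop, 0 ≤ ind A ∧ ind A ≤ 1 := by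
    intro A
    unfold ind
    split_ifs <;> norm_num
  have indT : ∀ A : Prop, A → ind A = 1 := fun A h => by unfold ind; rw [if_pos h]
  have indF : ∀ A : Prop, ¬ A → ind A = 0 := fun A h => by unfold ind; rw [if_neg h]
  set C : ℝ := 12 * C₁ ^ 2 * (d + 5) with hCdef
  have hCpos : 0 < C := by positivity
  have hC12 : 12 ≤ C := by
    have h1 : 1 ≤ C₁ ^ 2 := one_le_pow₀ hC1
    have h2 : (0 : ℝ) ≤ d := Nat.cast_nonneg d
    nlinarith
  refine ⟨C, hCpos, ?_⟩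
  -- the bound for one point
  have key : ∀ n : ℕ, 2 ≤ n → ∀ x ∈ Bn d n,
      pB d n (pH d) (fun ω => C * (n : ℝ) ^ 4 * Real.log n ≤ XB d n ω x) ≤
        2 * C₁ * (n : ℝ) ^ 2 * Real.exp (-((d + 3) * Real.log n)) := by
    intro n hn x hx
    obtain ⟨hmono, hconst, hadd, hsub, hmul, hsum, hpr, hprm, hcs, hmk⟩ :=
      hB (Zd d) (ES (Bn d n)) (pH d) hp0 hp1
    have hn2 : (2 : ℝ) ≤ n := by exact_mod_cast hn
    have hlog : (1 : ℝ) / 2 ≤ Real.log n := by
      have h2 : Real.log 2 ≤ Real.log n := Real.log_le_log (by norm_num) hn2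
      have h3 := Real.log_two_gt_d9
      linarith
    set χ : ℝ := C₁ * (n : ℝ) ^ 2 with hχ
    have hn21 : (1 : ℝ) ≤ (n : ℝ) ^ 2 := one_le_pow₀ (by linarith)
    have hχ1 : 1 ≤ χ := by nlinarith
    set r : ℕ := ⌈((d : ℝ) + 3) * Real.log n⌉₊ with hr
    have hdr : (0 : ℝ) ≤ d := Nat.cast_nonneg d
    have hr1 : 1 ≤ r := Nat.ceil_pos.2 (by positivity)
    have hrlow : ((d : ℝ) + 3) * Real.log n ≤ r := Nat.le_ceil _
    have hrup : (r : ℝ) ≤ ((d : ℝ) + 5) * Real.log n := by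
      have h := Nat.ceil_lt_add_one (a := ((d : ℝ) + 3) * Real.log n) (by positivity)
      rw [← hr] at h
      nlinarith
    set t : ℝ := C * (n : ℝ) ^ 4 * Real.log n with ht
    have hn4 : (16 : ℝ) ≤ (n : ℝ) ^ 4 := by
      have := pow_le_pow_left₀ (by norm_num) hn2 4
      norm_num at this
      linarith
    have ht1 : 1 ≤ t := by
      have h1 : 12 * 16 ≤ C * (n : ℝ) ^ 4 := mul_le_mul hC12 hn4 (by norm_num) hCpos.le
      rw [ht]
      nlinarith
    have ht0 : 0 < t := by linarith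
    have hmom := hM (Zd d) (Bn d n) (ES (Bn d n)) (2 * d) (pH d) χ (hBn d n).1 hp0 hE.p1 hχ1
      (fun y hy => hHub d C₁ B c₀ hE n (by omega) y hy) x hx r hr1
    have hmarkov := hmk (fun ω => (XB d n ω x : ℝ) ^ (r + 1)) (t ^ (r + 1))
      (fun ω _ => by positivity) (by positivity)
    have hmono2 := hprm (fun ω => t ≤ XB d n ω x) (fun ω => t ^ (r + 1) ≤ (XB d n ω x : ℝ) ^ (r + 1))
      (fun ω _ h => pow_le_pow_left₀ ht0.le h _)
    have h4 : 4 * χ ^ 2 * r ≤ t / 3 := by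
      rw [hχ, ht, hCdef]
      have h5 : 4 * (C₁ * (n : ℝ) ^ 2) ^ 2 * r ≤ 4 * (C₁ * (n : ℝ) ^ 2) ^ 2 * (((d : ℝ) + 5) * Real.log n) :=
        mul_le_mul_of_nonneg_left hrup (by positivity)
      refine h5.trans (le_of_eq ?_)
      ring
    have h6 : (2 * χ * (4 * χ ^ 2 * r) ^ r) / t ^ (r + 1) ≤ 2 * χ * (1 / 3) ^ r := by
      rw [div_le_iff₀ (by positivity)]
      have h7 : (4 * χ ^ 2 * r) ^ r ≤ (t / 3) ^ r := pow_le_pow_left₀ (by positivity) h4 _
      have h8 : (t / 3) ^ r = (1 / 3) ^ r * t ^ r := by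
        rw [← mul_pow]
        congr 1
        ring
      have h9 : t ^ r ≤ t ^ (r + 1) := pow_le_pow_right₀ ht1 (Nat.le_succ r)
      calc 2 * χ * (4 * χ ^ 2 * r) ^ r ≤ 2 * χ * ((1 / 3) ^ r * t ^ r) := by
            rw [← h8]
            exact mul_le_mul_of_nonneg_left h7 (by positivity)
        _ ≤ 2 * χ * ((1 / 3) ^ r * t ^ (r + 1)) := by
            refine mul_le_mul_of_nonneg_left (mul_le_mul_of_nonneg_left h9 (by positivity)) (by positivity)
        _ = 2 * χ * (1 / 3) ^ r * t ^ (r + 1) := by ring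
    have h10 : ((1 : ℝ) / 3) ^ r ≤ Real.exp (-((d + 3) * Real.log n)) := by
      have e3 : Real.exp 1 ≤ 3 := by
        have := Real.exp_one_lt_d9
        linarith
      have e4 : (1 : ℝ) / 3 ≤ Real.exp (-1) := by
        rw [Real.exp_neg, one_div]
        exact inv_anti₀ (Real.exp_pos 1) e3
      calc ((1 : ℝ) / 3) ^ r ≤ (Real.exp (-1)) ^ r := pow_le_pow_left₀ (by norm_num) e4 _
        _ = Real.exp (-(r : ℝ)) := by
            rw [← Real.exp_nat_mul]
            congr 1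
            ring
        _ ≤ _ := Real.exp_le_exp.2 (by linarith)
    have hm2 : ex (ES (Bn d n)) (pH d) (fun ω => (XB d n ω x : ℝ) ^ (r + 1)) / t ^ (r + 1) ≤
        (2 * χ * (4 * χ ^ 2 * r) ^ r) / t ^ (r + 1) := div_le_div_of_nonneg_right hmom (by positivity)
    have hfin : 2 * χ * (1 / 3) ^ r ≤ 2 * C₁ * (n : ℝ) ^ 2 * Real.exp (-((d + 3) * Real.log n)) := by
      have e5 : 2 * C₁ * (n : ℝ) ^ 2 = 2 * χ := by rw [hχ]; ring
      rw [e5]
      exact mul_le_mul_of_nonneg_left h10 (by positivity)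
    exact hmono2.trans (hmarkov.trans (hm2.trans (h6.trans hfin)))
  -- union bound
  have main : ∀ n : ℕ, 2 ≤ n → 1 - 2 * C₁ / n ≤ pB d n (pH d) (fun ω => ∀ x ∈ Bn d n,
      (XB d n ω x : ℝ) ≤ C * (n : ℝ) ^ 4 * Real.log n) := by
    intro n hn
    obtain ⟨hmono, hconst, hadd, hsub, hmul, hsum, hpr, hprm, hcs, hmk⟩ :=
      hB (Zd d) (ES (Bn d n)) (pH d) hp0 hp1
    have hn2 : (2 : ℝ) ≤ n := by exact_mod_cast hn
    have hn0 : (0 : ℝ) < n := by linarith
    have h := hmono (fun _ => (1 : ℝ)) (fun ω => ind (∀ x ∈ Bn d n,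
      (XB d n ω x : ℝ) ≤ C * (n : ℝ) ^ 4 * Real.log n) +
        ∑ x ∈ Bn d n, ind (C * (n : ℝ) ^ 4 * Real.log n ≤ XB d n ω x)) (fun ω _ => by
      have hs : 0 ≤ ∑ x ∈ Bn d n, ind (C * (n : ℝ) ^ 4 * Real.log n ≤ XB d n ω x) :=
        Finset.sum_nonneg fun x _ => (ind01 _).1
      by_cases hc : ∀ x ∈ Bn d n, (XB d n ω x : ℝ) ≤ C * (n : ℝ) ^ 4 * Real.log n
      · rw [indT _ hc]
        linarith
      · rw [indF _ hc]
        push Not at hc
        obtain ⟨x, hx, hx2⟩ := hc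
        have h1 : ind (C * (n : ℝ) ^ 4 * Real.log n ≤ XB d n ω x) ≤
            ∑ x ∈ Bn d n, ind (C * (n : ℝ) ^ 4 * Real.log n ≤ XB d n ω x) :=
          Finset.single_le_sum (f := fun x => ind (C * (n : ℝ) ^ 4 * Real.log n ≤ XB d n ω x))
            (fun y _ => (ind01 _).1) hx
        rw [indT _ hx2.le] at h1
        linarith)
    have e1 := hadd (fun ω => ind (∀ x ∈ Bn d n, (XB d n ω x : ℝ) ≤ C * (n : ℝ) ^ 4 * Real.log n))
      (fun ω => ∑ x ∈ Bn d n, ind (C * (n : ℝ) ^ 4 * Real.log n ≤ XB d n ω x))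
    have e2 := hsum (Zd d) (Bn d n) (fun x ω => ind (C * (n : ℝ) ^ 4 * Real.log n ≤ XB d n ω x))
    rw [hconst, e1, e2] at h
    have h2 : ∑ x ∈ Bn d n, ex (ES (Bn d n)) (pH d)
        (fun ω => ind (C * (n : ℝ) ^ 4 * Real.log n ≤ XB d n ω x)) ≤
        ∑ _x ∈ Bn d n, 2 * C₁ * (n : ℝ) ^ 2 * Real.exp (-((d + 3) * Real.log n)) :=
      Finset.sum_le_sum fun x hx => key n hn x hx
    have h3 : ∑ _x ∈ Bn d n, 2 * C₁ * (n : ℝ) ^ 2 * Real.exp (-((d + 3) * Real.log n)) = 2 * C₁ / n := by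
      rw [Finset.sum_const, (hBn d n).2.1, nsmul_eq_mul, Real.exp_neg, mul_comm ((d : ℝ) + 3),
        Real.exp_mul, Real.exp_log hn0]
      have e6 : (n : ℝ) ^ ((d : ℝ) + 3) = (n : ℝ) ^ (d + 3) := by
        have : ((d : ℝ) + 3) = ((d + 3 : ℕ) : ℝ) := by push_cast; ring
        rw [this, Real.rpow_natCast]
      rw [e6]
      push_cast
      field_simp
      rw [pow_add]
    rw [h3] at h2
    have h4 : ex (ES (Bn d n)) (pH d) (fun ω => ind (∀ x ∈ Bn d n,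
      (XB d n ω x : ℝ) ≤ C * (n : ℝ) ^ 4 * Real.log n)) = pB d n (pH d) (fun ω => ∀ x ∈ Bn d n,
      (XB d n ω x : ℝ) ≤ C * (n : ℝ) ^ 4 * Real.log n) := rfl
    rw [h4] at h
    linarith
  refine tendsto_of_tendsto_of_tendsto_of_le_of_le' (g := fun n : ℕ => 1 - 2 * C₁ / (n : ℝ))
    (h := fun _ => (1 : ℝ)) ?_ tendsto_const_nhds ?_ ?_
  · have h1 : Tendsto (fun n : ℕ => 2 * C₁ / (n : ℝ)) atTop (𝓝 0) :=
      tendsto_const_div_atTop_nhds_zero_nat _
    have h2 := (tendsto_const_nhds (x := (1 : ℝ))).sub h1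
    simpa using h2
  · filter_upwards [eventually_ge_atTop 2] with n hn
    exact main n hn
  · filter_upwards with n
    exact ((hB (Zd d) (ES (Bn d n)) (pH d) hp0 hp1).2.2.2.2.2.2.1 _).2.1

end Pool.NL
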