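import Pool.Agent.Helper22.NL.StZ
import Pool.Agent.Helper84.LE.BGR

/-! # Project NL: upper bounds for the bridges (module UpJ) -/

set_option autoImplicit false

open scoped BigOperators ENNReal
open Pool.LE

namespace Pool.NL

private theorem uj_pr_nonneg {V : Type} [DecidableEq V] (E : Finset (Sym2 V)) {p : ℝ} (h0 : 0 ≤ p)
    (h1 : p ≤ 1) (A : Finset (Sym2 V) → Prop) : 0 ≤ pr E p A := by
  classical
  unfold pr Ex
  refine Finset.sum_nonneg fun ω _ => ?_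
  rw [smul_eq_mul]
  refine mul_nonneg ?_ ?_
  · unfold wt
    exact mul_nonneg (pow_nonneg h0 _) (pow_nonneg (by linarith) _)
  · change (0 : ℝ) ≤ ind (A ω)
    unfold ind
    split_ifs <;> norm_num

/-- sum over the directed edges of a function of the first end -/
private theorem uj_fst {V : Type} [DecidableEq V] (L : Finset V) (E : Finset (Sym2 V)) (D : ℕ)
    (hin : ∀ q ∈ drt E, q.1 ∈ L) (hdeg : ∀ u, ((drt E).filter (fun q => q.1 = u)).card ≤ D)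
    (f : V → ℝ) (hf : ∀ u ∈ L, 0 ≤ f u) :
    ∑ q ∈ drt E, f q.1 ≤ D * ∑ u ∈ L, f u := by
  classical
  rw [← Finset.sum_fiberwise_of_maps_to hin (fun q => f q.1), Finset.mul_sum]
  refine Finset.sum_le_sum fun u hu => ?_
  have h1 : ∑ q ∈ (drt E).filter (fun q => q.1 = u), f q.1 =
      ∑ q ∈ (drt E).filter (fun q => q.1 = u), f u :=
    Finset.sum_congr rfl fun q hq => by rw [(Finset.mem_filter.1 hq).2]
  rw [h1, Finset.sum_const, nsmul_eq_mul]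
  exact mul_le_mul_of_nonneg_right (by exact_mod_cast hdeg u) (hf u hu)

/-- sum over the directed edges of a function of the second end -/
private theorem uj_snd {V : Type} [DecidableEq V] (L : Finset V) (E : Finset (Sym2 V)) (D : ℕ)
    (hin : ∀ q ∈ drt E, q.2 ∈ L) (hdeg : ∀ u, ((drt E).filter (fun q => q.2 = u)).card ≤ D)
    (f : V → ℝ) (hf : ∀ u ∈ L, 0 ≤ f u) :
    ∑ q ∈ drt E, f q.2 ≤ D * ∑ u ∈ L, f u := by
  classical
  rw [← Finset.sum_fiberwise_of_maps_to hin (fun q => f q.2), Finset.mul_sum]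
  refine Finset.sum_le_sum fun u hu => ?_
  have h1 : ∑ q ∈ (drt E).filter (fun q => q.2 = u), f q.2 =
      ∑ q ∈ (drt E).filter (fun q => q.2 = u), f u :=
    Finset.sum_congr rfl fun q hq => by rw [(Finset.mem_filter.1 hq).2]
  rw [h1, Finset.sum_const, nsmul_eq_mul]
  exact mul_le_mul_of_nonneg_right (by exact_mod_cast hdeg u) (hf u hu)

/-- double sums -/
private theorem uj_dbl {V : Type} [DecidableEq V] (L : Finset V) (E : Finset (Sym2 V)) (D : ℕ)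
    (hin1 : ∀ q ∈ drt E, q.1 ∈ L) (hin2 : ∀ q ∈ drt E, q.2 ∈ L)
    (hd1 : ∀ u, ((drt E).filter (fun q => q.1 = u)).card ≤ D)
    (hd2 : ∀ u, ((drt E).filter (fun q => q.2 = u)).card ≤ D)
    (G : V → V → ℝ) (hG : ∀ u v, 0 ≤ G u v) :
    ∑ a ∈ drt E, ∑ b ∈ drt E, G a.1 b.1 ≤ (D : ℝ) ^ 2 * ∑ u ∈ L, ∑ v ∈ L, G u v ∧
    ∑ a ∈ drt E, ∑ b ∈ drt E, G a.2 b.2 ≤ (D : ℝ) ^ 2 * ∑ u ∈ L, ∑ v ∈ L, G u v := by
  have hD : (0 : ℝ) ≤ D := Nat.cast_nonneg _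
  constructor
  · calc ∑ a ∈ drt E, ∑ b ∈ drt E, G a.1 b.1 ≤ ∑ a ∈ drt E, (D : ℝ) * ∑ v ∈ L, G a.1 v :=
          Finset.sum_le_sum fun a _ => uj_fst L E D hin1 hd1 (fun v => G a.1 v) fun v _ => hG _ _
      _ = D * ∑ a ∈ drt E, ∑ v ∈ L, G a.1 v := by rw [Finset.mul_sum]
      _ ≤ D * (D * ∑ u ∈ L, ∑ v ∈ L, G u v) := by
          refine mul_le_mul_of_nonneg_left ?_ hD
          exact uj_fst L E D hin1 hd1 (fun u => ∑ v ∈ L, G u v)
            fun u _ => Finset.sum_nonneg fun v _ => hG _ _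
      _ = (D : ℝ) ^ 2 * ∑ u ∈ L, ∑ v ∈ L, G u v := by ring
  · calc ∑ a ∈ drt E, ∑ b ∈ drt E, G a.2 b.2 ≤ ∑ a ∈ drt E, (D : ℝ) * ∑ v ∈ L, G a.2 v :=
          Finset.sum_le_sum fun a _ => uj_snd L E D hin2 hd2 (fun v => G a.2 v) fun v _ => hG _ _
      _ = D * ∑ a ∈ drt E, ∑ v ∈ L, G a.2 v := by rw [Finset.mul_sum]
      _ ≤ D * (D * ∑ u ∈ L, ∑ v ∈ L, G u v) := by
          refine mul_le_mul_of_nonneg_left ?_ hD
          exact uj_snd L E D hin2 hd2 (fun u => ∑ v ∈ L, G u v)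
            fun u _ => Finset.sum_nonneg fun v _ => hG _ _
      _ = (D : ℝ) ^ 2 * ∑ u ∈ L, ∑ v ∈ L, G u v := by ring

theorem hUpJ (hM : StMomB) (hSa : StSa) (hSb : StSb) (hSc : StSc) (hSd : StSd) (hG2 : StG2)
    (hTri : StTri) (hHub : StHub) (hBn : StBn) (hClu : StClu) (hHh : StHh) : StUpJ := by
  classical
  intro d C₁ B c₀ η env hη0 hη1
  have hd := env.hd
  have hC₁ : 0 < C₁ := by linarith [env.hC]
  have hB : 0 < B := by linarith [env.hB]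
  have hp0 : 0 ≤ pH d := env.p0.le
  have hp2 : pH d ≤ 1 / 2 := env.p1
  have hp1 : pH d ≤ 1 := by linarith
  obtain ⟨a0, ha0⟩ : ∃ a0 : ℝ, a0 = 8 * C₁ ^ 3 / η ^ 2 := ⟨_, rfl⟩
  obtain ⟨k0, hk0⟩ : ∃ k0 : ℝ, k0 = C₁ / η := ⟨_, rfl⟩
  have ha0p : 0 < a0 := by rw [ha0]; positivity
  have hk0p : 0 < k0 := by rw [hk0]; positivity
  obtain ⟨D, hD⟩ : ∃ D : ℝ, D = ((2 * d : ℕ) : ℝ) := ⟨_, rfl⟩
  have hDp : 0 < D := by
    rw [hD]
    have : 0 < 2 * d := by omega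
    exact_mod_cast this
  obtain ⟨c1, hc1⟩ : ∃ c1 : ℝ, c1 = a0 ^ 2 * D ^ 2 * k0 * C₁ ^ 2 := ⟨_, rfl⟩
  obtain ⟨c2, hc2⟩ : ∃ c2 : ℝ, c2 = D ^ 2 * k0 ^ 2 * B := ⟨_, rfl⟩
  have hc1p : 0 < c1 := by rw [hc1]; positivity
  have hc2p : 0 < c2 := by rw [hc2]; positivity
  refine ⟨D ^ 2 * a0 ^ 4 + 4 * (c1 + c2) + a0 / η, by positivity, ?_⟩
  intro n hn
  obtain ⟨hFG, hcard, -, -, -⟩ := hBn d n
  obtain ⟨L, hL⟩ : ∃ L : Finset (Zd d), L = Bn d n := ⟨_, rfl⟩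
  obtain ⟨E, hE⟩ : ∃ E : Finset (Sym2 (Zd d)), E = ES (Bn d n) := ⟨_, rfl⟩
  obtain ⟨p, hp⟩ : ∃ p : ℝ, p = pH d := ⟨_, rfl⟩
  obtain ⟨m, hm⟩ : ∃ m : ℕ, m = thr η n := ⟨_, rfl⟩
  obtain ⟨N, hN⟩ : ∃ N : ℝ, N = (n : ℝ) := ⟨_, rfl⟩
  have hN1 : 1 ≤ N := by rw [hN]; exact_mod_cast hn
  have hN0 : 0 < N := by linarith
  have hTri' := (hTri d C₁ B c₀ env n hn).2
  have hHub' := hHub d C₁ B c₀ env n hn
  have hM' := hM d C₁ B c₀ env n hn
  unfold eB XB pB at *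
  rw [← hE, ← hp, ← hL] at hTri'
  rw [← hE, ← hp, ← hL, ← hN] at hHub'
  rw [← hE, ← hp, ← hL, ← hN] at hM'
  rw [← hE, ← hL] at hFG
  rw [← hL] at hcard
  rw [← hE, ← hp, ← hL, ← hN, ← hm]
  rw [← hp] at hp0 hp1 hp2
  have hcard' : (L.card : ℝ) = N ^ d := by rw [hcard, hN]; push_cast; ring
  -- the threshold
  have hmη : η * N ^ 4 ≤ (m : ℝ) := by rw [hm, hN]; exact Nat.le_ceil _
  have hm0 : (0 : ℝ) < m := lt_of_lt_of_le (by positivity) hmη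
  have hm1 : 1 ≤ m := by exact_mod_cast hm0
  -- the probability of a large cluster
  obtain ⟨q, hq⟩ : ∃ q : ℝ, q = a0 / N ^ 2 := ⟨_, rfl⟩
  have hq0 : 0 < q := by rw [hq]; positivity
  have hprq : ∀ x ∈ L, pr E p (fun ω => m ≤ Xc L ω x) ≤ q := by
    intro x hx
    refine (((hM' x hx).2.2.2) m hm1).trans ?_
    rw [hq, ha0, div_div, div_le_div_iff₀ (by positivity) (by positivity)]
    have h1 : (η * N ^ 4) ^ 2 ≤ (m : ℝ) ^ 2 := pow_le_pow_left₀ (by positivity) hmη 2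
    have h2 : 8 * C₁ ^ 3 * (η * N ^ 4) ^ 2 ≤ 8 * C₁ ^ 3 * (m : ℝ) ^ 2 :=
      mul_le_mul_of_nonneg_left h1 (by positivity)
    calc 8 * C₁ ^ 3 * N ^ 6 * (η ^ 2 * N ^ 2) = 8 * C₁ ^ 3 * (η * N ^ 4) ^ 2 := by ring
      _ ≤ _ := h2
  -- degrees
  have hmem : ∀ r ∈ drt E, r.1 ∈ L ∧ r.2 ∈ L := by
    intro r hr
    have h1 : s(r.1, r.2) ∈ E := mem_drt'.1 hr
    exact ⟨hFG.inside _ h1 _ (Sym2.mem_mk_left _ _), hFG.inside _ h1 _ (Sym2.mem_mk_right _ _)⟩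
  have hclu := (hClu (Zd d) L E ∅ (2 * d) hFG (Finset.empty_subset _)).2.2.2.2.2.2
  obtain ⟨hdrt, hdeg⟩ := hclu
  have hGn : ∀ u v, 0 ≤ GG2 L E p m u v := fun u v => uj_pr_nonneg E hp0 hp1 _
  have hcp0 : ∀ x y, 0 ≤ cp E p x y := fun x y => uj_pr_nonneg E hp0 hp1 _
  -- the bound for `GG2`
  obtain ⟨κ, hκ⟩ : ∃ κ : ℝ, κ = k0 / N ^ 2 := ⟨_, rfl⟩
  have hκ0 : 0 < κ := by rw [hκ]; positivity
  have hG : ∀ u ∈ L, ∀ v ∈ L, GG2 L E p m u v ≤ κ * ∑ z ∈ L, cp E p u z * cp E p z v := by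
    intro u hu v hv
    refine (hG2 (Zd d) L E (2 * d) p (C₁ * N ^ 2) hFG hp0 hp2 hHub' m hm1 u hu v hv).trans ?_
    refine mul_le_mul_of_nonneg_right ?_
      (Finset.sum_nonneg fun z _ => mul_nonneg (hcp0 _ _) (hcp0 _ _))
    rw [hκ, hk0, div_div, div_le_div_iff₀ hm0 (by positivity)]
    have h2 : C₁ * (η * N ^ 4) ≤ C₁ * (m : ℝ) := mul_le_mul_of_nonneg_left hmη hC₁.le
    calc C₁ * N ^ 2 * (η * N ^ 2) = C₁ * (η * N ^ 4) := by ring
      _ ≤ _ := h2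
  have hhn : ∀ x ∈ L, 0 ≤ hh L E p x := fun x _ => Finset.sum_nonneg fun y _ => hcp0 _ _
  -- the sum of `GG2`
  have hS1 : ∑ u ∈ L, ∑ v ∈ L, GG2 L E p m u v ≤ κ * (N ^ d * (C₁ * N ^ 2) ^ 2) := by
    calc ∑ u ∈ L, ∑ v ∈ L, GG2 L E p m u v
        ≤ ∑ u ∈ L, ∑ v ∈ L, κ * ∑ z ∈ L, cp E p u z * cp E p z v :=
          Finset.sum_le_sum fun u hu => Finset.sum_le_sum fun v hv => hG u hu v hv
      _ = κ * ∑ u ∈ L, ∑ z ∈ L, cp E p u z * hh L E p z := by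
          rw [Finset.mul_sum]
          refine Finset.sum_congr rfl fun u _ => ?_
          rw [← Finset.mul_sum, Finset.sum_comm]
          congr 1
          refine Finset.sum_congr rfl fun z _ => ?_
          rw [← Finset.mul_sum]
          rfl
      _ ≤ κ * (N ^ d * (C₁ * N ^ 2) ^ 2) := by
          refine mul_le_mul_of_nonneg_left ?_ hκ0.le
          calc ∑ u ∈ L, ∑ z ∈ L, cp E p u z * hh L E p z
              ≤ ∑ u ∈ L, ∑ z ∈ L, cp E p u z * (C₁ * N ^ 2) :=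
                Finset.sum_le_sum fun u _ => Finset.sum_le_sum fun z hz =>
                  mul_le_mul_of_nonneg_left (hHub' z hz) (hcp0 _ _)
            _ = ∑ u ∈ L, hh L E p u * (C₁ * N ^ 2) := by
                refine Finset.sum_congr rfl fun u _ => ?_
                rw [← Finset.sum_mul]
                rfl
            _ ≤ ∑ u ∈ L, (C₁ * N ^ 2) * (C₁ * N ^ 2) :=
                Finset.sum_le_sum fun u hu =>
                  mul_le_mul_of_nonneg_right (hHub' u hu) (by positivity)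
            _ = N ^ d * (C₁ * N ^ 2) ^ 2 := by
                rw [Finset.sum_const, nsmul_eq_mul, hcard']; ring
  have hS2 : ∑ u ∈ L, ∑ v ∈ L, GG2 L E p m u v ^ 2 ≤ κ ^ 2 * (N ^ d * B) := by
    calc ∑ u ∈ L, ∑ v ∈ L, GG2 L E p m u v ^ 2
        ≤ ∑ u ∈ L, ∑ v ∈ L, κ ^ 2 * (∑ z ∈ L, cp E p u z * cp E p z v) ^ 2 := by
          refine Finset.sum_le_sum fun u hu => Finset.sum_le_sum fun v hv => ?_
          rw [← mul_pow]
          exact pow_le_pow_left₀ (hGn _ _) (hG u hu v hv) 2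
      _ = κ ^ 2 * ∑ u ∈ L, ∑ v ∈ L, (∑ z ∈ L, cp E p u z * cp E p z v) ^ 2 := by
          rw [Finset.mul_sum]
          exact Finset.sum_congr rfl fun u _ => (Finset.mul_sum _ _ _).symm
      _ ≤ κ ^ 2 * ∑ u ∈ L, B :=
          mul_le_mul_of_nonneg_left (Finset.sum_le_sum fun u hu => hTri' u hu) (by positivity)
      _ = κ ^ 2 * (N ^ d * B) := by rw [Finset.sum_const, nsmul_eq_mul, hcard']
  -- the two double sums
  have hin1 : ∀ r ∈ drt E, r.1 ∈ L := fun r hr => (hmem r hr).1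
  have hin2 : ∀ r ∈ drt E, r.2 ∈ L := fun r hr => (hmem r hr).2
  have hK1 : ∑ a ∈ drt E, ∑ b ∈ drt E, GG2 L E p m a.1 b.1 * q ^ 2 ≤ c1 * N ^ (d - 2) := by
    have h1 := (uj_dbl L E (2 * d) hin1 hin2 (fun u => (hdeg u).1) (fun u => (hdeg u).2)
      (fun u v => GG2 L E p m u v) hGn).1
    rw [← hD] at h1
    calc ∑ a ∈ drt E, ∑ b ∈ drt E, GG2 L E p m a.1 b.1 * q ^ 2
        = q ^ 2 * ∑ a ∈ drt E, ∑ b ∈ drt E, GG2 L E p m a.1 b.1 := by
          rw [Finset.mul_sum]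
          refine Finset.sum_congr rfl fun a _ => ?_
          rw [Finset.mul_sum]
          exact Finset.sum_congr rfl fun b _ => mul_comm _ _
      _ ≤ q ^ 2 * (D ^ 2 * (κ * (N ^ d * (C₁ * N ^ 2) ^ 2))) := by
          refine mul_le_mul_of_nonneg_left (h1.trans ?_) (by positivity)
          exact mul_le_mul_of_nonneg_left hS1 (by positivity)
      _ = c1 * N ^ (d - 2) := by
          have e1 : N ^ d = N ^ (d - 2) * N ^ 2 := by rw [← pow_add]; congr 1; omega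
          rw [hq, hκ, e1, hc1]
          field_simp
  have hK2 : ∑ a ∈ drt E, ∑ b ∈ drt E, GG2 L E p m a.1 b.1 * GG2 L E p m a.2 b.2 ≤
      c2 * N ^ (d - 4) := by
    have h1 := uj_dbl L E (2 * d) hin1 hin2 (fun u => (hdeg u).1) (fun u => (hdeg u).2)
      (fun u v => GG2 L E p m u v ^ 2) (fun u v => sq_nonneg _)
    rw [← hD] at h1
    calc ∑ a ∈ drt E, ∑ b ∈ drt E, GG2 L E p m a.1 b.1 * GG2 L E p m a.2 b.2
        ≤ ∑ a ∈ drt E, ∑ b ∈ drt E, ((1 / 2) * GG2 L E p m a.1 b.1 ^ 2 +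
            (1 / 2) * GG2 L E p m a.2 b.2 ^ 2) := by
          refine Finset.sum_le_sum fun a _ => Finset.sum_le_sum fun b _ => ?_
          nlinarith [sq_nonneg (GG2 L E p m a.1 b.1 - GG2 L E p m a.2 b.2)]
      _ = (1 / 2) * (∑ a ∈ drt E, ∑ b ∈ drt E, GG2 L E p m a.1 b.1 ^ 2) +
            (1 / 2) * (∑ a ∈ drt E, ∑ b ∈ drt E, GG2 L E p m a.2 b.2 ^ 2) := by
          simp only [Finset.sum_add_distrib, Finset.mul_sum]
      _ ≤ (1 / 2) * (D ^ 2 * (κ ^ 2 * (N ^ d * B))) + (1 / 2) * (D ^ 2 * (κ ^ 2 * (N ^ d * B))) := by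
          refine add_le_add ?_ ?_
          · refine mul_le_mul_of_nonneg_left (h1.1.trans ?_) (by norm_num)
            exact mul_le_mul_of_nonneg_left hS2 (by positivity)
          · refine mul_le_mul_of_nonneg_left (h1.2.trans ?_) (by norm_num)
            exact mul_le_mul_of_nonneg_left hS2 (by positivity)
      _ = c2 * N ^ (d - 4) := by
          have e1 : N ^ d = N ^ (d - 4) * N ^ 4 := by rw [← pow_add]; congr 1; omega
          rw [hκ, e1, hc2]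
          field_simp
          ring
  have hpow1 : N ^ (d - 4) ≤ N ^ (d - 2) := pow_le_pow_right₀ hN1 (by omega)
  have hpow2 : N ^ (d - 2) ≤ N ^ (2 * d - 8) := pow_le_pow_right₀ hN1 (by omega)
  have hP0 : ∀ k : ℕ, 0 ≤ N ^ k := fun k => pow_nonneg hN0.le k
  have hE1 : ex E p (fun ω => (SS1 L E m ω : ℝ)) ≤ (c1 + c2) * N ^ (d - 2) := by
    refine (hSa (Zd d) L E (2 * d) p q m hFG hp0 hp1 hprq).trans ?_
    simp only [Finset.sum_add_distrib]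
    have h3 : c2 * N ^ (d - 4) ≤ c2 * N ^ (d - 2) := mul_le_mul_of_nonneg_left hpow1 hc2p.le
    linarith
  have hE2 : ex E p (fun ω => (SS2 L E m ω : ℝ)) ≤ c2 * N ^ (d - 4) :=
    (hSb (Zd d) L E (2 * d) p m hFG hp0 hp1).trans hK2
  refine ⟨?_, ?_, ?_, ?_⟩
  · refine (hSc (Zd d) L E (2 * d) p q m hFG hp0 hp1 hq0.le hprq).trans ?_
    have h1 : ((drt E).card : ℝ) ≤ D * N ^ d := by
      rw [hD, ← hcard']
      exact_mod_cast hdrt
    have h2 : ((drt E).card : ℝ) ^ 2 * q ^ 4 ≤ D ^ 2 * a0 ^ 4 * N ^ (2 * d - 8) := by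
      calc ((drt E).card : ℝ) ^ 2 * q ^ 4 ≤ (D * N ^ d) ^ 2 * q ^ 4 :=
            mul_le_mul_of_nonneg_right (pow_le_pow_left₀ (Nat.cast_nonneg _) h1 2) (by positivity)
        _ = D ^ 2 * a0 ^ 4 * N ^ (2 * d - 8) := by
            have e1 : (N ^ d) ^ 2 = N ^ (2 * d - 8) * N ^ 8 := by
              rw [← pow_mul, ← pow_add]; congr 1; omega
            rw [mul_pow, e1, hq]
            field_simp
    have h3 : (c1 + c2) * N ^ (d - 2) ≤ (c1 + c2) * N ^ (2 * d - 8) :=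
      mul_le_mul_of_nonneg_left hpow2 (by positivity)
    have h4 : 0 ≤ a0 / η * N ^ (2 * d - 8) := mul_nonneg (by positivity) (hP0 _)
    nlinarith [h2, h3, hE1, h4]
  · refine hE1.trans ?_
    refine mul_le_mul_of_nonneg_right ?_ (hP0 _)
    have h1 : 0 < D ^ 2 * a0 ^ 4 := by positivity
    have h2 : 0 < a0 / η := by positivity
    linarith
  · refine hE2.trans ?_
    refine mul_le_mul_of_nonneg_right ?_ (hP0 _)
    have h1 : 0 < D ^ 2 * a0 ^ 4 := by positivity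
    have h2 : 0 < a0 / η := by positivity
    linarith
  · refine (hSd (Zd d) L E (2 * d) p q m hFG hp0 hp1 hm1 hprq).trans ?_
    have h1 : (L.card : ℝ) * q / m ≤ a0 / η * N ^ (d - 6) := by
      rw [hcard', div_le_iff₀ hm0]
      have e1 : N ^ d = N ^ (d - 6) * N ^ 6 := by rw [← pow_add]; congr 1; omega
      calc N ^ d * q = a0 / η * N ^ (d - 6) * (η * N ^ 4) := by
            rw [e1, hq]; field_simp
        _ ≤ a0 / η * N ^ (d - 6) * m :=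
            mul_le_mul_of_nonneg_left hmη (mul_nonneg (by positivity) (hP0 _))
    refine h1.trans (mul_le_mul_of_nonneg_right ?_ (hP0 _))
    have h1 : 0 < D ^ 2 * a0 ^ 4 := by positivity
    linarith

end Pool.NL
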