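import Pool.Agent.Helper22.NL.StZ
import Pool.Agent.Helper84.LE.BWT

/-! # Project NL: module X2 -/

set_option autoImplicit false

open scoped BigOperators ENNReal Topology
open Pool.LE Filter

namespace Pool.NL

private lemma ex_nn_X2 {V : Type} [DecidableEq V] (E : Finset (Sym2 V)) (p : ℝ) (h0 : 0 ≤ p)
    (h1 : p ≤ 1) (f : Finset (Sym2 V) → ℝ) (hf : ∀ ω, 0 ≤ f ω) : 0 ≤ ex E p f := by
  unfold ex Ex
  refine Finset.sum_nonneg fun ω _ => ?_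
  rw [smul_eq_mul]
  exact mul_nonneg (wt_nonneg h0 h1 E ω) (hf ω)

theorem hX2 (hBrg : StBrg) (hCS : StCS) (hHub : StHub) (hBn : StBn) : StX2 := by
  intro d C₁ B c₀ hE
  obtain ⟨c, hc, n₀, hn₀⟩ := hBrg d C₁ B c₀ hE
  have hp0 := hE.p0
  have hp1 : pH d ≤ 1 := hE.p1.trans (by norm_num)
  have hC1 : 0 < C₁ := lt_of_lt_of_le one_pos hE.hC
  have hd : (0 : ℝ) < d := by
    have := hE.hd
    exact_mod_cast (by omega : 0 < d)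
  refine ⟨(pH d * c) ^ 2 / (2 * d * C₁), by positivity, max n₀ 1, fun n hn => ?_⟩
  have hn1 : n₀ ≤ n := (le_max_left _ _).trans hn
  have hn2 : 1 ≤ n := (le_max_right _ _).trans hn
  obtain ⟨hFG, hcard, -, -, -⟩ := hBn d n
  have hN : (0 : ℝ) < n := by exact_mod_cast hn2
  have h1 := hn₀ n hn1
  have h2 := hCS (Zd d) (Bn d n) (ES (Bn d n)) (2 * d) (pH d) hFG hp0.le hp1
  obtain ⟨S, hS⟩ : ∃ S : ℝ, S = ∑ x ∈ Bn d n, eB d n (pH d) (fun ω => (XB d n ω x : ℝ) ^ 2) :=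
    ⟨_, rfl⟩
  have hS' : ∑ x ∈ Bn d n, ex (ES (Bn d n)) (pH d) (fun ω => (Xc (Bn d n) ω x : ℝ) ^ 2) = S := by
    rw [hS]; rfl
  have hS0 : 0 ≤ S := by
    rw [hS]
    exact Finset.sum_nonneg fun x _ => ex_nn_X2 _ _ hp0.le hp1 _ (fun ω => by positivity)
  have hH : ∑ x ∈ Bn d n, hh (Bn d n) (ES (Bn d n)) (pH d) x ≤ (n : ℝ) ^ d * (C₁ * (n : ℝ) ^ 2) := by
    calc ∑ x ∈ Bn d n, hh (Bn d n) (ES (Bn d n)) (pH d) x
        ≤ ∑ _x ∈ Bn d n, C₁ * (n : ℝ) ^ 2 := Finset.sum_le_sum fun x hx => hHub d C₁ B c₀ hE n hn2 x hx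
      _ = (n : ℝ) ^ d * (C₁ * (n : ℝ) ^ 2) := by
          rw [Finset.sum_const, hcard, nsmul_eq_mul]
          push_cast
          ring
  rw [hS'] at h2
  rw [← hS]
  have h3 : (pH d * (c * (n : ℝ) ^ (d + 4))) ^ 2 ≤ (pH d * brg (Bn d n) (ES (Bn d n)) (pH d)) ^ 2 := by
    apply pow_le_pow_left₀ (by positivity)
    exact mul_le_mul_of_nonneg_left h1 hp0.le
  have h4 : S * (((2 * d : ℕ) : ℝ) * ∑ x ∈ Bn d n, hh (Bn d n) (ES (Bn d n)) (pH d) x) ≤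
      S * ((2 * (d : ℝ)) * ((n : ℝ) ^ d * (C₁ * (n : ℝ) ^ 2))) := by
    apply mul_le_mul_of_nonneg_left _ hS0
    push_cast
    exact mul_le_mul_of_nonneg_left hH (by positivity)
  have h5 := h3.trans (h2.trans h4)
  have h6 : (0 : ℝ) < (2 * (d : ℝ)) * ((n : ℝ) ^ d * (C₁ * (n : ℝ) ^ 2)) := by positivity
  have h7 : (pH d * (c * (n : ℝ) ^ (d + 4))) ^ 2 / ((2 * (d : ℝ)) * ((n : ℝ) ^ d * (C₁ * (n : ℝ) ^ 2))) ≤ S := by
    rw [div_le_iff₀ h6]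
    exact h5
  refine le_trans (le_of_eq ?_) h7
  have h8 : (n : ℝ) ^ (d + 4) = (n : ℝ) ^ d * (n : ℝ) ^ 4 := pow_add _ _ _
  have h9 : (n : ℝ) ^ (d + 6) = (n : ℝ) ^ d * (n : ℝ) ^ 6 := pow_add _ _ _
  rw [h8, h9]
  field_simp

end Pool.NL
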