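import Pool.Agent.Helper84.LE.All
import Pool.Agent.Helper22.NL.Asm
import Pool.Agent.Helper22.NL.M_NNr
import Pool.Agent.Helper22.NL.M_NwR
import Pool.Agent.Helper22.NL.M_LevG
import Pool.Agent.Helper22.NL.M_LevR
import Pool.Agent.Helper22.NL.M_PsiR
import Pool.Agent.Helper22.NL.M_MassG
import Pool.Agent.Helper22.NL.M_MassR
import Pool.Agent.Helper22.NL.M_RecR
import Pool.Agent.Helper22.NL.M_N0R
import Pool.Agent.Helper22.NL.M_DiagR
import Pool.Agent.Helper22.NL.M_TauLeft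
import Pool.Agent.Helper22.NL.M_KpSup
import Pool.Agent.Helper22.NL.M_KpTau
import Pool.Agent.Helper22.NL.M_KpQ
import Pool.Agent.Helper22.NL.M_DiagH
import Pool.Agent.Helper22.NL.M_Fej1
import Pool.Agent.Helper22.NL.M_FejD
import Pool.Agent.Helper22.NL.M_FejP
import Pool.Agent.Helper22.NL.M_A1
import Pool.Agent.Helper22.NL.M_CoefU
import Pool.Agent.Helper22.NL.M_G3
import Pool.Agent.Helper22.NL.M_Fin
import Pool.Agent.Helper22.NL.M_Heq
import Pool.Agent.Helper22.NL.M_LocE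
import Pool.Agent.Helper22.NL.M_FZ
import Pool.Agent.Helper22.NL.M_Test
import Pool.Agent.Helper22.NL.M_A3
import Pool.Agent.Helper22.NL.M_Basic
import Pool.Agent.Helper22.NL.M_Edge
import Pool.Agent.Helper22.NL.M_Clu
import Pool.Agent.Helper22.NL.M_Hh
import Pool.Agent.Helper22.NL.M_TG2
import Pool.Agent.Helper22.NL.M_InsS
import Pool.Agent.Helper22.NL.M_Ker
import Pool.Agent.Helper22.NL.M_MomS
import Pool.Agent.Helper22.NL.M_MK
import Pool.Agent.Helper22.NL.M_Off
import Pool.Agent.Helper22.NL.M_Pair1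
import Pool.Agent.Helper22.NL.M_Pair2
import Pool.Agent.Helper22.NL.M_Surg
import Pool.Agent.Helper22.NL.M_Dist
import Pool.Agent.Helper22.NL.M_Cov
import Pool.Agent.Helper22.NL.M_N2
import Pool.Agent.Helper22.NL.M_CS
import Pool.Agent.Helper22.NL.M_T4
import Pool.Agent.Helper22.NL.M_G2
import Pool.Agent.Helper22.NL.M_Sa
import Pool.Agent.Helper22.NL.M_Sb
import Pool.Agent.Helper22.NL.M_Sc
import Pool.Agent.Helper22.NL.M_Sd
import Pool.Agent.Helper22.NL.M_PZ
import Pool.Agent.Helper22.NL.M_Graph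
import Pool.Agent.Helper22.NL.M_Spr
import Pool.Agent.Helper22.NL.M_Grow
import Pool.Agent.Helper22.NL.M_Tree
import Pool.Agent.Helper22.NL.M_Sec2
import Pool.Agent.Helper22.NL.M_Bn
import Pool.Agent.Helper22.NL.M_CpTau
import Pool.Agent.Helper22.NL.M_Hub
import Pool.Agent.Helper22.NL.M_Tri
import Pool.Agent.Helper22.NL.M_Err
import Pool.Agent.Helper22.NL.M_Shift
import Pool.Agent.Helper22.NL.M_Many
import Pool.Agent.Helper22.NL.M_Line
import Pool.Agent.Helper22.NL.M_Brg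
import Pool.Agent.Helper22.NL.M_X2
import Pool.Agent.Helper22.NL.M_MomB
import Pool.Agent.Helper22.NL.M_Big
import Pool.Agent.Helper22.NL.M_LowJ
import Pool.Agent.Helper22.NL.M_UpJ
import Pool.Agent.Helper22.NL.M_Fam
import Pool.Agent.Helper22.NL.M_SprB
import Pool.Agent.Helper22.NL.M_Tra
import Pool.Agent.Helper22.NL.M_Low
import Pool.Agent.Helper22.NL.M_Up
import Pool.Agent.Helper22.NL.M_LawE
import Pool.Agent.Helper22.NL.M_ClZ

/-! # Project NL: all modules together -/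

set_option autoImplicit false

open Pool.LE

namespace Pool.NL

/-- the main theorem -/
theorem allNL : StMain := by
  have hPE := LE.hPolyExp
  have hPH : StPH := LE.hPH LE.hPhi
  have hDiag := LE.allFinite
  have hCoef : StCoef := LE.allCoef
  have hBox : StBox := LE.hBox
  have hW := LE.hWalkBox hBox
  have hT := LE.hTransl
  have hCLc := LE.hCoefLoc (LE.hCoefLoc0 hW) hT
  have hGE := LE.hGmEq
  have hRX := LE.hRenX
  have hSupp : StSupp := LE.hSupp hW hBox
  have hGcoef : StGcoef := LE.hGcoef hCoef hCLc hGE hSupp hBox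
  have hSyT := LE.hSymT
  have hSyG := LE.hSymG hSyT
  have hPoly := LE.hPoly hGE
  have hTN := LE.hTnNonneg
  have hTS := LE.hTauSum hCLc hBox hW
  have hTauDom : StTauDom := LE.hTauDom hT hBox
  have hTauMono : StTauMono := LE.hTauMono
  have hTauBasic : StTauBasic := LE.hTauBasic hTS hSyT
  have hQw : StQw := LE.hQw
  have hDZ := LE.hDiagZ hDiag hGcoef hTauDom hTauBasic hQw hBox
  have hNuProb : StNuProb := LE.hNuProb
  have hCos1 : StCos1 := LE.hCos1
  have hRW : StRW := LE.hRW LE.hRW0 (LE.hRW1 hNuProb) (LE.hDh2 hNuProb) hCos1 hNuProb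
  have hDh : StDh := LE.hDh
  have hFTb := LE.hFTb
  have hFTadd := LE.hFTadd
  have hCv := LE.hCv hQw
  have hCvFT := LE.hCvFT hCv hFTb
  have hJf := LE.hJf hBox
  have hInv : StInv := LE.hInv hNuProb
  have hKpInt : StKpInt := LE.hKpInt hInv
  have hIso := LE.hIso
  have hSec := LE.hSec hIso hDh hFTb
  have hBK : StBK := LE.hBK
  have hEM := LE.hExpMom (LE.hExit hBK hT hBox) hTauBasic hBox
  have hSub := LE.hSub hPH hEM hPE hTauBasic
  have hTBx := LE.hTauBox hBox hTauBasic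
  have hTC := LE.hTauCont (LE.hTauCont0 hTBx hSub hTauMono hTauBasic) hSub hTauMono hTauBasic
  have hSp := LE.hSphere hBox hTauDom
  have hCI := LE.hChiInf hSp hPH
  have hChL := LE.hChiLim hCI hPH hTauBasic hSub
  obtain ⟨h6a, h6b, h6c, hS6d⟩ := LE.hS6 hSub hTC hChL hPH
  have hTh := LE.hTheta LE.hRusso (LE.hPivCount hBox) hPH hBox
  have hThS := LE.hThetaSub hSub hTauDom hTauBasic hBox
  have hAE : StAE := LE.hAE
  have hB1 : StB1 := LE.hB1 h6a hS6d hTauBasic
  have hKft : StKft := LE.hKft hB1 hFTb hDh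
  have hEta := LE.hEta hB1 hAE hKft hRW hKpInt hDZ hTauBasic hDh
  have hCvA : StCvA := LE.hCvA hSyG hFTb
  have hCvB := LE.hCvB hTS hTauBasic hRX hSupp hBox hTN hCvA
  have hImpF := LE.hImpF hCv hCvFT hFTadd hJf hFTb
  have hImp := LE.hImp hImpF LE.hImpR hSec hDh
  have hBoot := LE.hBoot hB1 hEta hCvA hCvB hImp hTauBasic
  have hOCc := LE.hOCc h6b hB1 hFTadd hFTb hDh
  have hB7 : StB7 := LE.hB7 hBoot LE.hOC0 (LE.hOC1 hOCc) LE.hCon01 hS6d
  have hLim := LE.hLim hPoly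
  have hGc := LE.hGcont hPoly hSupp
  have hCrit := LE.hCrit h6a h6c hTauBasic hCvA hCvB hImpF hGc hS6d hB1
  have hB8 : StB8 := LE.hB8 hB7 hLim hCrit hS6d
  have hLaw : StLaw := LE.hLaw hBox
  have hPc : StPc := LE.hPc hLaw (LE.hGinf hBox) hTh hThS hPH
  have hBR : StBR := LE.hBR
  have hLastU : StLastU := LE.hLastU
  have hMenger : StMenger := LE.hMenger
  have hTRcm : StTRcm := LE.hTRcm hBK
  have hDRBK : StDRBK := LE.hDRBK hBK hTRcm
  have hBase : StBase := LE.hBase (LE.hBase0 hMenger) LE.hSD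
  have hATT : StATT := LE.hATT LE.hWIT
  have hEAR : StEAR := LE.hEAR LE.hWIT
  have hN0a : StN0a := LE.hN0a
  have hNNr : StNNr := Pool.NL.hNNr
  have hNwR : StNwR := Pool.NL.hNwR hNNr hLastU hBR
  have hLevG : StLevG := Pool.NL.hLevG hEAR hATT hDRBK
  have hLevR : StLevR := Pool.NL.hLevR hNwR hBase hLevG
  have hPsiR : StPsiR := Pool.NL.hPsiR hNNr hLevR
  have hMassG : StMassG := Pool.NL.hMassG
  have hMassR : StMassR := Pool.NL.hMassR hMassG
  have hRecR : StRecR := Pool.NL.hRecR hMassR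
  have hN0R : StN0R := Pool.NL.hN0R hNNr hMenger hBK hTRcm
  have hDiagR : StDiagR := Pool.NL.hDiagR hNNr hPsiR hRecR hN0a hN0R
  have hTauLeft : StTauLeft := Pool.NL.hTauLeft hPH hTauMono
  have hKpSup : StKpSup := Pool.NL.hKpSup
  have hKpTau : StKpTau := Pool.NL.hKpTau hTauLeft hKpSup hB7 hB1 hKpInt hRW hTauBasic hAE hTauMono hS6d hDh
  have hKpQ : StKpQ := Pool.NL.hKpQ hTauLeft hKpSup hB7 hB1 hKft hKpInt hRW hTauBasic hAE hTauMono hS6d hQw
  have hDiagH : StDiagH := Pool.NL.hDiagH hDiagR hKpTau hTauDom hTauBasic hBox hB8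
  have hFej1 : StFej1 := Pool.NL.hFej1 hNuProb
  have hFejD : StFejD := Pool.NL.hFejD hFej1 hNuProb hDh
  have hFejP : StFejP := Pool.NL.hFejP hInv
  have hA1 : StA1 := Pool.NL.hA1 hFejD hFejP hTauLeft hB7 hB1 hTauBasic hAE hDh hFej1 hTauMono hNuProb hS6d
  have hCoefU : StCoefU := Pool.NL.hCoefU hCoef
  have hG3 : StG3 := Pool.NL.hG3 hDiagH hCoefU hGcoef hBox
  have hFin : StFin := Pool.NL.hFin hCoef hCoefU
  have hBn : StBn := Pool.NL.hBn hBox
  have hBasic : StBasic := Pool.NL.hBasic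
  have hClu : StClu := Pool.NL.hClu
  have hHh : StHh := Pool.NL.hHh hBasic hClu
  have hHeq : StHeq := Pool.NL.hHeq hFin hBn hHh hBox
  have hLocE : StLocE := Pool.NL.hLocE hFin hGcoef hCoefU hSupp hBox hBn
  have hFZ : StFZ := Pool.NL.hFZ hB8 hCvA hBox hS6d
  have hTest : StTest := Pool.NL.hTest
  have hCpTau : StCpTau := Pool.NL.hCpTau hTauDom hTauBasic hBasic hBn
  have hA3 : StA3 := Pool.NL.hA3 hG3 hHeq hLocE hFin hFZ hTest hA1 hCpTau hBn hHh hB8 hS6d
  have hEdge : StEdge := Pool.NL.hEdge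
  have hTG2 : StTG2 := Pool.NL.hTG2 hATT hDRBK hBasic hHh
  have hInsS : StInsS := Pool.NL.hInsS
  have hKer : StKer := Pool.NL.hKer
  have hMomS : StMomS := Pool.NL.hMomS hATT hDRBK hInsS hKer hBasic hHh hClu
  have hMK : StMK := Pool.NL.hMK
  have hOff : StOff := Pool.NL.hOff hBK hBasic hHh hClu
  have hPair1 : StPair1 := Pool.NL.hPair1 hMK hOff hTG2 hBasic hHh hClu
  have hPair2 : StPair2 := Pool.NL.hPair2 hMK hOff hTG2 hBasic hHh hClu
  have hSurg : StSurg := Pool.NL.hSurg hBasic hEdge hClu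
  have hDist : StDist := Pool.NL.hDist hMK hBasic
  have hCov : StCov := Pool.NL.hCov hEdge hBasic hClu
  have hN2 : StN2 := Pool.NL.hN2 hEdge hBasic hClu hHh
  have hCS : StCS := Pool.NL.hCS hCov hN2 hBasic
  have hT4 : StT4 := Pool.NL.hT4 hBasic
  have hG2 : StG2 := Pool.NL.hG2 hTG2 hBasic hHh
  have hSa : StSa := Pool.NL.hSa hDist hBasic hClu
  have hSb : StSb := Pool.NL.hSb hDist hBasic hClu
  have hSc : StSc := Pool.NL.hSc hDist hBasic hClu
  have hSd : StSd := Pool.NL.hSd hBasic hClu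
  have hPZ : StPZ := Pool.NL.hPZ hBasic
  have hGraph : StGraph := Pool.NL.hGraph hClu
  have hSpr : StSpr := Pool.NL.hSpr
  have hGrow : StGrow := Pool.NL.hGrow hEdge hBasic hClu
  have hTree : StTree := Pool.NL.hTree hEdge hBasic hClu
  have hSec2 : StSec2 := Pool.NL.hSec2 hDist hBasic hClu
  have hHub : StHub := Pool.NL.hHub hCpTau hBn hTauBasic
  have hTri : StTri := Pool.NL.hTri hCpTau hTauBasic hQw hBn
  have hErr : StErr := Pool.NL.hErr hTri hHub hBn hHh
  have hShift : StShift := Pool.NL.hShift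
  have hMany : StMany := Pool.NL.hMany hBn
  have hLine : StLine := Pool.NL.hLine hSurg hBn hBox
  have hBrg : StBrg := Pool.NL.hBrg hMany hShift hPair1 hErr hLine hHub hBn hQw hHh
  have hX2 : StX2 := Pool.NL.hX2 hBrg hCS hHub hBn
  have hMomB : StMomB := Pool.NL.hMomB hMomS hHub hHh hBasic hBn
  have hBig : StBig := Pool.NL.hBig hX2 hMomB hMany hT4 hBn
  have hLowJ : StLowJ := Pool.NL.hLowJ hBig hShift hPair2 hErr hLine hBn hBasic
  have hUpJ : StUpJ := Pool.NL.hUpJ hMomB hSa hSb hSc hSd hG2 hTri hHub hBn hClu hHh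
  have hFam : StFam := Pool.NL.hFam hLowJ hUpJ hPZ hGraph hBn hBasic
  have hSprB : StSprB := Pool.NL.hSprB hFam hSpr hGrow hBn hBasic hClu hS6d
  have hTra : StTra := Pool.NL.hTra hSprB hTree hBn hBasic
  have hLow : StLow := Pool.NL.hLow hTra hSec2 hMomB hBn hBasic
  have hUp : StUp := Pool.NL.hUp hMomS hHub hBn hBasic
  have hLawE : StLawE := Pool.NL.hLawE hLaw hBox hBasic
  have hClZ : StClZ := Pool.NL.hClZ hBox
  have hEnv : StEnv := envOf hA1 hKpQ hA3 hB8
  exact mainOf hEnv hLow hUp hLawE hClZ hPc hBasic hBn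

end Pool.NL
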