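import Pool.Agent.Helper84.LE.St1
import Pool.Agent.Helper84.LE.St2
import Pool.Agent.Helper84.LE.St5
import Pool.Agent.Helper84.LE.St7

/-!
# Project NL (MP_65faa7): definitions
Largest critical zero-boundary clusters, on top of the LE files.
-/

set_option autoImplicit false

open scoped BigOperators Polynomial ENNReal
open Polynomial Pool.LE

namespace Pool.NL

/-! ## Finite graphs -/

section Finite

variable {V : Type} [DecidableEq V]

open Classical in
/-- real valued indicator -/
noncomputable def ind (A : Prop) : ℝ := if A then 1 else 0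

/-- real valued probability -/
noncomputable def pr (E : Finset (Sym2 V)) (p : ℝ) (A : Finset (Sym2 V) → Prop) : ℝ :=
  Ex E p (fun ω => ind (A ω))

/-- real valued expectation -/
noncomputable def ex (E : Finset (Sym2 V)) (p : ℝ) (f : Finset (Sym2 V) → ℝ) : ℝ := Ex E p f

open Classical in
/-- the cluster of `x` inside the vertex set `L` -/
noncomputable def clu (L : Finset V) (ω : Finset (Sym2 V)) (x : V) : Finset V :=
  L.filter (fun y => con ω x y)

/-- the number of points of the cluster -/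
noncomputable def Xc (L : Finset V) (ω : Finset (Sym2 V)) (x : V) : ℕ := (clu L ω x).card

/-- connection probability -/
noncomputable def cp (E : Finset (Sym2 V)) (p : ℝ) (x y : V) : ℝ := pr E p (fun ω => con ω x y)

/-- mean size of the cluster -/
noncomputable def hh (L : Finset V) (E : Finset (Sym2 V)) (p : ℝ) (x : V) : ℝ :=
  ∑ y ∈ L, cp E p x y

/-- the cluster as a set -/
def cset (ω : Finset (Sym2 V)) (x : V) : Set V := {y | con ω x y}

/-- a finite graph with vertex set `L`, edge set `E`, degrees at most `D` -/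
structure FG (L : Finset V) (E : Finset (Sym2 V)) (D : ℕ) : Prop where
  inside : ∀ e ∈ E, ∀ v ∈ e, v ∈ L
  noloop : ∀ e ∈ E, ¬ e.IsDiag
  deg : ∀ v ∈ L, (E.filter (fun e => v ∈ e)).card ≤ D

open Classical in
/-- size of the cluster of `b` off the set `S` -/
noncomputable def Xr (L : Finset V) (S : Set V) (η : Finset (Sym2 V)) (b : V) : ℕ :=
  if b ∈ S then 0 else Xc L (rst η S) b

/-- the diagram which appears as error term for pairs -/
noncomputable def pairErr (L : Finset V) (E : Finset (Sym2 V)) (p : ℝ) (a b : V) : ℝ :=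
  ∑ w ∈ L, ∑ z ∈ L, cp E p b w * hh L E p w * cp E p w z * cp E p z a * hh L E p z

/-- sum over all directed edges of `E[X_u X_b; u, b not connected]` -/
noncomputable def brg (L : Finset V) (E : Finset (Sym2 V)) (p : ℝ) : ℝ :=
  ∑ ub ∈ drt E, ex E p (fun ω => (Xc L ω ub.1 : ℝ) * Xc L ω ub.2 * ind (¬ con ω ub.1 ub.2))

open Classical in
/-- the exploration martingale -/
noncomputable def NM (E : Finset (Sym2 V)) (p : ℝ) (ω : Finset (Sym2 V)) (x : V) : ℝ :=
  ∑ e ∈ E, if (∃ v ∈ e, con ω x v) then (ind (e ∈ ω) - p) else 0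

open Classical in
/-- bridges: directed edges between different clusters with at least `m` points -/
noncomputable def JJ (L : Finset V) (E : Finset (Sym2 V)) (m : ℕ) (ω : Finset (Sym2 V)) :
    Finset (V × V) :=
  (drt E).filter (fun ub => m ≤ Xc L ω ub.1 ∧ m ≤ Xc L ω ub.2 ∧ ¬ con ω ub.1 ub.2)

open Classical in
/-- pairs of bridges with the same first cluster -/
noncomputable def SS1 (L : Finset V) (E : Finset (Sym2 V)) (m : ℕ) (ω : Finset (Sym2 V)) : ℕ :=
  ((JJ L E m ω ×ˢ JJ L E m ω).filter (fun q => con ω q.1.1 q.2.1)).card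

open Classical in
/-- pairs of bridges with the same first and the same second cluster -/
noncomputable def SS2 (L : Finset V) (E : Finset (Sym2 V)) (m : ℕ) (ω : Finset (Sym2 V)) : ℕ :=
  ((JJ L E m ω ×ˢ JJ L E m ω).filter
    (fun q => con ω q.1.1 q.2.1 ∧ con ω q.1.2 q.2.2)).card

open Classical in
/-- the clusters with at least `m` points -/
noncomputable def big (L : Finset V) (m : ℕ) (ω : Finset (Sym2 V)) : Finset (Finset V) :=
  (L.filter (fun x => m ≤ Xc L ω x)).image (clu L ω)

/-- the probability `P(X_u ≥ m, u ↔ u')` -/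
noncomputable def GG2 (L : Finset V) (E : Finset (Sym2 V)) (p : ℝ) (m : ℕ) (u u' : V) : ℝ :=
  pr E p (fun ω => m ≤ Xc L ω u ∧ con ω u u')

/-- two sets of vertices are joined by an edge of `E` -/
def jn (E : Finset (Sym2 V)) (A B : Finset V) : Prop := ∃ u ∈ A, ∃ b ∈ B, s(u, b) ∈ E

open Classical in
/-- every member of the family `F` is joined to at least `k` other members of `F` -/
def minDeg (E : Finset (Sym2 V)) (F : Finset (Finset V)) (k : ℕ) : Prop :=
  ∀ A ∈ F, k ≤ (F.filter (fun B => B ≠ A ∧ jn E A B)).card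

/-! ### diagrams with `r` ears -/

/-- weight `(1+n)^r` -/
noncomputable def NNr (r : ℕ) (P : ℝ[X]) : ENNReal :=
  ∑' n : ℕ, (1 + (n : ENNReal)) ^ r * ENNReal.ofReal |P.coeff n|

/-- `r` ears and one final insertion -/
noncomputable def earS (T : V → V → ENNReal) : ℕ → List (V × List V × V) → V → ENNReal
  | 0, L, w => ((ins w L).map (cmL T)).sum
  | r + 1, L, w => ∑' z₁ : V, ∑' z₂ : V, ∑' y : V,
      ((ins z₁ L).map (fun L₁ =>
        ((ins z₂ L₁).map (fun L₂ => earS T r ((z₁, [y], z₂) :: L₂) w)).sum)).sum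

/-- the kernel of one level -/
noncomputable def coreR (r : ℕ) (T : V → V → ENNReal) (v s u w : V) : ENNReal :=
  ∑' t : V, ∑' w' : V, earS T r [(v, [t, w'], s), (t, [u], w')] w

/-- the majorants of the expansion -/
noncomputable def PsiR (r : ℕ) (nbf : V → Finset V) (q : ENNReal) (T : V → V → ENNReal) :
    ℕ → V → V → V → ENNReal
  | 0, s, v, x => 2 * ∑' w : V, coreR r T v s x w * T w v
  | N + 1, s, v, x => ∑' u : V, ∑ b ∈ nbf u, 2 ^ r * q * ∑' s' : V,
      2 * (∑' w : V, coreR r T v s u w * T w s') * PsiR r nbf q T N s' b x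

end Finite

/-! ## The lattice -/

/-- the box `[0,n-1]^d` -/
noncomputable def Bn (d n : ℕ) : Finset (Zd d) :=
  Fintype.piFinset fun _ => Finset.Ico (0 : ℤ) (n : ℤ)

/-- the coefficients of the expansion in a finite graph -/
noncomputable def gL {d : ℕ} (E : Finset (Sym2 (Zd d))) (p : ℝ) (v x : Zd d) (m : ℕ) : ℝ :=
  (gE E p m v x).coeff m

/-- their sum -/
noncomputable def gT {d : ℕ} (E : Finset (Sym2 (Zd d))) (p : ℝ) (v x : Zd d) : ℝ :=
  ∑' m : ℕ, gL E p v x m

/-- the step kernel `p J * g` of the lattice -/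
noncomputable def FZ (d : ℕ) (p : ℝ) (y : Zd d) : ℝ := p * ∑ u ∈ nb y, gS d p u

open Classical in
/-- the step kernel of a finite graph -/
noncomputable def FL {d : ℕ} (E : Finset (Sym2 (Zd d))) (p : ℝ) (v b : Zd d) : ℝ :=
  ∑ u ∈ nb b, if s(u, b) ∈ E then gT E p v u * p else 0

/-- the two-point function of the lattice as a kernel -/
noncomputable def tk (d : ℕ) (p : ℝ) (x y : Zd d) : ENNReal := tauE d p (y - x)

/-- the test function -/
noncomputable def phiT (d n : ℕ) (v : Zd d) : ℝ :=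
  (max 0 (1 - (∑ i, ((v i : ℝ) - n / 2) ^ 2) / ((n : ℝ) / 4) ^ 2)) ^ 2

/-- the facts about the critical point which are used -/
structure Env (d : ℕ) (C₁ B c₀ : ℝ) : Prop where
  hd : 21 ≤ d
  p0 : 0 < pH d
  p1 : pH d ≤ 1 / 2
  hC : 1 ≤ C₁
  hB : 1 ≤ B
  hc : 0 < c₀
  A1 : ∀ n : ℕ, 1 ≤ n → ∑ y ∈ bx d n, tau d (pH d) y ≤ C₁ * (n : ℝ) ^ 2
  A2 : ∀ x y : Zd d, kp (Kd d (pH d)) 4 x y ≤ ENNReal.ofReal B
  A3 : ∀ n : ℕ, 1 ≤ n → c₀ * (n : ℝ) ^ (d + 2) ≤ ∑ x ∈ Bn d n, hh (Bn d n) (ES (Bn d n)) (pH d) x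

end Pool.NL
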