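import Pool.Agent.Helper22.NL.StZ

/-! # Project NL: module Brg -/

set_option autoImplicit false

open scoped BigOperators ENNReal Topology
open Pool.LE Filter

namespace Pool.NL

private lemma e0_sq_Br {d : ℕ} (hd : 1 ≤ d) (k : ℕ) : LE.sq (e0 k : Zd d) = (k : ℝ) ^ 2 := by
  unfold LE.sq
  rw [Finset.sum_eq_single_of_mem (⟨0, hd⟩ : Fin d) (Finset.mem_univ _)]
  · simp [e0]
  · intro i _ hi
    have : (i : ℕ) ≠ 0 := fun h => hi (Fin.ext h)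
    simp [e0, this]

theorem hBrg (hMany : StMany) (hShift : StShift) (hP : StPair1) (hErr : StErr) (hLine : StLine)
    (hHub : StHub) (hBn : StBn) (hQ : StQw) (hHh : StHh) : StBrg := by
  classical
  intro d C₁ B c₀ hE
  have hp0 := hE.p0
  have hp1 : pH d ≤ 1 := hE.p1.trans (by norm_num)
  have hC1 : 0 < C₁ := lt_of_lt_of_le one_pos hE.hC
  have hB : 0 < B := lt_of_lt_of_le one_pos hE.hB
  have hc0 := hE.hc
  have hd : 1 ≤ d := by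
    have := hE.hd
    omega
  obtain ⟨Lr, hLr1, hLr⟩ : ∃ Lr : ℕ, 1 ≤ Lr ∧ 8 * C₁ ^ 2 * B / c₀ ^ 2 ≤ (Lr : ℝ) := by
    refine ⟨max 1 ⌈8 * C₁ ^ 2 * B / c₀ ^ 2⌉₊, le_max_left _ _, ?_⟩
    refine (Nat.le_ceil _).trans ?_
    exact_mod_cast le_max_right _ _
  obtain ⟨J, hJ, c', hc', hSh⟩ := hShift d (c₀ / (2 * C₁)) Lr hd (by positivity) hLr1
  obtain ⟨c, hc, hLi⟩ := hLine d (pH d) J Lr c' hd hp0 hp1 hLr1 hc'
  refine ⟨c * (c₀ ^ 2 / 8), by positivity, max 1 (J * Lr), fun n hn => ?_⟩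
  have hn1 : 1 ≤ n := (le_max_left _ _).trans hn
  have hn2 : J * Lr ≤ n := (le_max_right _ _).trans hn
  obtain ⟨hFG, hcard, -, -, -⟩ := hBn d n
  have hN : (0 : ℝ) < n := by exact_mod_cast hn1
  have hM := hMany d c₀ C₁ hc0 hC1 n 2 (fun x => hh (Bn d n) (ES (Bn d n)) (pH d) x) hn1
    (fun x hx => hHub d C₁ B c₀ hE n hn1 x hx) (hE.A3 n hn1)
  obtain ⟨k, hk1, hkJ, hk⟩ := hSh n _ hn2 (Finset.filter_subset _ _) hM
  obtain ⟨G, hG⟩ : ∃ G : Finset (Zd d), G = (Bn d n).filter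
      (fun x => c₀ / 2 * (n : ℝ) ^ 2 ≤ hh (Bn d n) (ES (Bn d n)) (pH d) x) := ⟨_, rfl⟩
  rw [← hG] at hk
  have hGm : ∀ x, x ∈ G ↔ x ∈ Bn d n ∧ c₀ / 2 * (n : ℝ) ^ 2 ≤ hh (Bn d n) (ES (Bn d n)) (pH d) x := by
    intro x
    rw [hG, Finset.mem_filter]
  have hfin := hLi n k (c₀ ^ 2 / 8 * (n : ℝ) ^ 4) (G.filter (fun a => a + e0 (k * Lr) ∈ G))
    (fun x y => (x : ℝ) * y) hk1 hkJ (by positivity) (fun a b => by positivity)
    (fun a a' b b' h h' => by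
      have h1 : (a : ℝ) ≤ a' := by exact_mod_cast h
      have h2 : (b : ℝ) ≤ b' := by exact_mod_cast h'
      exact mul_le_mul h1 h2 (by positivity) (by positivity))
    (fun a ha => ((hGm a).1 (Finset.mem_filter.1 ha).1).1)
    (fun a ha => ((hGm _).1 (Finset.mem_filter.1 ha).2).1) hk ?_
  · have e1 : c * (c₀ ^ 2 / 8 * (n : ℝ) ^ 4) * (n : ℝ) ^ d = c * (c₀ ^ 2 / 8) * (n : ℝ) ^ (d + 4) := by
      rw [pow_add]
      ring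
    rw [e1] at hfin
    exact hfin
  · intro a ha
    obtain ⟨ha1, ha2⟩ := Finset.mem_filter.1 ha
    obtain ⟨ha3, ha4⟩ := (hGm a).1 ha1
    obtain ⟨hb3, hb4⟩ := (hGm _).1 ha2
    have h1 := hP (Zd d) (Bn d n) (ES (Bn d n)) (2 * d) (pH d) hFG hp0.le hE.p1 a ha3 _ hb3
    have h2 := hErr d C₁ B c₀ hE n hn1 a ha3 _ hb3
    refine le_trans ?_ h1
    have h3 : (c₀ / 2 * (n : ℝ) ^ 2) * (c₀ / 2 * (n : ℝ) ^ 2) ≤
        hh (Bn d n) (ES (Bn d n)) (pH d) a * hh (Bn d n) (ES (Bn d n)) (pH d) (a + e0 (k * Lr)) :=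
      mul_le_mul ha4 hb4 (by positivity) ((by positivity : (0 : ℝ) ≤ c₀ / 2 * (n : ℝ) ^ 2).trans ha4)
    have h4 : (a + e0 (k * Lr)) - a = e0 (k * Lr) := by abel
    rw [h4] at h2
    have h5 : 8 * C₁ ^ 2 * B / c₀ ^ 2 ≤ Qw (e0 (k * Lr) : Zd d) := by
      unfold Qw
      rw [e0_sq_Br hd]
      have h6 : (Lr : ℝ) ≤ ((k * Lr : ℕ) : ℝ) := by
        exact_mod_cast Nat.le_mul_of_pos_left Lr hk1
      have h7 : ((k * Lr : ℕ) : ℝ) ≤ 2 * (1 + ((k * Lr : ℕ) : ℝ) ^ 2) := by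
        nlinarith [sq_nonneg (((k * Lr : ℕ) : ℝ) - 1)]
      exact hLr.trans (h6.trans h7)
    have hQ0 : 0 < Qw (e0 (k * Lr) : Zd d) := by
      have := (hQ d).1 (e0 (k * Lr))
      linarith
    have h8 : C₁ ^ 2 * (B / Qw (e0 (k * Lr) : Zd d)) ≤ c₀ ^ 2 / 8 := by
      rw [← mul_div_assoc, div_le_iff₀ hQ0]
      rw [div_le_iff₀ (by positivity)] at h5
      nlinarith
    have h9 : (C₁ * (n : ℝ) ^ 2) ^ 2 * (B / Qw (e0 (k * Lr) : Zd d)) ≤ c₀ ^ 2 / 8 * (n : ℝ) ^ 4 := by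
      have : (C₁ * (n : ℝ) ^ 2) ^ 2 * (B / Qw (e0 (k * Lr) : Zd d)) =
          (C₁ ^ 2 * (B / Qw (e0 (k * Lr) : Zd d))) * (n : ℝ) ^ 4 := by ring
      rw [this]
      exact mul_le_mul_of_nonneg_right h8 (by positivity)
    have h10 : c₀ / 2 * (n : ℝ) ^ 2 * (c₀ / 2 * (n : ℝ) ^ 2) = c₀ ^ 2 / 4 * (n : ℝ) ^ 4 := by ring
    rw [h10] at h3
    have h11 := h2.trans h9
    have h12 : c₀ ^ 2 / 4 * (n : ℝ) ^ 4 = c₀ ^ 2 / 8 * (n : ℝ) ^ 4 + c₀ ^ 2 / 8 * (n : ℝ) ^ 4 := by ring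
    linarith

end Pool.NL
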