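import Pool.Agent.Helper22.NL.StZ

/-! # Project NL, module LocE: locality of the step kernel -/

set_option autoImplicit false

open scoped BigOperators ENNReal Topology
open Pool.LE

namespace Pool.NL

private theorem loce_abs_tsum (f : ℕ → ℝ) :
    ENNReal.ofReal |∑' m, f m| ≤ ∑' m, ENNReal.ofReal |f m| := by
  by_cases h : Summable f
  · have h5 : Summable fun m => |f m| := h.abs
    rw [← ENNReal.ofReal_tsum_of_nonneg (fun _ => abs_nonneg _) h5]
    refine ENNReal.ofReal_le_ofReal ?_
    exact norm_tsum_le_tsum_norm (f := f) h5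
  · rw [tsum_eq_zero_of_not_summable h]
    simp

private theorem loce_swap (hBox : StBox) {d : ℕ} (F : Zd d → Zd d → ENNReal) :
    ∑' b : Zd d, ∑ u ∈ nb b, F u b = ∑' u : Zd d, ∑ b ∈ nb u, F u b := by
  classical
  obtain ⟨-, -, -, h4, -⟩ := hBox d
  have e1 : ∀ b : Zd d, ∑ u ∈ nb b, F u b = ∑' u : Zd d, if u ∈ nb b then F u b else 0 := by
    intro b
    rw [tsum_eq_sum (s := nb b)]
    · exact Finset.sum_congr rfl fun u hu => (if_pos hu).symm
    · intro u hu
      exact if_neg hu
  have e2 : ∀ u : Zd d, ∑ b ∈ nb u, F u b = ∑' b : Zd d, if u ∈ nb b then F u b else 0 := by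
    intro u
    rw [tsum_eq_sum (s := nb u)]
    · exact Finset.sum_congr rfl fun b hb => (if_pos ((h4 u b).1 hb)).symm
    · intro b hb
      exact if_neg fun h => hb ((h4 u b).2 h)
  simp only [e1, e2]
  exact ENNReal.tsum_comm

private theorem loce_tail {A : Type} (R : ℕ) (f : A → ℕ → ENNReal) :
    (1 + (R : ENNReal)) ^ 3 * ∑' u : A, ∑' m : ℕ, (if R ≤ m then f u m else 0) ≤
      ∑' u : A, ∑' m : ℕ, (1 + (m : ENNReal)) ^ 3 * f u m := by
  rw [← ENNReal.tsum_mul_left]
  refine ENNReal.tsum_le_tsum fun u => ?_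
  rw [← ENNReal.tsum_mul_left]
  refine ENNReal.tsum_le_tsum fun m => ?_
  by_cases h : R ≤ m
  · rw [if_pos h]
    gcongr
  · rw [if_neg h, mul_zero]
    exact zero_le

/-- neighbours of a translate -/
private theorem loce_nb (hBox : StBox) {d : ℕ} (v b : Zd d) (f : Zd d → ℝ) :
    ∑ u ∈ nb (b - v), f u = ∑ u ∈ nb b, f (u - v) := by
  obtain ⟨-, -, -, -, h5, -⟩ := hBox d
  refine Finset.sum_bij' (fun u _ => v + u) (fun u _ => u - v) ?_ ?_ ?_ ?_ ?_
  · intro u hu
    rw [h5 _ _ v, add_sub_cancel] at hu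
    exact hu
  · intro u hu
    rw [h5 _ _ v, add_sub_cancel, add_sub_cancel]
    exact hu
  · intro u _
    simp
  · intro u _
    simp
  · intro u _
    simp

set_option linter.unusedVariables false in
/-- locality of the step kernel -/
theorem hLocE (hFin : StFin) (hG : StGcoef) (hCU : StCoefU) (hSupp : StSupp) (hBox : StBox)
    (hBn : StBn) : StLocE := by
  classical
  intro d n R p hd hp h2 hZ hE hR v hv
  have hp1 : p ≤ 1 := by
    have h1 : (1 : ℝ) ≤ d := by exact_mod_cast hd
    nlinarith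
  obtain ⟨-, -, hlat, -, -⟩ := hBn d n
  obtain ⟨-, hbx, -, -, h5, h6, h7, h8, -, h10, -, hcard, -⟩ := hBox d
  set E := ES (Bn d n) with hEdef
  have hmono : ∀ (m : ℕ) (x : Zd d), m ≤ R → x ∈ bx d m → x ∈ bx d R := by
    intro m x hm hx
    rw [hbx] at hx ⊢
    intro i
    exact (hx i).trans (by exact_mod_cast hm)
  -- (i) the coefficients agree
  have hco : ∀ (m : ℕ) (u : Zd d), m ≤ R → gL E p v u m = gm d p m (u - v) := by
    intro m u hm
    refine hG d p m m E v u le_rfl hlat ?_
    intro e he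
    unfold trE at he
    rw [Finset.mem_map] at he
    obtain ⟨e0, he0, rfl⟩ := he
    induction e0 using Sym2.ind with
    | _ y z =>
      unfold Eb at he0
      rw [h8] at he0
      have e1 : (Equiv.addLeft v).toEmbedding.sym2Map s(y, z) = s(v + y, v + z) := rfl
      rw [e1, hEdef, h8]
      exact ⟨hv y (hmono m y hm he0.1), hv z (hmono m z hm he0.2.1), (h5 _ _ v).1 he0.2.2⟩
  -- summability
  obtain hF := hFin d E p hp hp1 hlat hE v v
  have hsL : ∀ u : Zd d, Summable (fun m => gL E p v u m) := fun u => (hF.1 v u).of_abs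
  have hsZ : ∀ x : Zd d, Summable (fun m => gm d p m x) := by
    intro x
    have h1 : ∑' m : ℕ, ENNReal.ofReal |hm d p m x| ≠ ⊤ := by
      refine ne_top_of_le_ne_top ENNReal.ofReal_ne_top (le_trans ?_ hZ)
      refine le_trans ?_ (ENNReal.le_tsum x)
      refine ENNReal.tsum_le_tsum fun m => ?_
      refine le_mul_of_one_le_left zero_le ?_
      exact one_le_pow₀ le_self_add
    have h2 := ENNReal.summable_toReal h1
    have h3 : Summable (fun m => hm d p m x) := by
      refine Summable.of_abs (h2.congr fun q => ?_)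
      rw [ENNReal.toReal_ofReal (abs_nonneg _)]
    rw [← summable_nat_add_iff 1] at h3 ⊢
    refine h3.congr fun m => ?_
    unfold hm
    rw [if_neg (by omega), sub_zero]
  -- the majorant
  let G : Zd d → ℕ → ENNReal := fun u m =>
    ENNReal.ofReal |gL E p v u m - ind (m = 0 ∧ u = v)| + ENNReal.ofReal |hm d p m (u - v)|
  let H : Zd d → ENNReal := fun u => ∑' m : ℕ, if R ≤ m then G u m else 0
  have hhm : ∀ (m : ℕ) (x : Zd d), R ≤ m → hm d p m x = gm d p m x := by
    intro m x hm'
    unfold hm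
    rw [if_neg (by omega), sub_zero]
  have hind : ∀ (m : ℕ) (u : Zd d), R ≤ m → ind (m = 0 ∧ u = v) = 0 := by
    intro m u hm'
    unfold ind
    rw [if_neg (by omega)]
  have hA : ∀ u : Zd d, ENNReal.ofReal |gT E p v u - gS d p (u - v)| ≤ H u := by
    intro u
    unfold gT gS
    rw [← (hsL u).tsum_sub (hsZ (u - v))]
    refine (loce_abs_tsum _).trans (ENNReal.tsum_le_tsum fun m => ?_)
    by_cases hm' : R ≤ m
    · rw [if_pos hm']
      show _ ≤ ENNReal.ofReal |gL E p v u m - ind (m = 0 ∧ u = v)| +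
        ENNReal.ofReal |hm d p m (u - v)|
      rw [hhm m _ hm', hind m u hm', sub_zero,
        ← ENNReal.ofReal_add (abs_nonneg _) (abs_nonneg _)]
      exact ENNReal.ofReal_le_ofReal (abs_sub _ _)
    · rw [if_neg hm', hco m u (by omega)]
      simp
  have hB : ∀ u : Zd d, u - v ∉ bx d (R - 1) → ENNReal.ofReal |gS d p (u - v)| ≤ H u := by
    intro u hu
    unfold gS
    refine (loce_abs_tsum _).trans (ENNReal.tsum_le_tsum fun m => ?_)
    by_cases hm' : R ≤ m
    · rw [if_pos hm']
      show _ ≤ ENNReal.ofReal |gL E p v u m - ind (m = 0 ∧ u = v)| +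
        ENNReal.ofReal |hm d p m (u - v)|
      rw [hhm m _ hm']
      exact le_add_self
    · have h1 : u - v ∉ bx d m := by
        intro h
        apply hu
        rw [hbx] at h ⊢
        intro i
        refine (h i).trans ?_
        have : m ≤ R - 1 := by omega
        exact_mod_cast this
      rw [if_neg hm', (hSupp d p m _ h1).2]
      simp
  -- one edge
  have hK : ∀ u b : Zd d, b ∈ nb u →
      ENNReal.ofReal |(if s(u, b) ∈ E then gT E p v u * p else 0) - p * gS d p (u - v)| ≤
        ENNReal.ofReal p * H u := by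
    intro u b hb
    by_cases h : s(u, b) ∈ E
    · rw [if_pos h, mul_comm (gT E p v u) p, ← mul_sub, abs_mul, abs_of_nonneg hp,
        ENNReal.ofReal_mul hp]
      exact mul_le_mul_right (hA u) _
    · have h1 : u - v ∉ bx d (R - 1) := by
        intro h1
        apply h
        rw [hEdef, h8]
        have h2 : b - v ∈ nb (u - v) := by
          rw [h5 _ _ v, add_sub_cancel, add_sub_cancel]
          exact hb
        have h3 := h7 (u - v) (b - v) (R - 1) h1 h2
        rw [Nat.sub_add_cancel hR] at h3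
        have h4 := hv _ (hmono (R - 1) _ (by omega) h1)
        have h4' := hv _ h3
        rw [add_sub_cancel] at h4 h4'
        exact ⟨h4, h4', hb⟩
      rw [if_neg h, zero_sub, abs_neg, abs_mul, abs_of_nonneg hp, ENNReal.ofReal_mul hp]
      exact mul_le_mul_right (hB u h1) _
  -- the sum
  have hT : (∑' b : Zd d, ENNReal.ofReal |FL E p v b - FZ d p (b - v)|) ≤
      ENNReal.ofReal (2 * d * p) * ∑' u : Zd d, H u := by
    calc (∑' b : Zd d, ENNReal.ofReal |FL E p v b - FZ d p (b - v)|)
        ≤ ∑' b : Zd d, ∑ u ∈ nb b, ENNReal.ofReal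
          |(if s(u, b) ∈ E then gT E p v u * p else 0) - p * gS d p (u - v)| := by
          refine ENNReal.tsum_le_tsum fun b => ?_
          unfold FL FZ
          rw [loce_nb hBox v b, Finset.mul_sum, ← Finset.sum_sub_distrib]
          rw [← ENNReal.ofReal_sum_of_nonneg fun _ _ => abs_nonneg _]
          exact ENNReal.ofReal_le_ofReal (Finset.abs_sum_le_sum_abs _ _)
      _ = ∑' u : Zd d, ∑ b ∈ nb u, ENNReal.ofReal
          |(if s(u, b) ∈ E then gT E p v u * p else 0) - p * gS d p (u - v)| := loce_swap hBox _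
      _ ≤ ∑' u : Zd d, ∑ b ∈ nb u, ENNReal.ofReal p * H u :=
          ENNReal.tsum_le_tsum fun u => Finset.sum_le_sum fun b hb => hK u b hb
      _ = ENNReal.ofReal (2 * d * p) * ∑' u : Zd d, H u := by
          rw [← ENNReal.tsum_mul_left]
          refine tsum_congr fun u => ?_
          rw [Finset.sum_const, hcard, nsmul_eq_mul, ENNReal.ofReal_mul (by positivity), mul_assoc]
          congr 1
          rw [← ENNReal.ofReal_natCast]
          push_cast
          rfl
  have hH : (1 + (R : ENNReal)) ^ 3 * ∑' u : Zd d, H u ≤ ENNReal.ofReal (1 / 2) := by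
    refine (loce_tail R G).trans ?_
    have e1 : ∀ (u : Zd d) (m : ℕ), (1 + (m : ENNReal)) ^ 3 * G u m =
        (1 + (m : ENNReal)) ^ 3 * ENNReal.ofReal |gL E p v u m - ind (m = 0 ∧ u = v)| +
        (1 + (m : ENNReal)) ^ 3 * ENNReal.ofReal |hm d p m (u - v)| := fun u m => mul_add _ _ _
    simp only [e1, ENNReal.tsum_add]
    have e2 : (∑' u : Zd d, ∑' m : ℕ, (1 + (m : ENNReal)) ^ 3 *
        ENNReal.ofReal |hm d p m (u - v)|) = ∑' u : Zd d, ∑' m : ℕ, (1 + (m : ENNReal)) ^ 3 *
        ENNReal.ofReal |hm d p m u| :=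
      (Equiv.subRight v).tsum_eq (fun u => ∑' m : ℕ, (1 + (m : ENNReal)) ^ 3 *
        ENNReal.ofReal |hm d p m u|)
    rw [e2]
    refine (add_le_add (hE v) hZ).trans ?_
    rw [← ENNReal.ofReal_add (by norm_num) (by norm_num)]
    norm_num
  have hfin : (∑' b : Zd d, ENNReal.ofReal |FL E p v b - FZ d p (b - v)|) ≤
      ENNReal.ofReal (2 / (R : ℝ) ^ 3) := by
    have h1 : (∑' b : Zd d, ENNReal.ofReal |FL E p v b - FZ d p (b - v)|) *
        (1 + (R : ENNReal)) ^ 3 ≤ 1 := by
      calc (∑' b : Zd d, ENNReal.ofReal |FL E p v b - FZ d p (b - v)|) *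
          (1 + (R : ENNReal)) ^ 3 ≤ (ENNReal.ofReal (2 * d * p) * ∑' u : Zd d, H u) *
            (1 + (R : ENNReal)) ^ 3 := mul_le_mul_left hT _
        _ = ENNReal.ofReal (2 * d * p) * ((1 + (R : ENNReal)) ^ 3 * ∑' u : Zd d, H u) := by ring
        _ ≤ ENNReal.ofReal 2 * ENNReal.ofReal (1 / 2) :=
            mul_le_mul' (ENNReal.ofReal_le_ofReal h2) hH
        _ = 1 := by
            rw [← ENNReal.ofReal_mul (by norm_num)]
            norm_num
    have h3 := ENNReal.le_inv_iff_mul_le.2 h1
    refine h3.trans ?_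
    have hR0 : (0 : ℝ) < R := by exact_mod_cast hR
    have e : ((1 + (R : ENNReal)) ^ 3)⁻¹ = ENNReal.ofReal (((1 + (R : ℝ)) ^ 3)⁻¹) := by
      rw [ENNReal.ofReal_inv_of_pos (by positivity), ENNReal.ofReal_pow (by positivity),
        ENNReal.ofReal_add zero_le_one hR0.le, ENNReal.ofReal_one, ENNReal.ofReal_natCast]
    rw [e]
    refine ENNReal.ofReal_le_ofReal ?_
    rw [inv_eq_one_div, div_le_div_iff₀ (by positivity) (by positivity)]
    have h4 : (R : ℝ) ^ 3 ≤ (1 + (R : ℝ)) ^ 3 := by
      gcongr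
      linarith
    nlinarith [pow_pos hR0 3]
  have hsum : Summable (fun b : Zd d => |FL E p v b - FZ d p (b - v)|) := by
    have h2 := ENNReal.summable_toReal (ne_top_of_le_ne_top ENNReal.ofReal_ne_top hfin)
    refine h2.congr fun b => ?_
    rw [ENNReal.toReal_ofReal (abs_nonneg _)]
  refine ⟨hsum, ?_⟩
  rw [← ENNReal.ofReal_tsum_of_nonneg (fun _ => abs_nonneg _) hsum] at hfin
  rwa [ENNReal.ofReal_le_ofReal_iff (by positivity)] at hfin

end Pool.NL
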