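import Pool.Agent.Helper22.NL.StZ

/-! # Project NL: infinite volume definitions used in the hand-in, and the last statements -/

set_option autoImplicit false

open scoped BigOperators ENNReal Topology
open Pool.LE Filter MeasureTheory

namespace Pool.NL

/-- independent uniform `[0,1]` labels on the edges `{x, x + e_i}` of `ℤ^d` -/
noncomputable def PU (d : ℕ) : Measure (((Fin d → ℤ) × Fin d) → unitInterval) :=
  Measure.infinitePi (fun _ : (Fin d → ℤ) × Fin d => (volume : Measure unitInterval))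

/-- the graph of the edges of `ℤ^d` with label `< p` -/
def GU (d : ℕ) (p : ℝ) (ω : ((Fin d → ℤ) × Fin d) → unitInterval) : SimpleGraph (Fin d → ℤ) :=
  SimpleGraph.fromRel (fun x y : Fin d → ℤ => ∃ i : Fin d, y = x + Pi.single i (1 : ℤ) ∧ ((ω (x, i) : ℝ) < p))

/-- the critical probability -/
noncomputable def pcU (d : ℕ) : ℝ :=
  sSup {p : ℝ | PU d {ω | {x : Fin d → ℤ | (GU d p ω).Reachable 0 x}.Infinite} = 0}

/-- the box `[0,n-1]^d` -/
noncomputable def BU (d n : ℕ) : Finset (Fin d → ℤ) :=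
  Fintype.piFinset fun _ => Finset.Ico (0 : ℤ) (n : ℤ)

/-- the graph of the edges with both endpoints in the box and label `< p` -/
def GZU (d n : ℕ) (p : ℝ) (ω : ((Fin d → ℤ) × Fin d) → unitInterval) : SimpleGraph (Fin d → ℤ) :=
  SimpleGraph.fromRel (fun x y : Fin d → ℤ => x ∈ BU d n ∧ y ∈ BU d n ∧
    ∃ i : Fin d, y = x + Pi.single i (1 : ℤ) ∧ ((ω (x, i) : ℝ) < p))

/-- size of the zero-boundary cluster of `x` -/
noncomputable def cZ (d n : ℕ) (p : ℝ) (ω : ((Fin d → ℤ) × Fin d) → unitInterval) (x : Fin d → ℤ) : ℕ :=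
  Set.ncard {y | y ∈ BU d n ∧ (GZU d n p ω).Reachable x y}

/-- size of the bulk cluster of `x` -/
noncomputable def cBk (d n : ℕ) (p : ℝ) (ω : ((Fin d → ℤ) × Fin d) → unitInterval) (x : Fin d → ℤ) : ℕ :=
  Set.ncard {y | y ∈ BU d n ∧ (GU d p ω).Reachable x y}

/-- the largest zero-boundary cluster -/
noncomputable def maxZ (d n : ℕ) (p : ℝ) (ω : ((Fin d → ℤ) × Fin d) → unitInterval) : ℕ :=
  (BU d n).sup (cZ d n p ω)

/-- the largest bulk cluster -/
noncomputable def maxB (d n : ℕ) (p : ℝ) (ω : ((Fin d → ℤ) × Fin d) → unitInterval) : ℕ :=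
  (BU d n).sup (cBk d n p ω)

open Classical in
/-- open edges of a finite set of edges -/
noncomputable def opE {d : ℕ} (E : Finset (Sym2 (Zd d))) (p : ℝ)
    (ω : ((Fin d → ℤ) × Fin d) → unitInterval) : Finset (Sym2 (Zd d)) :=
  E.filter (fun e => ∃ x : Zd d, ∃ i : Fin d, e = s(x, x + Pi.single i 1) ∧ ((ω (x, i) : ℝ) < p))

/-- law of finite configurations (LE `StLaw` for general finite edge sets) -/
def StLawE : Prop := ∀ (d : ℕ) (E : Finset (Sym2 (Zd d))) (p : ℝ) (A : Finset (Sym2 (Zd d)) → Prop),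
  (E : Set (Sym2 (Zd d))) ⊆ latE d → 0 ≤ p → p ≤ 1 →
    PU d {ω | A (opE E p ω)} = ENNReal.ofReal (pr E p A) ∧ MeasurableSet {ω | A (opE E p ω)}

/-- clusters in finite and infinite volume -/
def StClZ : Prop := ∀ (d n : ℕ) (p : ℝ) (ω : ((Fin d → ℤ) × Fin d) → unitInterval), ∀ x ∈ Bn d n,
  cZ d n p ω x = XB d n (opE (ES (Bn d n)) p ω) x ∧ cZ d n p ω x ≤ cBk d n p ω x

/-- the main theorem -/
def StMain : Prop := ∃ d₀ : ℕ, ∀ d : ℕ, d₀ ≤ d → ∃ ε C : ℝ, 0 < ε ∧ 0 < C ∧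
  Tendsto (fun n : ℕ => PU d {ω | ε * (n : ℝ) ^ 4 * Real.log n ≤ maxZ d n (pcU d) ω ∧
    (maxZ d n (pcU d) ω : ℝ) ≤ C * (n : ℝ) ^ 4 * Real.log n}) atTop (𝓝 1) ∧
  Tendsto (fun n : ℕ => PU d {ω | ε * (n : ℝ) ^ 4 * Real.log n ≤ maxB d n (pcU d) ω}) atTop (𝓝 1)

end Pool.NL
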