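import Pool.Agent.Helper22.NL.StR

/-! # Project NL: statements, part T (finite volume identity, lower bound for the susceptibility) -/

set_option autoImplicit false

open scoped BigOperators ENNReal Topology
open Pool.LE

namespace Pool.NL

/-- the coefficients do not depend on `M` -/
def StCoefU : Prop := ∀ (d : ℕ) (E : Finset (Sym2 (Zd d))) (p : ℝ) (M m : ℕ) (v x : Zd d), m ≤ M →
  (gE E p M v x).coeff m = gL E p v x m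

/-- absolute third moment of the coefficients of a finite graph -/
def G3 {d : ℕ} (E : Finset (Sym2 (Zd d))) (p : ℝ) : Prop := ∀ v : Zd d,
  ∑' x : Zd d, ∑' m : ℕ, (1 + (m : ENNReal)) ^ 3 *
    ENNReal.ofReal |gL E p v x m - ind (m = 0 ∧ x = v)| ≤ ENNReal.ofReal (1 / 4)

/-- the same for the lattice -/
def G3Z (d : ℕ) (p : ℝ) : Prop :=
  ∑' x : Zd d, ∑' m : ℕ, (1 + (m : ENNReal)) ^ 3 * ENNReal.ofReal |hm d p m x| ≤ ENNReal.ofReal (1 / 4)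

/-- from `StDiagH` -/
def StG3 : Prop := ∃ d₁ : ℕ, ∀ d : ℕ, d₁ ≤ d → G3Z d (pH d) ∧
  ∀ E : Finset (Sym2 (Zd d)), (E : Set (Sym2 (Zd d))) ⊆ latE d → G3 E (pH d)

/-- the finite volume identity -/
def StFin : Prop := ∀ (d : ℕ) (E : Finset (Sym2 (Zd d))) (p : ℝ), 0 ≤ p → p ≤ 1 →
  (E : Set (Sym2 (Zd d))) ⊆ latE d → G3 E p → ∀ v x : Zd d,
    (∀ v x : Zd d, Summable (fun m => |gL E p v x m|)) ∧
    (∀ v : Zd d, Summable (fun x => |gT E p v x|)) ∧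
    (∀ v : Zd d, ∑' x : Zd d, |gT E p v x - ind (x = v)| ≤ 1 / 4) ∧
    cp E p v x = gT E p v x + ∑ ub ∈ drt E, gT E p v ub.1 * p * cp E p ub.2 x

/-- summed over `x` -/
def StHeq : Prop := ∀ (d n : ℕ) (p : ℝ), 0 ≤ p → p ≤ 1 → G3 (ES (Bn d n)) p → ∀ v ∈ Bn d n,
  hh (Bn d n) (ES (Bn d n)) p v = ∑ x ∈ Bn d n, gT (ES (Bn d n)) p v x +
    ∑ b ∈ Bn d n, FL (ES (Bn d n)) p v b * hh (Bn d n) (ES (Bn d n)) p b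

/-- locality of the step kernel -/
def StLocE : Prop := ∀ (d n R : ℕ) (p : ℝ), 1 ≤ d → 0 ≤ p → 2 * (d : ℝ) * p ≤ 2 → G3Z d p →
  G3 (ES (Bn d n)) p → 1 ≤ R → ∀ v : Zd d, (∀ y ∈ bx d R, v + y ∈ Bn d n) →
    Summable (fun b : Zd d => |FL (ES (Bn d n)) p v b - FZ d p (b - v)|) ∧
    ∑' b : Zd d, |FL (ES (Bn d n)) p v b - FZ d p (b - v)| ≤ 2 / (R : ℝ) ^ 3

/-- the step kernel of the lattice at the critical point -/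
def StFZ : Prop := ∃ d₁ : ℕ, 1 ≤ d₁ ∧ ∀ d : ℕ, d₁ ≤ d → ∃ C : ℝ, 0 < C ∧
  Summable (fun y : Zd d => |FZ d (pH d) y|) ∧ ∑' y : Zd d, FZ d (pH d) y = 1 ∧
  (∀ y : Zd d, FZ d (pH d) (-y) = FZ d (pH d) y) ∧
  Summable (fun y : Zd d => LE.sq y * |FZ d (pH d) y|) ∧ ∑' y : Zd d, LE.sq y * |FZ d (pH d) y| ≤ C

/-- the test function -/
def StTest : Prop := ∀ d : ℕ, 1 ≤ d → ∃ c : ℝ, 0 < c ∧ ∃ n₀ : ℕ, 16 ≤ n₀ ∧ ∀ n : ℕ, n₀ ≤ n →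
  (∀ v : Zd d, 0 ≤ phiT d n v ∧ phiT d n v ≤ 1) ∧
  (∀ v : Zd d, phiT d n v ≠ 0 → ∀ y ∈ bx d (n / 8), v + y ∈ Bn d n) ∧
  (∀ v y : Zd d, |phiT d n (v + y) + phiT d n (v - y) - 2 * phiT d n v| ≤ 1000 * LE.sq y / (n : ℝ) ^ 2) ∧
  c * (n : ℝ) ^ d ≤ ∑ v ∈ Bn d n, phiT d n v

/-- (A3) -/
def StA3 : Prop := ∃ d₁ : ℕ, ∀ d : ℕ, d₁ ≤ d → ∃ c : ℝ, 0 < c ∧ ∀ n : ℕ, 1 ≤ n →
  c * (n : ℝ) ^ (d + 2) ≤ ∑ x ∈ Bn d n, hh (Bn d n) (ES (Bn d n)) (pH d) x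

/-- the environment -/
def StEnv : Prop := ∃ d₀ : ℕ, ∀ d : ℕ, d₀ ≤ d → pH d < 1 / 2 ∧ ∃ C₁ B c₀ : ℝ, Env d C₁ B c₀

end Pool.NL
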